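import Pool.Agent.T2h23.GY.FinStm
import Pool.Agent.T2h23.C1
import Pool.Agent.T2h23.O2
import Pool.Agent.W91.ES.Conc
import Pool.Agent.H772R2.NSR.Rell

/-!
Project GY: the theorem in a bounded open set of three dimensional space, from its inputs.
-/

set_option autoImplicit false
set_option linter.unusedSectionVars false

open MeasureTheory Set Filter Topology
open scoped InnerProductSpace ENNReal ContDiff

namespace Pool.Agent.T2h23.GY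

open H772R2.NSR (Frame exists_frame rellich_W)
open H772R2.NS (graphW preW tensL E3 L2V L2M IsTest)
open Pool.Agent.W795.TQ (Str FH Univ S_univ)
open Pool.Agent.W795.ES (Tri Smo S_conc)
open Pool.Agent.W91.ES (tri BL)
open Pool.Agent.Y303.LV (cl clj clj_coe heat)
open Pool.Agent.T2h23 (cl_coe' test_mem test_memLp exists_riesz)

theorem gw_cont (A N : ℝ) (j : Fin 3) : Continuous (gw A N j) := by
  unfold gw
  fun_prop

theorem bw_cont (A : ℝ) (k n : ℕ) : Continuous (bw A k n) := by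
  unfold bw
  exact continuous_finset_sum _ fun l _ => gw_cont _ _ _

theorem gw_norm (A N : ℝ) (j : Fin 3) (x : E3) : ‖gw A N j x‖ ≤ |A * N| := by
  unfold gw
  rw [norm_smul, EuclideanSpace.norm_single, norm_one, mul_one, Real.norm_eq_abs, abs_mul]
  exact mul_le_of_le_one_right (abs_nonneg _) (Real.abs_cos_le_one _)

theorem bw_bdd (A : ℝ) (k n : ℕ) : ∃ M : ℝ, ∀ x, ‖bw A k n x‖ ≤ M := by
  refine ⟨∑ l ∈ Finset.range (3 * k), |A * ((n : ℝ) + 2) ^ (l + 1)|, fun x => ?_⟩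
  unfold bw
  exact (norm_sum_le _ _).trans (Finset.sum_le_sum fun l _ => gw_norm _ _ _ _)

/-- the choice of the number of waves -/
theorem exists_k {M q r ε : ℝ} (hq : 0 < q) (hr : 2 < r) (hε : 0 < ε) :
    ∃ k : ℕ, 0 < k ∧ M * Real.sqrt (q / k) * (k : ℝ) ^ (1 / r) ≤ ε := by
  have hr0 : 0 < r := by linarith
  have hp : 0 < 1 / 2 - 1 / r := by
    have : 1 / r < 1 / 2 := one_div_lt_one_div_of_lt (by norm_num) hr
    linarith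
  have h1 : Tendsto (fun k : ℕ => M * Real.sqrt q * (k : ℝ) ^ (-(1 / 2 - 1 / r))) atTop
      (𝓝 (M * Real.sqrt q * 0)) :=
    ((tendsto_rpow_neg_atTop hp).comp tendsto_natCast_atTop_atTop).const_mul _
  rw [mul_zero] at h1
  obtain ⟨k, hk1, hk0⟩ := ((h1.eventually (Iic_mem_nhds hε)).and (eventually_gt_atTop 0)).exists
  refine ⟨k, hk0, le_trans (le_of_eq ?_) hk1⟩
  have hk : (0 : ℝ) < k := by exact_mod_cast hk0
  rw [Real.sqrt_div hq.le, show -(1 / 2 - 1 / r) = 1 / r - 1 / 2 by ring, Real.rpow_sub hk,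
    ← Real.sqrt_eq_rpow]
  field_simp

/-- all elements of `W` have correctors -/
theorem cor_all (hcd : S_cd) (hc2 : S_c2) (hcc : S_cc) {Ω : Set E3} (hΩ : IsOpen Ω)
    (hb : Bornology.IsBounded Ω) {c C ν κ K0 : ℝ} {Z : L2V Ω →L[ℝ] L2M Ω}
    (g : GS (graphW Ω) tensL (BL (Ω := Ω)) Z c C ν) (hκ : 0 < κ) {k : ℕ} (hk : 0 < k)
    {S : ℕ → L2V Ω →L[ℝ] L2V Ω} (hSK : ∀ n, SK (graphW Ω) (S n) K0)
    (hS : ∀ n, ∀ v : L2V Ω, (S n v : E3 → E3) =ᵐ[volume.restrict Ω]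
      fun x => cr (bw (Real.sqrt (ν * κ / k)) k n x) (v x)) :
    ∀ p ∈ graphW Ω, Cor (graphW Ω) S ν κ p := by
  have htest : ∀ φ : E3 → E3, IsTest Ω φ → Cor (graphW Ω) S ν κ (cl Ω φ, clj Ω φ) := by
    intro φ hφ
    obtain ⟨B', -, h2⟩ := Pool.Agent.W91.ES.proof Ω hΩ hb
    obtain ⟨b, q, hb0, hq, hq1, hq2⟩ := h2 φ hφ
    have e2 : q.2 = clj Ω φ := by
      apply Lp.ext
      filter_upwards [hq2, clj_coe hφ] with x k1 k2
      rw [k1, k2]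
    have h0 := hcd Ω hΩ hb C g.C0 g.fr.poinc ν κ k g.ν0 hκ hk S hS φ hφ
    refine hc2 (L2V Ω) (L2M Ω) (graphW Ω) S ν κ b g.ν0 hκ.le hb0 (fun n => (hSK n).skew)
      (cl Ω φ, clj Ω φ) (test_mem hφ) ?_ h0
    intro p hp
    have := hq.lap p hp
    rwa [e2] at this
  intro p hp
  refine hcc (L2V Ω) (L2M Ω) (graphW Ω) tensL BL Z S c C ν κ K0 g hSK hκ.le p hp ?_
  intro δ hδ
  have hp' : p ∈ closure (preW Ω : Set (L2V Ω × L2M Ω)) := hp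
  obtain ⟨q, hq, hpq⟩ := Metric.mem_closure_iff.1 hp' δ hδ
  obtain ⟨φ, hφ, h1, h2⟩ := hq
  have e1 : q = (cl Ω φ, clj Ω φ) := by
    refine Prod.ext ?_ ?_
    · apply Lp.ext
      filter_upwards [h1, cl_coe' (test_memLp hφ)] with x k1 k2
      rw [k1, k2]
    · apply Lp.ext
      filter_upwards [h2, clj_coe hφ] with x k1 k2
      rw [k1, k2]
  rw [dist_eq_norm] at hpq
  refine ⟨q, by rw [e1]; exact test_mem hφ, by rw [e1]; exact htest φ hφ, ?_, ?_⟩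
  · exact (norm_fst_le (p - q)).trans hpq.le
  · exact (norm_snd_le (p - q)).trans hpq.le

/-- **the theorem in a bounded open set** -/
theorem gyro_mid (hfin : S_fin) (hgl : S_gl) (hmu : S_mu) (hfb : S_fb) (hcd : S_cd) (hc2 : S_c2)
    (hcc : S_cc) (hbs : S_bs) (hun : S_univ) {Ω : Set E3} (hΩ : IsOpen Ω)
    (hb : Bornology.IsBounded Ω) {ν T R ε r : ℝ} (hν : 0 < ν) (hT : 0 < T) (hR : 0 < R)
    (hε : 0 < ε) (hr : 2 < r) {G : Set (L2M Ω)} (hG : TotallyBounded G) :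
    ∃ (A : ℝ) (k n : ℕ) (S : L2V Ω →L[ℝ] L2V Ω) (Z : L2V Ω →L[ℝ] L2M Ω) (C Λ : ℝ),
      besov r (show H772R2.NS.Pub.R3 → H772R2.NS.Pub.R3 from bw A k n) ≤ ENNReal.ofReal ε ∧
      Frame (graphW Ω) tensL C ∧
      (∀ v : L2V Ω, (S v : E3 → E3) =ᵐ[volume.restrict Ω] fun x => cr (bw A k n x) (v x)) ∧
      (∀ v : L2V Ω, ⟪S v, v⟫_ℝ = 0) ∧
      (∀ w : L2V Ω, ∀ p ∈ graphW Ω, ⟪Z w, p.2⟫_ℝ = ⟪w, p.1⟫_ℝ) ∧
      ∀ (F F1 : ℝ → L2M Ω) (x0 : L2V Ω) (z0 : L2M Ω), (∀ T' : ℝ, 0 < T' → FH T' F F1) →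
        (∀ T' : ℝ, 0 < T' → (∫ s in (0 : ℝ)..T', ‖F1 s‖ ^ 2) ≤ R ^ 2) → (x0, z0) ∈ graphW Ω →
        ‖z0‖ ≤ R → Cpt (graphW Ω) tensL ν (F 0) x0 z0 → (∀ t, 0 ≤ t → F t ∈ G) →
        (∀ t, T ≤ t → F t = 0) →
        ∃ (u u1 : ℝ → L2V Ω) (z z1 : ℝ → L2M Ω),
          (∀ T' : ℝ, 0 < T' → PS (graphW Ω) tensL Z S 0 ν T' F u u1 z z1) ∧ u 0 = x0 ∧
          (∀ t, 0 ≤ t → ‖z t‖ ≤ Λ) ∧ ∀ t, 0 ≤ t → ε ≤ t → ‖u t‖ ≤ ε := by
  have hm : MeasurableSet Ω := hΩ.measurableSet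
  obtain ⟨C, Fr⟩ := exists_frame hΩ hb
  obtain ⟨c, hc0, hU⟩ := hun
  obtain ⟨-, Z, -, hZ⟩ := exists_riesz Fr
  have g : GS (graphW Ω) tensL (BL (Ω := Ω)) Z c C ν :=
    ⟨hc0, Fr.C0, hν, Fr, hU Ω hΩ, tri hm, rellich_W hΩ hb, hZ⟩
  -- a bound of the forces
  obtain ⟨RG, hRG⟩ : ∃ RG : ℝ, ∀ x ∈ G, ‖x‖ ≤ RG := by
    obtain ⟨RG, h⟩ := hG.isBounded.subset_closedBall 0
    exact ⟨RG, fun x hx => by simpa using h hx⟩
  set R' : ℝ := max R RG with hR'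
  have hRR' : R ≤ R' := le_max_left _ _
  have hR'p : 0 < R' := lt_of_lt_of_le hR hRR'
  obtain ⟨κ, hκ, hfin'⟩ := hfin c C ν R' ε hc0 Fr.C0 hν hR'p hε
  obtain ⟨M, hM, hbs'⟩ := hbs r hr
  obtain ⟨k, hk, hkε⟩ := exists_k (M := M) (q := ν * κ) (mul_pos hν hκ) hr hε
  set A : ℝ := Real.sqrt (ν * κ / k) with hA
  have hA0 : 0 ≤ A := Real.sqrt_nonneg _
  have hS : ∀ n : ℕ, ∃ S : L2V Ω →L[ℝ] L2V Ω,
      (∀ v : L2V Ω, (S v : E3 → E3) =ᵐ[volume.restrict Ω] fun x => cr (bw A k n x) (v x)) ∧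
      ∀ v : L2V Ω, ⟪S v, v⟫_ℝ = 0 := by
    intro n
    obtain ⟨Mb, hMb⟩ := bw_bdd A k n
    exact hmu Ω hΩ (bw A k n) Mb (bw_cont A k n) hMb
  choose S hS1 hS2 using hS
  have hSK : ∀ n, SK (graphW Ω) (S n) (12 * (k : ℝ) * A * C) := fun n =>
    ⟨by have := Fr.C0; positivity, hS2 n,
      hfb Ω hΩ hb C A k n (S n) Fr.C0 Fr.poinc hA0 (hS1 n)⟩
  have hCor := cor_all hcd hc2 hcc hΩ hb g hκ hk hSK hS1
  obtain ⟨n0, Λ, hn0⟩ := hfin' (L2V Ω) (L2M Ω) (graphW Ω) tensL BL Z S T (12 * (k : ℝ) * A * C) G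
    g hT hG hSK hCor
  refine ⟨A, k, n0, S n0, Z, C, Λ, ?_, Fr, hS1 n0, hS2 n0, hZ, ?_⟩
  · exact (hbs' A k n0 hA0).trans (ENNReal.ofReal_le_ofReal hkε)
  · intro F F1 x0 z0 hF hFi hx0 hz0 hcpt hFG hFT
    refine hgl (L2V Ω) (L2M Ω) (graphW Ω) tensL BL Z (S n0) c C ν Λ ε F F1 x0 g (hS2 n0) hF ?_
    refine hn0 n0 le_rfl F F1 x0 z0 (fun T' hT' => ⟨hF T' hT', fun t ht => ?_, ?_, hx0,
      hz0.trans hRR', hcpt⟩) hFG hFT
    · exact (hRG _ (hFG t ht.1)).trans (le_max_right _ _)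
    · exact (hFi T' hT').trans (pow_le_pow_left₀ hR.le hRR' 2)

end Pool.Agent.T2h23.GY
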