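import Pool.Agent.T2h23.GY.Stm

/-!
Project GY: uniqueness among Leray-Hopf solutions of the equations with the operator `S`.
-/

set_option autoImplicit false

open MeasureTheory Set
open scoped InnerProductSpace ENNReal ContDiff

namespace Pool.Agent.T2h23.GY

open H772R2.NSR (Frame)
open Pool.Agent.W795.TQ (Str FH Univ S_uni)

/-- Leray-Hopf solutions on `[0,T]` of `∂ₜu + (u·∇)u + ∇p = νΔu + f - S u`, `S` skew. -/
structure LHG {H K : Type} [NormedAddCommGroup H] [InnerProductSpace ℝ H]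
    [NormedAddCommGroup K] [InnerProductSpace ℝ K] (W : Submodule ℝ (H × K)) (m : H → K)
    (S : H →L[ℝ] H) (ν T : ℝ) (F : ℝ → K) (u : ℝ → H) (z : ℝ → K) : Prop where
  meas : AEStronglyMeasurable u (volume.restrict (Ioc 0 T))
  mmeas : AEStronglyMeasurable (fun s => m (u s)) (volume.restrict (Ioc 0 T))
  mem : ∀ᵐ s ∂(volume.restrict (Ioc 0 T)), (u s, z s) ∈ W
  z2 : MemLp z 2 (volume.restrict (Ioc 0 T))
  weak : ∀ p ∈ W, ∀ t ∈ Icc 0 T, ⟪u t - u 0, p.1⟫_ℝ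
    = ∫ s in (0 : ℝ)..t, (⟪F s - ν • z s + m (u s), p.2⟫_ℝ - ⟪S (u s), p.1⟫_ℝ)
  energy : ∀ t ∈ Icc 0 T, ‖u t‖ ^ 2 / 2 + ν * (∫ s in (0 : ℝ)..t, ‖z s‖ ^ 2)
    ≤ ‖u 0‖ ^ 2 / 2 + ∫ s in (0 : ℝ)..t, ⟪F s, z s⟫_ℝ

/-- UQ: uniqueness. Apply `S_uni` in the frame `H' = WithLp 2 (H × ℝ)`, `K' = WithLp 2 (K × ℝ)`,
`W' = {((h,a),(k,a)) : (h,k) ∈ W}`, `m'(h,a) = (m h - a Z(S h), 0)` (as in LOC with `κ = 0`; the
frame axioms are proved there, and the frame of LOC with `κ = 0` itself may be used as well),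
force `(F, ν)`, initial value `(w 0, 1)`, to the Leray-Hopf solution `(w, 1)` with the gradient
`(y, 1)` and the strong solution `(u, 1)`. -/
def S_uq : Prop := ∀ (H K : Type) [NormedAddCommGroup H] [InnerProductSpace ℝ H]
    [CompleteSpace H] [NormedAddCommGroup K] [InnerProductSpace ℝ K] [CompleteSpace K]
    (W : Submodule ℝ (H × K)) (m : H → K) (B : H → H → K) (Z : H →L[ℝ] K) (S : H →L[ℝ] H)
    (c C ν T : ℝ) (F : ℝ → K) (w u u1 : ℝ → H) (y z z1 : ℝ → K),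
    GS W m B Z c C ν → (∀ h : H, ⟪S h, h⟫_ℝ = 0) → 0 < T → ContinuousOn F (Icc 0 T) →
    LHG W m S ν T F w y → PS W m Z S 0 ν T F u u1 z z1 → w 0 = u 0 →
    ∀ t ∈ Icc 0 T, w t = u t

end Pool.Agent.T2h23.GY
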