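import Pool.Agent.T2h23.GY.Pub1
import Pool.Agent.T2h23.GY.Stm2
import Pool.Agent.T2h23.GY.Conc
import Pool.Agent.T2h23.P2
import Pool.Agent.T2h23.Z22

/-!
Project GY: the theorem in terms of the public definitions.
-/

set_option autoImplicit false
set_option linter.unusedSectionVars false
set_option maxHeartbeats 4000000

open MeasureTheory Set Filter Topology
open scoped InnerProductSpace ENNReal ContDiff

namespace Pool.Agent.T2h23.GY

open H772R2.NS H772R2.NS.Pub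
open H772R2.NSR (Frame grad_unique exists_frame)
open H772R2.NSR hiding m_tendsto
open H772R2.NSG (norm_m_le)
open Pool.Agent.W795.TQ
open Pool.Agent.Y303.LV (cl clj clj_coe heat)
open Pool.Agent.T2h23

variable {Ω : Set E3} {ν T R ε r A : ℝ} {k n : ℕ}

theorem fh_comp {H K : Type} [NormedAddCommGroup H] [InnerProductSpace ℝ H] [CompleteSpace H]
    [NormedAddCommGroup K] [InnerProductSpace ℝ K] [CompleteSpace K] (Z : H →L[ℝ] K)
    (S : H →L[ℝ] H) {T' : ℝ} (hT' : 0 < T') {F0 F01 : ℝ → K} {u u1 : ℝ → H} (h2 : FH T' F0 F01)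
    (hm : MemLp u1 2 (volume.restrict (Ioc 0 T')))
    (hp : ∀ a b, 0 ≤ a → a ≤ b → b ≤ T' → u b - u a = ∫ s in a..b, u1 s) :
    FH T' (fun t => F0 t - Z (S (u t))) (fun t => F01 t - Z (S (u1 t))) := by
  have k0 : MemLp (fun t => S (u1 t)) 2 (volume.restrict (Ioc 0 T')) := S.comp_memLp' hm
  have k1 : MemLp (fun t => Z (S (u1 t))) 2 (volume.restrict (Ioc 0 T')) := Z.comp_memLp' k0
  refine ⟨h2.memLp.sub k1, fun a b ha hab hb' => ?_⟩
  have hsub : Set.uIcc a b ⊆ Set.uIcc 0 T' := by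
    rw [uIcc_of_le hab, uIcc_of_le hT'.le]
    exact Icc_subset_Icc ha hb'
  have i1 : IntervalIntegrable F01 volume a b := (memLp_ii hT'.le h2.memLp).mono_set hsub
  have i2 : IntervalIntegrable u1 volume a b := (memLp_ii hT'.le hm).mono_set hsub
  have i3 : IntervalIntegrable (fun t => Z (S (u1 t))) volume a b :=
    (memLp_ii hT'.le k1).mono_set hsub
  have i4 : IntervalIntegrable (fun t => S (u1 t)) volume a b :=
    (memLp_ii hT'.le k0).mono_set hsub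
  show F0 b - Z (S (u b)) - (F0 a - Z (S (u a))) = ∫ s in a..b, (F01 s - Z (S (u1 s)))
  rw [intervalIntegral.integral_sub i1 i3, ← h2.prim a b ha hab hb',
    ContinuousLinearMap.intervalIntegral_comp_comm Z i4,
    ContinuousLinearMap.intervalIntegral_comp_comm S i2, ← hp a b ha hab hb', map_sub,
    map_sub]
  abel

/-- the force `v × b` -/
theorem cross_int {S : L2V Ω →L[ℝ] L2V Ω} (hS : ∀ v : L2V Ω,
    (S v : E3 → E3) =ᵐ[volume.restrict Ω] fun x => cr (bw A k n x) (v x)) (v : L2V Ω)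
    {φ : E3 → E3} {p : L2V Ω} (hφ : (p : E3 → E3) =ᵐ[volume.restrict Ω] φ) :
    ∫ x in (show Set R3 from Ω), ⟪crossProd (L2.fn (Ω := Ω) (E := R3) v x) (gradR (trigPot A k n) x),
      (φ : R3 → R3) x⟫_ℝ = -⟪S v, p⟫_ℝ := by
  rw [L2.inner_def, ← integral_neg]
  refine integral_congr_ae (μ := (volume : Measure E3).restrict (Ω : Set E3)) ?_
  filter_upwards [hS v, hφ] with x h1 h2
  rw [h1, h2]
  have e1 : (crossProd (L2.fn (Ω := Ω) (E := R3) v x) (gradR (trigPot A k n) x) : E3)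
      = cr ((v : E3 → E3) x) (bw A k n x) := by
    rw [← grad_eq]
    exact cross_eq _ _
  have e2 : (crossProd (L2.fn (Ω := Ω) (E := R3) v x) (gradR (trigPot A k n) x) : E3)
      = -cr (bw A k n x) ((v : E3 → E3) x) := e1.trans (cr_antisymm _ _)
  exact (congrArg (fun y : E3 => ⟪y, φ x⟫_ℝ) e2).trans (inner_neg_left _ _)

theorem force_int {S : L2V Ω →L[ℝ] L2V Ω} (hS : ∀ v : L2V Ω,
    (S v : E3 → E3) =ᵐ[volume.restrict Ω] fun x => cr (bw A k n x) (v x))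
    {Z : L2V Ω →L[ℝ] L2M Ω} (hZ : ∀ w : L2V Ω, ∀ p ∈ graphW Ω, ⟪Z w, p.2⟫_ℝ = ⟪w, p.1⟫_ℝ)
    (f : L2M Ω) (v : L2V Ω) {φ : E3 → E3} (hφ : H772R2.NS.IsTest Ω φ) :
    ∫ x in (show Set R3 from Ω), ⟪L2.fn (Ω := Ω) (E := Mat) (f - Z (S v) : L2M Ω) x,
        Pub.jac φ x⟫_ℝ
      = (∫ x in (show Set R3 from Ω), ⟪L2.fn (Ω := Ω) (E := Mat) f x, Pub.jac φ x⟫_ℝ)
        + ∫ x in (show Set R3 from Ω), ⟪crossProd (L2.fn (Ω := Ω) (E := R3) v x)
            (gradR (trigPot A k n) x), (φ : R3 → R3) x⟫_ℝ := by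
  have a1 := pub_inner_jac (Ω := Ω) (f - Z (S v) : L2M Ω) (φ := φ) (p := clj Ω φ) (clj_coe hφ)
  have a2 := pub_inner_jac (Ω := Ω) f (φ := φ) (p := clj Ω φ) (clj_coe hφ)
  have a3 := cross_int hS v (φ := φ) (p := cl Ω φ) (cl_coe' (test_memLp hφ))
  have a4 : ⟪(f - Z (S v) : L2M Ω), clj Ω φ⟫_ℝ = ⟪f, clj Ω φ⟫_ℝ + -⟪S v, cl Ω φ⟫_ℝ := by
    rw [inner_sub_left, hZ _ _ (test_mem hφ), sub_eq_add_neg]
  exact a1.trans (a4.trans (congrArg₂ (· + ·) a2 a3).symm)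

theorem compat_int (hm : MeasurableSet Ω) {S : L2V Ω →L[ℝ] L2V Ω}
    {Z : L2V Ω →L[ℝ] L2M Ω} (hZ : ∀ w : L2V Ω, ∀ p ∈ graphW Ω, ⟪Z w, p.2⟫_ℝ = ⟪w, p.1⟫_ℝ)
    {f z0 : L2M Ω} {u0 h0 : L2V Ω} (hmem : (u0, z0) ∈ graphW Ω)
    (hcomp : ∀ p ∈ graphW Ω, ⟪f - ν • z0 + tensL u0, p.2⟫_ℝ = ⟪h0, p.1⟫_ℝ) {φ : E3 → E3}
    (hφ : H772R2.NS.IsTest Ω φ) :
    Pub.rhs (Ω := Ω) ν u0 z0 (f - Z (S u0) : L2M Ω) φ
      = ∫ x in (show Set R3 from Ω), ⟪L2.fn (Ω := Ω) (E := R3) (h0 - S u0 : L2V Ω) x,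
          (φ : R3 → R3) x⟫_ℝ := by
  have e1 := pub_rhs hm ν (f - Z (S u0) : L2M Ω) hmem (clj_coe hφ)
  have e2 := pub_inner (Ω := Ω) (h0 - S u0 : L2V Ω) (φ := φ) (p := cl Ω φ)
    (cl_coe' (test_memLp hφ))
  have e3 := hcomp _ (test_mem hφ)
  have e4 : (f - Z (S u0)) - ν • z0 + tensL u0 = (f - ν • z0 + tensL u0) - Z (S u0) := by abel
  have e5 : ⟪(f - Z (S u0)) - ν • z0 + tensL u0, clj Ω φ⟫_ℝ = ⟪(h0 - S u0 : L2V Ω), cl Ω φ⟫_ℝ := by
    rw [e4, inner_sub_left, inner_sub_left, hZ _ _ (test_mem hφ)]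
    exact congrArg (fun y : ℝ => y - ⟪S u0, cl Ω φ⟫_ℝ) e3
  exact e1.trans (e5.trans e2.symm)

/-- Leray-Hopf solutions of the equations with the force `w × b` -/
theorem lhg_mid (hΩ : IsOpen Ω) {S : L2V Ω →L[ℝ] L2V Ω} (hS : ∀ v : L2V Ω,
    (S v : E3 → E3) =ᵐ[volume.restrict Ω] fun x => cr (bw A k n x) (v x))
    {Z : L2V Ω →L[ℝ] L2M Ω} (hZ : ∀ w : L2V Ω, ∀ p ∈ graphW Ω, ⟪Z w, p.2⟫_ℝ = ⟪w, p.1⟫_ℝ)
    {F : ℝ → L2M Ω} (hF : ContinuousOn F (Icc 0 T)) {C : ℝ}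
    (Fr : Frame (graphW Ω) (tensL (Ω := Ω)) C) {w : ℝ → L2V Ω} {D : ℝ → L2M Ω}
    (L : IsLerayHopfCross (show Set R3 from Ω) ν T (gradR (trigPot A k n)) F w D) :
    LHG (graphW Ω) tensL S ν T F w D := by
  have hm : MeasurableSet Ω := hΩ.measurableSet
  have hmeas : AEStronglyMeasurable w (volume.restrict (Ioc 0 T)) := L.meas
  have hmem : ∀ᵐ t ∂(volume.restrict (Ioc 0 T)), (w t, D t) ∈ graphW Ω := by
    filter_upwards [L.grad] with t ht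
    exact mem_pub.mpr ht
  have hz2 : MemLp D 2 (volume.restrict (Ioc 0 T)) := L.gradL2
  have hmm : AEStronglyMeasurable (fun s => tensL (w s)) (volume.restrict (Ioc 0 T)) :=
    aestronglyMeasurable_tensL hm hmeas hz2.aestronglyMeasurable hmem
  have hzn : Integrable (fun s => ‖D s‖ ^ 2) (volume.restrict (Ioc 0 T)) :=
    (memLp_two_iff_integrable_sq_norm hz2.aestronglyMeasurable).mp hz2
  have hmi : Integrable (fun s => tensL (w s)) (volume.restrict (Ioc 0 T)) := by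
    refine (hzn.const_mul C).mono' hmm ?_
    filter_upwards [hmem] with s hs
    exact norm_m_le Fr (p := (w s, D s)) hs
  have hFm : MemLp F 1 (volume.restrict (Ioc 0 T)) := H772R2.NSG.mem_cont hF
  have hFi : Integrable F (volume.restrict (Ioc 0 T)) := hFm.integrable le_rfl
  have hzi : Integrable D (volume.restrict (Ioc 0 T)) := hz2.integrable (by norm_num)
  have hwi : Integrable w (volume.restrict (Ioc 0 T)) := by
    refine (hzi.norm.const_mul C).mono' hmeas ?_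
    filter_upwards [hmem] with s hs
    show ‖w s‖ ≤ C * ‖D s‖
    exact Fr.poinc (w s, D s) hs
  have hSi0 : Integrable (fun s => S (w s)) (volume.restrict (Ioc 0 T)) :=
    ContinuousLinearMap.integrable_comp S hwi
  have hSi : Integrable (fun s => Z (S (w s))) (volume.restrict (Ioc 0 T)) :=
    ContinuousLinearMap.integrable_comp Z hSi0
  have hGi : Integrable (fun s => F s - ν • D s + tensL (w s) - Z (S (w s)))
      (volume.restrict (Ioc 0 T)) := ((hFi.sub (hzi.smul ν)).add hmi).sub hSi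
  refine ⟨hmeas, hmm, hmem, hz2, ?_, L.energy⟩
  intro p hp t ht
  have hGt : Integrable (fun s => F s - ν • D s + tensL (w s) - Z (S (w s)))
      (volume.restrict (Ioc 0 t)) :=
    hGi.mono_measure (Measure.restrict_mono (Ioc_subset_Ioc_right ht.2) le_rfl)
  set I : L2M Ω := ∫ s in (0 : ℝ)..t, (F s - ν • D s + tensL (w s) - Z (S (w s))) with hI
  have hint : ∀ q ∈ graphW Ω, ∫ s in (0 : ℝ)..t,
      (⟪F s - ν • D s + tensL (w s), q.2⟫_ℝ - ⟪S (w s), q.1⟫_ℝ) = ⟪I, q.2⟫_ℝ := by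
    intro q hq
    rw [hI, intervalIntegral.integral_of_le ht.1, intervalIntegral.integral_of_le ht.1]
    have := integral_inner (𝕜 := ℝ) hGt q.2
    rw [real_inner_comm, ← this]
    refine integral_congr_ae (Eventually.of_forall fun s => ?_)
    have a1 := hZ (S (w s)) q hq
    show ⟪F s - ν • D s + tensL (w s), q.2⟫_ℝ - ⟪S (w s), q.1⟫_ℝ
      = ⟪q.2, F s - ν • D s + tensL (w s) - Z (S (w s))⟫_ℝ
    conv_rhs => rw [real_inner_comm, inner_sub_left, a1]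
  have key := graphW_induction (fun q : L2V Ω × L2M Ω => ⟪w t - w 0, q.1⟫_ℝ - ⟪I, q.2⟫_ℝ)
    (by fun_prop) (by
    rintro q ⟨φ, k1, k2, k3⟩
    have hqW : q ∈ graphW Ω := Submodule.le_topologicalClosure _ ⟨φ, k1, k2, k3⟩
    have e := L.eqn φ ((isTest_iff φ).mpr k1) t ht
    have e1 := pub_inner (Ω := Ω) (w t) k2
    have e2 := pub_inner (Ω := Ω) (w 0) k2
    have e3 : ∫ s in (0 : ℝ)..t, (Pub.rhs (Ω := Ω) ν (w s) (D s) (F s) φ
        + ∫ x in (show Set R3 from Ω), ⟪crossProd (L2.fn (Ω := Ω) (E := R3) (w s) x)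
            (gradR (trigPot A k n) x), (φ : R3 → R3) x⟫_ℝ)
        = ∫ s in (0 : ℝ)..t, (⟪F s - ν • D s + tensL (w s), q.2⟫_ℝ - ⟪S (w s), q.1⟫_ℝ) := by
      rw [intervalIntegral.integral_of_le ht.1, intervalIntegral.integral_of_le ht.1]
      refine integral_congr_ae ?_
      filter_upwards [ae_mono (Measure.restrict_mono (Ioc_subset_Ioc_right ht.2) le_rfl) hmem]
        with s hs
      exact (congrArg₂ (· + ·) (pub_rhs hm ν (F s) hs k3) (cross_int hS (w s) k2)).trans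
        (sub_eq_add_neg _ _).symm
    have h2 : ⟪w t - w 0, q.1⟫_ℝ = ⟪w t, q.1⟫_ℝ - ⟪w 0, q.1⟫_ℝ := inner_sub_left _ _ _
    have e' := ((congrArg₂ (· - ·) e1 e2).symm.trans e).trans (e3.trans (hint q hqW))
    show ⟪w t - w 0, q.1⟫_ℝ - ⟪I, q.2⟫_ℝ = 0
    rw [h2]
    exact sub_eq_zero.mpr e') hp
  have key' : ⟪w t - w 0, p.1⟫_ℝ = ⟪I, p.2⟫_ℝ := sub_eq_zero.mp key
  rw [key', ← hint p hp]

/-- **the theorem on forces which do no work**, in terms of the public definitions -/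
theorem gyro_pub (hfin : S_fin) (hgl : S_gl) (hmu : S_mu) (hfb : S_fb) (hcd : S_cd) (hc2 : S_c2)
    (hcc : S_cc) (hbs : S_bs) (huq : S_uq) (hun : S_univ) (huni : S_uni) (hΩ : IsOpen Ω)
    (hb : Bornology.IsBounded Ω) (hν : 0 < ν) (hT : 0 < T) (hR : 0 < R)
    (hε : 0 < ε) (hr : 2 < r) {G : Set (L2M Ω)} (hG : TotallyBounded G) :
    ∃ (A : ℝ) (k n : ℕ) (Λ : ℝ), besov r (gradR (trigPot A k n)) ≤ ENNReal.ofReal ε ∧
      ∀ (u0 : L2V Ω) (z0 : L2M Ω) (F0 F01 : ℝ → L2M Ω),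
        IsAdmissible (show Set R3 from Ω) ν u0 F0 F01 →
        (u0, z0) ∈ Pub.H1graph (show Set R3 from Ω) → ‖z0‖ ≤ R → (∀ t, 0 ≤ t → F0 t ∈ G) →
        (∀ t, T ≤ t → F0 t = 0) →
        (∀ T' : ℝ, 0 < T' → (∫ s in (0 : ℝ)..T', ‖F01 s‖ ^ 2) ≤ R ^ 2) →
        ∃ (F F1 : ℝ → L2M Ω) (u : ℝ → L2V Ω),
          (∀ (t : ℝ) (φ : E3 → E3), H772R2.NS.IsTest Ω φ →
            ∫ x in (show Set R3 from Ω), ⟪L2.fn (Ω := Ω) (E := Mat) (F t) x, Pub.jac φ x⟫_ℝ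
              = (∫ x in (show Set R3 from Ω), ⟪L2.fn (Ω := Ω) (E := Mat) (F0 t) x, Pub.jac φ x⟫_ℝ)
                + ∫ x in (show Set R3 from Ω), ⟪crossProd (L2.fn (Ω := Ω) (E := R3) (u t) x)
                    (gradR (trigPot A k n) x), (φ : R3 → R3) x⟫_ℝ) ∧
          IsAdmissible (show Set R3 from Ω) ν u0 F F1 ∧ u 0 = u0 ∧
          IsForcedStrong (show Set R3 from Ω) ν F u ∧ IsForcedOnly (show Set R3 from Ω) ν F u ∧
          (∀ τ : ℝ, 0 < τ → ∀ (w : ℝ → L2V Ω) (D : ℝ → L2M Ω),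
            IsLerayHopfCross (show Set R3 from Ω) ν τ (gradR (trigPot A k n)) F0 w D →
            w 0 = u0 → ∀ t ∈ Icc 0 τ, w t = u t) ∧
          (∀ t, 0 ≤ t → ∃ ζ : L2M Ω, (u t, ζ) ∈ Pub.H1graph (show Set R3 from Ω) ∧ ‖ζ‖ ≤ Λ) ∧
          ∀ t, 0 ≤ t → ε ≤ t → ‖u t‖ ≤ ε := by
  have hm : MeasurableSet Ω := hΩ.measurableSet
  obtain ⟨A, k, n, S, Z, C, Λ, hbes, Fr, hS, hSs, hZ, key⟩ :=
    gyro_mid hfin hgl hmu hfb hcd hc2 hcc hbs hun hΩ hb hν hT hR hε hr hG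
  obtain ⟨c, hc0, hU⟩ := hun
  have g : GS (graphW Ω) tensL (Pool.Agent.W91.ES.BL (Ω := Ω)) Z c C ν :=
    ⟨hc0, Fr.C0, hν, Fr, hU Ω hΩ, Pool.Agent.W91.ES.tri hm, H772R2.NSR.rellich_W hΩ hb, hZ⟩
  refine ⟨A, k, n, Λ, ?_, ?_⟩
  · have e : (gradR (trigPot A k n) : R3 → R3) = (show R3 → R3 from bw A k n) := grad_eq A k n
    rw [e]
    exact hbes
  intro u0 z0 F0 F01 hadm hmem0 hz0R hFG hFT hFi
  obtain ⟨z00, h00, hz0, hcomp0⟩ := hadm.state
  have hmem : (u0, z0) ∈ graphW Ω := mem_pub.mpr hmem0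
  have hz00 : z0 = z00 := grad_unique Fr hmem (mem_pub.mpr hz0)
  rw [← hz00] at hz0 hcomp0
  set h0 : L2V Ω := h00 with hh00
  have hcomp : ∀ p ∈ graphW Ω, ⟪F0 0 - ν • z0 + tensL u0, p.2⟫_ℝ = ⟪h0, p.1⟫_ℝ := by
    refine compat_ext ?_
    rintro p ⟨φ, k1, k2, k3⟩
    rw [← pub_rhs hm ν (F0 0) hmem k3, ← pub_inner (Ω := Ω) h0 k2]
    exact hcomp0 φ ((isTest_iff φ).mpr k1)
  have hFH : ∀ T', 0 < T' → FH T' F0 F01 := fun T' hT' =>
    ⟨(hadm.force T' hT').memLp, (hadm.force T' hT').prim⟩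
  obtain ⟨u, u1, z, z1, hPS, hu0, hzb, huε⟩ := key F0 F01 u0 z0 hFH hFi hmem hz0R ⟨h0, hcomp⟩
    hFG hFT
  set F : ℝ → L2M Ω := fun t => F0 t - Z (S (u t)) with hF
  set F1 : ℝ → L2M Ω := fun t => F01 t - Z (S (u1 t)) with hF1
  have hStr : ∀ T', 0 < T' → Str (graphW Ω) tensL ν T' F u u1 z z1 := by
    intro T' hT'
    have h1 := hPS T' hT'
    unfold PS at h1
    have e : (fun s => F0 s - Z (S (u s) + (0 : ℝ) • u s)) = F := by
      funext s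
      rw [zero_smul, add_zero]
    rwa [e] at h1
  have hFF : ∀ T', 0 < T' → FH T' F F1 := fun T' hT' =>
    fh_comp Z S hT' (hFH T' hT') (hStr T' hT').u1m (hStr T' hT').pu
  refine ⟨F, F1, u, ?_, ⟨fun T' hT' => ⟨(hFF T' hT').memLp, (hFF T' hT').prim⟩, z0,
    (h0 - S u0 : L2V Ω), hz0, ?_⟩, hu0, ?_, ?_, ?_, ?_, huε⟩
  · exact fun t φ hφ => force_int hS hZ (F0 t) (u t) hφ
  · intro φ hφ
    have e1 := compat_int (S := S) hm hZ hmem hcomp ((isTest_iff φ).mp hφ)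
    have e2 : F 0 = F0 0 - Z (S u0) := by
      show F0 0 - Z (S (u 0)) = _
      rw [hu0]
    rw [← e2] at e1
    exact e1
  · intro T' hT'
    exact ⟨u1, z, z1, strong_of_str hΩ hT' (hStr T' hT') fun _ _ => rfl⟩
  · intro T' hT' w D' L hw0
    have hFc : ContinuousOn F (Icc 0 T') := prim_cont (hFF T' hT').memLp (hFF T' hT').prim
    have hLH := lh_mid (F := F) hΩ hFc Fr L.meas (by
      filter_upwards [L.grad] with t ht
      exact mem_pub.mpr ht) L.gradL2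
      (fun φ hφ t ht => L.eqn φ ((isTest_iff φ).mpr hφ) t ht) L.energy
    exact (huni (L2V Ω) (L2M Ω) (graphW Ω) tensL C ν T' T' F (w 0) w u
      u1 D' z z1 Fr hν hT' le_rfl hFc hLH (hStr T' hT') hw0.symm).1
  · intro τ hτ w D L hw0
    have hFc : ContinuousOn F0 (Icc 0 τ) := prim_cont (hFH τ hτ).memLp (hFH τ hτ).prim
    exact huq (L2V Ω) (L2M Ω) (graphW Ω) tensL Pool.Agent.W91.ES.BL Z S c C ν τ F0 w u u1 D z z1 g
      hSs hτ hFc (lhg_mid hΩ hS hZ hFc Fr L) (hPS τ hτ) (hw0.trans hu0.symm)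
  · intro t ht
    have h1 := (hPS (t + 1) (by linarith)).mem t ⟨ht, by linarith⟩
    exact ⟨z t, mem_pub.mp h1, hzb t ht⟩

end Pool.Agent.T2h23.GY
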