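import Pool.Agent.T2h23.GY.Stm
import Pool.Agent.T2h23.O3

set_option autoImplicit false
set_option maxHeartbeats 4000000

open MeasureTheory Set Filter Topology
open scoped InnerProductSpace ENNReal ContDiff

namespace Pool.Agent.T2h23.GY.TR0

open H772R2.NSR (prim_cont)
open Pool.Agent.W795.TQ (Str FH Univ)
open Pool.Agent.T2h23

theorem t_TR (hcw : S_cw) (hcm : S_cm) : S_tr := by
  intro c C ν κ Λ T η hc hC hν hκ hΛ hT hη
  set M : ℝ := Λ + Real.sqrt (κ / ν) * (C * Λ) + 1 with hM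
  have hM0 : 0 < M := by
    have : 0 ≤ Real.sqrt (κ / ν) * (C * Λ) := by positivity
    linarith
  obtain ⟨A, hA, hcm'⟩ := hcm c C ν M T hc hC hν hM0 hT
  set δ : ℝ := min (η / 2) (min (η / (4 * Real.sqrt A)) (Real.sqrt (η / A) / 2)) with hδ
  have hsA : 0 < Real.sqrt A := Real.sqrt_pos.2 hA
  have hδ0 : 0 < δ := by
    refine lt_min (by positivity) (lt_min (by positivity) ?_)
    have : 0 < Real.sqrt (η / A) := Real.sqrt_pos.2 (by positivity)
    linarith
  have hδ1 : δ ≤ η / 2 := min_le_left _ _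
  have hδ2 : δ ≤ η / (4 * Real.sqrt A) := (min_le_right _ _).trans (min_le_left _ _)
  have hδ3 : δ ≤ Real.sqrt (η / A) / 2 := (min_le_right _ _).trans (min_le_right _ _)
  refine ⟨δ, hδ0, ?_⟩
  intro H K _ _ _ _ _ _ W m B Z S K0 F F1 u u1 z z1 G hS hCor hF hP hz
  obtain ⟨n0, h0⟩ := hcw H K W m B Z S c C ν κ T Λ δ F F1 u u1 z z1 G hκ hT hδ0 hF hP hz hCor
  refine ⟨n0, fun n hn => ?_⟩
  obtain ⟨V, V1, D, hAS, hV⟩ := h0 n hn
  refine ⟨D, hAS.Dc, hAS.bd, ?_⟩
  intro τ F' v v1 y y1 hτ hτT hF' hPv hv0 hFF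
  have hAS' : AS W m (S n) ν T (2 * δ) M F V V1 D :=
    ⟨hAS.mem, hAS.V1m, hAS.pV, hAS.Dc, hAS.bd, by
      filter_upwards [hAS.res] with s hs p hp
      exact (hs p hp).trans (mul_le_mul_of_nonneg_right (by linarith) (norm_nonneg _))⟩
  have hFc : ContinuousOn F (Icc 0 T) := prim_cont hF.memLp hF.prim
  have key := hcm' H K W m B Z (S n) (2 * δ) τ F F' V V1 v v1 D y y1 G (hS n).skew (by linarith)
    hτ hτT hFc hF' hAS' hPv (by
      calc ‖v 0 - V 0‖ = ‖(v 0 - u 0) - (V 0 - u 0)‖ := by congr 1; abel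
        _ ≤ ‖v 0 - u 0‖ + ‖V 0 - u 0‖ := norm_sub_le _ _
        _ ≤ δ + δ := add_le_add hv0 (hV 0 ⟨le_rfl, hT.le⟩)
        _ = 2 * δ := by ring) (fun t ht => (hFF t ht).trans (by linarith))
  constructor
  · intro t ht
    have h1 := (key t ht).1
    have h2 : ‖v t - V t‖ ≤ η / 2 := by
      have h3 : A * (2 * δ) ^ 2 ≤ (η / 2) ^ 2 := by
        have h4 : 2 * δ ≤ η / (2 * Real.sqrt A) := by
          calc 2 * δ ≤ 2 * (η / (4 * Real.sqrt A)) := by linarith
            _ = η / (2 * Real.sqrt A) := by field_simp; ring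
        have h5 : (2 * δ) ^ 2 ≤ (η / (2 * Real.sqrt A)) ^ 2 :=
          pow_le_pow_left₀ (by positivity) h4 2
        have h6 : A * (η / (2 * Real.sqrt A)) ^ 2 = (η / 2) ^ 2 := by
          rw [div_pow, mul_pow, Real.sq_sqrt hA.le]
          field_simp
        calc A * (2 * δ) ^ 2 ≤ A * (η / (2 * Real.sqrt A)) ^ 2 :=
              mul_le_mul_of_nonneg_left h5 hA.le
          _ = _ := h6
      exact le_of_sq_le_sq (h1.trans h3) (by positivity)
    calc ‖v t - u t‖ = ‖(v t - V t) + (V t - u t)‖ := by congr 1; abel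
      _ ≤ ‖v t - V t‖ + ‖V t - u t‖ := norm_add_le _ _
      _ ≤ η / 2 + η / 2 := add_le_add h2 ((hV t ⟨ht.1, ht.2.trans hτT⟩).trans hδ1)
      _ = η := by ring
  · refine (key τ ⟨hτ.le, le_rfl⟩).2.trans ?_
    have h4 : 2 * δ ≤ Real.sqrt (η / A) := by linarith
    calc A * (2 * δ) ^ 2 ≤ A * (Real.sqrt (η / A)) ^ 2 :=
          mul_le_mul_of_nonneg_left (pow_le_pow_left₀ (by positivity) h4 2) hA.le
      _ = η := by
        rw [Real.sq_sqrt (by positivity)]
        field_simp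

end Pool.Agent.T2h23.GY.TR0
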