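import Pool.Agent.T2h23.GY.Stm

/-! Task AL: elementary properties of `a(t) = ∫₀ᵗ e^{-2κs} ds`. -/

set_option autoImplicit false

open MeasureTheory Set

namespace Pool.Agent.T2h23.GY.AL

theorem t_AL : S_al := by
  intro κ hκ
  have hc : Continuous fun s : ℝ => Real.exp (-(2 * κ * s)) := by fun_prop
  have hd : ∀ t, HasDerivAt (al κ) (Real.exp (-(2 * κ * t))) t := fun t =>
    intervalIntegral.integral_hasDerivAt_right (hc.intervalIntegrable _ _)
      (hc.stronglyMeasurableAtFilter _ _) hc.continuousAt
  have hcont : Continuous (al κ) :=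
    continuous_iff_continuousAt.2 fun t => (hd t).continuousAt
  have h0 : al κ 0 = 0 := by simp [al]
  have hmono : Monotone (al κ) := by
    refine monotone_of_deriv_nonneg (fun t => (hd t).differentiableAt) fun t => ?_
    rw [(hd t).deriv]; positivity
  have hsmono : StrictMono (al κ) := by
    refine strictMono_of_deriv_pos fun t => ?_
    rw [(hd t).deriv]; positivity
  have hnn : ∀ t, 0 ≤ t → 0 ≤ al κ t := fun t ht => h0 ▸ hmono ht
  have hid : ∀ t, 2 * κ * al κ t + Real.exp (-(2 * κ * t)) = 1 := by
    intro t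
    have hdd : ∀ t, HasDerivAt (fun t => 2 * κ * al κ t + Real.exp (-(2 * κ * t))) 0 t := by
      intro t
      have h1 : HasDerivAt (fun t : ℝ => -(2 * κ * t)) (-(2 * κ * 1)) t :=
        ((hasDerivAt_id t).const_mul (2 * κ)).fun_neg
      have h2 := ((hd t).const_mul (2 * κ)).fun_add h1.exp
      have h3 : 2 * κ * Real.exp (-(2 * κ * t)) + Real.exp (-(2 * κ * t)) * -(2 * κ * 1) = 0 := by
        ring
      rwa [h3] at h2
    have := is_const_of_deriv_eq_zero (fun t => (hdd t).differentiableAt)
      (fun t => (hdd t).deriv) t 0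
    simpa [h0] using this
  refine ⟨hcont, h0, hd, ?_, fun t ht => h0 ▸ hsmono ht, ?_, ?_⟩
  · intro t ht
    refine ⟨hnn t ht, ?_, ?_⟩
    · have : al κ t ≤ ∫ _s in (0 : ℝ)..t, (1 : ℝ) := by
        refine intervalIntegral.integral_mono_on ht (hc.intervalIntegrable _ _)
          (_root_.intervalIntegrable_const) fun s hs => ?_
        refine Real.exp_le_one_iff.2 ?_
        have := hs.1
        have : 0 ≤ 2 * κ * s := by positivity
        linarith
      simpa using this
    · have := hid t
      have := Real.exp_pos (-(2 * κ * t))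
      linarith
  · intro t
    have h1 := intervalIntegral.integral_comp_sub_left (a := 0) (b := t)
      (fun s : ℝ => Real.exp (2 * κ * s)) t
    rw [sub_self, sub_zero] at h1
    rw [← h1, al, ← intervalIntegral.integral_const_mul]
    congr 1
    ext s
    rw [← Real.exp_add]
    congr 1
    ring
  · intro s t hs hst
    have h1 := hmono hst
    refine ⟨h1, ?_⟩
    have h2 : Real.exp (2 * κ * s) ≤ Real.exp (2 * κ * t) :=
      Real.exp_le_exp.2 (mul_le_mul_of_nonneg_left hst (by positivity))
    have h3 : al κ s ^ 2 ≤ al κ t ^ 2 := pow_le_pow_left₀ (hnn s hs) h1 2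
    exact mul_le_mul h2 h3 (by positivity) (by positivity)

end Pool.Agent.T2h23.GY.AL
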