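import Pool.Agent.T2h23.GY.Stm
import Pool.Agent.T2h23.H3

/-! Task BS: the Besov norm of a lacunary sum of waves. -/

set_option autoImplicit false

open MeasureTheory Set Filter Topology
open scoped InnerProductSpace ENNReal ContDiff NNReal

namespace Pool.Agent.T2h23.GY.BS

open H772R2.NS
open Pool.Agent.Y303.LV (heatE heat)
open Pool.Agent.T2h23 (μh lint_h lint_mono mm mm_nonneg mmN_meas lint_mm sum_mm Kr Kr_cont
  Kr_integrable)
open Pool.Agent.T2h23.GY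

/-- the frequencies -/
noncomputable def Nl (n l : ℕ) : ℝ := ((n : ℝ) + 2) ^ (l + 1)

theorem Nl_pos (n l : ℕ) : 0 < Nl n l := by unfold Nl; positivity

theorem Nl_succ (n l : ℕ) : 2 * Nl n l ≤ Nl n (l + 1) := by
  have h : Nl n (l + 1) = ((n : ℝ) + 2) * Nl n l := by
    unfold Nl
    ring
  rw [h]
  have h1 : (0 : ℝ) ≤ n := Nat.cast_nonneg n
  have h2 := Nl_pos n l
  nlinarith

theorem gw_cont (A N : ℝ) (j : Fin 3) : Continuous (gw A N j) := by
  unfold gw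
  fun_prop

theorem gw_norm (A N : ℝ) (hA : 0 ≤ A) (hN : 0 ≤ N) (j : Fin 3) (x : E3) :
    ‖gw A N j x‖ ≤ A * N := by
  unfold gw
  rw [norm_smul, EuclideanSpace.norm_single, norm_one, mul_one, Real.norm_eq_abs, abs_mul,
    abs_mul, abs_of_nonneg hA, abs_of_nonneg hN]
  have := Real.abs_cos_le_one (N * x j)
  have h0 := mul_nonneg hA hN
  nlinarith

theorem int_gw {s : ℝ} (hs : 0 < s) (A N : ℝ) (hA : 0 ≤ A) (hN : 0 ≤ N) (j : Fin 3) (x : E3) :
    Integrable (fun y : E3 => Real.exp (-‖x - y‖ ^ 2 / (4 * s)) • gw A N j y) := by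
  have h1 := Kr_integrable hs x
  refine (h1.mul_const (A * N)).mono' (((Kr_cont s x).smul (gw_cont A N j)).aestronglyMeasurable)
    (Eventually.of_forall fun y => ?_)
  rw [norm_smul, Real.norm_eq_abs, abs_of_pos (Real.exp_pos _)]
  exact mul_le_mul_of_nonneg_left (gw_norm A N hA hN j y) (Real.exp_pos _).le

theorem heat_bw (hht : S_ht) {s : ℝ} (hs : 0 < s) (A : ℝ) (hA : 0 ≤ A) (k n : ℕ) (x : E3) :
    heatE s (bw A k n) x = ∑ l ∈ Finset.range (3 * k),
      Real.exp (-(s * Nl n l ^ 2)) • gw A (Nl n l) (ax l) x := by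
  have h1 : ∀ l : ℕ, heatE s (gw A (Nl n l) (ax l)) x =
      Real.exp (-(s * Nl n l ^ 2)) • gw A (Nl n l) (ax l) x := fun l =>
    hht A (Nl n l) s (ax l) x hs
  simp only [← h1]
  unfold heatE
  rw [← Finset.smul_sum, ← integral_finsetSum _ fun l _ =>
    int_gw hs A (Nl n l) hA (Nl_pos n l).le (ax l) x]
  congr 2
  funext y
  rw [← Finset.smul_sum]
  rfl

theorem wave_le {s : ℝ} (hs : 0 < s) (A N : ℝ) (hA : 0 ≤ A) (hN : 0 < N) (j : Fin 3) (x : E3) :
    √s * ‖Real.exp (-(s * N ^ 2)) • gw A N j x‖ ≤ A * mm (N * √s) := by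
  have hu : 0 < N * √s := mul_pos hN (Real.sqrt_pos.2 hs)
  have hu2 : s * N ^ 2 = (N * √s) ^ 2 := by
    rw [mul_pow, Real.sq_sqrt hs.le]
    ring
  rw [norm_smul, Real.norm_eq_abs, abs_of_pos (Real.exp_pos _), hu2]
  have h1 := gw_norm A N hA hN.le j x
  obtain ⟨u, hu'⟩ : ∃ u, u = N * √s := ⟨_, rfl⟩
  have h2 : √s * (Real.exp (-(N * √s) ^ 2) * ‖gw A N j x‖) ≤ A * (u * Real.exp (-u ^ 2)) := by
    rw [hu']
    calc √s * (Real.exp (-(N * √s) ^ 2) * ‖gw A N j x‖)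
        ≤ √s * (Real.exp (-(N * √s) ^ 2) * (A * N)) := by gcongr
      _ = _ := by ring
  refine h2.trans (mul_le_mul_of_nonneg_left ?_ hA)
  rw [← hu'] at hu ⊢
  unfold mm
  have he : 1 + u ^ 2 ≤ Real.exp (u ^ 2) := by
    have := Real.add_one_le_exp (u ^ 2)
    linarith
  have hex : Real.exp (-u ^ 2) = 1 / Real.exp (u ^ 2) := by
    rw [Real.exp_neg, one_div]
  refine le_min ?_ ?_
  · have : Real.exp (-u ^ 2) ≤ 1 := by
      rw [Real.exp_le_one_iff]
      nlinarith [sq_nonneg u]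
    nlinarith
  · rw [hex, mul_one_div, div_le_div_iff₀ (Real.exp_pos _) hu]
    nlinarith

/-- the majorant -/
noncomputable def G (A : ℝ) (k n : ℕ) (s : ℝ) : ℝ :=
  A * ∑ l ∈ Finset.range (3 * k), mm (Nl n l * √s)

theorem G_meas (A : ℝ) (k n : ℕ) : Measurable (G A k n) :=
  measurable_const.mul (Finset.measurable_sum _ fun l _ => mmN_meas (Nl n l))

theorem G_le (A : ℝ) (hA : 0 ≤ A) (k n : ℕ) {s : ℝ} (hs : 0 < s) : G A k n s ≤ 4 * A := by
  unfold G
  rw [mul_comm 4 A]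
  refine mul_le_mul_of_nonneg_left ?_ hA
  rcases Nat.eq_zero_or_pos (3 * k) with h | h
  · rw [h]
    simp
  · obtain ⟨m, hm⟩ : ∃ m, 3 * k = m + 1 := ⟨3 * k - 1, by omega⟩
    rw [hm]
    exact sum_mm (Nl_pos n) (Nl_succ n) (Real.sqrt_pos.2 hs) m

theorem G_nonneg (A : ℝ) (hA : 0 ≤ A) (k n : ℕ) {s : ℝ} (hs : 0 < s) : 0 ≤ G A k n s :=
  mul_nonneg hA (Finset.sum_nonneg fun l _ => mm_nonneg
    (mul_pos (Nl_pos n l) (Real.sqrt_pos.2 hs)).le)

theorem heat_le (hht : S_ht) {s : ℝ} (hs : 0 < s) (A : ℝ) (hA : 0 ≤ A) (k n : ℕ) (x : E3) :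
    √s * ‖heatE s (bw A k n) x‖ ≤ G A k n s := by
  rw [heat_bw hht hs A hA k n x]
  unfold G
  calc √s * ‖∑ l ∈ Finset.range (3 * k), Real.exp (-(s * Nl n l ^ 2)) •
      gw A (Nl n l) (ax l) x‖
      ≤ √s * ∑ l ∈ Finset.range (3 * k), ‖Real.exp (-(s * Nl n l ^ 2)) •
        gw A (Nl n l) (ax l) x‖ := mul_le_mul_of_nonneg_left (norm_sum_le _ _) (Real.sqrt_nonneg _)
    _ = ∑ l ∈ Finset.range (3 * k), √s * ‖Real.exp (-(s * Nl n l ^ 2)) •
        gw A (Nl n l) (ax l) x‖ := Finset.mul_sum _ _ _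
    _ ≤ ∑ l ∈ Finset.range (3 * k), A * mm (Nl n l * √s) :=
        Finset.sum_le_sum fun l _ => wave_le hs A (Nl n l) hA (Nl_pos n l) (ax l) x
    _ = _ := (Finset.mul_sum _ _ _).symm

theorem t_BS (hht : S_ht) : S_bs := by
  intro r hr
  have hr0 : 0 < r := by linarith
  have hr1 : 0 ≤ r - 1 := by linarith
  refine ⟨(12 * 4 ^ (r - 1)) ^ (1 / r), by positivity, fun A k n hA => ?_⟩
  have hk0 : (0 : ℝ) ≤ k := Nat.cast_nonneg k
  have h1 : besov r (show H772R2.NS.Pub.R3 → H772R2.NS.Pub.R3 from bw A k n) ≤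
      (∫⁻ s, ENNReal.ofReal (G A k n s) ^ r ∂μh) ^ (1 / r) := by
    unfold besov
    refine ENNReal.rpow_le_rpow ?_ (by positivity)
    rw [lint_h ((G_meas A k n).ennreal_ofReal.pow_const r)]
    refine setLIntegral_mono' measurableSet_Ioi fun s hs => ?_
    rw [mul_comm]
    refine mul_le_mul' le_rfl (ENNReal.rpow_le_rpow (iSup_le fun x => ?_) hr0.le)
    exact ENNReal.ofReal_le_ofReal (heat_le hht hs A hA k n x)
  refine h1.trans ?_
  have hb : ∀ s, 0 < s → ENNReal.ofReal (G A k n s) ^ r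
      ≤ ENNReal.ofReal (4 * A) ^ (r - 1) * ENNReal.ofReal (G A k n s) := by
    intro s hs
    have e : r = (r - 1) + 1 := by ring
    conv_lhs => rw [e]
    rw [ENNReal.rpow_add_of_nonneg _ _ hr1 zero_le_one, ENNReal.rpow_one]
    refine mul_le_mul' (ENNReal.rpow_le_rpow (ENNReal.ofReal_le_ofReal (G_le A hA k n hs)) hr1)
      le_rfl
  have h2 : ∫⁻ s, ENNReal.ofReal (G A k n s) ^ r ∂μh
      ≤ ENNReal.ofReal (4 * A) ^ (r - 1) * ∫⁻ s, ENNReal.ofReal (G A k n s) ∂μh := by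
    refine (lint_mono hb).trans ?_
    rw [lintegral_const_mul _ (G_meas A k n).ennreal_ofReal]
  have h3 : ∫⁻ s, ENNReal.ofReal (G A k n s) ∂μh
      ≤ ENNReal.ofReal A * (4 * ((3 * k : ℕ) : ℝ≥0∞)) := by
    have k1 : ∀ s, 0 < s → ENNReal.ofReal (G A k n s) ≤ ENNReal.ofReal A
        * ∑ l ∈ Finset.range (3 * k), ENNReal.ofReal (mm (Nl n l * √s)) := by
      intro s hs
      rw [G, ENNReal.ofReal_mul hA, ENNReal.ofReal_sum_of_nonneg fun l _ =>
        mm_nonneg (mul_pos (Nl_pos n l) (Real.sqrt_pos.2 hs)).le]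
    refine (lint_mono k1).trans ?_
    rw [lintegral_const_mul _ (Finset.measurable_sum _ fun l _ =>
      (mmN_meas (Nl n l)).ennreal_ofReal),
      lintegral_finsetSum _ fun l _ => (mmN_meas (Nl n l)).ennreal_ofReal]
    refine mul_le_mul' le_rfl ?_
    calc ∑ l ∈ Finset.range (3 * k), ∫⁻ s, ENNReal.ofReal (mm (Nl n l * √s)) ∂μh
        ≤ ∑ l ∈ Finset.range (3 * k), (4 : ℝ≥0∞) :=
          Finset.sum_le_sum fun l _ => lint_mm (Nl_pos n l)
      _ = _ := by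
          rw [Finset.sum_const, Finset.card_range, nsmul_eq_mul, mul_comm]
  have h4 : ∫⁻ s, ENNReal.ofReal (G A k n s) ^ r ∂μh ≤
      ENNReal.ofReal ((12 * 4 ^ (r - 1)) * A ^ r * k) := by
    refine h2.trans ((mul_le_mul' le_rfl h3).trans (le_of_eq ?_))
    have e4 : (4 : ℝ≥0∞) * ((3 * k : ℕ) : ℝ≥0∞) = ENNReal.ofReal (4 * ((3 * k : ℕ) : ℝ)) := by
      rw [ENNReal.ofReal_mul (by norm_num), ENNReal.ofReal_natCast]
      norm_num
    rw [e4, ← ENNReal.ofReal_mul hA, ENNReal.ofReal_rpow_of_nonneg (by positivity) hr1,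
      ← ENNReal.ofReal_mul (by positivity)]
    congr 1
    rw [Real.mul_rpow (by norm_num) hA]
    have e5 : A ^ r = A ^ (r - 1) * A := by
      conv_lhs => rw [show r = (r - 1) + 1 by ring]
      rw [Real.rpow_add_of_nonneg hA hr1 zero_le_one, Real.rpow_one]
    rw [e5]
    push_cast
    ring
  calc (∫⁻ s, ENNReal.ofReal (G A k n s) ^ r ∂μh) ^ (1 / r)
      ≤ (ENNReal.ofReal ((12 * 4 ^ (r - 1)) * A ^ r * k)) ^ (1 / r) :=
        ENNReal.rpow_le_rpow h4 (by positivity)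
    _ = _ := by
        rw [ENNReal.ofReal_rpow_of_nonneg (by positivity) (by positivity)]
        congr 1
        rw [Real.mul_rpow (by positivity) hk0, Real.mul_rpow (by positivity) (by positivity),
          ← Real.rpow_mul hA]
        have e8 : r * (1 / r) = 1 := by field_simp
        rw [e8, Real.rpow_one]

end Pool.Agent.T2h23.GY.BS
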