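import Pool.Agent.T2h23.GY.Stm

/-!
Project GY, task C2 (helper11): the bound of the gradient of the corrector.
-/

set_option autoImplicit false

open MeasureTheory Set
open scoped InnerProductSpace ENNReal ContDiff

namespace Pool.Agent.T2h23.GY.C2

open Pool.Agent.T2h23.GY

theorem t_C2 : S_c2 := by
  intro H K _ _ _ _ W S ν κ b hν hκ hb hsk p hp hpb hcor δ hδ
  set s : ℝ := Real.sqrt (κ / ν) * ‖p.1‖ with hs
  have hs0 : 0 ≤ s := mul_nonneg (Real.sqrt_nonneg _) (norm_nonneg _)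
  have hs2 : ν * s ^ 2 = κ * ‖p.1‖ ^ 2 := by
    rw [hs, mul_pow, Real.sq_sqrt (div_nonneg hκ hν.le)]
    field_simp
  set E : ℝ := ‖p.2‖ + ν * b + κ * ‖p.1‖ with hE
  have hE0 : 0 ≤ E := by positivity
  set D : ℝ := s + δ + E + 1 with hD
  have hD0 : 0 < D := by linarith
  set δ' : ℝ := min δ (ν * δ ^ 2 / D) with hδ'
  have h1 : 0 < ν * δ ^ 2 / D := by positivity
  have hδ'0 : 0 < δ' := lt_min hδ h1
  have hδ'1 : δ' ≤ δ := min_le_left _ _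
  have hδ'2 : δ' * D ≤ ν * δ ^ 2 := by
    have := min_le_right δ (ν * δ ^ 2 / D)
    rwa [le_div_iff₀ hD0] at this
  obtain ⟨n0, hn0⟩ := hcor δ' hδ'0
  refine ⟨n0, fun n hn => ?_⟩
  obtain ⟨w, hw, hw1, hres⟩ := hn0 n hn
  refine ⟨w, hw, hw1.trans hδ'1, ?_, fun q hq => (hres q hq).trans
    (mul_le_mul_of_nonneg_right hδ'1 (norm_nonneg _))⟩
  have ha := hres w hw
  have hbb := hres p hp
  have hsw := hsk n w.1
  have hsp := hsk n p.1
  have hspw := hsk n (p.1 + w.1)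
  rw [map_add, inner_add_left, inner_add_right, inner_add_right, hsp, hsw] at hspw
  rw [map_add, inner_add_left, hsw] at ha
  rw [map_add, inner_add_left, hsp] at hbb
  have ha' := (abs_le.1 ha).2
  have hbb' := (abs_le.1 hbb).2
  rw [real_inner_self_eq_norm_sq] at ha'
  rw [real_inner_self_eq_norm_sq] at hbb'
  have h2 : |⟪w.2, p.2⟫_ℝ| ≤ b * ‖w.1‖ := hpb w hw
  have h3 : -(b * δ') ≤ ⟪w.2, p.2⟫_ℝ := by
    have := (abs_le.1 h2).1
    have h4 : b * ‖w.1‖ ≤ b * δ' := mul_le_mul_of_nonneg_left hw1 hb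
    linarith
  have h4 : ⟪p.1, w.1⟫_ℝ ≤ ‖p.1‖ * δ' :=
    (real_inner_le_norm _ _).trans (mul_le_mul_of_nonneg_left hw1 (norm_nonneg _))
  have h5 : ν * ‖w.2‖ ^ 2 ≤ κ * ‖p.1‖ ^ 2 + δ' * E + δ' * ‖w.2‖ := by
    have e1 : κ * ⟪p.1, w.1⟫_ℝ ≤ κ * (‖p.1‖ * δ') := mul_le_mul_of_nonneg_left h4 hκ
    have e2 : ν * (-(b * δ')) ≤ ν * ⟪w.2, p.2⟫_ℝ := mul_le_mul_of_nonneg_left h3 hν.le
    rw [hE]
    nlinarith
  by_contra hlt
  have hx : s + δ < ‖w.2‖ := not_le.1 hlt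
  have h6 : δ' ≤ ν * δ := by
    have : δ' * δ ≤ ν * δ * δ := by nlinarith
    exact le_of_mul_le_mul_right this hδ
  have h7 : (s + δ) * (ν * (s + δ) - δ') < ‖w.2‖ * (ν * ‖w.2‖ - δ') := by
    have e1 : 0 < s + δ := by linarith
    have e2 : 0 ≤ ν * (s + δ) - δ' := by nlinarith
    have e3 : ν * (s + δ) < ν * ‖w.2‖ := mul_lt_mul_of_pos_left hx hν
    exact mul_lt_mul'' hx (by linarith) e1.le e2
  nlinarith [mul_nonneg hs0 hδ.le, mul_nonneg hν.le (mul_nonneg hs0 hδ.le)]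

end Pool.Agent.T2h23.GY.C2
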