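import Pool.Agent.T2h23.GY.T_CI

set_option autoImplicit false

/-!
Task MU: multiplication with a bounded continuous field.
-/

open MeasureTheory Set Filter Topology
open scoped InnerProductSpace ENNReal ContDiff NNReal

namespace Pool.Agent.T2h23.GY.MU

open Pool.Agent.T2h23.GY
open Pool.Agent.T2h23.GY.CI (cr0 cr1 cr2 ext3 part3)
open H772R2.NS (E3 L2V)

theorem continuous_cr : Continuous (fun p : E3 × E3 => cr p.1 p.2) := by
  unfold cr
  refine (PiLp.continuous_toLp 2 _).comp ?_
  refine continuous_pi (fun i => ?_)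
  fun_prop

theorem cr_add (a b c : E3) : cr a (b + c) = cr a b + cr a c := by
  apply ext3
  · simp only [cr0, PiLp.add_apply]; ring
  · simp only [cr1, PiLp.add_apply]; ring
  · simp only [cr2, PiLp.add_apply]; ring

theorem cr_smul (a b : E3) (t : ℝ) : cr a (t • b) = t • cr a b := by
  apply ext3
  · simp only [cr0, PiLp.smul_apply, smul_eq_mul]; ring
  · simp only [cr1, PiLp.smul_apply, smul_eq_mul]; ring
  · simp only [cr2, PiLp.smul_apply, smul_eq_mul]; ring

theorem t_MU : S_mu := by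
  intro Ω hΩ b M hb hM
  have hM0 : 0 ≤ M := (norm_nonneg (b 0)).trans (hM 0)
  have hbd : ∀ (v : L2V Ω) (x : E3), ‖cr (b x) (v x)‖ ≤ M * ‖v x‖ := fun v x =>
    (part3 (b x) (v x)).1.trans (mul_le_mul_of_nonneg_right (hM x) (norm_nonneg _))
  have hmem : ∀ v : L2V Ω, MemLp (fun x => cr (b x) (v x)) 2 (volume.restrict Ω) := by
    intro v
    refine MemLp.of_le_mul (c := M) (Lp.memLp v) ?_ (Eventually.of_forall (hbd v))
    exact continuous_cr.comp_aestronglyMeasurable
      (hb.aestronglyMeasurable.prodMk (Lp.aestronglyMeasurable v))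
  let S0 : L2V Ω →ₗ[ℝ] L2V Ω :=
    { toFun := fun v => (hmem v).toLp _
      map_add' := by
        intro v w
        apply Lp.ext
        filter_upwards [(hmem (v + w)).coeFn_toLp, (hmem v).coeFn_toLp, (hmem w).coeFn_toLp,
          Lp.coeFn_add v w, Lp.coeFn_add ((hmem v).toLp _) ((hmem w).toLp _)] with x h1 h2 h3 h4 h5
        rw [h1, h5, Pi.add_apply, h2, h3, h4, Pi.add_apply, cr_add]
      map_smul' := by
        intro t v
        apply Lp.ext
        filter_upwards [(hmem (t • v)).coeFn_toLp, (hmem v).coeFn_toLp,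
          Lp.coeFn_smul t v, Lp.coeFn_smul t ((hmem v).toLp _)] with x h1 h2 h4 h5
        rw [h1, RingHom.id_apply, h5, Pi.smul_apply, h2, h4, Pi.smul_apply, cr_smul] }
  have hS0 : ∀ v : L2V Ω, (S0 v : E3 → E3) =ᵐ[volume.restrict Ω] fun x => cr (b x) (v x) :=
    fun v => (hmem v).coeFn_toLp
  have hbound : ∀ v : L2V Ω, ‖S0 v‖ ≤ M * ‖v‖ := by
    intro v
    refine Lp.norm_le_mul_norm_of_ae_le_mul ?_
    filter_upwards [hS0 v] with x hx
    rw [hx]
    exact hbd v x
  refine ⟨S0.mkContinuous M hbound, ?_, ?_⟩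
  · intro v
    exact hS0 v
  · intro v
    have h1 : ⟪S0 v, v⟫_ℝ = 0 := by
      rw [L2.inner_def]
      have : (fun x => ⟪(S0 v : E3 → E3) x, (v : E3 → E3) x⟫_ℝ) =ᵐ[volume.restrict Ω]
          fun _ => (0 : ℝ) := by
        filter_upwards [hS0 v] with x hx
        rw [hx]
        exact (part3 (b x) (v x)).2.2.1
      rw [integral_congr_ae this]
      simp
    exact h1

end Pool.Agent.T2h23.GY.MU
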