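import Pool.Agent.T2h23.GY.T_LD
import Pool.Agent.T2h23.GY.T_MU

set_option autoImplicit false

/-!
Task CA: the corrector of one wave.
-/

open MeasureTheory Set Filter Topology
open scoped InnerProductSpace ENNReal ContDiff NNReal

namespace Pool.Agent.T2h23.GY.CA

open Pool.Agent.T2h23.GY
open Pool.Agent.T2h23.GY.CI (cr0 cr1 cr2 ext3 grad_apply contDiff_crl hasCompactSupport_crl
  tsupport_crl_subset contDiff_pd)
open Pool.Agent.T2h23.GY.LD (contDiff_sin fderiv_sin integrable_inner hasCompactSupport_pd)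
open Pool.Agent.T2h23.GY.MU (continuous_cr cr_add cr_smul)
open Pool.Agent.Y303.LV (cl clj clj_coe test_off jac_off integral_restrict_of_off)
open Pool.Agent.W52.TQ (graphW_le)
open H772R2.NS (E3 M3 jac ev inner_E3 inner_M3 jac_apply contDiff_coord fderiv_coord L2V L2M
  graphW preW IsTest)

variable {Ω : Set E3}

/-- continuous, with compact support -/
structure CF (F : E3 → E3) : Prop where
  c : Continuous F
  s : HasCompactSupport F

theorem CF.memLp {F : E3 → E3} (h : CF F) : MemLp F 2 (volume.restrict Ω) :=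
  (h.c.memLp_of_hasCompactSupport h.s).restrict _

theorem CF.coe {F : E3 → E3} (h : CF F) : (cl Ω F : E3 → E3) =ᵐ[volume.restrict Ω] F := by
  unfold cl
  rw [dif_pos h.memLp]
  exact MemLp.coeFn_toLp _

theorem CF.add {F G : E3 → E3} (hF : CF F) (hG : CF G) : CF (fun x => F x + G x) :=
  ⟨hF.c.add hG.c, hF.s.add hG.s⟩

theorem CF.of {F G : E3 → E3} (hF : Continuous F) (hG : CF G) (h : ∀ x, G x = 0 → F x = 0) :
    CF F :=
  ⟨hF, hG.s.mono fun x hx h0 => hx (h x h0)⟩

theorem CF.smul {F : E3 → E3} {f : E3 → ℝ} (hf : Continuous f) (hF : CF F) :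
    CF (fun x => f x • F x) :=
  CF.of (hf.smul hF.c) hF fun x hx => by rw [hx, smul_zero]

theorem CF.sub {F G : E3 → E3} (hF : CF F) (hG : CF G) : CF (fun x => F x - G x) := by
  have h := hF.add (hG.smul (f := fun _ => (-1 : ℝ)) continuous_const)
  have e : (fun x => F x - G x) = fun x => F x + (-1 : ℝ) • G x := by
    funext x
    rw [neg_one_smul, sub_eq_add_neg]
  rw [e]
  exact h

theorem CF.cr {F b : E3 → E3} (hb : Continuous b) (hF : CF F) :
    CF (fun x => GY.cr (b x) (F x)) :=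
  CF.of (continuous_cr.comp (hb.prodMk hF.c)) hF fun x hx => by
    rw [hx]
    apply ext3
    · simp [cr0]
    · simp [cr1]
    · simp [cr2]

theorem cl_add {F G : E3 → E3} (hF : CF F) (hG : CF G) :
    cl Ω (fun x => F x + G x) = cl Ω F + cl Ω G := by
  apply Lp.ext
  filter_upwards [hF.coe (Ω := Ω), hG.coe (Ω := Ω), (hF.add hG).coe (Ω := Ω),
    Lp.coeFn_add (cl Ω F) (cl Ω G)] with x h1 h2 h3 h4
  rw [h3, h4, Pi.add_apply, h1, h2]

theorem cl_smul {F : E3 → E3} (c : ℝ) (hF : CF F) :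
    cl Ω (fun x => c • F x) = c • cl Ω F := by
  apply Lp.ext
  filter_upwards [hF.coe (Ω := Ω), (hF.smul (f := fun _ => c) continuous_const).coe (Ω := Ω),
    Lp.coeFn_smul c (cl Ω F)] with x h1 h3 h4
  rw [h3, h4, Pi.smul_apply, h1]

theorem norm_cl_le (hb : Bornology.IsBounded Ω) : ∃ c0 : ℝ, 0 ≤ c0 ∧ ∀ F : E3 → E3, CF F →
    ∀ B : ℝ, 0 ≤ B → (∀ x, ‖F x‖ ≤ B) → ‖cl Ω F‖ ≤ c0 * B := by
  have : IsFiniteMeasure (volume.restrict Ω) := ⟨by
    rw [Measure.restrict_apply_univ]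
    exact hb.measure_lt_top⟩
  refine ⟨(measureUnivNNReal (volume.restrict Ω) : ℝ) ^ ((2 : ℝ≥0∞).toReal)⁻¹, by positivity, ?_⟩
  intro F hF B hB h
  refine Lp.norm_le_of_ae_bound hB ?_
  filter_upwards [hF.coe (Ω := Ω)] with x hx
  rw [hx]
  exact h x

theorem test_CF {φ : E3 → E3} (h : IsTest Ω φ) : CF φ := ⟨h.smooth.continuous, h.compact⟩

theorem cl_inner (hm : MeasurableSet Ω) {F v : E3 → E3} {q : L2V Ω} (hF : CF F)
    (hv : IsTest Ω v) (hq : (q : E3 → E3) =ᵐ[volume.restrict Ω] v) :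
    ⟪cl Ω F, q⟫_ℝ = ∫ x, ⟪F x, v x⟫_ℝ := by
  rw [L2.inner_def, ← integral_restrict_of_off hm (fun x hx => by rw [test_off hv hx,
    inner_zero_right])]
  refine integral_congr_ae ?_
  filter_upwards [hF.coe (Ω := Ω), hq] with x h1 h2
  rw [h1, h2]

theorem clj_inner (hm : MeasurableSet Ω) {w v : E3 → E3} {q : L2M Ω} (hw : IsTest Ω w)
    (hv : IsTest Ω v) (hq : (q : E3 → M3) =ᵐ[volume.restrict Ω] jac v) :
    ⟪clj Ω w, q⟫_ℝ = ∫ x, ⟪jac w x, jac v x⟫_ℝ := by
  rw [L2.inner_def, ← integral_restrict_of_off hm (fun x hx => by rw [jac_off hv hx,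
    inner_zero_right])]
  refine integral_congr_ae ?_
  filter_upwards [clj_coe hw, hq] with x h1 h2
  rw [h1, h2]

theorem test_mem {w : E3 → E3} (hw : IsTest Ω w) : (cl Ω w, clj Ω w) ∈ graphW Ω :=
  Submodule.le_topologicalClosure _ ⟨w, hw, (test_CF hw).coe, clj_coe hw⟩

theorem continuous_gw (A N : ℝ) (j : Fin 3) : Continuous (gw A N j) := by
  unfold gw
  fun_prop

theorem grad_sin (N : ℝ) (j : Fin 3) (x : E3) :
    gradient (fun y : E3 => Real.sin (N * y j)) x = gw 1 N j x := by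
  ext i
  rw [grad_apply, fderiv_sin]
  unfold gw
  rw [PiLp.smul_apply, smul_eq_mul, one_mul]
  congr 1
  by_cases h : i = j
  · subst h; simp
  · simp [h, Ne.symm h]

theorem contDiff_lpl {φ : E3 → E3} (h : ContDiff ℝ ∞ φ) : ContDiff ℝ ∞ (lpl φ) := by
  unfold lpl
  exact ContDiff.sum fun i _ => contDiff_pd (contDiff_pd h _) _

theorem lpl_CF {φ : E3 → E3} (h : ContDiff ℝ ∞ φ) (hc : HasCompactSupport φ) : CF (lpl φ) := by
  refine ⟨(contDiff_lpl h).continuous, ?_⟩
  have e : lpl φ = fun x => fderiv ℝ (fun y => fderiv ℝ φ y (ev 0)) x (ev 0)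
      + fderiv ℝ (fun y => fderiv ℝ φ y (ev 1)) x (ev 1)
      + fderiv ℝ (fun y => fderiv ℝ φ y (ev 2)) x (ev 2) := by
    funext x
    unfold lpl
    rw [Fin.sum_univ_three]
  rw [e]
  exact ((hasCompactSupport_pd (hasCompactSupport_pd hc _) _).add
    (hasCompactSupport_pd (hasCompactSupport_pd hc _) _)).add
    (hasCompactSupport_pd (hasCompactSupport_pd hc _) _)

theorem CF.bdd {F : E3 → E3} (h : CF F) : ∃ B : ℝ, 0 ≤ B ∧ ∀ x, ‖F x‖ ≤ B := by
  obtain ⟨B, hB⟩ := h.c.bounded_above_of_compact_support h.s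
  exact ⟨B, (norm_nonneg _).trans (hB 0), hB⟩

theorem key (hci : S_ci) (hld : S_ld) {φ v : E3 → E3} (hφ : IsTest Ω φ) (hv : IsTest Ω v) {N : ℝ}
    (hN : N ≠ 0) (j : Fin 3) :
    (∫ x, ⟪jac (wc N j φ) x, jac v x⟫_ℝ) + (∫ x, ⟪GY.cr (gw 1 N j x) (φ x), v x⟫_ℝ)
      = -(∫ x, ⟪Real.sin (N * x j) • crl φ x, v x⟫_ℝ)
        + ∫ x, ⟪(2 / N * Real.cos (N * x j)) • fderiv ℝ φ x (ev j)
          + (1 / N ^ 2 * Real.sin (N * x j)) • lpl φ x, crl v x⟫_ℝ := by
  set Y : E3 → E3 := fun y => Real.sin (N * y j) • φ y with hY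
  have hYs : ContDiff ℝ ∞ Y := (contDiff_sin N j).smul hφ.smooth
  have hYc : HasCompactSupport Y := hφ.compact.mono fun x hx h0 => hx (by
    show Real.sin (N * x j) • φ x = 0
    rw [h0, smul_zero])
  have hcv : Continuous (crl v) := (contDiff_crl hv.smooth).continuous
  have hcvs : HasCompactSupport (crl v) := hasCompactSupport_crl hv.compact
  have e0 : wc N j φ = (-(1 / N ^ 2)) • crl Y := rfl
  have e1 : ∀ x, ⟪jac (wc N j φ) x, jac v x⟫_ℝ
      = -(1 / N ^ 2) * ⟪jac (crl Y) x, jac v x⟫_ℝ := by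
    intro x
    rw [e0, H772R2.NS.jac_smul, real_inner_smul_left]
  have e2 : ∫ x, ⟪jac (wc N j φ) x, jac v x⟫_ℝ = 1 / N ^ 2 * ∫ x, ⟪lpl Y x, crl v x⟫_ℝ := by
    simp only [e1]
    rw [integral_const_mul, hld.1 Y v hYs hYc hv.smooth hv.compact]
    ring
  have e3 : ∀ x, 1 / N ^ 2 * ⟪lpl Y x, crl v x⟫_ℝ = -⟪Y x, crl v x⟫_ℝ
      + ⟪(2 / N * Real.cos (N * x j)) • fderiv ℝ φ x (ev j)
          + (1 / N ^ 2 * Real.sin (N * x j)) • lpl φ x, crl v x⟫_ℝ := by
    intro x
    rw [← real_inner_smul_left, ← inner_neg_left, ← inner_add_left]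
    congr 1
    have := hld.2 φ N j x hφ.smooth
    show (1 / N ^ 2) • lpl (fun y => Real.sin (N * y j) • φ y) x = -(Real.sin (N * x j) • φ x) + _
    rw [this, smul_add, smul_add, smul_smul, smul_smul, smul_smul]
    have a1 : 1 / N ^ 2 * -(N ^ 2 * Real.sin (N * x j)) = -Real.sin (N * x j) := by
      field_simp
    have a2 : 1 / N ^ 2 * (2 * N * Real.cos (N * x j)) = 2 / N * Real.cos (N * x j) := by
      field_simp
    rw [a1, a2, neg_smul, add_assoc]
  have e4 : ∫ x, ⟪crl Y x, v x⟫_ℝ = ∫ x, ⟪Y x, crl v x⟫_ℝ :=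
    hci.1 Y v hYs hv.smooth hv.compact
  have e5 : ∀ x, ⟪crl Y x, v x⟫_ℝ = ⟪GY.cr (gw 1 N j x) (φ x), v x⟫_ℝ
      + ⟪Real.sin (N * x j) • crl φ x, v x⟫_ℝ := by
    intro x
    rw [← inner_add_left, ← grad_sin]
    congr 1
    exact hci.2.2.2.1 _ φ x (contDiff_sin N j) hφ.smooth
  have hsin : Continuous fun x : E3 => Real.sin (N * x j) := (contDiff_sin N j).continuous
  have hcos : Continuous fun x : E3 => Real.cos (N * x j) := by fun_prop
  have i1 : Integrable fun x => ⟪Y x, crl v x⟫_ℝ := integrable_inner hYs.continuous hcv hcvs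
  have i2 : Integrable fun x => ⟪(2 / N * Real.cos (N * x j)) • fderiv ℝ φ x (ev j)
          + (1 / N ^ 2 * Real.sin (N * x j)) • lpl φ x, crl v x⟫_ℝ := by
    refine integrable_inner ?_ hcv hcvs
    exact ((continuous_const.mul hcos).smul (contDiff_pd hφ.smooth _).continuous).add
      ((continuous_const.mul hsin).smul (contDiff_lpl hφ.smooth).continuous)
  have i3 : Integrable fun x => ⟪GY.cr (gw 1 N j x) (φ x), v x⟫_ℝ := by
    refine integrable_inner ?_ hv.smooth.continuous hv.compact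
    exact continuous_cr.comp ((continuous_gw 1 N j).prodMk hφ.smooth.continuous)
  have i4 : Integrable fun x => ⟪Real.sin (N * x j) • crl φ x, v x⟫_ℝ := by
    refine integrable_inner ?_ hv.smooth.continuous hv.compact
    exact hsin.smul (contDiff_crl hφ.smooth).continuous
  have i1n : Integrable fun x => -⟪Y x, crl v x⟫_ℝ := i1.neg
  have e6 : ∫ x, ⟪jac (wc N j φ) x, jac v x⟫_ℝ = -(∫ x, ⟪Y x, crl v x⟫_ℝ)
      + ∫ x, ⟪(2 / N * Real.cos (N * x j)) • fderiv ℝ φ x (ev j)
          + (1 / N ^ 2 * Real.sin (N * x j)) • lpl φ x, crl v x⟫_ℝ := by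
    rw [e2, ← integral_const_mul]
    simp only [e3]
    rw [integral_add i1n i2, integral_neg]
  have e7 : ∫ x, ⟪crl Y x, v x⟫_ℝ = (∫ x, ⟪GY.cr (gw 1 N j x) (φ x), v x⟫_ℝ)
      + ∫ x, ⟪Real.sin (N * x j) • crl φ x, v x⟫_ℝ := by
    simp only [e5]
    rw [integral_add i3 i4]
  rw [e6, ← e4, e7]
  ring

theorem t_CA (hci : S_ci) (hld : S_ld) (hwf : S_wf) (hos : S_os) : S_ca := by
  intro Ω hΩ hb C hC hP φ hφ
  have hm : MeasurableSet Ω := hΩ.measurableSet
  obtain ⟨c0, hc0, hcl⟩ := norm_cl_le hb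
  obtain ⟨B0, hB0, hφb⟩ := (test_CF hφ).bdd
  have hcφ : CF (crl φ) := ⟨(contDiff_crl hφ.smooth).continuous, hasCompactSupport_crl hφ.compact⟩
  obtain ⟨B1, hB1, hcb⟩ := hcφ.bdd
  have hlφ : CF (lpl φ) := lpl_CF hφ.smooth hφ.compact
  obtain ⟨B2, hB2, hlb⟩ := hlφ.bdd
  have hdφ : ∀ j : Fin 3, CF (fun x => fderiv ℝ φ x (ev j)) := fun j =>
    ⟨(contDiff_pd hφ.smooth _).continuous, hasCompactSupport_pd hφ.compact _⟩
  obtain ⟨D0, hD0, hd0⟩ := (hdφ 0).bdd
  obtain ⟨D1, hD1, hd1⟩ := (hdφ 1).bdd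
  obtain ⟨D2, hD2, hd2⟩ := (hdφ 2).bdd
  have hdb : ∀ (j : Fin 3) (x : E3), ‖fderiv ℝ φ x (ev j)‖ ≤ D0 + D1 + D2 := by
    intro j x
    fin_cases j
    · have := hd0 x
      simp only [Fin.zero_eta]
      linarith
    · have := hd1 x
      simp only [Fin.mk_one]
      linarith
    · have := hd2 x
      simp only [Fin.reduceFinMk]
      linarith
  obtain ⟨A1, hA1, hos1⟩ := hos Ω hΩ hb C hC hP (crl φ) (contDiff_crl hφ.smooth)
    (hasCompactSupport_crl hφ.compact)
  set D := D0 + D1 + D2 with hD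
  have hDnn : 0 ≤ D := by positivity
  refine ⟨A1 + c0 * (B0 + B1) + c0 * (2 * D + B2) * 2, by positivity, ?_⟩
  intro N j hN
  have hN0 : 0 < N := by linarith
  obtain ⟨hwt, hwf1⟩ := hwf Ω φ hφ N j hN0.ne'
  have hNN : 1 / N ^ 2 ≤ 1 / N := by
    refine one_div_le_one_div_of_le hN0 ?_
    nlinarith
  refine ⟨hwt, ?_, ?_⟩
  · have h1 := hcl (wc N j φ) (test_CF hwt) ((B0 + B1) / N) (by positivity) (by
      intro x
      rw [hwf1 x, norm_smul]
      have a1 : ‖(N * Real.cos (N * x j)) • GY.cr (EuclideanSpace.single j 1) (φ x)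
          + Real.sin (N * x j) • crl φ x‖ ≤ N * B0 + B1 := by
        refine (norm_add_le _ _).trans ?_
        rw [norm_smul, norm_smul]
        have a2 : ‖N * Real.cos (N * x j)‖ ≤ N := by
          rw [norm_mul, Real.norm_of_nonneg hN0.le]
          have := Real.abs_cos_le_one (N * x j)
          rw [← Real.norm_eq_abs] at this
          nlinarith
        have a3 : ‖GY.cr (EuclideanSpace.single j 1) (φ x)‖ ≤ B0 := by
          refine (hci.2.2.1 _ _).1.trans ?_
          have : ‖(EuclideanSpace.single j (1 : ℝ) : E3)‖ = 1 := by simp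
          rw [this, one_mul]
          exact hφb x
        have a4 : ‖Real.sin (N * x j)‖ ≤ 1 := by
          rw [Real.norm_eq_abs]
          exact Real.abs_sin_le_one _
        have a5 := hcb x
        have a6 : ‖N * Real.cos (N * x j)‖ * ‖GY.cr (EuclideanSpace.single j 1) (φ x)‖ ≤ N * B0 :=
          mul_le_mul a2 a3 (norm_nonneg _) hN0.le
        have a7 : ‖Real.sin (N * x j)‖ * ‖crl φ x‖ ≤ 1 * B1 :=
          mul_le_mul a4 a5 (norm_nonneg _) zero_le_one
        linarith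
      have a2 : ‖-(1 / N ^ 2)‖ = 1 / N ^ 2 := by
        rw [norm_neg, Real.norm_of_nonneg (by positivity)]
      rw [a2]
      calc 1 / N ^ 2 * ‖(N * Real.cos (N * x j)) • GY.cr (EuclideanSpace.single j 1) (φ x)
          + Real.sin (N * x j) • crl φ x‖ ≤ 1 / N ^ 2 * (N * B0 + B1) := by gcongr
        _ = B0 / N + B1 * (1 / N ^ 2) := by field_simp
        _ ≤ B0 / N + B1 * (1 / N) := by gcongr
        _ = (B0 + B1) / N := by ring)
    refine h1.trans ?_
    rw [mul_div_assoc']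
    gcongr
    have : 0 ≤ c0 * (2 * D + B2) * 2 := by positivity
    linarith
  · have hF : CF (fun x => GY.cr (gw 1 N j x) (φ x)) := CF.cr (continuous_gw 1 N j) (test_CF hφ)
    intro q hq
    refine graphW_le (fun q : L2V Ω × L2M Ω => |⟪clj Ω (wc N j φ), q.2⟫_ℝ
      + ⟪cl Ω (fun x => GY.cr (gw 1 N j x) (φ x)), q.1⟫_ℝ|)
      (fun q : L2V Ω × L2M Ω => (A1 + c0 * (B0 + B1) + c0 * (2 * D + B2) * 2) / N * ‖q.2‖)
      ?_ ?_ ?_ hq
    · exact Continuous.continuousOn (by fun_prop)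
    · exact Continuous.continuousOn (by fun_prop)
    · rintro q ⟨v, hv, k1, k2⟩
      have hqW : q ∈ graphW Ω := Submodule.le_topologicalClosure _ ⟨v, hv, k1, k2⟩
      show |_| ≤ _ * _
      have hsin : Continuous fun x : E3 => Real.sin (N * x j) := (contDiff_sin N j).continuous
      have hcos : Continuous fun x : E3 => Real.cos (N * x j) := by fun_prop
      have hG1 : CF (fun x => Real.sin (N * x j) • crl φ x) := hcφ.smul hsin
      have hG2 : CF (fun x => (2 / N * Real.cos (N * x j)) • fderiv ℝ φ x (ev j)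
          + (1 / N ^ 2 * Real.sin (N * x j)) • lpl φ x) :=
        ((hdφ j).smul (f := fun x : E3 => 2 / N * Real.cos (N * x j)) (by fun_prop)).add
          (hlφ.smul (f := fun x : E3 => 1 / N ^ 2 * Real.sin (N * x j)) (by fun_prop))
      have hcv : IsTest Ω (crl v) := hci.2.2.2.2 Ω v hv.smooth hv.compact hv.supp
      rw [clj_inner hm hwt hv k2, cl_inner hm hF hv k1, key hci hld hφ hv hN0.ne' j,
        ← cl_inner hm hG1 hv k1, ← cl_inner hm hG2 hcv (test_CF hcv).coe]
      have b1 : |⟪cl Ω (fun x => Real.sin (N * x j) • crl φ x), q.1⟫_ℝ| ≤ A1 / N * ‖q.2‖ := by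
        have := hos1 (N • (EuclideanSpace.single j 1 : E3)) (-(Real.pi / 2)) (by
          intro h0
          have := congrArg (fun y : E3 => y j) h0
          simp [hN0.ne'] at this) q hqW
        have e1 : ‖N • (EuclideanSpace.single j 1 : E3)‖ = N := by
          rw [norm_smul, Real.norm_of_nonneg hN0.le]
          simp
        have e2 : (fun x : E3 => Real.cos (⟪N • (EuclideanSpace.single j 1 : E3), x⟫_ℝ
            + -(Real.pi / 2)) • crl φ x) = fun x => Real.sin (N * x j) • crl φ x := by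
          funext x
          rw [real_inner_smul_left, EuclideanSpace.inner_single_left, ← sub_eq_add_neg,
            Real.cos_sub_pi_div_two]
          simp
        rw [e1, e2] at this
        exact this
      have b2 : ‖cl Ω (fun x => (2 / N * Real.cos (N * x j)) • fderiv ℝ φ x (ev j)
          + (1 / N ^ 2 * Real.sin (N * x j)) • lpl φ x)‖ ≤ c0 * ((2 * D + B2) / N) := by
        refine hcl _ hG2 _ (by positivity) ?_
        intro x
        refine (norm_add_le _ _).trans ?_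
        rw [norm_smul, norm_smul]
        have a2 : ‖2 / N * Real.cos (N * x j)‖ ≤ 2 / N := by
          rw [norm_mul, Real.norm_of_nonneg (by positivity)]
          have := Real.abs_cos_le_one (N * x j)
          rw [← Real.norm_eq_abs] at this
          have h2N : 0 ≤ 2 / N := by positivity
          nlinarith
        have a3 : ‖1 / N ^ 2 * Real.sin (N * x j)‖ ≤ 1 / N := by
          rw [norm_mul, Real.norm_of_nonneg (by positivity)]
          have := Real.abs_sin_le_one (N * x j)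
          rw [← Real.norm_eq_abs] at this
          have h2N : 0 ≤ 1 / N ^ 2 := by positivity
          nlinarith
        have a6 : ‖2 / N * Real.cos (N * x j)‖ * ‖fderiv ℝ φ x (ev j)‖ ≤ 2 / N * D :=
          mul_le_mul a2 (hdb j x) (norm_nonneg _) (by positivity)
        have a7 : ‖1 / N ^ 2 * Real.sin (N * x j)‖ * ‖lpl φ x‖ ≤ 1 / N * B2 :=
          mul_le_mul a3 (hlb x) (norm_nonneg _) (by positivity)
        have a8 : (2 * D + B2) / N = 2 / N * D + 1 / N * B2 := by ring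
        rw [a8]
        linarith
      have b3 : ‖cl Ω (crl v)‖ ≤ 2 * ‖q.2‖ := by
        refine Lp.norm_le_mul_norm_of_ae_le_mul ?_
        filter_upwards [(test_CF hcv).coe (Ω := Ω), k2] with x h1 h2
        rw [h1, h2]
        exact hci.2.1 v x
      have b4 : |⟪cl Ω (fun x => (2 / N * Real.cos (N * x j)) • fderiv ℝ φ x (ev j)
          + (1 / N ^ 2 * Real.sin (N * x j)) • lpl φ x), cl Ω (crl v)⟫_ℝ|
          ≤ c0 * ((2 * D + B2) / N) * (2 * ‖q.2‖) :=
        (abs_real_inner_le_norm _ _).trans (mul_le_mul b2 b3 (norm_nonneg _) (by positivity))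
      refine (abs_add_le _ _).trans ?_
      rw [abs_neg]
      have e : (A1 + c0 * (B0 + B1) + c0 * (2 * D + B2) * 2) / N * ‖q.2‖
          = A1 / N * ‖q.2‖ + c0 * ((2 * D + B2) / N) * (2 * ‖q.2‖)
            + c0 * (B0 + B1) / N * ‖q.2‖ := by ring
      have : 0 ≤ c0 * (B0 + B1) / N * ‖q.2‖ := by positivity
      rw [e]
      linarith

end Pool.Agent.T2h23.GY.CA
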