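import Pool.Agent.T2h23.GY.U2

/-!
Project GY, task CB (helper2): the product of a wave with the corrector of the same wave.
-/

set_option autoImplicit false

open MeasureTheory Set
open scoped InnerProductSpace ENNReal ContDiff

namespace Pool.Agent.T2h23.GY.CB

open Pool.Agent.T2h23.GY Pool.Agent.T2h23.GY.U2
open H772R2.NS (graphW tensL E3 L2V L2M IsTest)
open Pool.Agent.Y303.LV (cl clj)

variable {Ω : Set E3}

/-- the unit vectors -/
noncomputable abbrev uv (j : Fin 3) : E3 := EuclideanSpace.single j 1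

/-- the projection to the plane orthogonal to `e_j` -/
noncomputable def pr (φ : E3 → E3) (j : Fin 3) (x : E3) : E3 :=
  φ x - (φ x j) • EuclideanSpace.single j 1

theorem cr_cr_uv (j : Fin 3) (a : E3) : cr (uv j) (cr (uv j) a) = -(a - (a j) • uv j) := by
  ext i
  fin_cases j <;> fin_cases i <;> simp [cr, uv]

theorem CC_pr {φ : E3 → E3} (h : CC φ) (j : Fin 3) : CC (pr φ j) := by
  have h1 := CC.cr (uv j) (CC.cr (uv j) h)
  have h2 := CC.smul (f := fun _ => (-1 : ℝ)) continuous_const h1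
  have e : (fun x => (-1 : ℝ) • cr (uv j) (cr (uv j) (φ x))) = pr φ j := by
    funext x
    rw [cr_cr_uv, neg_one_smul, neg_neg]
    rfl
  rwa [e] at h2

theorem pr_smooth {φ : E3 → E3} (h : ContDiff ℝ ∞ φ) (j : Fin 3) : ContDiff ℝ ∞ (pr φ j) := by
  have h1 := (cr_contDiff (uv j) (cr_contDiff (uv j) h)).const_smul (-1 : ℝ)
  have e : (fun x => (-1 : ℝ) • cr (uv j) (cr (uv j) (φ x))) = pr φ j := by
    funext x
    rw [cr_cr_uv, neg_one_smul, neg_neg]
    rfl
  exact e ▸ h1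

/-- the product of a wave with the corrector -/
theorem prod_eq (N : ℝ) (hN : N ≠ 0) (j : Fin 3) (φ : E3 → E3) (x : E3)
    (h : wc N j φ x = -(1 / N ^ 2) •
    ((N * Real.cos (N * x j)) • cr (EuclideanSpace.single j 1) (φ x)
      + Real.sin (N * x j) • crl φ x)) :
    cr (gw 1 N j x) (wc N j φ x) =
      (1 / 2 : ℝ) • pr φ j x + ((1 / 2 : ℝ) • (Real.cos (⟪(2 * N) • uv j, x⟫_ℝ + 0) • pr φ j x) +
      (-(1 / N) * (Real.cos (N * x j) * Real.sin (N * x j))) • cr (uv j) (crl φ x)) := by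
  have e1 : ⟪(2 * N) • uv j, x⟫_ℝ = 2 * (N * x j) := by
    rw [real_inner_smul_left, EuclideanSpace.inner_single_left]
    simp
    ring
  have e2 : cr (uv j) (cr (uv j) (φ x)) = (-1 : ℝ) • pr φ j x := by
    rw [cr_cr_uv, neg_one_smul]
    rfl
  rw [h, gw_eq, cr_smul_left, cr_smul_right, cr_add_right, cr_smul_right, cr_smul_right,
    smul_add, smul_add, smul_smul, smul_smul, smul_smul, smul_smul, e1, add_zero, e2,
    Real.cos_two_mul, ← add_assoc]
  congr 1
  · rw [smul_smul, smul_smul, ← add_smul]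
    congr 1
    field_simp
    ring
  · congr 1
    field_simp

theorem t_CB (hci : S_ci) (hwf : S_wf) (hos : S_os) : S_cb := by
  intro Ω hΩ hb C hC hP φ hφ
  have hφc : CC φ := ⟨hφ.smooth.continuous, hφ.compact⟩
  have hcrl : IsTest Ω (crl φ) := hci.2.2.2.2 Ω φ hφ.smooth hφ.compact hφ.supp
  have hcc : CC (crl φ) := ⟨hcrl.smooth.continuous, hcrl.compact⟩
  have k1 : ∀ j : Fin 3, CC (pr φ j) := CC_pr hφc
  have k2 : ∀ i : Fin 3, CC fun x => cr (uv i) (crl φ x) := fun i => CC.cr (uv i) hcc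
  choose M2 hM2 hM2' using fun i => (k2 i).bdd
  choose A1 hA1 hA1' using fun j : Fin 3 => hos Ω hΩ hb C hC hP (pr φ j)
    (pr_smooth hφ.smooth j) (k1 j).2
  have hk := kap_nonneg (Ω := Ω)
  have p1 : ∀ i, 0 ≤ kap Ω * C * M2 i + A1 i := fun i => by
    have := hM2 i
    have := hA1 i
    positivity
  obtain ⟨A, hA⟩ : ∃ A : ℝ, A = ∑ i, (kap Ω * C * M2 i + A1 i) := ⟨_, rfl⟩
  have hle : ∀ i, kap Ω * C * M2 i + A1 i ≤ A := by
    intro i
    rw [hA]
    exact Finset.single_le_sum (f := fun i => (kap Ω * C * M2 i + A1 i))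
        (fun i _ => p1 i) (Finset.mem_univ i)
  refine ⟨A, (p1 0).trans (hle 0), ?_⟩
  intro N j hN q hq
  have hN0 : 0 < N := by linarith
  have hwfj := (hwf Ω φ hφ N j hN0.ne').2
  have hQ : 0 ≤ ‖q.2‖ := norm_nonneg _
  have e0 : (fun x => cr (gw 1 N j x) (wc N j φ x)) = fun x =>
      (1 / 2 : ℝ) • pr φ j x + ((1 / 2 : ℝ) • (Real.cos (⟪(2 * N) • uv j, x⟫_ℝ + 0) • pr φ j x) +
      (-(1 / N) * (Real.cos (N * x j) * Real.sin (N * x j))) • cr (uv j) (crl φ x)) := by
    funext x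
    exact prod_eq N hN0.ne' j φ x (hwfj x)
  have c1 : CC fun x => Real.cos (⟪(2 * N) • uv j, x⟫_ℝ + 0) • pr φ j x :=
    CC.smul (f := fun x : E3 => Real.cos (⟪(2 * N) • uv j, x⟫_ℝ + 0)) (by fun_prop) (k1 j)
  have c2 : CC fun x =>
      (-(1 / N) * (Real.cos (N * x j) * Real.sin (N * x j))) • cr (uv j) (crl φ x) :=
    CC.smul (f := fun x : E3 => -(1 / N) * (Real.cos (N * x j) * Real.sin (N * x j)))
      (by fun_prop) (k2 j)
  have cst : ∀ c : ℝ, Continuous fun _ : E3 => c := fun c => continuous_const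
  have c3 := CC.smul (cst (1 / 2)) c1
  have c4 := CC.smul (cst (1 / 2)) (k1 j)
  have e3 : cl Ω (fun x => φ x - (φ x j) • EuclideanSpace.single j 1) = cl Ω (pr φ j) := rfl
  rw [e0, cl_add c4 (CC.add c3 c2), cl_add c3 c2, cl_smul (1 / 2) (k1 j), cl_smul (1 / 2) c1, e3,
    inner_add_left, inner_add_left, real_inner_smul_left, real_inner_smul_left,
    add_sub_cancel_left]
  have n0 : ‖(2 * N) • uv j‖ = 2 * N := by
    rw [norm_smul, Real.norm_of_nonneg (by linarith)]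
    simp
  have n1 : (2 * N) • uv j ≠ 0 := by
    intro h
    rw [h, norm_zero] at n0
    linarith
  have y1 := hA1' j _ 0 n1 q hq
  rw [n0] at y1
  have hb2 : ∀ x : E3,
      ‖(-(1 / N) * (Real.cos (N * x j) * Real.sin (N * x j))) • cr (uv j) (crl φ x)‖ ≤
        1 / N * M2 j := by
    intro x
    have c2 : |Real.cos (N * x j) * Real.sin (N * x j)| ≤ 1 := by
      rw [abs_mul]
      exact mul_le_one₀ (Real.abs_cos_le_one _) (abs_nonneg _) (Real.abs_sin_le_one _)
    have d1 : |-(1 / N) * (Real.cos (N * x j) * Real.sin (N * x j))| ≤ 1 / N := by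
      rw [abs_mul, abs_neg, abs_of_nonneg (show 0 ≤ 1 / N by positivity)]
      exact mul_le_of_le_one_right (by positivity) c2
    rw [norm_smul, Real.norm_eq_abs]
    exact mul_le_mul d1 (hM2' j x) (norm_nonneg _) (by positivity)
  have h2 := hM2 j
  have y2 := inner_le hb hC hP c2 (by positivity) hb2 hq
  refine (abs_add_le _ _).trans ((add_le_add (le_of_eq (abs_mul _ _)) y2).trans ?_)
  rw [abs_of_pos (show (0 : ℝ) < 1 / 2 by norm_num)]
  have h3 := hA1 j
  have h5 := hle j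
  calc 1 / 2 * |⟪cl Ω (fun x => Real.cos (⟪(2 * N) • uv j, x⟫_ℝ + 0) • pr φ j x), q.1⟫_ℝ| +
        kap Ω * C * (1 / N * M2 j) * ‖q.2‖
      ≤ 1 / 2 * (A1 j / (2 * N) * ‖q.2‖) + kap Ω * C * (1 / N * M2 j) * ‖q.2‖ := by gcongr
    _ = (A1 j / 4 + kap Ω * C * M2 j) / N * ‖q.2‖ := by field_simp; ring
    _ ≤ A / N * ‖q.2‖ := by
        have : A1 j / 4 + kap Ω * C * M2 j ≤ A := by linarith
        gcongr

end Pool.Agent.T2h23.GY.CB
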