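import Pool.Agent.T2h23.GY.Stm

/-!
Project GY, task CC (helper11): the set of the states with correctors is closed.
-/

set_option autoImplicit false

open MeasureTheory Set
open scoped InnerProductSpace ENNReal ContDiff

namespace Pool.Agent.T2h23.GY.CC

open Pool.Agent.T2h23.GY

theorem t_CC : S_cc := by
  intro H K _ _ _ _ W m B Z S c C ν κ K0 hG hSK hκ p hp happ δ hδ
  have hC := hG.C0
  have hK0 := (hSK 0).K00
  set r0 : ℝ := Real.sqrt (κ / ν) with hr0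
  have hr00 : 0 ≤ r0 := Real.sqrt_nonneg _
  set D : ℝ := 2 * (K0 + κ * C + r0 + 1) with hD
  have hD0 : 0 < D := by positivity
  set η : ℝ := δ / D with hη
  have hη0 : 0 < η := div_pos hδ hD0
  have hηD : η * D = δ := div_mul_cancel₀ _ hD0.ne'
  obtain ⟨q, hq, hcq, hq1, hq2⟩ := happ η hη0
  obtain ⟨n0, hn0⟩ := hcq (δ / 2) (half_pos hδ)
  refine ⟨n0, fun n hn => ?_⟩
  obtain ⟨w, hw, hw1, hw2, hres⟩ := hn0 n hn
  refine ⟨w, hw, by linarith, ?_, fun r hr => ?_⟩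
  · have h1 : ‖q.1‖ ≤ ‖p.1‖ + η := by
      have := norm_sub_norm_le q.1 p.1
      rw [norm_sub_rev] at this
      linarith
    have h2 : r0 * ‖q.1‖ ≤ r0 * ‖p.1‖ + r0 * η := by
      have := mul_le_mul_of_nonneg_left h1 hr00
      linarith
    have h3 : r0 * η ≤ δ / 2 := by
      rw [hD] at hηD
      have e1 : 0 ≤ η * (K0 + κ * C + 1) := by positivity
      nlinarith
    linarith
  · have h1 := hres r hr
    have hsub : p - q ∈ W := W.sub_mem hp hq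
    have h2 := (hSK n).form (p - q) hsub r hr
    have h3 : ‖r.1‖ ≤ C * ‖r.2‖ := hG.fr.poinc r hr
    have h4 : |⟪p.1 - q.1, r.1⟫_ℝ| ≤ η * (C * ‖r.2‖) :=
      (abs_real_inner_le_norm _ _).trans (mul_le_mul hq1 h3 (norm_nonneg _) hη0.le)
    have e1 : ν * ⟪w.2, r.2⟫_ℝ + ⟪S n (p.1 + w.1), r.1⟫_ℝ - κ * ⟪p.1, r.1⟫_ℝ =
        (ν * ⟪w.2, r.2⟫_ℝ + ⟪S n (q.1 + w.1), r.1⟫_ℝ - κ * ⟪q.1, r.1⟫_ℝ) +
          ⟪S n (p.1 - q.1), r.1⟫_ℝ - κ * ⟪p.1 - q.1, r.1⟫_ℝ := by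
      rw [map_add, map_add, map_sub, inner_add_left, inner_add_left, inner_sub_left,
        inner_sub_left]
      ring
    rw [e1]
    have h5 : |⟪S n (p.1 - q.1), r.1⟫_ℝ| ≤ K0 * (η * ‖r.2‖) :=
      h2.trans (mul_le_mul_of_nonneg_left (mul_le_mul_of_nonneg_right hq2 (norm_nonneg _)) hK0)
    have h6 : |κ * ⟪p.1 - q.1, r.1⟫_ℝ| ≤ κ * (η * (C * ‖r.2‖)) := by
      rw [abs_mul, abs_of_nonneg hκ]
      exact mul_le_mul_of_nonneg_left h4 hκ
    refine (abs_sub _ _).trans ?_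
    refine (add_le_add (abs_add_le _ _) le_rfl).trans ?_
    have h7 : K0 * (η * ‖r.2‖) + κ * (η * (C * ‖r.2‖)) ≤ δ / 2 * ‖r.2‖ := by
      have e2 : K0 * (η * ‖r.2‖) + κ * (η * (C * ‖r.2‖)) = (η * (K0 + κ * C)) * ‖r.2‖ := by ring
      rw [e2]
      refine mul_le_mul_of_nonneg_right ?_ (norm_nonneg _)
      rw [hD] at hηD
      have e3 : 0 ≤ η * (r0 + 1) := by positivity
      nlinarith
    linarith

end Pool.Agent.T2h23.GY.CC
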