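import Pool.Agent.T2h23.GY.T_CA

set_option autoImplicit false

/-!
Task CD: the corrector of the field `bw`.
-/

open MeasureTheory Set Filter Topology
open scoped InnerProductSpace ENNReal ContDiff NNReal

namespace Pool.Agent.T2h23.GY.CD

open Pool.Agent.T2h23.GY
open Pool.Agent.T2h23.GY.CI (cr0 cr1 cr2 ext3)
open Pool.Agent.T2h23.GY.MU (continuous_cr cr_add cr_smul)
open Pool.Agent.T2h23.GY.CA
open Pool.Agent.Y303.LV (cl clj)
open H772R2.NS (E3 M3 L2V L2M graphW IsTest)

variable {Ω : Set E3}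

theorem CF_zero : CF (fun _ : E3 => (0 : E3)) := ⟨continuous_const, HasCompactSupport.zero⟩

theorem cl_zero : cl Ω (fun _ : E3 => (0 : E3)) = 0 := by
  have h := cl_smul (Ω := Ω) 0 CF_zero
  simpa using h

theorem CF_sum {ι : Type} (s : Finset ι) {F : ι → E3 → E3} (hF : ∀ i, CF (F i)) :
    CF (fun x => ∑ i ∈ s, F i x) := by
  classical
  induction s using Finset.induction_on with
  | empty => simpa using CF_zero
  | insert a s ha ih =>
    have : (fun x => ∑ i ∈ insert a s, F i x) = fun x => F a x + ∑ i ∈ s, F i x := by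
      funext x
      rw [Finset.sum_insert ha]
    rw [this]
    exact (hF a).add ih

theorem cl_sum {ι : Type} (s : Finset ι) {F : ι → E3 → E3} (hF : ∀ i, CF (F i)) :
    cl Ω (fun x => ∑ i ∈ s, F i x) = ∑ i ∈ s, cl Ω (F i) := by
  classical
  induction s using Finset.induction_on with
  | empty => simpa using cl_zero
  | insert a s ha ih =>
    have : (fun x => ∑ i ∈ insert a s, F i x) = fun x => F a x + ∑ i ∈ s, F i x := by
      funext x
      rw [Finset.sum_insert ha]
    rw [this, cl_add (hF a) (CF_sum s hF), ih, Finset.sum_insert ha]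

theorem cr_sum_left {ι : Type} (s : Finset ι) (b : ι → E3) (y : E3) :
    GY.cr (∑ i ∈ s, b i) y = ∑ i ∈ s, GY.cr (b i) y := by
  classical
  induction s using Finset.induction_on with
  | empty =>
    rw [Finset.sum_empty, Finset.sum_empty]
    apply ext3
    · simp [cr0]
    · simp [cr1]
    · simp [cr2]
  | insert a s ha ih =>
    rw [Finset.sum_insert ha, Finset.sum_insert ha, ← ih]
    apply ext3
    · simp only [cr0, PiLp.add_apply]; ring
    · simp only [cr1, PiLp.add_apply]; ring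
    · simp only [cr2, PiLp.add_apply]; ring

theorem cr_gw (a N : ℝ) (j : Fin 3) (x y : E3) :
    GY.cr (gw a N j x) y = a • GY.cr (gw 1 N j x) y := by
  unfold gw
  apply ext3
  · simp only [cr0, PiLp.smul_apply, smul_eq_mul]; ring
  · simp only [cr1, PiLp.smul_apply, smul_eq_mul]; ring
  · simp only [cr2, PiLp.smul_apply, smul_eq_mul]; ring

/-- the operator on a field -/
theorem S_field {a : ℝ} {k n : ℕ} {S : L2V Ω →L[ℝ] L2V Ω}
    (hS : ∀ v : L2V Ω, (S v : E3 → E3) =ᵐ[volume.restrict Ω] fun x => GY.cr (bw a k n x) (v x))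
    {ψ : E3 → E3} (hψ : CF ψ) :
    S (cl Ω ψ) = ∑ l ∈ Finset.range (3 * k),
      a • cl Ω (fun x => GY.cr (gw 1 (((n : ℝ) + 2) ^ (l + 1)) (ax l) x) (ψ x)) := by
  have h1 : ∀ l : ℕ, CF (fun x => GY.cr (gw 1 (((n : ℝ) + 2) ^ (l + 1)) (ax l) x) (ψ x)) :=
    fun l => CF.cr (continuous_gw _ _ _) hψ
  have h2 : ∀ l : ℕ, CF (fun x => a • GY.cr (gw 1 (((n : ℝ) + 2) ^ (l + 1)) (ax l) x) (ψ x)) :=
    fun l => (h1 l).smul (f := fun _ => a) continuous_const
  have h3 : (fun x => GY.cr (bw a k n x) (ψ x)) = fun x => ∑ l ∈ Finset.range (3 * k),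
      a • GY.cr (gw 1 (((n : ℝ) + 2) ^ (l + 1)) (ax l) x) (ψ x) := by
    funext x
    unfold bw
    rw [cr_sum_left]
    exact Finset.sum_congr rfl fun l _ => cr_gw _ _ _ _ _
  have h4 : S (cl Ω ψ) = cl Ω (fun x => GY.cr (bw a k n x) (ψ x)) := by
    apply Lp.ext
    have h5 : CF (fun x => GY.cr (bw a k n x) (ψ x)) := by
      rw [h3]
      exact CF_sum _ h2
    filter_upwards [hS (cl Ω ψ), hψ.coe (Ω := Ω), h5.coe (Ω := Ω)] with x a1 a2 a3
    rw [a1, a3, a2]
  rw [h4, h3, cl_sum _ h2]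
  exact Finset.sum_congr rfl fun l _ => cl_smul a (h1 l)

theorem sum_ax (k : ℕ) (y : E3) :
    ∑ l ∈ Finset.range (3 * k), (y - (y (ax l)) • (EuclideanSpace.single (ax l) 1 : E3))
      = (2 * (k : ℝ)) • y := by
  induction k with
  | zero => simp
  | succ k ih =>
    have e0 : ax (3 * k) = 0 := by
      unfold ax
      apply Fin.ext
      simp [Fin.ofNat]
    have e1 : ax (3 * k + 1) = 1 := by
      unfold ax
      apply Fin.ext
      simp [Fin.ofNat]
    have e2 : ax (3 * k + 2) = 2 := by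
      unfold ax
      apply Fin.ext
      simp [Fin.ofNat]
    have e3 : 3 * (k + 1) = 3 * k + 1 + 1 + 1 := by ring
    rw [e3, Finset.sum_range_succ, Finset.sum_range_succ, Finset.sum_range_succ, ih, e0, e1, e2]
    ext i
    fin_cases i
    · simp
      ring
    · simp
      ring
    · simp
      ring

theorem t_CD (hwf : S_wf) (hca : S_ca) (hcb : S_cb) (hcx : S_cx) : S_cd := by
  intro Ω hΩ hb C hC hP ν κ k hν hκ hk S hS φ hφ
  obtain ⟨A1, hA1, H1⟩ := hca Ω hΩ hb C hC hP φ hφ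
  obtain ⟨A2, hA2, H2⟩ := hcb Ω hΩ hb C hC hP φ hφ
  obtain ⟨A3, hA3, H3⟩ := hcx Ω hΩ hb C hC hP φ hφ
  set a := Real.sqrt (ν * κ / k) with ha
  have hk' : (0 : ℝ) < k := by exact_mod_cast hk
  have ha0 : 0 ≤ a := Real.sqrt_nonneg _
  have ha2 : a ^ 2 = ν * κ / k := Real.sq_sqrt (by positivity)
  set m : ℕ := 3 * k with hmdef
  set M : ℝ := m * a * A1 + m * (a ^ 2 / ν) * (A2 + m * A3) + m * (a / ν) * A1 with hM
  have hM0 : 0 ≤ M := by positivity
  intro δ hδ
  refine ⟨⌈M / δ⌉₊, fun n hn => ?_⟩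
  have hn2 : (0 : ℝ) < (n : ℝ) + 2 := by positivity
  have hMn : M / ((n : ℝ) + 2) ≤ δ := by
    rw [div_le_iff₀ hn2]
    have h1 : M / δ ≤ n := (Nat.le_ceil _).trans (by exact_mod_cast hn)
    rw [div_le_iff₀ hδ] at h1
    nlinarith
  set N : ℕ → ℝ := fun l => ((n : ℝ) + 2) ^ (l + 1) with hN
  have hN1 : ∀ l, (n : ℝ) + 2 ≤ N l := fun l => le_self_pow₀ (by linarith) (Nat.succ_ne_zero l)
  have hN0 : ∀ l, 1 ≤ N l := fun l => le_trans (by
    have : (0 : ℝ) ≤ n := Nat.cast_nonneg n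
    linarith) (hN1 l)
  have hNp : ∀ l, 0 < N l := fun l => lt_of_lt_of_le one_pos (hN0 l)
  have hNlt : ∀ l l' : ℕ, l < l' → ((n : ℝ) + 2) * N l ≤ N l' := by
    intro l l' h
    have h1 : ((n : ℝ) + 2) * N l = ((n : ℝ) + 2) ^ (l + 1 + 1) := by
      rw [hN]
      simp only
      rw [pow_succ _ (l + 1)]
      ring
    rw [h1]
    exact pow_le_pow_right₀ (by
      have : (0 : ℝ) ≤ n := Nat.cast_nonneg n
      linarith) (by omega)
  -- the correctors
  have hT : ∀ l, IsTest Ω (wc (N l) (ax l) φ) := fun l => (H1 (N l) (ax l) (hN0 l)).1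
  set w : L2V Ω × L2M Ω := ∑ l ∈ Finset.range m,
    (a / ν) • (cl Ω (wc (N l) (ax l) φ), clj Ω (wc (N l) (ax l) φ)) with hw
  have hw1 : w.1 = ∑ l ∈ Finset.range m, (a / ν) • cl Ω (wc (N l) (ax l) φ) := by
    rw [hw, Prod.fst_sum]
    rfl
  have hw2 : w.2 = ∑ l ∈ Finset.range m, (a / ν) • clj Ω (wc (N l) (ax l) φ) := by
    rw [hw, Prod.snd_sum]
    rfl
  have hdiv : ∀ l, ∀ A : ℝ, 0 ≤ A → A / N l ≤ A / ((n : ℝ) + 2) := fun l A hA =>
    div_le_div_of_nonneg_left hA hn2 (hN1 l)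
  refine ⟨w, ?_, ?_, ?_⟩
  · exact Submodule.sum_mem _ fun l _ => Submodule.smul_mem _ _ (test_mem (hT l))
  · rw [hw1]
    calc ‖∑ l ∈ Finset.range m, (a / ν) • cl Ω (wc (N l) (ax l) φ)‖
        ≤ ∑ l ∈ Finset.range m, ‖(a / ν) • cl Ω (wc (N l) (ax l) φ)‖ := norm_sum_le _ _
      _ ≤ ∑ l ∈ Finset.range m, (a / ν) * (A1 / ((n : ℝ) + 2)) := by
          refine Finset.sum_le_sum fun l _ => ?_
          rw [norm_smul, Real.norm_of_nonneg (by positivity)]
          gcongr
          exact ((H1 (N l) (ax l) (hN0 l)).2.1).trans (hdiv l A1 hA1)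
      _ = m * (a / ν) * A1 / ((n : ℝ) + 2) := by
          rw [Finset.sum_const, Finset.card_range, nsmul_eq_mul]
          ring
      _ ≤ M / ((n : ℝ) + 2) := by
          gcongr
          rw [hM]
          have : 0 ≤ m * a * A1 + m * (a ^ 2 / ν) * (A2 + m * A3) := by positivity
          linarith
      _ ≤ δ := hMn
  · intro q hq
    have hq0 : 0 ≤ ‖q.2‖ := norm_nonneg _
    -- notation
    set E : ℕ → ℝ := fun l => ⟪clj Ω (wc (N l) (ax l) φ), q.2⟫_ℝ
      + ⟪cl Ω (fun x => GY.cr (gw 1 (N l) (ax l) x) (φ x)), q.1⟫_ℝ with hE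
    set P : ℕ → ℕ → ℝ := fun l' l => ⟪cl Ω (fun x => GY.cr (gw 1 (N l') (ax l') x)
      (wc (N l) (ax l) φ x)), q.1⟫_ℝ with hPdef
    set D : ℕ → ℝ := fun l => 1 / 2 * ⟪cl Ω (fun x => φ x - (φ x (ax l)) •
      EuclideanSpace.single (ax l) 1), q.1⟫_ℝ with hD
    have hEb : ∀ l, |E l| ≤ A1 / ((n : ℝ) + 2) * ‖q.2‖ := fun l =>
      ((H1 (N l) (ax l) (hN0 l)).2.2 q hq).trans (by
        have := hdiv l A1 hA1
        gcongr)
    have hDb : ∀ l, |P l l - D l| ≤ A2 / ((n : ℝ) + 2) * ‖q.2‖ := fun l =>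
      (H2 (N l) (ax l) (hN0 l) q hq).trans (by
        have := hdiv l A2 hA2
        gcongr)
    have hPb : ∀ l' l, l' ≠ l → |P l' l| ≤ A3 / ((n : ℝ) + 2) * ‖q.2‖ := by
      intro l' l hne
      rcases lt_or_gt_of_ne hne with h | h
      · have h1 := (H3 (N l) (N l') (ax l') (ax l) (hN0 l) (hN0 l') q hq).1 (by
          have h2 := hNlt l' l h
          have h3 : 0 ≤ (n : ℝ) := Nat.cast_nonneg n
          have h4 := hNp l'
          nlinarith)
        refine h1.trans ?_
        have h2 : N l' / N l ≤ 1 / ((n : ℝ) + 2) := by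
          rw [div_le_div_iff₀ (hNp l) hn2, one_mul, mul_comm]
          exact hNlt l' l h
        have h3 : A3 / ((n : ℝ) + 2) = A3 * (1 / ((n : ℝ) + 2)) := by ring
        rw [h3]
        gcongr
      · have h1 := (H3 (N l) (N l') (ax l') (ax l) (hN0 l) (hN0 l') q hq).2 (by
          have h2 := hNlt l l' h
          have h3 : 0 ≤ (n : ℝ) := Nat.cast_nonneg n
          have h4 := hNp l
          nlinarith)
        refine h1.trans ?_
        have := hdiv l A3 hA3
        gcongr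
    have hsumD : a ^ 2 / ν * ∑ l ∈ Finset.range m, D l = κ * ⟪cl Ω φ, q.1⟫_ℝ := by
      have hCF : ∀ l : ℕ, CF (fun x => φ x - (φ x (ax l)) •
          (EuclideanSpace.single (ax l) 1 : E3)) := by
        intro l
        refine (test_CF hφ).sub (CF.of ?_ (test_CF hφ) fun x hx => by rw [hx]; simp)
        have := hφ.smooth.continuous
        fun_prop
      have h1 : ∑ l ∈ Finset.range m, cl Ω (fun x => φ x - (φ x (ax l)) •
          (EuclideanSpace.single (ax l) 1 : E3)) = (2 * (k : ℝ)) • cl Ω φ := by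
        rw [← cl_sum _ hCF, ← cl_smul _ (test_CF hφ)]
        congr 1
        funext x
        exact sum_ax k (φ x)
      rw [hD, ← Finset.mul_sum, ← sum_inner, h1, real_inner_smul_left, ha2]
      field_simp
    have hX : ν * ⟪w.2, q.2⟫_ℝ + ⟪S n (cl Ω φ + w.1), q.1⟫_ℝ - κ * ⟪cl Ω φ, q.1⟫_ℝ
        = ∑ l ∈ Finset.range m, (a * E l
          + a ^ 2 / ν * ((∑ l' ∈ Finset.range m, P l' l) - D l)) := by
      have h1 : ν * ⟪w.2, q.2⟫_ℝ
          = ∑ l ∈ Finset.range m, a * ⟪clj Ω (wc (N l) (ax l) φ), q.2⟫_ℝ := by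
        rw [hw2, sum_inner, Finset.mul_sum]
        refine Finset.sum_congr rfl fun l _ => ?_
        rw [real_inner_smul_left]
        field_simp
      have h2 : ⟪S n (cl Ω φ), q.1⟫_ℝ = ∑ l ∈ Finset.range m,
          a * ⟪cl Ω (fun x => GY.cr (gw 1 (N l) (ax l) x) (φ x)), q.1⟫_ℝ := by
        rw [S_field (hS n) (test_CF hφ), sum_inner]
        exact Finset.sum_congr rfl fun l _ => real_inner_smul_left _ _ _
      have h3 : ⟪S n w.1, q.1⟫_ℝ = ∑ l ∈ Finset.range m,
          a ^ 2 / ν * ∑ l' ∈ Finset.range m, P l' l := by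
        rw [hw1, map_sum, sum_inner]
        refine Finset.sum_congr rfl fun l _ => ?_
        rw [map_smul, real_inner_smul_left, S_field (hS n) (test_CF (hT l)), sum_inner,
          Finset.mul_sum, Finset.mul_sum]
        refine Finset.sum_congr rfl fun l' _ => ?_
        rw [real_inner_smul_left]
        show a / ν * (a * P l' l) = a ^ 2 / ν * P l' l
        ring
      rw [map_add, inner_add_left, h1, h2, h3, ← hsumD, Finset.mul_sum,
        ← Finset.sum_add_distrib, ← Finset.sum_add_distrib, ← Finset.sum_sub_distrib]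
      refine Finset.sum_congr rfl fun l _ => ?_
      simp only [hE]
      ring
    show |ν * ⟪w.2, q.2⟫_ℝ + ⟪S n (cl Ω φ + w.1), q.1⟫_ℝ - κ * ⟪cl Ω φ, q.1⟫_ℝ| ≤ δ * ‖q.2‖
    rw [hX]
    have hin : ∀ l ∈ Finset.range m, |(∑ l' ∈ Finset.range m, P l' l) - D l|
        ≤ (A2 + m * A3) / ((n : ℝ) + 2) * ‖q.2‖ := by
      intro l hl
      have h1 : (∑ l' ∈ Finset.range m, P l' l) - D l
          = (P l l - D l) + ∑ l' ∈ (Finset.range m).erase l, P l' l := by
        rw [← Finset.add_sum_erase _ _ hl]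
        ring
      rw [h1]
      refine (abs_add_le _ _).trans ?_
      have h2 : |∑ l' ∈ (Finset.range m).erase l, P l' l| ≤ m * (A3 / ((n : ℝ) + 2) * ‖q.2‖) := by
        refine (Finset.abs_sum_le_sum_abs _ _).trans ?_
        refine (Finset.sum_le_card_nsmul _ _ _ fun l' hl' =>
          hPb l' l (Finset.ne_of_mem_erase hl')).trans ?_
        rw [nsmul_eq_mul]
        refine mul_le_mul_of_nonneg_right ?_ (by positivity)
        have : ((Finset.range m).erase l).card ≤ m :=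
          (Finset.card_le_card (Finset.erase_subset _ _)).trans (Finset.card_range m).le
        exact_mod_cast this
      have h3 := hDb l
      have h4 : (A2 + m * A3) / ((n : ℝ) + 2) * ‖q.2‖
          = A2 / ((n : ℝ) + 2) * ‖q.2‖ + m * (A3 / ((n : ℝ) + 2) * ‖q.2‖) := by ring
      rw [h4]
      linarith
    calc |∑ l ∈ Finset.range m, (a * E l
          + a ^ 2 / ν * ((∑ l' ∈ Finset.range m, P l' l) - D l))|
        ≤ ∑ l ∈ Finset.range m, |a * E l
          + a ^ 2 / ν * ((∑ l' ∈ Finset.range m, P l' l) - D l)| :=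
          Finset.abs_sum_le_sum_abs _ _
      _ ≤ ∑ l ∈ Finset.range m, (a * (A1 / ((n : ℝ) + 2) * ‖q.2‖)
          + a ^ 2 / ν * ((A2 + m * A3) / ((n : ℝ) + 2) * ‖q.2‖)) := by
          refine Finset.sum_le_sum fun l hl => ?_
          refine (abs_add_le _ _).trans ?_
          rw [abs_mul, abs_mul, abs_of_nonneg ha0, abs_of_nonneg (by positivity : 0 ≤ a ^ 2 / ν)]
          have h1 := hEb l
          have h2 := hin l hl
          gcongr
      _ = (m * a * A1 + m * (a ^ 2 / ν) * (A2 + m * A3)) / ((n : ℝ) + 2) * ‖q.2‖ := by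
          rw [Finset.sum_const, Finset.card_range, nsmul_eq_mul]
          ring
      _ ≤ M / ((n : ℝ) + 2) * ‖q.2‖ := by
          gcongr
          rw [hM]
          have : 0 ≤ m * (a / ν) * A1 := by positivity
          linarith
      _ ≤ δ * ‖q.2‖ := by gcongr

end Pool.Agent.T2h23.GY.CD
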