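import Pool.Agent.T2h23.GY.Stm

set_option autoImplicit false
set_option linter.unusedSectionVars false
set_option linter.unusedVariables false

/-!
Task CI: calculus of the curl and of the cross product.
-/

open MeasureTheory Set Filter Topology
open scoped InnerProductSpace ENNReal ContDiff NNReal

namespace Pool.Agent.T2h23.GY.CI

open Pool.Agent.T2h23.GY
open H772R2.NS (graphW tensL E3 M3 L2V L2M IsTest jac ev inner_E3 inner_M3 norm_sq_E3 norm_sq_M3
  jac_apply contDiff_coord fderiv_coord hasCompactSupport_coord)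

theorem crl0 (φ : E3 → E3) (x : E3) :
    crl φ x 0 = fderiv ℝ φ x (ev 1) 2 - fderiv ℝ φ x (ev 2) 1 := rfl
theorem crl1 (φ : E3 → E3) (x : E3) :
    crl φ x 1 = fderiv ℝ φ x (ev 2) 0 - fderiv ℝ φ x (ev 0) 2 := rfl
theorem crl2 (φ : E3 → E3) (x : E3) :
    crl φ x 2 = fderiv ℝ φ x (ev 0) 1 - fderiv ℝ φ x (ev 1) 0 := rfl
theorem cr0 (a b : E3) : cr a b 0 = a 1 * b 2 - a 2 * b 1 := rfl
theorem cr1 (a b : E3) : cr a b 1 = a 2 * b 0 - a 0 * b 2 := rfl
theorem cr2 (a b : E3) : cr a b 2 = a 0 * b 1 - a 1 * b 0 := rfl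

theorem ext3 {a b : E3} (h0 : a 0 = b 0) (h1 : a 1 = b 1) (h2 : a 2 = b 2) : a = b := by
  ext i
  fin_cases i
  · exact h0
  · exact h1
  · exact h2

/-- integration by parts, one of the factors with compact support -/
theorem ibp (f g : E3 → ℝ) (hf : ContDiff ℝ ∞ f) (hg : ContDiff ℝ ∞ g)
    (hgc : HasCompactSupport g) (j : Fin 3) :
    ∫ x, fderiv ℝ f x (ev j) * g x = - ∫ x, f x * fderiv ℝ g x (ev j) := by
  have hdf : Continuous (fun x => fderiv ℝ f x (ev j)) :=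
    (hf.continuous_fderiv (by simp)).clm_apply continuous_const
  have hdg : Continuous (fun x => fderiv ℝ g x (ev j)) :=
    (hg.continuous_fderiv (by simp)).clm_apply continuous_const
  have hdgc : HasCompactSupport (fun x => fderiv ℝ g x (ev j)) := hgc.fderiv_apply ℝ _
  rw [integral_mul_fderiv_eq_neg_fderiv_mul_of_integrable, neg_neg]
  · exact (hdf.mul hg.continuous).integrable_of_hasCompactSupport (hgc.mul_left)
  · exact (hf.continuous.mul hdg).integrable_of_hasCompactSupport (hdgc.mul_left)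
  · exact (hf.continuous.mul hg.continuous).integrable_of_hasCompactSupport (hgc.mul_left)
  · intro x _; exact (hf.differentiable (by simp)) x
  · intro x _; exact (hg.differentiable (by simp)) x

theorem int1 (X v : E3 → E3) (hX : ContDiff ℝ ∞ X) (hv : ContDiff ℝ ∞ v)
    (hvc : HasCompactSupport v) (a b c : Fin 3) :
    Integrable (fun x => fderiv ℝ X x (ev a) b * v x c) := by
  have h1 : Continuous (fun x => fderiv ℝ X x (ev a) b) := by
    have h : Continuous (fun x => fderiv ℝ X x (ev a)) :=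
      (hX.continuous_fderiv (by simp)).clm_apply continuous_const
    exact (EuclideanSpace.proj (𝕜 := ℝ) b : E3 →L[ℝ] ℝ).continuous.comp h
  exact (h1.mul (contDiff_coord hv c).continuous).integrable_of_hasCompactSupport
    ((hasCompactSupport_coord hvc c).mul_left)

theorem int2 (X v : E3 → E3) (hX : ContDiff ℝ ∞ X) (hv : ContDiff ℝ ∞ v)
    (hvc : HasCompactSupport v) (a b c : Fin 3) :
    Integrable (fun x => X x b * fderiv ℝ v x (ev a) c) := by
  have h1 : Continuous (fun x => fderiv ℝ v x (ev a) c) := by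
    have h : Continuous (fun x => fderiv ℝ v x (ev a)) :=
      (hv.continuous_fderiv (by simp)).clm_apply continuous_const
    exact (EuclideanSpace.proj (𝕜 := ℝ) c : E3 →L[ℝ] ℝ).continuous.comp h
  have h2 : HasCompactSupport (fun x => fderiv ℝ v x (ev a)) := hvc.fderiv_apply ℝ _
  have h3 : HasCompactSupport (fun x => fderiv ℝ v x (ev a) c) := by
    refine h2.mono (fun x hx => ?_)
    intro h0
    apply hx
    have h0' : fderiv ℝ v x (ev a) = 0 := h0
    simp [h0']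
  exact ((contDiff_coord hX b).continuous.mul h1).integrable_of_hasCompactSupport
    (h3.mul_left)

theorem ibp2 (X v : E3 → E3) (hX : ContDiff ℝ ∞ X) (hv : ContDiff ℝ ∞ v)
    (hvc : HasCompactSupport v) (a b c : Fin 3) :
    ∫ x, fderiv ℝ X x (ev a) b * v x c = - ∫ x, X x b * fderiv ℝ v x (ev a) c := by
  have h := ibp (fun x => X x b) (fun x => v x c) (contDiff_coord hX b) (contDiff_coord hv c)
    (hasCompactSupport_coord hvc c) a
  simp only [fderiv_coord hX, fderiv_coord hv] at h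
  exact h

theorem int6 {f1 f2 f3 f4 f5 f6 : E3 → ℝ} (h1 : Integrable f1) (h2 : Integrable f2)
    (h3 : Integrable f3) (h4 : Integrable f4) (h5 : Integrable f5) (h6 : Integrable f6) :
    ∫ x, ((f1 x - f2 x) + (f3 x - f4 x) + (f5 x - f6 x))
      = ((∫ x, f1 x) - ∫ x, f2 x) + ((∫ x, f3 x) - ∫ x, f4 x) + ((∫ x, f5 x) - ∫ x, f6 x) := by
  have e : (fun x => (f1 x - f2 x) + (f3 x - f4 x) + (f5 x - f6 x))
      = (f1 - f2) + (f3 - f4) + (f5 - f6) := rfl
  rw [e, integral_add' ((h1.sub h2).add (h3.sub h4)) (h5.sub h6),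
    integral_add' (h1.sub h2) (h3.sub h4), integral_sub' h1 h2, integral_sub' h3 h4,
    integral_sub' h5 h6]

theorem part1 (X v : E3 → E3) (hX : ContDiff ℝ ∞ X) (hv : ContDiff ℝ ∞ v)
    (hvc : HasCompactSupport v) :
    ∫ x, ⟪crl X x, v x⟫_ℝ = ∫ x, ⟪X x, crl v x⟫_ℝ := by
  have i1 := int1 X v hX hv hvc
  have i2 := int2 X v hX hv hvc
  have e := ibp2 X v hX hv hvc
  have e1 : ∀ x, ⟪crl X x, v x⟫_ℝ =
      (fderiv ℝ X x (ev 1) 2 * v x 0 - fderiv ℝ X x (ev 2) 1 * v x 0)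
      + (fderiv ℝ X x (ev 2) 0 * v x 1 - fderiv ℝ X x (ev 0) 2 * v x 1)
      + (fderiv ℝ X x (ev 0) 1 * v x 2 - fderiv ℝ X x (ev 1) 0 * v x 2) := by
    intro x
    rw [inner_E3, Fin.sum_univ_three, crl0, crl1, crl2]
    ring
  have e2 : ∀ x, ⟪X x, crl v x⟫_ℝ =
      (X x 0 * fderiv ℝ v x (ev 1) 2 - X x 0 * fderiv ℝ v x (ev 2) 1)
      + (X x 1 * fderiv ℝ v x (ev 2) 0 - X x 1 * fderiv ℝ v x (ev 0) 2)
      + (X x 2 * fderiv ℝ v x (ev 0) 1 - X x 2 * fderiv ℝ v x (ev 1) 0) := by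
    intro x
    rw [inner_E3, Fin.sum_univ_three, crl0, crl1, crl2]
    ring
  simp_rw [e1, e2]
  rw [int6 (i1 1 2 0) (i1 2 1 0) (i1 2 0 1) (i1 0 2 1) (i1 0 1 2) (i1 1 0 2),
    int6 (i2 1 0 2) (i2 2 0 1) (i2 2 1 0) (i2 0 1 2) (i2 0 2 1) (i2 1 2 0)]
  rw [e 1 2 0, e 2 1 0, e 2 0 1, e 0 2 1, e 0 1 2, e 1 0 2]
  ring

theorem part2 (v : E3 → E3) (x : E3) : ‖crl v x‖ ≤ 2 * ‖jac v x‖ := by
  have h : ‖crl v x‖ ^ 2 ≤ (2 * ‖jac v x‖) ^ 2 := by
    rw [mul_pow, norm_sq_E3, norm_sq_M3]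
    simp only [Fin.sum_univ_three, crl0, crl1, crl2, jac_apply]
    nlinarith [sq_nonneg (fderiv ℝ v x (ev 1) 2 + fderiv ℝ v x (ev 2) 1),
      sq_nonneg (fderiv ℝ v x (ev 2) 0 + fderiv ℝ v x (ev 0) 2),
      sq_nonneg (fderiv ℝ v x (ev 0) 1 + fderiv ℝ v x (ev 1) 0),
      sq_nonneg (fderiv ℝ v x (ev 1) 2), sq_nonneg (fderiv ℝ v x (ev 2) 1),
      sq_nonneg (fderiv ℝ v x (ev 2) 0), sq_nonneg (fderiv ℝ v x (ev 0) 2),
      sq_nonneg (fderiv ℝ v x (ev 0) 1), sq_nonneg (fderiv ℝ v x (ev 1) 0),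
      sq_nonneg (fderiv ℝ v x (ev 0) 0), sq_nonneg (fderiv ℝ v x (ev 1) 1),
      sq_nonneg (fderiv ℝ v x (ev 2) 2)]
  exact le_of_sq_le_sq h (by positivity)

theorem part3 (a b : E3) : ‖cr a b‖ ≤ ‖a‖ * ‖b‖ ∧ ⟪cr a b, a⟫_ℝ = 0 ∧ ⟪cr a b, b⟫_ℝ = 0 ∧
    cr a (cr a b) = ⟪a, b⟫_ℝ • a - ‖a‖ ^ 2 • b := by
  refine ⟨?_, ?_, ?_, ?_⟩
  · have h : ‖cr a b‖ ^ 2 ≤ (‖a‖ * ‖b‖) ^ 2 := by
      rw [mul_pow, norm_sq_E3, norm_sq_E3, norm_sq_E3]
      simp only [Fin.sum_univ_three, cr0, cr1, cr2]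
      nlinarith [sq_nonneg (a 0 * b 0 + a 1 * b 1 + a 2 * b 2)]
    exact le_of_sq_le_sq h (by positivity)
  · rw [inner_E3]
    simp only [Fin.sum_univ_three, cr0, cr1, cr2]
    ring
  · rw [inner_E3]
    simp only [Fin.sum_univ_three, cr0, cr1, cr2]
    ring
  · rw [inner_E3, norm_sq_E3]
    apply ext3
    · simp only [Fin.sum_univ_three, cr0, cr1, cr2, PiLp.sub_apply, PiLp.smul_apply, smul_eq_mul]
      ring
    · simp only [Fin.sum_univ_three, cr0, cr1, cr2, PiLp.sub_apply, PiLp.smul_apply, smul_eq_mul]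
      ring
    · simp only [Fin.sum_univ_three, cr0, cr1, cr2, PiLp.sub_apply, PiLp.smul_apply, smul_eq_mul]
      ring

theorem grad_apply (f : E3 → ℝ) (x : E3) (i : Fin 3) :
    gradient f x i = fderiv ℝ f x (ev i) := by
  have h : ⟪gradient f x, ev i⟫_ℝ = fderiv ℝ f x (ev i) := by
    rw [gradient]
    exact InnerProductSpace.toDual_symm_apply
  rw [← h, EuclideanSpace.inner_single_right]
  simp

theorem part4 (f : E3 → ℝ) (φ : E3 → E3) (x : E3) (hf : ContDiff ℝ ∞ f) (hφ : ContDiff ℝ ∞ φ) :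
    crl (fun y => f y • φ y) x = cr (gradient f x) (φ x) + f x • crl φ x := by
  have h1 : DifferentiableAt ℝ f x := (hf.differentiable (by simp)) x
  have h2 : DifferentiableAt ℝ φ x := (hφ.differentiable (by simp)) x
  have h3 : ∀ v : E3, ∀ i : Fin 3, fderiv ℝ (fun y => f y • φ y) x v i
      = f x * fderiv ℝ φ x v i + fderiv ℝ f x v * φ x i := by
    intro v i
    rw [fderiv_fun_smul h1 h2]
    simp
  apply ext3
  · rw [crl0, h3, h3, PiLp.add_apply, PiLp.smul_apply, cr0, crl0, grad_apply, grad_apply,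
      smul_eq_mul]
    ring
  · rw [crl1, h3, h3, PiLp.add_apply, PiLp.smul_apply, cr1, crl1, grad_apply, grad_apply,
      smul_eq_mul]
    ring
  · rw [crl2, h3, h3, PiLp.add_apply, PiLp.smul_apply, cr2, crl2, grad_apply, grad_apply,
      smul_eq_mul]
    ring

/-- the partial derivatives -/
theorem contDiff_pd {φ : E3 → E3} (h : ContDiff ℝ ∞ φ) (v : E3) :
    ContDiff ℝ ∞ (fun x => fderiv ℝ φ x v) :=
  (h.fderiv_right (m := ∞) (by norm_num)).clm_apply contDiff_const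

theorem contDiff_crl {φ : E3 → E3} (h : ContDiff ℝ ∞ φ) : ContDiff ℝ ∞ (crl φ) := by
  rw [contDiff_euclidean]
  intro i
  exact (contDiff_coord (contDiff_pd h _) _).sub (contDiff_coord (contDiff_pd h _) _)

theorem crl_eq_zero {φ : E3 → E3} {x : E3} (h : fderiv ℝ φ x = 0) : crl φ x = 0 := by
  apply ext3
  · rw [crl0, h]; simp
  · rw [crl1, h]; simp
  · rw [crl2, h]; simp

theorem tsupport_crl_subset {φ : E3 → E3} : tsupport (crl φ) ⊆ tsupport φ := by
  refine closure_minimal ?_ (isClosed_tsupport φ)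
  intro x hx
  by_contra hcon
  have h0 : fderiv ℝ φ x = 0 := by
    have : x ∉ tsupport (fderiv ℝ φ) := fun h => hcon (tsupport_fderiv_subset ℝ h)
    exact image_eq_zero_of_notMem_tsupport this
  exact hx (crl_eq_zero h0)

theorem hasCompactSupport_crl {φ : E3 → E3} (h : HasCompactSupport φ) :
    HasCompactSupport (crl φ) :=
  h.of_isClosed_subset (isClosed_tsupport _) tsupport_crl_subset

/-- the second derivatives commute -/
theorem sym2 {φ : E3 → E3} (h : ContDiff ℝ ∞ φ) (x v w : E3) :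
    fderiv ℝ (fun y => fderiv ℝ φ y v) x w = fderiv ℝ (fun y => fderiv ℝ φ y w) x v := by
  have h1 : DifferentiableAt ℝ (fderiv ℝ φ) x :=
    ((h.fderiv_right (m := ∞) (by norm_num)).differentiable (by simp)) x
  have h2 : ∀ v w : E3, fderiv ℝ (fun y => fderiv ℝ φ y v) x w = fderiv ℝ (fderiv ℝ φ) x w v := by
    intro v w
    have := fderiv_clm_apply (𝕜 := ℝ) h1 (differentiableAt_const v)
    rw [this]
    simp
  rw [h2, h2]
  have h3 : IsSymmSndFDerivAt ℝ φ x := (h.contDiffAt).isSymmSndFDerivAt (by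
    rw [minSmoothness_of_isRCLikeNormedField]
    exact ENat.LEInfty.out)
  exact h3 w v

theorem part5 (Ω : Set E3) (X : E3 → E3) (hX : ContDiff ℝ ∞ X) (hXc : HasCompactSupport X)
    (hs : tsupport X ⊆ Ω) : IsTest Ω (crl X) := by
  refine ⟨contDiff_crl hX, hasCompactSupport_crl hXc, tsupport_crl_subset.trans hs, ?_⟩
  intro x
  have h1 : ∀ (j k i : Fin 3), fderiv ℝ (fun y => fderiv ℝ X y (ev j) k) x (ev i)
      = fderiv ℝ (fun y => fderiv ℝ X y (ev j)) x (ev i) k := by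
    intro j k i
    exact fderiv_coord (contDiff_pd hX (ev j)) k x (ev i)
  have hd : ∀ (j k : Fin 3), DifferentiableAt ℝ (fun y => fderiv ℝ X y (ev j) k) x := by
    intro j k
    exact ((contDiff_coord (contDiff_pd hX (ev j)) k).differentiable (by simp)) x
  have h2 : ∀ (i : Fin 3), jac (crl X) x (i, i)
      = fderiv ℝ (fun y => fderiv ℝ X y (ev (i + 1))) x (ev i) (i + 2)
        - fderiv ℝ (fun y => fderiv ℝ X y (ev (i + 2))) x (ev i) (i + 1) := by
    intro i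
    rw [jac_apply, ← fderiv_coord (contDiff_crl hX)]
    have : (fun y => crl X y i) = fun y => fderiv ℝ X y (ev (i + 1)) (i + 2)
        - fderiv ℝ X y (ev (i + 2)) (i + 1) := rfl
    rw [this, fderiv_fun_sub (hd _ _) (hd _ _), ← h1, ← h1]
    rfl
  rw [Fin.sum_univ_three, h2, h2, h2]
  have s := sym2 hX x
  have e0 : (0 : Fin 3) + 1 = 1 := rfl
  have e1 : (0 : Fin 3) + 2 = 2 := rfl
  have e2 : (1 : Fin 3) + 1 = 2 := rfl
  have e3 : (1 : Fin 3) + 2 = 0 := rfl
  have e4 : (2 : Fin 3) + 1 = 0 := rfl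
  have e5 : (2 : Fin 3) + 2 = 1 := rfl
  rw [e0, e1, e2, e3, e4, e5, s (ev 1) (ev 0), s (ev 2) (ev 0), s (ev 2) (ev 1)]
  ring

theorem t_CI : S_ci :=
  ⟨part1, part2, part3, part4, part5⟩

end Pool.Agent.T2h23.GY.CI
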