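import Pool.Agent.T2h23.GY.Stm
import Pool.Agent.T2h23.A1

/-!
Project GY, task CM: energy comparison with an approximate solution.
-/

set_option autoImplicit false

open MeasureTheory Set Filter
open scoped InnerProductSpace ENNReal ContDiff

namespace Pool.Agent.T2h23.GY.CM

open Pool.Agent.T2h23.GY
open H772R2.NSR (Frame prim_cont)
open H772R2.NSG (ii_of_int int_inner mem_cont)
open Pool.Agent.W790.TQ (sq_prim)
open Pool.Agent.T2h23 (gron_sq)
open Pool.Agent.W795.TQ (Str FH Univ S_loc)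

/-- Young's inequality -/
theorem young (ν l a b : ℝ) (hν : 0 < ν) :
    l * (a * b ^ 3) ≤ ν / 4 * b ^ 4 + 8 * l ^ 4 / ν ^ 3 * a ^ 4 := by
  have h1 : l * (a * b ^ 3) ≤ 2 / ν * (l * a * b) ^ 2 + ν / 8 * (b ^ 2) ^ 2 := by
    have h2 : 0 ≤ 2 / ν * (l * a * b - ν / 4 * b ^ 2) ^ 2 := by positivity
    have h3 : 2 / ν * (l * a * b - ν / 4 * b ^ 2) ^ 2
        = 2 / ν * (l * a * b) ^ 2 + ν / 8 * (b ^ 2) ^ 2 - l * (a * b ^ 3) := by
      field_simp
      ring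
    linarith
  have h4 : 2 / ν * (l * a * b) ^ 2 ≤ 8 * l ^ 4 / ν ^ 3 * a ^ 4 + ν / 8 * (b ^ 2) ^ 2 := by
    have h2 : 0 ≤ 2 / ν * (2 * l ^ 2 / ν * a ^ 2 - ν / 4 * b ^ 2) ^ 2 := by positivity
    have h3 : 2 / ν * (2 * l ^ 2 / ν * a ^ 2 - ν / 4 * b ^ 2) ^ 2
        = 8 * l ^ 4 / ν ^ 3 * a ^ 4 + ν / 8 * (b ^ 2) ^ 2 - 2 / ν * (l * a * b) ^ 2 := by
      field_simp
      ring
    linarith
  have h5 : (b ^ 2) ^ 2 = b ^ 4 := by ring
  rw [h5] at h1 h4
  linarith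

theorem t_CM (heq : S_eq) : S_cm := by
  intro c C ν M T hc hC hν hM hT
  set k : ℝ := 8 * (c * M) ^ 4 / ν ^ 3 with hk
  have hk0 : 0 ≤ k := by positivity
  set A1 : ℝ := (1 + 8 * T / ν) * Real.exp (2 * (k * T) + 1) with hA1
  have hA10 : 0 ≤ A1 := by positivity
  set A2 : ℝ := (1 + 2 * k * A1 * T + 8 * T / ν) / ν with hA2
  have hA20 : 0 < A2 := by positivity
  refine ⟨A1 + A2, by positivity, ?_⟩
  intro H K _ _ _ _ _ _ W m B Z S δ τ F F' V V1 u u1 D z z1 hG hS hδ hτ hτT hF hF' hA hP h0 hFF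
  obtain ⟨hu, hz, hmu, hae⟩ := heq H K W m B Z S c C ν 0 τ F' u u1 z z1 hG hτ hF' hP
  have hsub : Icc (0 : ℝ) τ ⊆ Icc 0 T := Icc_subset_Icc_right hτT
  have hsubo : Ioc (0 : ℝ) τ ⊆ Ioc 0 T := Ioc_subset_Ioc_right hτT
  have hm1 : volume.restrict (Ioc 0 τ) ≤ (volume.restrict (Ioc 0 T) : Measure ℝ) :=
    Measure.restrict_mono hsubo le_rfl
  have hV1 : MemLp V1 2 (volume.restrict (Ioc 0 τ)) := hA.V1m.mono_measure hm1
  have hw1 : MemLp (fun s => u1 s - V1 s) 2 (volume.restrict (Ioc 0 τ)) := hP.u1m.sub hV1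
  have hwp : ∀ a b, 0 ≤ a → a ≤ b → b ≤ τ →
      (fun s => u s - V s) b - (fun s => u s - V s) a = ∫ s in a..b, (fun s => u1 s - V1 s) s := by
    intro a b ha hab hb
    have i1 : IntervalIntegrable u1 volume a b :=
      ii_of_int (hP.u1m.integrable (by norm_num)) ha hab hb
    have i2 : IntervalIntegrable V1 volume a b :=
      ii_of_int (hV1.integrable (by norm_num)) ha hab hb
    have e1 := hP.pu a b ha hab hb
    have e2 := hA.pV a b ha hab (hb.trans hτT)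
    change u b - V b - (u a - V a) = ∫ s in a..b, (u1 s - V1 s)
    rw [intervalIntegral.integral_sub i1 i2, ← e1, ← e2]
    abel
  have hDc : ContinuousOn D (Icc 0 τ) := hA.Dc.mono hsub
  -- the differential inequality
  have hdiff : ∀ᵐ s ∂(volume.restrict (Ioc 0 τ)),
      ⟪u1 s - V1 s, u s - V s⟫_ℝ + ν / 2 * ‖z s - D s‖ ^ 2
        ≤ k * ‖u s - V s‖ ^ 2 + 4 / ν * δ ^ 2 := by
    filter_upwards [hae, ae_mono hm1 hA.res, ae_restrict_mem measurableSet_Ioc] with s h1 h2 hs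
    have hsI : s ∈ Icc (0 : ℝ) τ := Ioc_subset_Icc_self hs
    have hsT : s ∈ Icc (0 : ℝ) T := hsub hsI
    have hpu := hP.mem s hsI
    have hpV := hA.mem s hsT
    have hp : ((u s, z s) : H × K) - (V s, D s) ∈ W := W.sub_mem hpu hpV
    have hp' : ((u s - V s, z s - D s) : H × K) ∈ W := hp
    have e1 := h1 _ hp'
    have e2 := h2 _ hp'
    have e3 := hG.fr.anti _ hpu _ hpV
    dsimp only at e1 e2 e3
    have e4 := hS (u s - V s)
    have e5 : |⟪m (u s - V s), D s⟫_ℝ| ≤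
        c * M * (Real.sqrt ‖u s - V s‖ * Real.sqrt ‖z s - D s‖ ^ 3) := by
      have g1 := hG.un.quart _ hp'
      dsimp only at g1
      calc |⟪m (u s - V s), D s⟫_ℝ| ≤ ‖m (u s - V s)‖ * ‖D s‖ := abs_real_inner_le_norm _ _
        _ ≤ (c * (Real.sqrt ‖u s - V s‖ * Real.sqrt ‖z s - D s‖ ^ 3)) * M := by
            gcongr
            exact hA.bd s hsT
        _ = _ := by ring
    have e6 := young ν (c * M) (Real.sqrt ‖u s - V s‖) (Real.sqrt ‖z s - D s‖) hν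
    have e7 : Real.sqrt ‖u s - V s‖ ^ 4 = ‖u s - V s‖ ^ 2 := by
      rw [show (4 : ℕ) = 2 * 2 by norm_num, pow_mul, Real.sq_sqrt (norm_nonneg _)]
    have e8 : Real.sqrt ‖z s - D s‖ ^ 4 = ‖z s - D s‖ ^ 2 := by
      rw [show (4 : ℕ) = 2 * 2 by norm_num, pow_mul, Real.sq_sqrt (norm_nonneg _)]
    rw [e7, e8] at e6
    have e9 : ⟪F' s - F s, z s - D s⟫_ℝ ≤ δ * ‖z s - D s‖ :=
      (real_inner_le_norm _ _).trans (by gcongr; exact hFF s hsI)
    have e10 : ⟪u1 s - V1 s, u s - V s⟫_ℝ = ⟪u1 s, u s - V s⟫_ℝ - ⟪V1 s, u s - V s⟫_ℝ :=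
      inner_sub_left _ _ _
    have e11 : ⟪F' s - ν • z s + m (u s), z s - D s⟫_ℝ - ⟪F s - ν • D s + m (V s), z s - D s⟫_ℝ
        = ⟪F' s - F s, z s - D s⟫_ℝ - ν * ‖z s - D s‖ ^ 2 + ⟪m (u s) - m (V s), z s - D s⟫_ℝ := by
      rw [← inner_sub_left, ← real_inner_self_eq_norm_sq, ← real_inner_smul_left,
        ← inner_sub_left, ← inner_add_left]
      congr 1
      rw [smul_sub]
      abel
    have e12 : ⟪S (u s) + (0 : ℝ) • u s, u s - V s⟫_ℝ = ⟪S (V s), u s - V s⟫_ℝ := by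
      rw [zero_smul, add_zero]
      rw [map_sub, inner_sub_left] at e4
      linarith
    rw [e12] at e1
    have e13 := (abs_le.1 e2).1
    have e14 := (abs_le.1 e5).2
    have e15 := neg_abs_le (⟪m (u s - V s), D s⟫_ℝ)
    have e16 : 2 * δ * ‖z s - D s‖ ≤ 4 / ν * δ ^ 2 + ν / 4 * ‖z s - D s‖ ^ 2 := by
      have g1 : 0 ≤ 4 / ν * (δ - ν / 4 * ‖z s - D s‖) ^ 2 := by positivity
      have g2 : 4 / ν * (δ - ν / 4 * ‖z s - D s‖) ^ 2
          = 4 / ν * δ ^ 2 + ν / 4 * ‖z s - D s‖ ^ 2 - 2 * δ * ‖z s - D s‖ := by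
        field_simp
        ring
      linarith
    rw [e10]
    linarith
  have hfin : IsFiniteMeasure (volume.restrict (Ioc 0 τ) : Measure ℝ) := by
    rw [isFiniteMeasure_restrict]
    simp
  -- the bound of the norm
  have key1 : ∀ t ∈ Icc 0 τ, ‖u t - V t‖ ^ 2 ≤ A1 * δ ^ 2 := by
    intro t ht
    have hm2 : volume.restrict (Ioc 0 t) ≤ (volume.restrict (Ioc 0 τ) : Measure ℝ) :=
      Measure.restrict_mono (Ioc_subset_Ioc_right ht.2) le_rfl
    have hfin2 : IsFiniteMeasure (volume.restrict (Ioc 0 t) : Measure ℝ) := by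
      rw [isFiniteMeasure_restrict]
      simp
    have hg : ∀ Γ : ℝ, 0 < Γ → ‖u t - V t‖ ^ 2 ≤
        (‖u 0 - V 0‖ ^ 2 + 2 * (4 / ν * δ ^ 2 * T) + Γ ^ 2) * Real.exp (2 * (k * T) + 1) := by
      intro Γ hΓ
      have h1 := gron_sq (T := t) ht.1 (f := fun s => u s - V s) (f1 := fun s => u1 s - V1 s)
        (hw1.mono_measure hm2) (fun a b ha hab hb => hwp a b ha hab (hb.trans ht.2))
        (β := fun _ => k) (κ := fun _ => 4 / ν * δ ^ 2) (γ := fun _ => 0)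
        (fun _ => hk0) (fun _ => by positivity) (fun _ => le_rfl)
        (integrable_const _) (integrable_const _) (integrable_const _)
        (L := k * T) (Q := 4 / ν * δ ^ 2 * T) (Γ := Γ) ?_ ?_ ?_ hΓ ?_
      · exact h1
      · rw [intervalIntegral.integral_const, smul_eq_mul, sub_zero, mul_comm]
        have := ht.2.trans hτT
        gcongr
      · rw [intervalIntegral.integral_const, smul_eq_mul, sub_zero, mul_comm]
        have := ht.2.trans hτT
        gcongr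
      · rw [intervalIntegral.integral_const, smul_eq_mul, mul_zero]
        exact hΓ.le
      · filter_upwards [ae_mono hm2 hdiff] with s hs
        have : 0 ≤ ν / 2 * ‖z s - D s‖ ^ 2 := by positivity
        linarith
    have hg' : ‖u t - V t‖ ^ 2 ≤
        (‖u 0 - V 0‖ ^ 2 + 2 * (4 / ν * δ ^ 2 * T)) * Real.exp (2 * (k * T) + 1) := by
      refine ge_of_tendsto (f := fun Γ : ℝ => (‖u 0 - V 0‖ ^ 2 + 2 * (4 / ν * δ ^ 2 * T) + Γ ^ 2) *
        Real.exp (2 * (k * T) + 1)) (x := nhdsWithin 0 (Ioi 0)) ?_ ?_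
      · have h1 : Continuous fun Γ : ℝ => (‖u 0 - V 0‖ ^ 2 + 2 * (4 / ν * δ ^ 2 * T) + Γ ^ 2) *
          Real.exp (2 * (k * T) + 1) := by fun_prop
        have h2 := (h1.tendsto 0).mono_left (nhdsWithin_le_nhds (s := Ioi 0))
        simpa using h2
      · filter_upwards [self_mem_nhdsWithin] with Γ hΓ
        exact hg Γ hΓ
    refine hg'.trans ?_
    have h1 : ‖u 0 - V 0‖ ^ 2 ≤ δ ^ 2 := by gcongr
    have h2 : ‖u 0 - V 0‖ ^ 2 + 2 * (4 / ν * δ ^ 2 * T) ≤ (1 + 8 * T / ν) * δ ^ 2 := by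
      have h3 : (1 + 8 * T / ν) * δ ^ 2 = δ ^ 2 + 2 * (4 / ν * δ ^ 2 * T) := by
        field_simp
        ring
      rw [h3]
      linarith
    calc _ ≤ (1 + 8 * T / ν) * δ ^ 2 * Real.exp (2 * (k * T) + 1) := by gcongr
      _ = A1 * δ ^ 2 := by rw [hA1]; ring
  intro t ht
  refine ⟨(key1 t ht).trans ?_, ?_⟩
  · have : 0 ≤ A2 * δ ^ 2 := by positivity
    linarith [add_mul A1 A2 (δ ^ 2)]
  · have e1 := sq_prim hw1 hwp le_rfl ht.1 ht.2
    have hwc : ContinuousOn (fun s => u s - V s) (Icc 0 τ) := prim_cont hw1 hwp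
    have hzc : ContinuousOn (fun s => z s - D s) (Icc 0 τ) := hz.sub hDc
    have i0 : Integrable (fun s => 2 * ⟪u1 s - V1 s, u s - V s⟫_ℝ) (volume.restrict (Ioc 0 τ)) :=
      (int_inner hw1 (mem_cont hwc)).const_mul 2
    have i1 : Integrable (fun s => ν * ‖z s - D s‖ ^ 2) (volume.restrict (Ioc 0 τ)) := by
      have h3 : Integrable (fun s => ⟪z s - D s, z s - D s⟫_ℝ) (volume.restrict (Ioc 0 τ)) :=
        int_inner (mem_cont hzc) (mem_cont hzc)
      refine (h3.const_mul ν).congr (Eventually.of_forall fun s => ?_)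
      dsimp only
      rw [real_inner_self_eq_norm_sq]
    have h2 : ∫ s in (0 : ℝ)..t, (2 * ⟪u1 s - V1 s, u s - V s⟫_ℝ + ν * ‖z s - D s‖ ^ 2)
        ≤ ∫ s in (0 : ℝ)..t, (2 * k * (A1 * δ ^ 2) + 8 / ν * δ ^ 2) := by
      rw [intervalIntegral.integral_of_le ht.1, intervalIntegral.integral_of_le ht.1]
      have hm2 : volume.restrict (Ioc 0 t) ≤ (volume.restrict (Ioc 0 τ) : Measure ℝ) :=
        Measure.restrict_mono (Ioc_subset_Ioc_right ht.2) le_rfl
      have hfin2 : IsFiniteMeasure (volume.restrict (Ioc 0 t) : Measure ℝ) := by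
        rw [isFiniteMeasure_restrict]
        simp
      refine integral_mono_ae ((i0.add i1).mono_measure hm2) (integrable_const _) ?_
      filter_upwards [ae_mono hm2 hdiff, ae_restrict_mem measurableSet_Ioc] with s hs hst
      have h3 := key1 s ⟨hst.1.le, hst.2.trans ht.2⟩
      have h4 : k * ‖u s - V s‖ ^ 2 ≤ k * (A1 * δ ^ 2) := by gcongr
      have h5 : 8 / ν * δ ^ 2 = 2 * (4 / ν * δ ^ 2) := by ring
      rw [h5]
      linarith
    rw [intervalIntegral.integral_add (ii_of_int i0 le_rfl ht.1 ht.2)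
      (ii_of_int i1 le_rfl ht.1 ht.2), ← e1, intervalIntegral.integral_const_mul,
      intervalIntegral.integral_const, smul_eq_mul, sub_zero] at h2
    have h6 : ‖u 0 - V 0‖ ^ 2 ≤ δ ^ 2 := by gcongr
    have h7 : t * (2 * k * (A1 * δ ^ 2) + 8 / ν * δ ^ 2) ≤
        T * (2 * k * (A1 * δ ^ 2) + 8 / ν * δ ^ 2) := by
      have := ht.2.trans hτT
      gcongr
    have h8 : 0 ≤ ‖u t - V t‖ ^ 2 := by positivity
    have h9 : ν * (∫ s in (0 : ℝ)..t, ‖z s - D s‖ ^ 2) ≤ ν * (A2 * δ ^ 2) := by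
      have h10 : ν * (A2 * δ ^ 2) = δ ^ 2 + T * (2 * k * (A1 * δ ^ 2) + 8 / ν * δ ^ 2) := by
        rw [hA2]
        field_simp
        ring
      rw [h10]
      linarith
    have h11 := le_of_mul_le_mul_left h9 hν
    have : 0 ≤ A1 * δ ^ 2 := by positivity
    linarith [add_mul A1 A2 (δ ^ 2)]

end Pool.Agent.T2h23.GY.CM
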