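import Pool.Agent.T2h23.GY.Stm
import Pool.Agent.T2h23.A1

/-!
Project GY, task CW: adding the correctors to the piecewise linear interpolation.
-/

set_option autoImplicit false

open MeasureTheory Set Filter
open scoped InnerProductSpace ENNReal ContDiff

namespace Pool.Agent.T2h23.GY.CW

open Pool.Agent.T2h23.GY
open H772R2.NSR (Frame prim_cont)
open Pool.Agent.W795.TQ (Str FH Univ S_loc)

/-- the cell of a time -/
theorem cell (T : ℝ) (N : ℕ) (hT : 0 < T) (hN : 0 < N) (t : ℝ) (ht : t ∈ Icc 0 T) :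
    ∃ j : ℕ, j < N ∧ ∃ θ ∈ Icc (0 : ℝ) 1, t = ((j : ℝ) + θ) * (T / N) ∧
      ∀ (E : Type) [NormedAddCommGroup E] [NormedSpace ℝ E] (P : ℕ → E),
        pli T N P t = (1 - θ) • P j + θ • P (j + 1) ∧
        (t < T → pli1 T N P t = ((N : ℝ) / T) • (P (j + 1) - P j)) := by
  have hN' : (0 : ℝ) < N := Nat.cast_pos.2 hN
  rcases ht.2.lt_or_eq with h | h
  · have hx0 : 0 ≤ t * N / T := div_nonneg (mul_nonneg ht.1 hN'.le) hT.le
    have hxN : t * N / T < N := by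
      rw [div_lt_iff₀ hT]
      nlinarith
    refine ⟨⌊t * N / T⌋₊, (Nat.floor_lt hx0).2 hxN, t * N / T - (⌊t * N / T⌋₊ : ℝ),
      ⟨sub_nonneg.2 (Nat.floor_le hx0), ?_⟩, ?_, ?_⟩
    · have := Nat.lt_floor_add_one (t * N / T)
      linarith
    · field_simp
      ring
    · intro E _ _ P
      exact ⟨rfl, fun _ => rfl⟩
  · subst h
    obtain ⟨N', rfl⟩ : ∃ N', N = N' + 1 := ⟨N - 1, by omega⟩
    refine ⟨N', by omega, 1, ⟨zero_le_one, le_rfl⟩, ?_, ?_⟩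
    · push_cast at hN' ⊢
      field_simp
    · intro E _ _ P
      refine ⟨?_, fun h => absurd h (lt_irrefl _)⟩
      have h1 : t * ((N' + 1 : ℕ) : ℝ) / t = ((N' + 1 : ℕ) : ℝ) := by
        field_simp
      rw [pli, h1, Nat.floor_natCast]
      simp

theorem conv_norm {E : Type} [NormedAddCommGroup E] [NormedSpace ℝ E] {a b : E} {R θ : ℝ}
    (ha : ‖a‖ ≤ R) (hb : ‖b‖ ≤ R) (h0 : 0 ≤ θ) (h1 : θ ≤ 1) : ‖(1 - θ) • a + θ • b‖ ≤ R := by
  calc ‖(1 - θ) • a + θ • b‖ ≤ ‖(1 - θ) • a‖ + ‖θ • b‖ := norm_add_le _ _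
    _ = (1 - θ) * ‖a‖ + θ * ‖b‖ := by
        rw [norm_smul, norm_smul, Real.norm_of_nonneg (sub_nonneg.2 h1), Real.norm_of_nonneg h0]
    _ ≤ (1 - θ) * R + θ * R := by
        have := sub_nonneg.2 h1
        gcongr
    _ = R := by ring

/-- the choice of `δ` -/
theorem exists_delta (η C L x : ℝ) (hη : 0 < η) (hC : 0 < C) (hL : 0 < L) (hx : 0 < x) :
    ∃ δ : ℝ, 0 < δ ∧ δ ≤ 1 ∧ δ ≤ η / 4 ∧ x * (2 * δ * C) ≤ η / 4 ∧
      C * (δ * L ^ 3 * (2 * L) ^ 4) ≤ (η / 4) ^ 4 := by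
  refine ⟨min (min 1 (η / 4)) (min (η / (8 * x * C)) ((η / 4) ^ 4 / (C * (L ^ 3 * (2 * L) ^ 4)))),
    ?_, ?_, ?_, ?_, ?_⟩
  · have h1 : 0 < η / (8 * x * C) := by positivity
    have h2 : 0 < (η / 4) ^ 4 / (C * (L ^ 3 * (2 * L) ^ 4)) := by positivity
    have h3 : 0 < η / 4 := by positivity
    exact lt_min (lt_min one_pos h3) (lt_min h1 h2)
  · exact (min_le_left _ _).trans (min_le_left _ _)
  · exact (min_le_left _ _).trans (min_le_right _ _)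
  · have h1 : min (min 1 (η / 4)) (min (η / (8 * x * C)) ((η / 4) ^ 4 / (C * (L ^ 3 * (2 * L) ^ 4))))
        ≤ η / (8 * x * C) := (min_le_right _ _).trans (min_le_left _ _)
    rw [le_div_iff₀ (by positivity)] at h1
    linarith
  · have h1 : min (min 1 (η / 4)) (min (η / (8 * x * C)) ((η / 4) ^ 4 / (C * (L ^ 3 * (2 * L) ^ 4))))
        ≤ (η / 4) ^ 4 / (C * (L ^ 3 * (2 * L) ^ 4)) := (min_le_right _ _).trans (min_le_right _ _)
    rw [le_div_iff₀ (by positivity)] at h1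
    calc _ = _ * (C * (L ^ 3 * (2 * L) ^ 4)) := by ring
      _ ≤ _ := h1

theorem t_CW (hpli : S_pli) (hpl : S_pl) : S_cw := by
  intro H K _ _ _ _ _ _ W m B Z S c C ν κ T Λ η F F1 u u1 z z1 hG hκ hT hη hFH hP hΛ hCor
  obtain ⟨N, hN, hpl'⟩ := hpl H K W m B Z c C ν κ T (η / 4) F F1 u u1 z z1 hG hκ hT
    (by positivity) hFH hP
  have hN' : (0 : ℝ) < N := Nat.cast_pos.2 hN
  have hν := hG.ν0
  have hC := hG.C0
  have hΛ0 : 0 ≤ Λ := (norm_nonneg _).trans (hΛ 0 ⟨le_rfl, hT.le⟩)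
  obtain ⟨r, hr⟩ : ∃ r, r = Real.sqrt (κ / ν) := ⟨_, rfl⟩
  have hr0 : 0 ≤ r := hr ▸ Real.sqrt_nonneg _
  obtain ⟨L, hL⟩ : ∃ L, L = Λ + r * (C * Λ) + 1 := ⟨_, rfl⟩
  have hL0 : 0 < L := by rw [hL]; positivity
  rw [← hr, ← hL]
  obtain ⟨δ, hδ0, hδ1, hδ2, hδ3, hδ4⟩ := exists_delta η C L (N / T) hη hC hL0 (by positivity)
  -- the points
  let p : ℕ → H × K := fun j => if j ≤ N then (u (j * (T / N)), z (j * (T / N))) else 0
  have hpin : ∀ j, j ≤ N → ((j : ℝ) * (T / N)) ∈ Icc 0 T := by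
    intro j hj
    have hj' : (j : ℝ) ≤ N := Nat.cast_le.2 hj
    refine ⟨by positivity, ?_⟩
    calc (j : ℝ) * (T / N) ≤ N * (T / N) := by gcongr
      _ = T := by field_simp
  have hpj : ∀ j, j ≤ N → p j = (u (j * (T / N)), z (j * (T / N))) := fun j hj => if_pos hj
  have hpW : ∀ j, p j ∈ W := by
    intro j
    by_cases hj : j ≤ N
    · rw [hpj j hj]
      exact hP.mem _ (hpin j hj)
    · change (if j ≤ N then _ else (0 : H × K)) ∈ W
      rw [if_neg hj]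
      exact W.zero_mem
  have hpz : ∀ j, ‖(p j).2‖ ≤ Λ := by
    intro j
    by_cases hj : j ≤ N
    · rw [hpj j hj]
      exact hΛ _ (hpin j hj)
    · change ‖(if j ≤ N then _ else (0 : H × K)).2‖ ≤ Λ
      rw [if_neg hj]
      simpa using hΛ0
  have hpu : ∀ j, ‖(p j).1‖ ≤ C * Λ := by
    intro j
    refine (hG.fr.poinc _ (hpW j)).trans ?_
    have := hpz j
    gcongr
  choose n0 hn0 using fun j => hCor (p j) (hpW j) δ hδ0
  refine ⟨(Finset.range (N + 1)).sup n0, fun n hn => ?_⟩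
  have hw : ∀ j, ∃ w ∈ W, ‖w.1‖ ≤ δ ∧ ‖w.2‖ ≤ r * (C * Λ) + δ ∧ (j ≤ N →
      ∀ q ∈ W, |ν * ⟪w.2, q.2⟫_ℝ + ⟪S n ((p j).1 + w.1), q.1⟫_ℝ - κ * ⟪(p j).1, q.1⟫_ℝ|
        ≤ δ * ‖q.2‖) := by
    intro j
    by_cases hj : j ≤ N
    · have h1 : n0 j ≤ n := (Finset.le_sup (f := n0) (Finset.mem_range.2 (by omega))).trans hn
      obtain ⟨w, hwW, h2, h3, h4⟩ := hn0 j n h1
      refine ⟨w, hwW, h2, ?_, fun _ => h4⟩
      rw [← hr] at h3
      refine h3.trans ?_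
      have := hpu j
      gcongr
    · refine ⟨0, W.zero_mem, ?_, ?_, fun h => absurd h hj⟩
      · simpa using hδ0.le
      · have : 0 ≤ r * (C * Λ) + δ := by positivity
        simpa using this
  choose w hwW hw1 hw2 hw3 using hw
  have hcell := cell T N hT hN
  have hFV := hpli H T N (fun j => (p j + w j).1) hT hN
  have hFD := hpli K T N (fun j => (p j + w j).2) hT hN
  have hP2 : ∀ j, ‖(p j + w j).2‖ ≤ L := by
    intro j
    calc ‖(p j + w j).2‖ ≤ ‖(p j).2‖ + ‖(w j).2‖ := norm_add_le _ _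
      _ ≤ Λ + (r * (C * Λ) + δ) := add_le_add (hpz j) (hw2 j)
      _ ≤ L := by rw [hL]; linarith
  refine ⟨pli T N (fun j => (p j + w j).1), pli1 T N (fun j => (p j + w j).1),
    pli T N (fun j => (p j + w j).2), ⟨?_, hFV.memLp, hFV.prim, prim_cont hFD.memLp hFD.prim,
      ?_, ?_⟩, ?_⟩
  · -- mem
    intro t ht
    obtain ⟨j, hj, θ, hθ, -, hcl⟩ := hcell t ht
    rw [(hcl H _).1, (hcl K _).1]
    have h1 : (1 - θ) • (p j + w j) + θ • (p (j + 1) + w (j + 1)) ∈ W :=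
      W.add_mem (W.smul_mem _ (W.add_mem (hpW j) (hwW j)))
        (W.smul_mem _ (W.add_mem (hpW _) (hwW _)))
    exact h1
  · -- bound
    intro t ht
    obtain ⟨j, hj, θ, hθ, -, hcl⟩ := hcell t ht
    rw [(hcl K _).1]
    exact conv_norm (hP2 j) (hP2 (j + 1)) hθ.1 hθ.2
  · -- residual
    have hne : ∀ᵐ s ∂(volume.restrict (Ioc 0 T)), s ≠ T := by
      refine ae_restrict_of_ae ?_
      exact compl_mem_ae_iff.2 (measure_singleton T)
    filter_upwards [hne, ae_restrict_mem measurableSet_Ioc] with t htT ht q hq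
    have htI : t ∈ Icc 0 T := Ioc_subset_Icc_self ht
    obtain ⟨j, hj, θ, hθ, htj, hcl⟩ := hcell t htI
    have htlt : t < T := lt_of_le_of_ne ht.2 htT
    rw [(hcl H _).1, (hcl K _).1, (hcl H _).2 htlt]
    have hres := (hpl' j hj θ hθ).2.2 q hq
    rw [← htj] at hres
    have hpj1 : p j = (u (j * (T / N)), z (j * (T / N))) := hpj j hj.le
    have hpj2 : p (j + 1) = (u (((j : ℝ) + 1) * (T / N)), z (((j : ℝ) + 1) * (T / N))) := by
      rw [hpj (j + 1) hj]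
      push_cast
      rfl
    have a1 : u ((j : ℝ) * (T / N)) = (p j).1 := by rw [hpj1]
    have a2 : z ((j : ℝ) * (T / N)) = (p j).2 := by rw [hpj1]
    have a3 : u (((j : ℝ) + 1) * (T / N)) = (p (j + 1)).1 := by rw [hpj2]
    have a4 : z (((j : ℝ) + 1) * (T / N)) = (p (j + 1)).2 := by rw [hpj2]
    rw [a1, a2, a3, a4] at hres
    have hc1 := hw3 j hj.le q hq
    have hc2 := hw3 (j + 1) hj q hq
    -- the corrector of the interpolation
    obtain ⟨φ, hφ⟩ : ∃ φ : H × K, φ = (1 - θ) • p j + θ • p (j + 1) := ⟨_, rfl⟩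
    obtain ⟨ww, hww⟩ : ∃ ww : H × K, ww = (1 - θ) • w j + θ • w (j + 1) := ⟨_, rfl⟩
    have hφW : φ ∈ W := by
      rw [hφ]
      exact W.add_mem (W.smul_mem _ (hpW j)) (W.smul_mem _ (hpW _))
    have hwwW : ww ∈ W := by
      rw [hww]
      exact W.add_mem (W.smul_mem _ (hwW j)) (W.smul_mem _ (hwW _))
    have hφ1 : φ.1 = (1 - θ) • (p j).1 + θ • (p (j + 1)).1 := by rw [hφ]; rfl
    have hφ2 : φ.2 = (1 - θ) • (p j).2 + θ • (p (j + 1)).2 := by rw [hφ]; rfl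
    have hww1 : ww.1 = (1 - θ) • (w j).1 + θ • (w (j + 1)).1 := by rw [hww]; rfl
    have hww2 : ww.2 = (1 - θ) • (w j).2 + θ • (w (j + 1)).2 := by rw [hww]; rfl
    have b1 : (1 - θ) • (p j + w j).1 + θ • (p (j + 1) + w (j + 1)).1 = φ.1 + ww.1 := by
      rw [hφ1, hww1, Prod.fst_add, Prod.fst_add, smul_add, smul_add]
      abel
    have b2 : (1 - θ) • (p j + w j).2 + θ • (p (j + 1) + w (j + 1)).2 = φ.2 + ww.2 := by
      rw [hφ2, hww2, Prod.snd_add, Prod.snd_add, smul_add, smul_add]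
      abel
    rw [b1, b2]
    rw [← hφ1, ← hφ2] at hres
    have hθ1 : 0 ≤ 1 - θ := sub_nonneg.2 hθ.2
    -- the friction
    have hfr : |ν * ⟪ww.2, q.2⟫_ℝ + ⟪S n (φ.1 + ww.1), q.1⟫_ℝ - κ * ⟪φ.1, q.1⟫_ℝ| ≤ δ * ‖q.2‖ := by
      have e1 : ν * ⟪ww.2, q.2⟫_ℝ + ⟪S n (φ.1 + ww.1), q.1⟫_ℝ - κ * ⟪φ.1, q.1⟫_ℝ
          = (1 - θ) * (ν * ⟪(w j).2, q.2⟫_ℝ + ⟪S n ((p j).1 + (w j).1), q.1⟫_ℝ
              - κ * ⟪(p j).1, q.1⟫_ℝ)
            + θ * (ν * ⟪(w (j + 1)).2, q.2⟫_ℝ + ⟪S n ((p (j + 1)).1 + (w (j + 1)).1), q.1⟫_ℝ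
              - κ * ⟪(p (j + 1)).1, q.1⟫_ℝ) := by
        rw [hww2, hφ1, hww1]
        simp only [map_add, map_smul, inner_add_left, real_inner_smul_left]
        ring
      rw [e1]
      calc _ ≤ |(1 - θ) * (ν * ⟪(w j).2, q.2⟫_ℝ + ⟪S n ((p j).1 + (w j).1), q.1⟫_ℝ
              - κ * ⟪(p j).1, q.1⟫_ℝ)|
            + |θ * (ν * ⟪(w (j + 1)).2, q.2⟫_ℝ + ⟪S n ((p (j + 1)).1 + (w (j + 1)).1), q.1⟫_ℝ
              - κ * ⟪(p (j + 1)).1, q.1⟫_ℝ)| := abs_add_le _ _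
        _ ≤ (1 - θ) * (δ * ‖q.2‖) + θ * (δ * ‖q.2‖) := by
            rw [abs_mul, abs_mul, abs_of_nonneg hθ1, abs_of_nonneg hθ.1]
            have := hθ.1
            gcongr
        _ = δ * ‖q.2‖ := by ring
    -- the time derivative of the corrector
    have htd : |⟪((N : ℝ) / T) • ((w (j + 1)).1 - (w j).1), q.1⟫_ℝ| ≤ η / 4 * ‖q.2‖ := by
      have g1 : ‖(w (j + 1)).1 - (w j).1‖ ≤ 2 * δ :=
        (norm_sub_le _ _).trans (by linarith [hw1 j, hw1 (j + 1)])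
      calc |⟪((N : ℝ) / T) • ((w (j + 1)).1 - (w j).1), q.1⟫_ℝ|
          ≤ ‖((N : ℝ) / T) • ((w (j + 1)).1 - (w j).1)‖ * ‖q.1‖ := abs_real_inner_le_norm _ _
        _ ≤ (N / T * (2 * δ)) * (C * ‖q.2‖) := by
            rw [norm_smul, Real.norm_of_nonneg (by positivity : (0 : ℝ) ≤ N / T)]
            have := hG.fr.poinc q hq
            gcongr
        _ = N / T * (2 * δ * C) * ‖q.2‖ := by ring
        _ ≤ η / 4 * ‖q.2‖ := by gcongr
    -- the nonlinearity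
    have hnl : |⟪m (φ.1 + ww.1) - m φ.1, q.2⟫_ℝ| ≤ η / 4 * ‖q.2‖ := by
      refine (abs_real_inner_le_norm _ _).trans ?_
      gcongr
      have g0 := hG.fr.lips (φ + ww) (W.add_mem hφW hwwW) φ hφW
      have g1 : (φ + ww).1 - φ.1 = ww.1 := by rw [Prod.fst_add]; abel
      have g2 : (φ + ww).2 - φ.2 = ww.2 := by rw [Prod.snd_add]; abel
      rw [g1, g2, Prod.fst_add] at g0
      have g3 : ‖ww.1‖ ≤ δ := by rw [hww1]; exact conv_norm (hw1 j) (hw1 _) hθ.1 hθ.2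
      have g4 : ‖ww.2‖ ≤ L := by
        rw [hww2]
        refine (conv_norm (hw2 j) (hw2 _) hθ.1 hθ.2).trans ?_
        rw [hL]
        linarith
      have g5 : ‖φ.2‖ ≤ L := by
        rw [hφ2]
        refine (conv_norm (hpz j) (hpz _) hθ.1 hθ.2).trans ?_
        rw [hL]
        have : 0 ≤ r * (C * Λ) := by positivity
        linarith
      have g6 : ‖(φ + ww).2‖ ≤ L := by
        rw [Prod.snd_add, ← b2]
        exact conv_norm (hP2 j) (hP2 _) hθ.1 hθ.2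
      have g7 : ‖m (φ.1 + ww.1) - m φ.1‖ ^ 4 ≤ (η / 4) ^ 4 := by
        refine g0.trans (le_trans ?_ hδ4)
        have : ‖(φ + ww).2‖ + ‖φ.2‖ ≤ 2 * L := by linarith
        gcongr
      exact le_of_pow_le_pow_left₀ (by norm_num) (by positivity) g7
    -- the sum
    have hsum : ⟪((N : ℝ) / T) • ((p (j + 1) + w (j + 1)).1 - (p j + w j).1), q.1⟫_ℝ
        - ⟪F t - ν • (φ.2 + ww.2) + m (φ.1 + ww.1), q.2⟫_ℝ + ⟪S n (φ.1 + ww.1), q.1⟫_ℝ
        = (⟪((N : ℝ) / T) • ((p (j + 1)).1 - (p j).1), q.1⟫_ℝ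
            - ⟪F t - ν • φ.2 + m φ.1, q.2⟫_ℝ + κ * ⟪φ.1, q.1⟫_ℝ)
          + ⟪((N : ℝ) / T) • ((w (j + 1)).1 - (w j).1), q.1⟫_ℝ
          - ⟪m (φ.1 + ww.1) - m φ.1, q.2⟫_ℝ
          + (ν * ⟪ww.2, q.2⟫_ℝ + ⟪S n (φ.1 + ww.1), q.1⟫_ℝ - κ * ⟪φ.1, q.1⟫_ℝ) := by
      rw [Prod.fst_add, Prod.fst_add]
      simp only [inner_add_left, inner_sub_left, real_inner_smul_left, smul_add]
      ring
    rw [hsum]
    calc _ ≤ |⟪((N : ℝ) / T) • ((p (j + 1)).1 - (p j).1), q.1⟫_ℝ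
            - ⟪F t - ν • φ.2 + m φ.1, q.2⟫_ℝ + κ * ⟪φ.1, q.1⟫_ℝ|
          + |⟪((N : ℝ) / T) • ((w (j + 1)).1 - (w j).1), q.1⟫_ℝ|
          + |⟪m (φ.1 + ww.1) - m φ.1, q.2⟫_ℝ|
          + |ν * ⟪ww.2, q.2⟫_ℝ + ⟪S n (φ.1 + ww.1), q.1⟫_ℝ - κ * ⟪φ.1, q.1⟫_ℝ| := by
            refine (abs_add_le _ _).trans (add_le_add_left ?_ _)
            refine (abs_sub _ _).trans (add_le_add_left ?_ _)
            exact abs_add_le _ _
      _ ≤ η / 4 * ‖q.2‖ + η / 4 * ‖q.2‖ + η / 4 * ‖q.2‖ + δ * ‖q.2‖ := by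
            gcongr
      _ ≤ η / 4 * ‖q.2‖ + η / 4 * ‖q.2‖ + η / 4 * ‖q.2‖ + η / 4 * ‖q.2‖ := by
            gcongr
      _ = η * ‖q.2‖ := by ring
  · -- distance
    intro t ht
    obtain ⟨j, hj, θ, hθ, htj, hcl⟩ := hcell t ht
    rw [(hcl H _).1]
    have hres := (hpl' j hj θ hθ).1
    rw [← htj] at hres
    have hpj1 : p j = (u (j * (T / N)), z (j * (T / N))) := hpj j hj.le
    have hpj2 : p (j + 1) = (u (((j : ℝ) + 1) * (T / N)), z (((j : ℝ) + 1) * (T / N))) := by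
      rw [hpj (j + 1) hj]
      push_cast
      rfl
    have a1 : u ((j : ℝ) * (T / N)) = (p j).1 := by rw [hpj1]
    have a3 : u (((j : ℝ) + 1) * (T / N)) = (p (j + 1)).1 := by rw [hpj2]
    rw [a1, a3] at hres
    have e1 : (1 - θ) • (p j + w j).1 + θ • (p (j + 1) + w (j + 1)).1 - u t
        = ((1 - θ) • (p j).1 + θ • (p (j + 1)).1 - u t)
          + ((1 - θ) • (w j).1 + θ • (w (j + 1)).1) := by
      rw [Prod.fst_add, Prod.fst_add, smul_add, smul_add]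
      abel
    rw [e1]
    calc _ ≤ η / 4 + δ := (norm_add_le _ _).trans
          (add_le_add hres (conv_norm (hw1 j) (hw1 _) hθ.1 hθ.2))
      _ ≤ η := by linarith

end Pool.Agent.T2h23.GY.CW
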