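import Pool.Agent.T2h23.GY.U2

/-!
Project GY, task CX (helper2): the product of a wave with the corrector of another wave.
-/

set_option autoImplicit false

open MeasureTheory Set
open scoped InnerProductSpace ENNReal ContDiff

namespace Pool.Agent.T2h23.GY.CX

open Pool.Agent.T2h23.GY Pool.Agent.T2h23.GY.U2
open H772R2.NS (graphW tensL E3 L2V L2M IsTest)
open Pool.Agent.Y303.LV (cl clj)

variable {Ω : Set E3}

/-- the unit vectors -/
noncomputable abbrev uv (j : Fin 3) : E3 := EuclideanSpace.single j 1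

theorem inner_uv (N : ℝ) (j : Fin 3) (x : E3) : ⟪N • uv j, x⟫_ℝ = N * x j := by
  rw [real_inner_smul_left, EuclideanSpace.inner_single_left]
  simp

theorem xi_norm {N N' : ℝ} (s : ℝ) (hs : |s| = 1) (hN : 1 ≤ N) (h : 2 * N ≤ N') (i j : Fin 3) :
    N' / 2 ≤ ‖N' • uv i + (s * N) • uv j‖ := by
  have h1 : ‖N' • uv i‖ = N' := by
    rw [norm_smul, Real.norm_of_nonneg (by linarith)]
    simp
  have h2 : ‖(s * N) • uv j‖ = N := by
    rw [norm_smul, norm_mul, Real.norm_eq_abs, hs, Real.norm_of_nonneg (by linarith)]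
    simp
  have h3 := norm_sub_le_norm_add (N' • uv i) ((s * N) • uv j)
  rw [h1, h2] at h3
  linarith

/-- the oscillating field -/
noncomputable def of (ξ : E3) (θ : ℝ) (ψ : E3 → E3) (x : E3) : E3 := Real.cos (⟪ξ, x⟫_ℝ + θ) • ψ x

theorem CC_of (ξ : E3) (θ : ℝ) {ψ : E3 → E3} (h : CC ψ) : CC (of ξ θ ψ) :=
  CC.smul (f := fun x => Real.cos (⟪ξ, x⟫_ℝ + θ)) (by fun_prop) h

/-- the product of a wave with the corrector -/
theorem prod_eq (N N' : ℝ) (hN : N ≠ 0) (i j : Fin 3) (φ : E3 → E3) (x : E3)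
    (h : wc N j φ x = -(1 / N ^ 2) •
    ((N * Real.cos (N * x j)) • cr (EuclideanSpace.single j 1) (φ x)
      + Real.sin (N * x j) • crl φ x)) :
    cr (gw 1 N' i x) (wc N j φ x) =
      (-(N' / N) * (Real.cos (N' * x i) * Real.cos (N * x j))) • cr (uv i) (cr (uv j) (φ x)) +
      (-(N' / N ^ 2) * (Real.cos (N' * x i) * Real.sin (N * x j))) • cr (uv i) (crl φ x) := by
  rw [h, gw_eq, cr_smul_left, cr_smul_right, cr_add_right, cr_smul_right, cr_smul_right,
    smul_add, smul_add, smul_smul, smul_smul, smul_smul, smul_smul]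
  congr 2
  · field_simp
  · field_simp

theorem prod_osc (N N' : ℝ) (i j : Fin 3) (ψ1 ψ2 : E3 → E3) (x : E3) :
      (-(N' / N) * (Real.cos (N' * x i) * Real.cos (N * x j))) • ψ1 x +
      (-(N' / N ^ 2) * (Real.cos (N' * x i) * Real.sin (N * x j))) • ψ2 x =
      (-(N' / (2 * N))) • (of (N' • uv i + ((1 : ℝ) * N) • uv j) 0 ψ1 x +
          of (N' • uv i + ((-1 : ℝ) * N) • uv j) 0 ψ1 x) +
        (-(N' / (2 * N ^ 2))) • (of (N' • uv i + ((1 : ℝ) * N) • uv j) (-(Real.pi / 2)) ψ2 x +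
          (-1 : ℝ) • of (N' • uv i + ((-1 : ℝ) * N) • uv j) (-(Real.pi / 2)) ψ2 x) := by
  have e : ∀ s : ℝ, ⟪N' • uv i + (s * N) • uv j, x⟫_ℝ = N' * x i + s * (N * x j) := by
    intro s
    rw [inner_add_left, inner_uv, inner_uv]
    ring
  simp only [of, e]
  have c1 : Real.cos (N' * x i + 1 * (N * x j) + 0) + Real.cos (N' * x i + -1 * (N * x j) + 0) =
      2 * (Real.cos (N' * x i) * Real.cos (N * x j)) := by
    rw [add_zero, add_zero, one_mul, neg_one_mul, ← sub_eq_add_neg, Real.cos_add, Real.cos_sub]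
    ring
  have c2 : Real.cos (N' * x i + 1 * (N * x j) + -(Real.pi / 2)) -
      Real.cos (N' * x i + -1 * (N * x j) + -(Real.pi / 2)) =
      2 * (Real.cos (N' * x i) * Real.sin (N * x j)) := by
    rw [← sub_eq_add_neg, ← sub_eq_add_neg, Real.cos_sub_pi_div_two, Real.cos_sub_pi_div_two,
      one_mul, neg_one_mul, ← sub_eq_add_neg, Real.sin_add, Real.sin_sub]
    ring
  rw [smul_smul, ← add_smul, ← add_smul, smul_smul, smul_smul, c1, neg_one_mul,
    ← sub_eq_add_neg, c2]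
  congr 2
  · by_cases hN : N = 0
    · simp [hN]
    · field_simp
  · by_cases hN : N = 0
    · simp [hN]
    · field_simp

theorem CC_prod (N N' : ℝ) (i j : Fin 3) {ψ1 ψ2 : E3 → E3} (h1 : CC ψ1) (h2 : CC ψ2) :
    CC fun x => (-(N' / N) * (Real.cos (N' * x i) * Real.cos (N * x j))) • ψ1 x +
      (-(N' / N ^ 2) * (Real.cos (N' * x i) * Real.sin (N * x j))) • ψ2 x :=
  CC.add
    (CC.smul (f := fun x : E3 => -(N' / N) * (Real.cos (N' * x i) * Real.cos (N * x j)))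
      (by fun_prop) h1)
    (CC.smul (f := fun x : E3 => -(N' / N ^ 2) * (Real.cos (N' * x i) * Real.sin (N * x j)))
      (by fun_prop) h2)

theorem cl_osc {N N' : ℝ} {i j : Fin 3} {ψ1 ψ2 : E3 → E3} (h1 : CC ψ1) (h2 : CC ψ2) :
    cl Ω (fun x => (-(N' / N) * (Real.cos (N' * x i) * Real.cos (N * x j))) • ψ1 x +
      (-(N' / N ^ 2) * (Real.cos (N' * x i) * Real.sin (N * x j))) • ψ2 x) =
      (-(N' / (2 * N))) • (cl Ω (of (N' • uv i + ((1 : ℝ) * N) • uv j) 0 ψ1) +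
          cl Ω (of (N' • uv i + ((-1 : ℝ) * N) • uv j) 0 ψ1)) +
        (-(N' / (2 * N ^ 2))) •
          (cl Ω (of (N' • uv i + ((1 : ℝ) * N) • uv j) (-(Real.pi / 2)) ψ2) +
          (-1 : ℝ) • cl Ω (of (N' • uv i + ((-1 : ℝ) * N) • uv j) (-(Real.pi / 2)) ψ2)) := by
  have a1 : CC (of (N' • uv i + ((1 : ℝ) * N) • uv j) 0 ψ1) := CC_of _ _ h1
  have a2 : CC (of (N' • uv i + ((-1 : ℝ) * N) • uv j) 0 ψ1) := CC_of _ _ h1
  have a3 : CC (of (N' • uv i + ((1 : ℝ) * N) • uv j) (-(Real.pi / 2)) ψ2) := CC_of _ _ h2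
  have a4 : CC (of (N' • uv i + ((-1 : ℝ) * N) • uv j) (-(Real.pi / 2)) ψ2) := CC_of _ _ h2
  have cst : ∀ c : ℝ, Continuous fun _ : E3 => c := fun c => continuous_const
  have a4' := CC.smul (cst (-1)) a4
  rw [← cl_smul (-1) a4, ← cl_add a1 a2, ← cl_add a3 a4', ← cl_smul _ (CC.add a1 a2),
    ← cl_smul _ (CC.add a3 a4'), ← cl_add (CC.smul (cst _) (CC.add a1 a2))
      (CC.smul (cst _) (CC.add a3 a4'))]
  congr 1
  funext x
  exact prod_osc N N' i j ψ1 ψ2 x

theorem arith {x1 x2 x3 x4 A1 A2 N N' Q : ℝ} (_hA1 : 0 ≤ A1) (hA2 : 0 ≤ A2) (hN : 1 ≤ N)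
    (hN' : 1 ≤ N') (hQ : 0 ≤ Q) (h1 : |x1| ≤ A1 / (N' / 2) * Q) (h2 : |x2| ≤ A1 / (N' / 2) * Q)
    (h3 : |x3| ≤ A2 / (N' / 2) * Q) (h4 : |x4| ≤ A2 / (N' / 2) * Q) :
    |-(N' / (2 * N)) * (x1 + x2) + -(N' / (2 * N ^ 2)) * (x3 + -1 * x4)| ≤
      (2 * A1 + 2 * A2) / N * Q := by
  have hN0 : 0 < N := by linarith
  have hN'0 : 0 < N' := by linarith
  have e1 : |-(N' / (2 * N)) * (x1 + x2)| ≤ 2 * A1 / N * Q := by
    rw [abs_mul, abs_neg, abs_of_nonneg (show 0 ≤ N' / (2 * N) by positivity)]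
    calc N' / (2 * N) * |x1 + x2|
        ≤ N' / (2 * N) * (A1 / (N' / 2) * Q + A1 / (N' / 2) * Q) :=
          mul_le_mul_of_nonneg_left ((abs_add_le _ _).trans (add_le_add h1 h2)) (by positivity)
      _ = 2 * A1 / N * Q := by field_simp; ring
  have e2 : |-(N' / (2 * N ^ 2)) * (x3 + -1 * x4)| ≤ 2 * A2 / N * Q := by
    rw [abs_mul, abs_neg, abs_of_nonneg (show 0 ≤ N' / (2 * N ^ 2) by positivity)]
    have h5 : |x3 + -1 * x4| ≤ A2 / (N' / 2) * Q + A2 / (N' / 2) * Q := by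
      refine (abs_add_le _ _).trans (add_le_add h3 ?_)
      rw [neg_one_mul, abs_neg]
      exact h4
    calc N' / (2 * N ^ 2) * |x3 + -1 * x4|
        ≤ N' / (2 * N ^ 2) * (A2 / (N' / 2) * Q + A2 / (N' / 2) * Q) :=
          mul_le_mul_of_nonneg_left h5 (by positivity)
      _ = (2 * A2 / N * Q) * (1 / N) := by field_simp; ring
      _ ≤ (2 * A2 / N * Q) * 1 := by
          refine mul_le_mul_of_nonneg_left ?_ (by positivity)
          rw [div_le_one hN0]
          exact hN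
      _ = _ := mul_one _
  calc _ ≤ 2 * A1 / N * Q + 2 * A2 / N * Q := (abs_add_le _ _).trans (add_le_add e1 e2)
    _ = _ := by ring

theorem t_CX (hci : S_ci) (hwf : S_wf) (hos : S_os) : S_cx := by
  intro Ω hΩ hb C hC hP φ hφ
  have hφc : CC φ := ⟨hφ.smooth.continuous, hφ.compact⟩
  have hcrl : IsTest Ω (crl φ) := hci.2.2.2.2 Ω φ hφ.smooth hφ.compact hφ.supp
  have hcc : CC (crl φ) := ⟨hcrl.smooth.continuous, hcrl.compact⟩
  have k1 : ∀ i j : Fin 3, CC fun x => cr (uv i) (cr (uv j) (φ x)) := fun i j =>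
    CC.cr (uv i) (CC.cr (uv j) hφc)
  have k2 : ∀ i : Fin 3, CC fun x => cr (uv i) (crl φ x) := fun i => CC.cr (uv i) hcc
  choose M1 hM1 hM1' using fun i j => (k1 i j).bdd
  choose M2 hM2 hM2' using fun i => (k2 i).bdd
  choose A1 hA1 hA1' using fun i j : Fin 3 => hos Ω hΩ hb C hC hP
    (fun x => cr (uv i) (cr (uv j) (φ x)))
    (cr_contDiff (uv i) (cr_contDiff (uv j) hφ.smooth)) (k1 i j).2
  choose A2 hA2 hA2' using fun i : Fin 3 => hos Ω hΩ hb C hC hP
    (fun x => cr (uv i) (crl φ x)) (cr_contDiff (uv i) hcrl.smooth) (k2 i).2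
  have hk := kap_nonneg (Ω := Ω)
  have p1 : ∀ i j, 0 ≤ kap Ω * C * M1 i j + 2 * A1 i j := fun i j => by
    have := hM1 i j
    have := hA1 i j
    positivity
  have p2 : ∀ i, 0 ≤ kap Ω * C * M2 i + 2 * A2 i := fun i => by
    have := hM2 i
    have := hA2 i
    positivity
  obtain ⟨A, hA⟩ : ∃ A : ℝ, A = ∑ i, ∑ j, (kap Ω * C * M1 i j + 2 * A1 i j) +
    ∑ i, (kap Ω * C * M2 i + 2 * A2 i) := ⟨_, rfl⟩
  have hle : ∀ i j, (kap Ω * C * M1 i j + 2 * A1 i j) + (kap Ω * C * M2 i + 2 * A2 i) ≤ A := by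
    intro i j
    rw [hA]
    refine add_le_add ?_ ?_
    · refine le_trans ?_ (Finset.single_le_sum (f := fun i => ∑ j, (kap Ω * C * M1 i j + 2 * A1 i j))
        (fun i _ => Finset.sum_nonneg fun j _ => p1 i j) (Finset.mem_univ i))
      exact Finset.single_le_sum (f := fun j => (kap Ω * C * M1 i j + 2 * A1 i j))
        (fun j _ => p1 i j) (Finset.mem_univ j)
    · exact Finset.single_le_sum (f := fun i => (kap Ω * C * M2 i + 2 * A2 i))
        (fun i _ => p2 i) (Finset.mem_univ i)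
  refine ⟨A, ?_, ?_⟩
  · exact (add_nonneg (p1 0 0) (p2 0)).trans (hle 0 0)
  intro N N' i j hN hN' q hq
  have hN0 : 0 < N := by linarith
  have hN'0 : 0 < N' := by linarith
  have hwfj := (hwf Ω φ hφ N j hN0.ne').2
  have e0 : (fun x => cr (gw 1 N' i x) (wc N j φ x)) = fun x =>
      (-(N' / N) * (Real.cos (N' * x i) * Real.cos (N * x j))) • cr (uv i) (cr (uv j) (φ x)) +
      (-(N' / N ^ 2) * (Real.cos (N' * x i) * Real.sin (N * x j))) • cr (uv i) (crl φ x) := by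
    funext x
    exact prod_eq N N' hN0.ne' i j φ x (hwfj x)
  rw [e0]
  have hcc1 := CC_prod N N' i j (k1 i j) (k2 i)
  have hA0 : 0 ≤ A := (add_nonneg (p1 0 0) (p2 0)).trans (hle 0 0)
  have hQ : 0 ≤ ‖q.2‖ := norm_nonneg _
  constructor
  · intro _
    have hb1 : ∀ x : E3,
        ‖(-(N' / N) * (Real.cos (N' * x i) * Real.cos (N * x j))) • cr (uv i) (cr (uv j) (φ x)) +
        (-(N' / N ^ 2) * (Real.cos (N' * x i) * Real.sin (N * x j))) • cr (uv i) (crl φ x)‖ ≤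
        N' / N * (M1 i j + M2 i) := by
      intro x
      have c0 : ∀ a b : ℝ, |a| ≤ 1 → |b| ≤ 1 → |a * b| ≤ 1 := fun a b ha hb => by
        rw [abs_mul]
        exact mul_le_one₀ ha (abs_nonneg _) hb
      have c1 : |Real.cos (N' * x i) * Real.cos (N * x j)| ≤ 1 :=
        c0 _ _ (Real.abs_cos_le_one _) (Real.abs_cos_le_one _)
      have c2 : |Real.cos (N' * x i) * Real.sin (N * x j)| ≤ 1 :=
        c0 _ _ (Real.abs_cos_le_one _) (Real.abs_sin_le_one _)
      have d1 : |-(N' / N) * (Real.cos (N' * x i) * Real.cos (N * x j))| ≤ N' / N := by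
        rw [abs_mul, abs_neg, abs_of_nonneg (show 0 ≤ N' / N by positivity)]
        exact mul_le_of_le_one_right (by positivity) c1
      have d2 : |-(N' / N ^ 2) * (Real.cos (N' * x i) * Real.sin (N * x j))| ≤ N' / N := by
        rw [abs_mul, abs_neg, abs_of_nonneg (show 0 ≤ N' / N ^ 2 by positivity)]
        refine (mul_le_of_le_one_right (by positivity) c2).trans ?_
        apply div_le_div_of_nonneg_left hN'0.le hN0
        nlinarith
      refine (norm_add_le _ _).trans ?_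
      rw [norm_smul, norm_smul, Real.norm_eq_abs, Real.norm_eq_abs, mul_add]
      exact add_le_add (mul_le_mul d1 (hM1' i j x) (norm_nonneg _) (by positivity))
        (mul_le_mul d2 (hM2' i x) (norm_nonneg _) (by positivity))
    have h1 := hM1 i j
    have h2 := hM2 i
    have h3 := hA1 i j
    have h4 := hA2 i
    refine (inner_le hb hC hP hcc1 (by positivity) hb1 hq).trans ?_
    have h5 := hle i j
    have h6 : kap Ω * C * (M1 i j + M2 i) ≤ A := by nlinarith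
    calc kap Ω * C * (N' / N * (M1 i j + M2 i)) * ‖q.2‖
        = (kap Ω * C * (M1 i j + M2 i)) * (N' / N) * ‖q.2‖ := by ring
      _ ≤ A * (N' / N) * ‖q.2‖ := by gcongr
  · intro h2N
    rw [cl_osc (k1 i j) (k2 i)]
    have x1 := xi_norm (N := N) (N' := N') 1 (by norm_num) hN h2N i j
    have x2 := xi_norm (N := N) (N' := N') (-1) (by norm_num) hN h2N i j
    have n1 : N' • uv i + ((1 : ℝ) * N) • uv j ≠ 0 := by
      intro h
      rw [h, norm_zero] at x1
      linarith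
    have n2 : N' • uv i + ((-1 : ℝ) * N) • uv j ≠ 0 := by
      intro h
      rw [h, norm_zero] at x2
      linarith
    have hd : ∀ (a : ℝ) (ξ : E3), 0 ≤ a → N' / 2 ≤ ‖ξ‖ → a / ‖ξ‖ * ‖q.2‖ ≤ a / (N' / 2) * ‖q.2‖ := by
      intro a ξ ha hξ
      gcongr
    have y1 := (hA1' i j _ 0 n1 q hq).trans (hd _ _ (hA1 i j) x1)
    have y2 := (hA1' i j _ 0 n2 q hq).trans (hd _ _ (hA1 i j) x2)
    have y3 := (hA2' i _ (-(Real.pi / 2)) n1 q hq).trans (hd _ _ (hA2 i) x1)
    have y4 := (hA2' i _ (-(Real.pi / 2)) n2 q hq).trans (hd _ _ (hA2 i) x2)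
    rw [inner_add_left, real_inner_smul_left, real_inner_smul_left, inner_add_left,
      inner_add_left, real_inner_smul_left]
    refine (arith (hA1 i j) (hA2 i) hN hN' hQ y1 y2 y3 y4).trans ?_
    have h5 := hle i j
    have h6 : 2 * A1 i j + 2 * A2 i ≤ A := by
      have := hM1 i j
      have := hM2 i
      have : 0 ≤ kap Ω * C * M1 i j := by positivity
      have : 0 ≤ kap Ω * C * M2 i := by positivity
      linarith
    gcongr

end Pool.Agent.T2h23.GY.CX
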