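import Pool.Agent.T2h23.GY.Stm
import Pool.Agent.T2h23.O3

/-!
Project GY, task DEC: the energy with friction.
-/

set_option autoImplicit false
set_option linter.unusedSectionVars false

open MeasureTheory Set Filter Topology
open scoped InnerProductSpace ENNReal ContDiff

namespace Pool.Agent.T2h23.GY.DEC

open Pool.Agent.T2h23.GY
open H772R2.NSR (Frame prim_cont)
open Pool.Agent.W795.TQ (Str FH Univ)

variable {H K : Type} [NormedAddCommGroup H] [InnerProductSpace ℝ H] [CompleteSpace H]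
  [NormedAddCommGroup K] [InnerProductSpace ℝ K] [CompleteSpace K]
  {W : Submodule ℝ (H × K)} {m : H → K} {B : H → H → K} {Z : H →L[ℝ] K} {S : H →L[ℝ] H}
  {c C ν κ T : ℝ} {F F1 : ℝ → K} {u u1 : ℝ → H} {z z1 : ℝ → K}

/-- the derivative of the energy -/
def G (κ ν : ℝ) (F : ℝ → K) (u : ℝ → H) (z : ℝ → K) (s : ℝ) : ℝ :=
  2 * ⟪F s, z s⟫_ℝ - 2 * κ * ‖u s‖ ^ 2 - 2 * ν * ‖z s‖ ^ 2

theorem energy (gs : GS W m B Z c C ν) (hS : ∀ h : H, ⟪S h, h⟫_ℝ = 0)
    (hFc : ContinuousOn F (Icc 0 T)) (huc : ContinuousOn u (Icc 0 T))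
    (hzc : ContinuousOn z (Icc 0 T)) (ps : PS W m Z S κ ν T F u u1 z z1) {t : ℝ}
    (ht : t ∈ Icc 0 T) : ‖u t‖ ^ 2 = ‖u 0‖ ^ 2 + ∫ s in (0 : ℝ)..t, G κ ν F u z s := by
  have he := ps.energy t ht
  have hsub : uIcc 0 t ⊆ Icc 0 T := by
    rw [uIcc_of_le ht.1]
    exact Icc_subset_Icc le_rfl ht.2
  have h1 : ∫ s in (0 : ℝ)..t, ⟪F s - Z (S (u s) + κ • u s), z s⟫_ℝ =
      ∫ s in (0 : ℝ)..t, (⟪F s, z s⟫_ℝ - κ * ‖u s‖ ^ 2) := by
    refine intervalIntegral.integral_congr fun s hs => ?_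
    have h2 := gs.rz (S (u s) + κ • u s) (u s, z s) (ps.mem s (hsub hs))
    simp only at h2 ⊢
    rw [inner_sub_left, h2, inner_add_left, hS, inner_smul_left, real_inner_self_eq_norm_sq]
    simp
  have hin : ContinuousOn (fun s => ⟪F s, z s⟫_ℝ - κ * ‖u s‖ ^ 2) (uIcc 0 t) :=
    ((hFc.inner hzc).sub ((huc.norm.pow 2).const_mul κ)).mono hsub |>.congr fun s _ => by simp
  have hz2 : ContinuousOn (fun s => ‖z s‖ ^ 2) (uIcc 0 t) := (hzc.norm.pow 2).mono hsub
  have h3 : ∫ s in (0 : ℝ)..t, G κ ν F u z s =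
      2 * (∫ s in (0 : ℝ)..t, (⟪F s, z s⟫_ℝ - κ * ‖u s‖ ^ 2)) - 2 * ν * ∫ s in (0 : ℝ)..t, ‖z s‖ ^ 2 := by
    rw [← intervalIntegral.integral_const_mul, ← intervalIntegral.integral_const_mul,
      ← intervalIntegral.integral_sub]
    · refine intervalIntegral.integral_congr fun s _ => ?_
      simp only [G]
      ring
    · exact (hin.const_mul 2).intervalIntegrable |>.congr (by
        intro s _
        simp) |> fun h => h
    · exact (hz2.const_mul (2 * ν)).intervalIntegrable |>.congr (by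
        intro s _
        simp) |> fun h => h
  rw [h1] at he
  rw [h3]
  linarith

theorem G_cont (hFc : ContinuousOn F (Icc 0 T)) (huc : ContinuousOn u (Icc 0 T))
    (hzc : ContinuousOn z (Icc 0 T)) : ContinuousOn (G κ ν F u z) (Icc 0 T) := by
  unfold G
  exact (((hFc.inner hzc).const_smul (2 : ℝ)).sub ((huc.norm.pow 2).const_smul (2 * κ))).sub
    ((hzc.norm.pow 2).const_smul (2 * ν))

theorem core (hal : S_al) (gs : GS W m B Z c C ν) (hS : ∀ h : H, ⟪S h, h⟫_ℝ = 0) (hκ : 0 ≤ κ)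
    (hFc : ContinuousOn F (Icc 0 T)) (huc : ContinuousOn u (Icc 0 T))
    (hzc : ContinuousOn z (Icc 0 T)) (ps : PS W m Z S κ ν T F u u1 z z1) {Φ : ℝ}
    {a : ℝ} (ha : a ∈ Icc 0 T) (hΦ : ∀ s ∈ Icc a T, ‖F s‖ ≤ Φ) {t : ℝ} (ht : t ∈ Icc a T) :
    ‖u t‖ ^ 2 ≤ Real.exp (-(2 * κ * (t - a))) * ‖u a‖ ^ 2 + Φ ^ 2 / ν * al κ (t - a) ∧
      ν * (∫ s in a..t, ‖z s‖ ^ 2) ≤ ‖u a‖ ^ 2 + Φ ^ 2 / ν * (t - a) := by
  have hν := gs.ν0
  have hGc := G_cont (κ := κ) (ν := ν) hFc huc hzc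
  have hE := fun s (hs : s ∈ Icc 0 T) => energy gs hS hFc huc hzc ps hs
  have hi : ∀ x ∈ Icc 0 T, ∀ y ∈ Icc 0 T, IntervalIntegrable (G κ ν F u z) volume x y := by
    intro x hx y hy
    apply ContinuousOn.intervalIntegrable
    apply hGc.mono
    intro s hs
    exact ⟨(le_min hx.1 hy.1).trans hs.1, hs.2.trans (max_le hx.2 hy.2)⟩
  have htT : t ∈ Icc 0 T := ⟨ha.1.trans ht.1, ht.2⟩
  have h0T : (0 : ℝ) ∈ Icc 0 T := ⟨le_rfl, ha.1.trans ha.2⟩
  have hpt : ∀ s ∈ Icc a T, G κ ν F u z s ≤ Φ ^ 2 / ν - ν * ‖z s‖ ^ 2 - 2 * κ * ‖u s‖ ^ 2 := by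
    intro s hs
    have h1 : ⟪F s, z s⟫_ℝ ≤ Φ * ‖z s‖ :=
      (real_inner_le_norm _ _).trans (mul_le_mul_of_nonneg_right (hΦ s hs) (norm_nonneg _))
    have h2 : 0 ≤ (Φ - ν * ‖z s‖) ^ 2 / ν := by positivity
    have h3 : (Φ - ν * ‖z s‖) ^ 2 / ν = Φ ^ 2 / ν - 2 * Φ * ‖z s‖ + ν * ‖z s‖ ^ 2 := by
      field_simp
      ring
    unfold G
    linarith
  constructor
  · -- the decay
    obtain ⟨hal1, hal0, -, -, -, halE, -⟩ := hal κ hκ
    have hexpc : Continuous fun r : ℝ => Real.exp (2 * κ * r) := by fun_prop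
    obtain ⟨ψ, hψ⟩ : ∃ ψ : ℝ → ℝ, ψ = fun s => Real.exp (2 * κ * (s - a)) * ‖u s‖ ^ 2 -
        Φ ^ 2 / ν * ∫ r in (0 : ℝ)..(s - a), Real.exp (2 * κ * r) := ⟨_, rfl⟩
    have hprim : Continuous fun s : ℝ => ∫ r in (0 : ℝ)..(s - a), Real.exp (2 * κ * r) :=
      (intervalIntegral.continuous_primitive (fun x y => hexpc.intervalIntegrable x y) 0).comp
        (by fun_prop)
    have hψc : ContinuousOn ψ (Icc a T) := by
      rw [hψ]
      refine ContinuousOn.sub (ContinuousOn.mul (by fun_prop) ?_) ?_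
      · exact (huc.norm.pow 2).mono (Icc_subset_Icc ha.1 le_rfl)
      · exact (continuous_const.mul hprim).continuousOn
    have hder : ∀ s ∈ interior (Icc a T), HasDerivAt ψ
        (Real.exp (2 * κ * (s - a)) * (2 * κ) * ‖u s‖ ^ 2 + Real.exp (2 * κ * (s - a)) *
          G κ ν F u z s - Φ ^ 2 / ν * Real.exp (2 * κ * (s - a))) s := by
      intro s hs
      rw [interior_Icc] at hs
      have hs0 : s ∈ Ioo 0 T := ⟨lt_of_le_of_lt ha.1 hs.1, hs.2⟩
      have hsT : s ∈ Icc 0 T := ⟨hs0.1.le, hs0.2.le⟩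
      have d1 : HasDerivAt (fun r => ‖u 0‖ ^ 2 + ∫ s in (0 : ℝ)..r, G κ ν F u z s)
          (G κ ν F u z s) s := by
        apply HasDerivAt.const_add
        apply intervalIntegral.integral_hasDerivAt_right (hi 0 h0T s hsT)
        · exact (hGc.mono Ioo_subset_Icc_self).stronglyMeasurableAtFilter isOpen_Ioo s hs0
        · exact hGc.continuousAt (Icc_mem_nhds hs0.1 hs0.2)
      have d2 : HasDerivAt (fun r => ‖u r‖ ^ 2) (G κ ν F u z s) s := by
        apply d1.congr_of_eventuallyEq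
        filter_upwards [Ioo_mem_nhds hs0.1 hs0.2] with r hr
        exact hE r ⟨hr.1.le, hr.2.le⟩
      have d3 : HasDerivAt (fun r : ℝ => Real.exp (2 * κ * (r - a)))
          (Real.exp (2 * κ * (s - a)) * (2 * κ)) s := by
        have d4 : HasDerivAt (fun r : ℝ => 2 * κ * (r - a)) (2 * κ) s := by
          simpa using ((hasDerivAt_id s).sub_const a).const_mul (2 * κ)
        exact d4.exp
      have d5 : HasDerivAt (fun r : ℝ => ∫ x in (0 : ℝ)..(r - a), Real.exp (2 * κ * x))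
          (Real.exp (2 * κ * (s - a))) s := by
        have d6 := (hexpc.integral_hasStrictDerivAt 0 (s - a)).hasDerivAt
        have d7 : HasDerivAt (fun r : ℝ => r - a) 1 s := (hasDerivAt_id s).sub_const a
        have d8 := HasDerivAt.comp s d6 d7
        rw [mul_one] at d8
        exact d8
      rw [hψ]
      have d9 := (d3.mul d2).sub (d5.const_mul (Φ ^ 2 / ν))
      exact d9
    have hanti : AntitoneOn ψ (Icc a T) := by
      apply antitoneOn_of_deriv_nonpos (convex_Icc a T) hψc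
      · intro s hs
        exact (hder s hs).differentiableAt.differentiableWithinAt
      · intro s hs
        rw [(hder s hs).deriv]
        rw [interior_Icc] at hs
        have h1 := hpt s ⟨hs.1.le, hs.2.le⟩
        have h2 : 0 ≤ ν * ‖z s‖ ^ 2 := by positivity
        have h3 : 0 < Real.exp (2 * κ * (s - a)) := Real.exp_pos _
        have h4 : Real.exp (2 * κ * (s - a)) * (2 * κ) * ‖u s‖ ^ 2 + Real.exp (2 * κ * (s - a)) *
          G κ ν F u z s - Φ ^ 2 / ν * Real.exp (2 * κ * (s - a)) =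
          Real.exp (2 * κ * (s - a)) * (2 * κ * ‖u s‖ ^ 2 + G κ ν F u z s - Φ ^ 2 / ν) := by ring
        rw [h4]
        exact mul_nonpos_of_nonneg_of_nonpos h3.le (by linarith)
    have h1 := hanti ⟨le_rfl, ha.2⟩ ht ht.1
    rw [hψ] at h1
    simp only [sub_self, mul_zero, Real.exp_zero, one_mul, intervalIntegral.integral_same,
      sub_zero] at h1
    rw [← halE (t - a)] at h1
    have h2 : Real.exp (-(2 * κ * (t - a))) * Real.exp (2 * κ * (t - a)) = 1 := by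
      rw [← Real.exp_add, neg_add_cancel, Real.exp_zero]
    have h3 : Real.exp (2 * κ * (t - a)) * ‖u t‖ ^ 2 ≤
        ‖u a‖ ^ 2 + Φ ^ 2 / ν * (Real.exp (2 * κ * (t - a)) * al κ (t - a)) := by linarith
    have h4 := mul_le_mul_of_nonneg_left h3 (Real.exp_pos (-(2 * κ * (t - a)))).le
    calc ‖u t‖ ^ 2 = Real.exp (-(2 * κ * (t - a))) * Real.exp (2 * κ * (t - a)) * ‖u t‖ ^ 2 := by
          rw [h2, one_mul]
      _ = Real.exp (-(2 * κ * (t - a))) * (Real.exp (2 * κ * (t - a)) * ‖u t‖ ^ 2) := by ring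
      _ ≤ _ := h4
      _ = Real.exp (-(2 * κ * (t - a))) * ‖u a‖ ^ 2 + Φ ^ 2 / ν *
          (Real.exp (-(2 * κ * (t - a))) * Real.exp (2 * κ * (t - a))) * al κ (t - a) := by ring
      _ = _ := by rw [h2, mul_one]
  · have h1 : ‖u t‖ ^ 2 - ‖u a‖ ^ 2 = ∫ s in a..t, G κ ν F u z s := by
      rw [hE t htT, hE a ha, ← intervalIntegral.integral_add_adjacent_intervals
        (hi 0 h0T a ha) (hi a ha t htT)]
      ring
    have hzi : IntervalIntegrable (fun s => ‖z s‖ ^ 2) volume a t := by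
      apply ContinuousOn.intervalIntegrable
      apply (hzc.norm.pow 2).mono
      rw [uIcc_of_le ht.1]
      exact Icc_subset_Icc ha.1 ht.2
    have h2 : ∫ s in a..t, G κ ν F u z s ≤ ∫ s in a..t, (Φ ^ 2 / ν - ν * ‖z s‖ ^ 2) := by
      apply intervalIntegral.integral_mono_on ht.1 (hi a ha t htT)
      · exact (intervalIntegrable_const).sub (hzi.const_mul ν)
      · intro s hs
        have h3 := hpt s ⟨hs.1, hs.2.trans ht.2⟩
        have h4 : 0 ≤ 2 * κ * ‖u s‖ ^ 2 := by positivity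
        linarith
    rw [intervalIntegral.integral_sub intervalIntegrable_const (hzi.const_mul ν),
      intervalIntegral.integral_const, intervalIntegral.integral_const_mul, smul_eq_mul] at h2
    have h3 : 0 ≤ ‖u t‖ ^ 2 := by positivity
    linarith

theorem t_DEC (hal : S_al) (heq : S_eq) (_ : S_sh) : S_dec := by
  intro H K _ _ _ _ _ _ W m B Z S c C ν κ T Φ F F1 u u1 z z1 gs hS hκ hT hF ps hΦ a ha t ht
  have hFc : ContinuousOn F (Icc 0 T) := prim_cont hF.memLp hF.prim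
  obtain ⟨huc, hzc, -, -⟩ := heq H K W m B Z S c C ν κ T F u u1 z z1 gs hT hFc ps
  obtain ⟨h1, h2⟩ := core hal gs hS hκ hFc huc hzc ps ha
    (fun s hs => hΦ s ⟨ha.1.trans hs.1, hs.2⟩) ht
  refine ⟨h1, h2, fun h0 => ?_⟩
  obtain ⟨h3, h4⟩ := core (Φ := 0) hal gs hS hκ hFc huc hzc ps ha
    (fun s hs => by rw [h0 s hs, norm_zero]) ht
  rw [zero_pow two_ne_zero, zero_div, zero_mul, add_zero] at h3 h4
  refine ⟨?_, h4⟩
  apply le_of_sq_le_sq _ (by positivity)
  rw [mul_pow]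
  refine h3.trans (le_of_eq ?_)
  congr 1
  rw [← Real.exp_nat_mul]
  congr 1
  push_cast
  ring

end Pool.Agent.T2h23.GY.DEC
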