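import Pool.Agent.T2h23.GY.Stm
import Pool.Agent.T2h23.O3

/-!
Project GY, task DMP: large friction.
-/

set_option autoImplicit false
set_option linter.unusedSectionVars false

open MeasureTheory Set Filter Topology
open scoped InnerProductSpace ENNReal ContDiff

namespace Pool.Agent.T2h23.GY.DMP

open Pool.Agent.T2h23.GY
open H772R2.NSR (Frame prim_cont)
open Pool.Agent.W795.TQ (Str FH Univ)

theorem t_DMP (hal : S_al) (heq : S_eq) (_ : S_sh) (hloc : S_loc1) (hgt : S_gt)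
    (hdec : S_dec) : S_dmp := by
  intro c C ν R ε hc hC hν hR hε
  obtain ⟨G1, hG1⟩ : ∃ G1 : ℝ, G1 = R + R / ν + 1 := ⟨_, rfl⟩
  have hRν : 0 < R / ν := by positivity
  have hG10 : 0 < G1 := by rw [hG1]; positivity
  have hRG : R ≤ G1 := by rw [hG1]; linarith
  have hG1s : 1 + R ^ 2 / ν ^ 2 < G1 ^ 2 := by
    have e1 : R ^ 2 / ν ^ 2 = (R / ν) ^ 2 := by rw [div_pow]
    rw [e1, hG1]
    nlinarith
  obtain ⟨σ, Λ, hσ, hΛ, hgt⟩ := hgt c C ν 0 G1 hc hC hν le_rfl hG10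
  obtain ⟨σ', hσ'⟩ : ∃ σ' : ℝ, σ' = min σ (min ε 1) := ⟨_, rfl⟩
  have hσ'0 : 0 < σ' := by rw [hσ']; exact lt_min hσ (lt_min hε one_pos)
  have hσ'σ : σ' ≤ σ := by rw [hσ']; exact min_le_left _ _
  have hσ'ε : σ' ≤ ε := by rw [hσ']; exact (min_le_right _ _).trans (min_le_left _ _)
  obtain ⟨η, hη⟩ : ∃ η : ℝ, η = min (ε ^ 2) (ν * σ' / 2) := ⟨_, rfl⟩
  have hη0 : 0 < η := by rw [hη]; exact lt_min (by positivity) (by positivity)
  have hη1 : η ≤ ε ^ 2 := by rw [hη]; exact min_le_left _ _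
  have hη2 : η ≤ ν * σ' / 2 := by rw [hη]; exact min_le_right _ _
  obtain ⟨κ, hκd⟩ : ∃ κ : ℝ, κ = (C ^ 2 * R ^ 2 / σ' + R ^ 2 / (2 * ν)) / η + 1 := ⟨_, rfl⟩
  have hκ : 0 < κ := by rw [hκd]; positivity
  have hκη : C ^ 2 * R ^ 2 / σ' + R ^ 2 / (2 * ν) ≤ κ * η := by
    rw [hκd, add_mul, div_mul_cancel₀ _ hη0.ne']
    linarith
  refine ⟨κ, Λ, hκ, hΛ, ?_⟩
  intro H K _ _ _ _ _ _ W m B Z T F F1 x0 z0 gs hT dat
  obtain ⟨N, hN⟩ : ∃ N : ℝ, N = max Λ R + 1 := ⟨_, rfl⟩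
  have hNΛ : Λ < N := by rw [hN]; linarith [le_max_left Λ R]
  have hNR : R < N := by rw [hN]; linarith [le_max_right Λ R]
  have hS0 : ∀ h : H, ⟪(0 : H →L[ℝ] H) h, h⟫_ℝ = 0 := fun h => by simp
  obtain ⟨τ, u, u1, z, z1, hτ, hτT, ps, hu0, hend⟩ := hloc H K W m B Z 0 c C ν κ T F F1 x0 z0 N gs
    hS0 hκ.le hT dat.fh dat.mem dat.cpt (lt_of_le_of_lt dat.zb hNR)
  have hz0 : z 0 = z0 := by
    have h1 := gs.fr.uniq ((u 0, z 0) - (x0, z0)) (W.sub_mem (ps.mem 0 ⟨le_rfl, hτ.le⟩) dat.mem)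
      (by simp [hu0])
    exact sub_eq_zero.1 h1
  have hFHτ : FH τ F F1 := Pool.Agent.T2h23.fh_mono hτT dat.fh
  have hFb : ∀ t ∈ Icc 0 τ, ‖F t‖ ≤ R := fun t ht => dat.fb t ⟨ht.1, ht.2.trans hτT⟩
  have hFc : ContinuousOn F (Icc 0 τ) := prim_cont hFHτ.memLp hFHτ.prim
  obtain ⟨huc, hzc, -, -⟩ := heq H K W m B Z 0 c C ν κ τ F u u1 z z1 gs hτ hFc ps
  have hdecτ := hdec H K W m B Z 0 c C ν κ τ R F F1 u u1 z z1 gs hS0 hκ.le hτ hFHτ ps hFb
  obtain ⟨-, -, -, hal4, -, -, -⟩ := hal κ hκ.le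
  have hu0n : ‖u 0‖ ^ 2 ≤ C ^ 2 * R ^ 2 := by
    rw [← mul_pow, hu0]
    apply pow_le_pow_left₀ (norm_nonneg _)
    exact (gs.fr.poinc (x0, z0) dat.mem).trans (mul_le_mul_of_nonneg_left dat.zb hC.le)
  have hu : ∀ t ∈ Icc 0 τ, σ' / 2 ≤ t → ‖u t‖ ^ 2 ≤ η := by
    intro t ht hσt
    have h1 := (hdecτ 0 ⟨le_rfl, hτ.le⟩ t ht).1
    rw [sub_zero] at h1
    have h2 : Real.exp (-(2 * κ * t)) ≤ 1 / (κ * σ') := by
      rw [Real.exp_neg, inv_eq_one_div]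
      apply one_div_le_one_div_of_le (by positivity)
      have h3 := Real.add_one_le_exp (2 * κ * t)
      have h4 : κ * σ' ≤ 2 * κ * t := by nlinarith
      linarith
    have h5 : al κ t ≤ 1 / (2 * κ) := by
      have h6 := (hal4 t ht.1).2.2
      rw [le_div_iff₀ (by positivity)]
      linarith
    have h7 : Real.exp (-(2 * κ * t)) * ‖u 0‖ ^ 2 ≤ 1 / (κ * σ') * (C ^ 2 * R ^ 2) :=
      mul_le_mul h2 hu0n (by positivity) (by positivity)
    have h8 : R ^ 2 / ν * al κ t ≤ R ^ 2 / ν * (1 / (2 * κ)) :=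
      mul_le_mul_of_nonneg_left h5 (by positivity)
    have h9 : 1 / (κ * σ') * (C ^ 2 * R ^ 2) + R ^ 2 / ν * (1 / (2 * κ)) =
        (C ^ 2 * R ^ 2 / σ' + R ^ 2 / (2 * ν)) / κ := by
      field_simp
    have h10 : (C ^ 2 * R ^ 2 / σ' + R ^ 2 / (2 * ν)) / κ ≤ η := by
      rw [div_le_iff₀ hκ]
      linarith
    linarith
  have hgood : ∀ t ∈ Icc 0 τ, σ ≤ t → ∃ s ∈ Icc (t - σ) t, ‖z s‖ ≤ G1 := by
    intro t ht hσt
    by_contra hcon
    push Not at hcon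
    have ha0 : σ' / 2 ≤ t - σ' / 2 := by linarith
    have haI : t - σ' / 2 ∈ Icc 0 τ := ⟨by linarith, by linarith [ht.2]⟩
    have htI : t ∈ Icc (t - σ' / 2) τ := ⟨by linarith, ht.2⟩
    have h1 := (hdecτ (t - σ' / 2) haI t htI).2.1
    have h2 := hu (t - σ' / 2) haI ha0
    have hzi : IntervalIntegrable (fun s => ‖z s‖ ^ 2) volume (t - σ' / 2) t := by
      apply ContinuousOn.intervalIntegrable
      apply (hzc.norm.pow 2).mono
      rw [uIcc_of_le htI.1]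
      exact Icc_subset_Icc haI.1 ht.2
    have h3 : ∫ _ in (t - σ' / 2)..t, G1 ^ 2 ≤ ∫ s in (t - σ' / 2)..t, ‖z s‖ ^ 2 := by
      apply intervalIntegral.integral_mono_on htI.1 intervalIntegrable_const hzi
      intro s hs
      have h4 := hcon s ⟨by linarith [hs.1], hs.2⟩
      exact pow_le_pow_left₀ hG10.le h4.le 2
    rw [intervalIntegral.integral_const, smul_eq_mul] at h3
    have e1 : t - (t - σ' / 2) = σ' / 2 := by ring
    rw [e1] at h3 h1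
    have h5 : ν * (σ' / 2 * G1 ^ 2) ≤ ν * σ' / 2 + R ^ 2 / ν * (σ' / 2) := by
      have := mul_le_mul_of_nonneg_left h3 hν.le
      linarith
    have h6 : ν * σ' / 2 + R ^ 2 / ν * (σ' / 2) = ν * (σ' / 2 * (1 + R ^ 2 / ν ^ 2)) := by
      field_simp
    rw [h6] at h5
    have h7 := le_of_mul_le_mul_left h5 hν
    have h8 := le_of_mul_le_mul_left h7 (by positivity : (0 : ℝ) < σ' / 2)
    linarith
  have hint : (∫ s in (0 : ℝ)..τ, ‖F1 s‖ ^ 2) ≤ G1 ^ 2 := by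
    have hI : IntegrableOn (fun s => ‖F1 s‖ ^ 2) (Ioc 0 T) := dat.fh.memLp.integrable_norm_pow
      (by norm_num)
    have h1 : (∫ s in (0 : ℝ)..τ, ‖F1 s‖ ^ 2) ≤ ∫ s in (0 : ℝ)..T, ‖F1 s‖ ^ 2 := by
      rw [intervalIntegral.integral_of_le hτ.le, intervalIntegral.integral_of_le hT.le]
      apply setIntegral_mono_set hI
      · exact ae_of_all _ fun s => by positivity
      · exact (Ioc_subset_Ioc_right hτT).eventuallyLE
    exact h1.trans (dat.fi.trans (pow_le_pow_left₀ hR.le hRG 2))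
  have hsk : SK W (0 : H →L[ℝ] H) 0 := ⟨le_rfl, hS0, fun p _ q _ => by simp⟩
  have hall := hgt H K W m B Z 0 κ τ F F1 u u1 z z1 gs hsk hκ.le hτ hFHτ ps
    (by rw [hz0]; exact dat.zb.trans hRG) (fun t ht => (hFb t ht).trans hRG) hint hgood
  have hτe : τ = T := by
    rcases hend with h | h
    · exact h
    · exfalso
      have := hall τ ⟨hτ.le, le_rfl⟩
      linarith
  subst hτe
  refine ⟨u, u1, z, z1, ps, hu0, hall, fun t ht hεt => ?_, fun a ha h0 t ht =>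
    ((hdecτ a ha t ht).2.2 h0).1⟩
  apply le_of_sq_le_sq _ hε.le
  exact (hu t ht (by linarith)).trans hη1

end Pool.Agent.T2h23.GY.DMP
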