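import Pool.Agent.T2h23.GY.Stm
import Pool.Agent.T2h23.O3

/-!
Project GY, task EQ: the equation at almost every time; continuity.
-/

set_option autoImplicit false

open MeasureTheory Set
open scoped InnerProductSpace ENNReal ContDiff

namespace Pool.Agent.T2h23.GY.EQ

open H772R2.NSR (Frame)
open Pool.Agent.T2h23.GY
open Pool.Agent.W795.TQ (Str FH Univ)

section

variable {H K : Type} [NormedAddCommGroup H] [InnerProductSpace ℝ H] [CompleteSpace H]
  [NormedAddCommGroup K] [InnerProductSpace ℝ K] [CompleteSpace K]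

/-- the force of a solution with the operator `S` and friction is continuous -/
theorem force_cont {W : Submodule ℝ (H × K)} {m : H → K} {Z : H →L[ℝ] K} {S : H →L[ℝ] H}
    {κ ν T : ℝ} {F : ℝ → K} {u u1 : ℝ → H} {z z1 : ℝ → K} (hF : ContinuousOn F (Icc 0 T))
    (P : PS W m Z S κ ν T F u u1 z z1) :
    ContinuousOn (fun s => F s - Z (S (u s) + κ • u s)) (Icc 0 T) := by
  have huc := (Pool.Agent.T2h23.str_cont P).1
  exact hF.sub (Z.continuous.comp_continuousOn
    ((S.continuous.comp_continuousOn huc).add (huc.const_smul κ)))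

end

theorem t_EQ : S_eq := by
  intro H K _ _ _ _ _ _ W m B Z S c C ν κ T F u u1 z z1 G hT hF P
  obtain ⟨huc, hzc⟩ := Pool.Agent.T2h23.str_cont P
  refine ⟨huc, hzc, Pool.Agent.T2h23.m_cont G.fr P.mem huc hzc, ?_⟩
  filter_upwards [Pool.Agent.T2h23.str_ae G.fr hT (force_cont hF P) P] with s hs p hp
  rw [hs p hp, ← G.rz _ p hp, ← inner_sub_left]
  congr 1
  abel

end Pool.Agent.T2h23.GY.EQ
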