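import Pool.Agent.T2h23.GY.L54

/-! Task FB: the form bound. -/

set_option autoImplicit false

open MeasureTheory Set Filter Topology
open scoped InnerProductSpace ENNReal ContDiff

namespace Pool.Agent.T2h23.GY.FB

open H772R2.NS
open Pool.Agent.Y303.LV (cl clj test_off jac_off integral_restrict_of_off)
open Pool.Agent.W52.TQ (graphW_le)
open L54

/-- `bw` is the gradient of `pot` -/
theorem grad_pot (A : ℝ) (k n : ℕ) (x : E3) : gradient (pot A k n) x = bw A k n x := by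
  refine HasGradientAt.gradient ?_
  rw [hasGradientAt_iff_hasFDerivAt]
  have h1 : ∀ l ∈ Finset.range (3 * k), HasFDerivAt
      (fun y : E3 => Real.sin (((n : ℝ) + 2) ^ (l + 1) * y (ax l)))
      (Real.cos (((n : ℝ) + 2) ^ (l + 1) * x (ax l)) • (((n : ℝ) + 2) ^ (l + 1) •
        (EuclideanSpace.proj (𝕜 := ℝ) (ax l) : E3 →L[ℝ] ℝ))) x := fun l _ =>
    (((EuclideanSpace.proj (𝕜 := ℝ) (ax l) : E3 →L[ℝ] ℝ).hasFDerivAt).const_mul
      (((n : ℝ) + 2) ^ (l + 1))).sin
  have h2 := (HasFDerivAt.fun_sum h1).const_mul A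
  refine h2.congr_fderiv ?_
  ext v
  simp only [bw, gw, map_sum, FunLike.coe_smul, Pi.smul_apply, smul_eq_mul,
    FunLike.coe_sum, Finset.sum_apply, Finset.mul_sum,
    InnerProductSpace.toDual_apply_apply, real_inner_smul_left, PiLp.proj_apply]
  refine Finset.sum_congr rfl fun l _ => ?_
  rw [EuclideanSpace.inner_single_left]
  simp
  ring

theorem pot_smooth (A : ℝ) (k n : ℕ) : ContDiff ℝ ∞ (pot A k n) := by
  unfold pot
  refine contDiff_const.mul (ContDiff.sum fun l _ => ?_)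
  exact Real.contDiff_sin.comp (contDiff_const.mul
    (EuclideanSpace.proj (𝕜 := ℝ) (ax l) : E3 →L[ℝ] ℝ).contDiff)

theorem pot_le {A : ℝ} (hA : 0 ≤ A) (k n : ℕ) (x : E3) : |pot A k n x| ≤ 3 * k * A := by
  unfold pot
  rw [abs_mul, abs_of_nonneg hA]
  have h : |∑ l ∈ Finset.range (3 * k), Real.sin (((n : ℝ) + 2) ^ (l + 1) * x (ax l))|
      ≤ 3 * k := by
    refine (Finset.abs_sum_le_sum_abs _ _).trans ?_
    refine (Finset.sum_le_sum fun l _ => Real.abs_sin_le_one _).trans ?_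
    simp
  calc _ ≤ A * (3 * k) := mul_le_mul_of_nonneg_left h hA
    _ = _ := by ring

theorem continuous_crl {φ : E3 → E3} (hφ : ContDiff ℝ ∞ φ) : Continuous (crl φ) := by
  unfold crl
  refine (PiLp.continuous_toLp 2 _).comp (continuous_pi fun i => ?_)
  have h : ∀ j : Fin 3, Continuous fun x => fderiv ℝ φ x (EuclideanSpace.single j 1) := fun j =>
    (hφ.continuous_fderiv (by simp)).clm_apply continuous_const
  exact ((EuclideanSpace.proj (𝕜 := ℝ) (i + 2) : E3 →L[ℝ] ℝ).continuous.comp (h (i + 1))).sub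
    ((EuclideanSpace.proj (𝕜 := ℝ) (i + 1) : E3 →L[ℝ] ℝ).continuous.comp (h (i + 2)))

theorem int_inner {F G : E3 → E3} (hF : Continuous F) (hG : Continuous G)
    (hc : HasCompactSupport G) : Integrable (fun x => ⟪F x, G x⟫_ℝ) (volume : Measure E3) := by
  refine (hF.inner hG).integrable_of_hasCompactSupport (hc.mono fun x hx h0 => hx ?_)
  simp only [h0, inner_zero_right]

/-- the bound for test fields -/
theorem core (hci : S_ci) {Ω : Set E3} (hm : MeasurableSet Ω) {A C : ℝ} (hA : 0 ≤ A) {k n : ℕ}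
    {p q : L2V Ω × L2M Ω} {u v : E3 → E3} (hu : IsTest Ω u) (hv : IsTest Ω v)
    (hpC : ‖p.1‖ ≤ C * ‖p.2‖) (hqC : ‖q.1‖ ≤ C * ‖q.2‖)
    (p1 : p.1 =ᵐ[volume.restrict Ω] u) (p2 : p.2 =ᵐ[volume.restrict Ω] jac u)
    (q1 : q.1 =ᵐ[volume.restrict Ω] v) (q2 : q.2 =ᵐ[volume.restrict Ω] jac v) :
    |∫ x, ⟪cr (bw A k n x) (u x), v x⟫_ℝ| ≤ 12 * (k : ℝ) * A * C * (‖p.2‖ * ‖q.2‖) := by
  obtain ⟨c1, c2, -, c4, -⟩ := hci
  have hβ := pot_smooth A k n
  have hX : ContDiff ℝ ∞ fun y => pot A k n y • u y := hβ.smul hu.smooth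
  have vc := hv.smooth.continuous
  have cuc := continuous_crl hu.smooth
  have i1 := int_inner (continuous_crl hX) vc hv.compact
  have i2 : Integrable (fun x => ⟪pot A k n x • crl u x, v x⟫_ℝ) (volume : Measure E3) :=
    int_inner (hβ.continuous.smul cuc) vc hv.compact
  have e1 : ∫ x, ⟪cr (bw A k n x) (u x), v x⟫_ℝ
      = ∫ x, (⟪pot A k n x • u x, crl v x⟫_ℝ - ⟪pot A k n x • crl u x, v x⟫_ℝ) := by
    have i3 : Integrable (fun x => ⟪pot A k n x • u x, crl v x⟫_ℝ) (volume : Measure E3) := by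
      have h5 := int_inner (continuous_crl hv.smooth) hX.continuous
        (show HasCompactSupport fun y => pot A k n y • u y from
          hu.compact.mono fun x hx h0 => hx (by simp only [h0, smul_zero]))
      refine h5.congr (Eventually.of_forall fun x => ?_)
      exact real_inner_comm _ _
    rw [integral_sub i3 i2, ← c1 _ _ hX hv.smooth hv.compact, ← integral_sub i1 i2]
    refine integral_congr_ae (Eventually.of_forall fun x => ?_)
    simp only
    rw [c4 _ _ x hβ hu.smooth, grad_pot, ← inner_sub_left, add_sub_cancel_right]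
  rw [e1]
  have hpt : ∀ x, ‖⟪pot A k n x • u x, crl v x⟫_ℝ - ⟪pot A k n x • crl u x, v x⟫_ℝ‖
      ≤ 6 * k * A * (‖u x‖ * ‖jac v x‖ + ‖jac u x‖ * ‖v x‖) := by
    intro x
    have hb := pot_le hA k n x
    have t1 : ‖⟪pot A k n x • u x, crl v x⟫_ℝ‖ ≤ 3 * k * A * (‖u x‖ * (2 * ‖jac v x‖)) := by
      rw [real_inner_smul_left, norm_mul, Real.norm_eq_abs]
      refine mul_le_mul hb ((norm_inner_le_norm _ _).trans ?_) (norm_nonneg _) (by positivity)
      exact mul_le_mul_of_nonneg_left (c2 v x) (norm_nonneg _)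
    have t2 : ‖⟪pot A k n x • crl u x, v x⟫_ℝ‖ ≤ 3 * k * A * ((2 * ‖jac u x‖) * ‖v x‖) := by
      rw [real_inner_smul_left, norm_mul, Real.norm_eq_abs]
      refine mul_le_mul hb ((norm_inner_le_norm _ _).trans ?_) (norm_nonneg _) (by positivity)
      exact mul_le_mul_of_nonneg_right (c2 u x) (norm_nonneg _)
    refine (norm_sub_le _ _).trans ((add_le_add t1 t2).trans_eq ?_)
    ring
  have c5 := cs p.1 q.2
  have c6 := cs p.2 q.1
  have hint : Integrable (fun x => 6 * k * A * (‖u x‖ * ‖jac v x‖ + ‖jac u x‖ * ‖v x‖))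
      (volume : Measure E3) := by
    have h3 := hu.smooth.continuous
    have h4 := continuous_jac hv.smooth
    have h5 := continuous_jac hu.smooth
    have hc : Continuous fun x => 6 * k * A * (‖u x‖ * ‖jac v x‖ + ‖jac u x‖ * ‖v x‖) := by
      fun_prop
    refine hc.integrable_of_hasCompactSupport (hv.compact.mono' ?_)
    intro x hx
    by_contra hcon
    apply hx
    have e1 : v x = 0 := image_eq_zero_of_notMem_tsupport hcon
    have e2 : jac v x = 0 :=
      image_eq_zero_of_notMem_tsupport fun h => hcon (tsupport_jac_subset h)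
    simp only [e1, e2, norm_zero, mul_zero, add_zero]
  have h7 : ∫ x, 6 * k * A * (‖u x‖ * ‖jac v x‖ + ‖jac u x‖ * ‖v x‖)
      = 6 * k * A * ((∫ x in Ω, ‖p.1 x‖ * ‖q.2 x‖) + ∫ x in Ω, ‖p.2 x‖ * ‖q.1 x‖) := by
    rw [← integral_restrict_of_off hm
      (f := fun x => 6 * k * A * (‖u x‖ * ‖jac v x‖ + ‖jac u x‖ * ‖v x‖))
      (fun x hx => by rw [test_off hv hx, jac_off hv hx]; simp), integral_const_mul,
      ← integral_add c5.1 c6.1]
    congr 1
    refine integral_congr_ae ?_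
    filter_upwards [p1, p2, q1, q2] with x a b c d
    rw [a, b, c, d]
  rw [← Real.norm_eq_abs]
  refine (norm_integral_le_of_norm_le hint (Eventually.of_forall hpt)).trans ?_
  rw [h7]
  have c7 : (∫ x in Ω, ‖p.1 x‖ * ‖q.2 x‖) + ∫ x in Ω, ‖p.2 x‖ * ‖q.1 x‖
      ≤ 2 * C * (‖p.2‖ * ‖q.2‖) := by
    refine (add_le_add c5.2 c6.2).trans ?_
    have d1 := mul_le_mul_of_nonneg_right hpC (norm_nonneg q.2)
    have d2 := mul_le_mul_of_nonneg_left hqC (norm_nonneg p.2)
    refine (add_le_add d1 d2).trans_eq ?_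
    ring
  refine (mul_le_mul_of_nonneg_left c7 (by positivity)).trans_eq ?_
  ring

theorem inner_S {Ω : Set E3} (hm : MeasurableSet Ω) {A : ℝ} {k n : ℕ} {S : L2V Ω →L[ℝ] L2V Ω}
    (hS : ∀ v : L2V Ω, (S v : E3 → E3) =ᵐ[volume.restrict Ω] fun x => cr (bw A k n x) (v x))
    {p q : L2V Ω} {u v : E3 → E3} (hv : IsTest Ω v)
    (p1 : p =ᵐ[volume.restrict Ω] u) (q1 : q =ᵐ[volume.restrict Ω] v) :
    ⟪S p, q⟫_ℝ = ∫ x, ⟪cr (bw A k n x) (u x), v x⟫_ℝ := by
  rw [L2.inner_def, ← integral_restrict_of_off hm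
    (f := fun x => ⟪cr (bw A k n x) (u x), v x⟫_ℝ)
    (fun x hx => by rw [test_off hv hx, inner_zero_right])]
  refine integral_congr_ae ?_
  filter_upwards [hS p, p1, q1] with x a b c
  rw [a, b, c]

theorem t_FB (hci : S_ci) : S_fb := by
  intro Ω hΩ hb C A k n S hC hP hA hS
  have hm := hΩ.measurableSet
  have key : ∀ p ∈ preW Ω, ∀ q ∈ preW Ω,
      |⟪S p.1, q.1⟫_ℝ| ≤ 12 * (k : ℝ) * A * C * (‖p.2‖ * ‖q.2‖) := by
    intro p hp q hq
    have hpW := hP p (Submodule.le_topologicalClosure _ hp)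
    have hqW := hP q (Submodule.le_topologicalClosure _ hq)
    obtain ⟨u, hu, p1, p2⟩ := hp
    obtain ⟨v, hv, q1, q2⟩ := hq
    rw [inner_S hm hS hv p1 q1]
    exact core hci hm hA hu hv hpW hqW p1 p2 q1 q2
  have key2 : ∀ p ∈ graphW Ω, ∀ q ∈ preW Ω,
      |⟪S p.1, q.1⟫_ℝ| ≤ 12 * (k : ℝ) * A * C * (‖p.2‖ * ‖q.2‖) := by
    intro p hp q hq
    refine graphW_le (fun p => |⟪S p.1, q.1⟫_ℝ|)
      (fun p => 12 * (k : ℝ) * A * C * (‖p.2‖ * ‖q.2‖)) ?_ ?_ (fun p hp => key p hp q hq) hp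
    · have : Continuous fun p : L2V Ω × L2M Ω => |⟪S p.1, q.1⟫_ℝ| := by fun_prop
      exact this.continuousOn
    · have : Continuous fun p : L2V Ω × L2M Ω =>
        12 * (k : ℝ) * A * C * (‖p.2‖ * ‖q.2‖) := by fun_prop
      exact this.continuousOn
  intro p hp q hq
  refine graphW_le (fun q => |⟪S p.1, q.1⟫_ℝ|)
    (fun q => 12 * (k : ℝ) * A * C * (‖p.2‖ * ‖q.2‖)) ?_ ?_ (fun q hq => key2 p hp q hq) hq
  · have : Continuous fun q : L2V Ω × L2M Ω => |⟪S p.1, q.1⟫_ℝ| := by fun_prop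
    exact this.continuousOn
  · have : Continuous fun q : L2V Ω × L2M Ω =>
      12 * (k : ℝ) * A * C * (‖p.2‖ * ‖q.2‖) := by fun_prop
    exact this.continuousOn

end Pool.Agent.T2h23.GY.FB
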