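import Pool.Agent.T2h23.GY.FinStm
import Pool.Agent.T2h23.O3

/-!
Project GY: proof of the final abstract theorem from its inputs.
-/

set_option autoImplicit false
set_option linter.unusedSectionVars false

open MeasureTheory Set Filter Topology
open scoped InnerProductSpace ENNReal ContDiff

namespace Pool.Agent.T2h23.GY

open H772R2.NSR (Frame grad_unique prim_cont int_sq_le)
open Pool.Agent.W795.TQ (Str FH Univ)
open Pool.Agent.T2h23 (fh_mono)

/-- functions in `H¹` are Hoelder continuous -/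
theorem fh_hold {Y : Type} [NormedAddCommGroup Y] [InnerProductSpace ℝ Y] [CompleteSpace Y]
    {T R : ℝ} {F F1 : ℝ → Y} (h : FH T F F1) (hI : (∫ s in (0 : ℝ)..T, ‖F1 s‖ ^ 2) ≤ R ^ 2)
    (hR : 0 ≤ R) {s t : ℝ} (hs : s ∈ Icc 0 T) (ht : t ∈ Icc 0 T) :
    ‖F t - F s‖ ≤ R * Real.sqrt |t - s| := by
  have key : ∀ a b, 0 ≤ a → a ≤ b → b ≤ T → ‖F b - F a‖ ≤ R * Real.sqrt (b - a) := by
    intro a b ha hab hb
    rcases eq_or_lt_of_le hab with h0 | h0
    · subst h0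
      simp
    have h2 : IntegrableOn (fun s => ‖F1 s‖ ^ 2) (Ioc 0 T) volume :=
      (memLp_two_iff_integrable_sq_norm h.memLp.aestronglyMeasurable).mp h.memLp
    have hi1 : Integrable F1 (volume.restrict (Ioc 0 T)) := h.memLp.integrable (by norm_num)
    have i2 : IntervalIntegrable (fun s => ‖F1 s‖ ^ 2) volume a b := by
      rw [intervalIntegrable_iff_integrableOn_Ioc_of_le hab]
      exact h2.mono_set (Ioc_subset_Ioc ha hb)
    have i1 : IntervalIntegrable (fun s => ‖F1 s‖) volume a b := by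
      rw [intervalIntegrable_iff_integrableOn_Ioc_of_le hab]
      exact (hi1.norm.mono_measure (Measure.restrict_mono (Ioc_subset_Ioc ha hb) le_rfl))
    have k0 := int_sq_le h0 i1 i2
    have k1 : ‖∫ s in a..b, F1 s‖ ≤ ∫ s in a..b, ‖F1 s‖ :=
      intervalIntegral.norm_integral_le_integral_norm hab
    have k2 : ∫ s in a..b, ‖F1 s‖ ^ 2 ≤ R ^ 2 := by
      refine le_trans ?_ hI
      refine intervalIntegral.integral_mono_interval ha hab hb
        (Eventually.of_forall fun s => by positivity) ?_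
      rw [intervalIntegrable_iff_integrableOn_Ioc_of_le (ha.trans (hab.trans hb))]
      exact h2
    have hba : 0 ≤ b - a := by linarith
    have k3 : ‖F b - F a‖ ^ 2 ≤ (R * Real.sqrt (b - a)) ^ 2 := by
      rw [h.prim a b ha hab hb, mul_pow, Real.sq_sqrt hba]
      refine (pow_le_pow_left₀ (norm_nonneg _) k1 2).trans (k0.trans ?_)
      nlinarith
    exact (sq_le_sq₀ (norm_nonneg _) (by positivity)).1 k3
  rcases le_total s t with hst | hst
  · rw [abs_of_nonneg (by linarith)]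
    exact key s t hs.1 hst ht.2
  · rw [abs_of_nonpos (by linarith), norm_sub_rev, neg_sub]
    exact key t s ht.1 hst hs.2

/-- a value which is at most the mean value -/
theorem exists_small {f : ℝ → ℝ} {a b e : ℝ} (hab : a < b) (hf : ContinuousOn f (Icc a b))
    (h : ∫ s in a..b, f s ≤ e * (b - a)) : ∃ s ∈ Icc a b, f s ≤ e := by
  by_contra hc
  push Not at hc
  obtain ⟨s0, hs0, hmin⟩ := isCompact_Icc.exists_isMinOn (nonempty_Icc.2 hab.le) hf
  have h1 : e < f s0 := hc s0 hs0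
  have h2 : ∫ _ in a..b, f s0 ≤ ∫ s in a..b, f s := by
    refine intervalIntegral.integral_mono_on hab.le intervalIntegrable_const ?_ fun s hs =>
      hmin hs
    exact ContinuousOn.intervalIntegrable (by rwa [uIcc_of_le hab.le])
  rw [intervalIntegral.integral_const, smul_eq_mul] at h2
  nlinarith

/-- restriction of `PS` to a shorter interval -/
theorem ps_mono (hsh : S_sh) {H K : Type} [NormedAddCommGroup H] [InnerProductSpace ℝ H]
    [CompleteSpace H] [NormedAddCommGroup K] [InnerProductSpace ℝ K] [CompleteSpace K]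
    {W : Submodule ℝ (H × K)} {m : H → K} {B : H → H → K} {Z : H →L[ℝ] K} {S : H →L[ℝ] H}
    {c C ν κ T : ℝ} {F : ℝ → K} {u u1 : ℝ → H} {z z1 : ℝ → K}
    (g : GS W m B Z c C ν) (hT : 0 < T) (hF : ContinuousOn F (Icc 0 T))
    (h : PS W m Z S κ ν T F u u1 z z1) {τ : ℝ} (h0 : 0 < τ) (hτ : τ ≤ T) :
    PS W m Z S κ ν τ F u u1 z z1 := by
  have := hsh H K W m B Z S c C ν κ T F u u1 z z1 g hT hF h 0 τ le_rfl h0 (by linarith)
  simpa only [zero_add] using this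

theorem proof_fin (heq : S_eq) (hsh : S_sh) (hloc : S_loc1) (hgt : S_gt) (hdec : S_dec)
    (hdmp : S_dmp) (htr : S_tr) (hnt : S_nt) : S_fin := by
  intro c C ν R ε hc hC hν hR hε
  obtain ⟨κ, Λ0, hκ, hΛ0, hD⟩ := hdmp c C ν R (ε / 2) hc hC hν hR (by positivity)
  refine ⟨κ, hκ, ?_⟩
  intro H K _ _ _ _ _ _ W m B Z S T K0 G g hT hG hSK hCor
  have hK0 : 0 ≤ K0 := (hSK 0).K00
  set M : ℝ := Λ0 + Real.sqrt (κ / ν) * (C * Λ0) + 1 with hM
  have hM1 : 1 ≤ M := by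
    have : 0 ≤ Real.sqrt (κ / ν) * (C * Λ0) := by positivity
    linarith
  set G1 : ℝ := max R (M + 1) with hG1
  have hG1R : R ≤ G1 := le_max_left _ _
  have hG1M : M + 1 ≤ G1 := le_max_right _ _
  have hG1p : 0 < G1 := lt_of_lt_of_le hR hG1R
  obtain ⟨σ, Λ, hσ, hΛ, hgt'⟩ := hgt c C ν K0 G1 hc hC hν hK0 hG1p
  set e1 : ℝ := min ε (Real.sqrt (ν * σ / 2)) with he1
  have he1p : 0 < e1 := lt_min hε (Real.sqrt_pos.2 (by positivity))
  have he1ε : e1 ≤ ε := min_le_left _ _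
  have he1σ : e1 ^ 2 ≤ ν * σ / 2 := by
    calc e1 ^ 2 ≤ Real.sqrt (ν * σ / 2) ^ 2 :=
          pow_le_pow_left₀ he1p.le (min_le_right _ _) 2
      _ = ν * σ / 2 := Real.sq_sqrt (by positivity)
  -- the window
  obtain ⟨T2, hT2, hT2e⟩ : ∃ T2 : ℝ, 0 < T2 ∧ Real.exp (-(κ * T2)) * (C * Λ0) ≤ e1 / 2 := by
    have h1 : Tendsto (fun t : ℝ => Real.exp (-(κ * t)) * (C * Λ0)) atTop (𝓝 (0 * (C * Λ0))) := by
      refine Tendsto.mul_const _ ?_
      exact Real.tendsto_exp_neg_atTop_nhds_zero.comp (tendsto_id.const_mul_atTop hκ)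
    rw [zero_mul] at h1
    have h2 := (h1.eventually (Iic_mem_nhds (show (0 : ℝ) < e1 / 2 by linarith))).and
      (eventually_gt_atTop (0 : ℝ))
    obtain ⟨t, ht1, ht2⟩ := h2.exists
    exact ⟨t, ht2, ht1⟩
  set Tw : ℝ := T + T2 with hTw
  have hTwp : 0 < Tw := add_pos hT hT2
  set η : ℝ := min (e1 / 2) (σ / 2) with hη
  have hηp : 0 < η := lt_min (by positivity) (by positivity)
  have hη1 : η ≤ e1 / 2 := min_le_left _ _
  have hη2 : η ≤ σ / 2 := min_le_right _ _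
  obtain ⟨δ, hδ, htr'⟩ := htr c C ν κ Λ0 Tw η hc hC hν hκ.le hΛ0 hTwp hηp
  -- the net
  obtain ⟨N, xs, Fs, hP, hnet⟩ := hnt H K Tw R δ {v : H | ∃ z, (v, z) ∈ W ∧ ‖z‖ ≤ R} G
    (fun x F => (∃ (F1 : ℝ → K) (z0 : K), Dat W m ν Tw R F F1 x z0) ∧
      (∀ t ∈ Icc 0 Tw, F t ∈ G) ∧ ∀ t ∈ Icc T Tw, F t = 0) hTwp hR hδ (g.cp R) hG (by
    rintro x F ⟨⟨F1, z0, d⟩, h2, -⟩
    exact ⟨⟨z0, d.mem, d.zb⟩, h2, fun s hs t ht => fh_hold d.fh d.fi hR.le hs ht⟩)
  have hi : ∀ i : Fin N, ∃ n0 : ℕ, ∀ n : ℕ, n0 ≤ n → ∃ (U : ℝ → H) (D : ℝ → K), U 0 = xs i ∧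
      (∀ t ∈ Icc 0 Tw, ε / 2 ≤ t → ‖U t‖ ≤ ε / 2) ∧ ‖U Tw‖ ≤ e1 / 2 ∧
      ContinuousOn D (Icc 0 Tw) ∧ (∀ t ∈ Icc 0 Tw, ‖D t‖ ≤ M) ∧
      ∀ (τ : ℝ) (F' : ℝ → K) (v v1 : ℝ → H) (y y1 : ℝ → K), 0 < τ → τ ≤ Tw →
        ContinuousOn F' (Icc 0 τ) → PS W m Z (S n) 0 ν τ F' v v1 y y1 → ‖v 0 - U 0‖ ≤ δ →
        (∀ t ∈ Icc 0 τ, ‖F' t - Fs i t‖ ≤ δ) →
        (∀ t ∈ Icc 0 τ, ‖v t - U t‖ ≤ η) ∧ ∫ s in (0 : ℝ)..τ, ‖y s - D s‖ ^ 2 ≤ η := by
    intro i
    obtain ⟨⟨F1, z0, d⟩, -, hz⟩ := hP i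
    obtain ⟨U, U1, y, y1, hPS, hU0, hyb, hUε, hUd⟩ := hD H K W m B Z Tw (Fs i) F1 (xs i) z0 g
      hTwp d
    obtain ⟨n0, hn0⟩ := htr' H K W m B Z S K0 (Fs i) F1 U U1 y y1 g hSK hCor d.fh hPS hyb
    refine ⟨n0, fun n hn => ?_⟩
    obtain ⟨D, hDc, hDb, hDtr⟩ := hn0 n hn
    refine ⟨U, D, hU0, hUε, ?_, hDc, hDb, hDtr⟩
    have hTm : T ∈ Icc 0 Tw := ⟨hT.le, by rw [hTw]; linarith⟩
    have h1 := hUd T hTm hz Tw ⟨hTm.2, le_rfl⟩
    have h2 : Tw - T = T2 := by rw [hTw]; ring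
    rw [h2] at h1
    refine h1.trans (le_trans ?_ hT2e)
    refine mul_le_mul_of_nonneg_left ?_ (Real.exp_pos _).le
    calc ‖U T‖ ≤ C * ‖y T‖ := g.fr.poinc _ (hPS.mem T hTm)
      _ ≤ C * Λ0 := by gcongr; exact hyb T hTm
  choose n0 hn0 using hi
  refine ⟨Finset.univ.sup n0, Λ, ?_⟩
  intro n hn F F1 x0 z0 hdat hFG hFT T' hT'
  -- local existence
  have dT' := hdat T' hT'
  obtain ⟨τ, u, u1, z, z1, hτ, hτT, hPS, hu0, hend⟩ := hloc H K W m B Z (S n) c C ν 0 T' F F1 x0 z0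
    (max Λ R + 1) g (hSK n).skew le_rfl hT' dT'.fh dT'.mem dT'.cpt (by
      have := le_max_right Λ R
      linarith [dT'.zb])
  have dτ := hdat τ hτ
  have hFc : ContinuousOn F (Icc 0 τ) := prim_cont dτ.fh.memLp dτ.fh.prim
  obtain ⟨huc, hzc, -, -⟩ := heq H K W m B Z (S n) c C ν 0 τ F u u1 z z1 g hτ hFc hPS
  have hz0 : z 0 = z0 := by
    have k1 := hPS.mem 0 ⟨le_rfl, hτ.le⟩
    rw [hu0] at k1
    exact grad_unique g.fr k1 dτ.mem
  -- tracking
  have dTw := hdat Tw hTwp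
  obtain ⟨i, hix, hiF⟩ := hnet x0 F ⟨⟨F1, z0, dTw⟩, fun t ht => hFG t ht.1,
    fun t ht => hFT t ht.1⟩
  obtain ⟨U, D, hU0, hUε, hUT, hDc, hDb, hDtr⟩ :=
    hn0 i n ((Finset.le_sup (Finset.mem_univ i)).trans hn)
  set τ1 : ℝ := min τ Tw with hτ1
  have hτ1p : 0 < τ1 := lt_min hτ hTwp
  have hτ1τ : τ1 ≤ τ := min_le_left _ _
  have hτ1T : τ1 ≤ Tw := min_le_right _ _
  obtain ⟨htrU, htrD⟩ := hDtr τ1 F u u1 z z1 hτ1p hτ1T (hFc.mono (Icc_subset_Icc_right hτ1τ))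
    (ps_mono hsh g hτ hFc hPS hτ1p hτ1τ) (by rw [hu0, hU0]; exact hix)
    (fun t ht => hiF t ⟨ht.1, ht.2.trans hτ1T⟩)
  have hTw_small : Tw ≤ τ → ‖u Tw‖ ≤ e1 := by
    intro h
    have e : τ1 = Tw := min_eq_right h
    have h1 := htrU Tw ⟨hTwp.le, e.ge⟩
    calc ‖u Tw‖ = ‖(u Tw - U Tw) + U Tw‖ := by rw [sub_add_cancel]
      _ ≤ η + e1 / 2 := (norm_add_le _ _).trans (add_le_add h1 hUT)
      _ ≤ e1 := by linarith
  have hdec' : ∀ h : Tw ≤ τ, ∀ t ∈ Icc Tw τ,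
      ‖u t‖ ≤ e1 ∧ ν * (∫ s in Tw..t, ‖z s‖ ^ 2) ≤ e1 ^ 2 := by
    intro h t ht
    have h1 := (hdec H K W m B Z (S n) c C ν 0 τ R F F1 u u1 z z1 g (hSK n).skew le_rfl hτ dτ.fh
      hPS dτ.fb Tw ⟨hTwp.le, h⟩ t ht).2.2 (fun s hs => hFT s (by
        have := hs.1
        rw [hTw] at this
        linarith))
    rw [zero_mul, neg_zero, Real.exp_zero, one_mul] at h1
    have h2 := hTw_small h
    exact ⟨h1.1.trans h2, h1.2.trans (pow_le_pow_left₀ (norm_nonneg _) h2 2)⟩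
  have hDi : ∀ a b : ℝ, 0 ≤ a → a ≤ b → b ≤ τ1 → ∫ s in a..b, ‖z s - D s‖ ^ 2 ≤ η := by
    intro a b ha hab hb
    refine le_trans ?_ htrD
    refine intervalIntegral.integral_mono_interval ha hab hb
      (Eventually.of_forall fun s => by positivity) ?_
    refine ContinuousOn.intervalIntegrable ?_
    rw [uIcc_of_le hτ1p.le]
    exact (((hzc.mono (Icc_subset_Icc_right hτ1τ)).sub
      (hDc.mono (Icc_subset_Icc_right hτ1T))).norm).pow 2
  have hbd : ∀ t ∈ Icc 0 τ, ‖z t‖ ≤ Λ := by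
    refine hgt' H K W m B Z (S n) 0 τ F F1 u u1 z z1 g (hSK n) le_rfl hτ dτ.fh hPS ?_ ?_ ?_ ?_
    · rw [hz0]
      exact dτ.zb.trans hG1R
    · exact fun t ht => (dτ.fb t ht).trans hG1R
    · exact dτ.fi.trans (pow_le_pow_left₀ hR.le hG1R 2)
    · intro t ht hσt
      rcases le_or_gt (t - σ / 2) Tw with h | h
      · -- the target is near
        have ha : 0 ≤ t - σ := by linarith
        have hb : t - σ / 2 ≤ τ1 := le_min (by linarith [ht.2]) h
        have h1 := hDi (t - σ) (t - σ / 2) ha (by linarith) hb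
        obtain ⟨s, hs, hs1⟩ := exists_small (f := fun s => ‖z s - D s‖ ^ 2) (e := 1)
          (show t - σ < t - σ / 2 by linarith)
          ((((hzc.mono (Icc_subset_Icc ha (hb.trans hτ1τ))).sub
            (hDc.mono (Icc_subset_Icc ha (hb.trans hτ1T)))).norm).pow 2) (by
              show ∫ s in (t - σ)..(t - σ / 2), ‖z s - D s‖ ^ 2 ≤ _
              linarith)
        have hs1' : ‖z s - D s‖ ≤ 1 := by
          have : ‖z s - D s‖ ^ 2 ≤ 1 := hs1
          nlinarith [norm_nonneg (z s - D s)]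
        refine ⟨s, ⟨hs.1, by linarith [hs.2]⟩, ?_⟩
        have h2 := hDb s ⟨ha.trans hs.1, hs.2.trans (hb.trans hτ1T)⟩
        calc ‖z s‖ = ‖(z s - D s) + D s‖ := by rw [sub_add_cancel]
          _ ≤ 1 + M := (norm_add_le _ _).trans (add_le_add hs1' h2)
          _ ≤ G1 := by linarith
      · -- after the window
        have hTwτ : Tw ≤ τ := by linarith [ht.2]
        have h1 := (hdec' hTwτ t ⟨by linarith, ht.2⟩).2
        have hzi : IntervalIntegrable (fun s => ‖z s‖ ^ 2) volume Tw t := by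
          refine ContinuousOn.intervalIntegrable ?_
          rw [uIcc_of_le (by linarith)]
          exact ((hzc.mono (Icc_subset_Icc hTwp.le ht.2)).norm).pow 2
        have h2 : ∫ s in (t - σ / 2)..t, ‖z s‖ ^ 2 ≤ ∫ s in Tw..t, ‖z s‖ ^ 2 :=
          intervalIntegral.integral_mono_interval h.le (by linarith) le_rfl
            (Eventually.of_forall fun s => by positivity) hzi
        have h3 : ∫ s in (t - σ / 2)..t, ‖z s‖ ^ 2 ≤ σ / 2 := by
          refine h2.trans ?_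
          have : ν * (∫ s in Tw..t, ‖z s‖ ^ 2) ≤ ν * (σ / 2) := by
            refine h1.trans (he1σ.trans (le_of_eq ?_))
            ring
          exact le_of_mul_le_mul_left this hν
        obtain ⟨s, hs, hs1⟩ := exists_small (f := fun s => ‖z s‖ ^ 2) (e := 1)
          (show t - σ / 2 < t by linarith)
          (((hzc.mono (Icc_subset_Icc (by linarith) ht.2)).norm).pow 2) (by
              show ∫ s in (t - σ / 2)..t, ‖z s‖ ^ 2 ≤ _
              linarith)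
        have hs1' : ‖z s‖ ≤ 1 := by
          have : ‖z s‖ ^ 2 ≤ 1 := hs1
          nlinarith [norm_nonneg (z s)]
        refine ⟨s, ⟨by linarith [hs.1], hs.2⟩, ?_⟩
        linarith
  have hτe : τ = T' := by
    rcases hend with h | h
    · exact h
    · exfalso
      have h1 := hbd τ ⟨hτ.le, le_rfl⟩
      have h2 := le_max_left Λ R
      linarith
  subst hτe
  refine ⟨u, u1, z, z1, hPS, hu0, hbd, fun t ht hεt => ?_⟩
  rcases le_or_gt t Tw with h | h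
  · have h1 := htrU t ⟨ht.1, le_min ht.2 h⟩
    have h2 := hUε t ⟨ht.1, h⟩ (by linarith)
    calc ‖u t‖ = ‖(u t - U t) + U t‖ := by rw [sub_add_cancel]
      _ ≤ η + ε / 2 := (norm_add_le _ _).trans (add_le_add h1 h2)
      _ ≤ ε := by linarith
  · exact ((hdec' (by linarith [ht.2]) t ⟨h.le, ht.2⟩).1).trans he1ε

end Pool.Agent.T2h23.GY
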