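import Pool.Agent.T2h23.GY.Stm
import Pool.Agent.T2h23.O3
import Pool.Agent.T2h23.GY.Fin

/-!
Project GY, task GL: one solution on the whole half line.
-/

set_option autoImplicit false
set_option linter.unusedSectionVars false
set_option maxHeartbeats 4000000

open MeasureTheory Set Filter Topology
open scoped InnerProductSpace ENNReal ContDiff

namespace Pool.Agent.T2h23.GY.GL

open H772R2.NSR (Frame prim_cont ae_deriv_of_prim memLp_ii grad_unique)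
open Pool.Agent.W795.TQ (Str FH Univ)
open Pool.Agent.T2h23

variable {H K : Type} [NormedAddCommGroup H] [InnerProductSpace ℝ H] [CompleteSpace H]
  [NormedAddCommGroup K] [InnerProductSpace ℝ K] [CompleteSpace K]
  {W : Submodule ℝ (H × K)} {m : H → K} {B : H → H → K} {Z : H →L[ℝ] K} {S : H →L[ℝ] H}
  {c C ν κ T : ℝ} {F G : ℝ → K} {u u1 v v1 : ℝ → H} {z z1 y y1 : ℝ → K}

theorem prim_congr {Y : Type} [NormedAddCommGroup Y] [InnerProductSpace ℝ Y] {a a1 b b1 : ℝ → Y}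
    (h : ∀ x y, 0 ≤ x → x ≤ y → y ≤ T → a y - a x = ∫ s in x..y, a1 s)
    (h0 : ∀ t ∈ Icc 0 T, b t = a t) (h1 : a1 =ᵐ[volume.restrict (Ioc 0 T)] b1) :
    ∀ x y, 0 ≤ x → x ≤ y → y ≤ T → b y - b x = ∫ s in x..y, b1 s := by
  intro x y hx hxy hy
  rw [h0 x ⟨hx, hxy.trans hy⟩, h0 y ⟨hx.trans hxy, hy⟩, h x y hx hxy hy,
    intervalIntegral.integral_of_le hxy, intervalIntegral.integral_of_le hxy]
  exact integral_congr_ae (ae_mono (Measure.restrict_mono (Ioc_subset_Ioc hx hy) le_rfl) h1)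

theorem str_congr (A : Str W m ν T F u u1 z z1) (h0 : ∀ t ∈ Icc 0 T, v t = u t)
    (h1 : ∀ t ∈ Icc 0 T, y t = z t) (h2 : u1 =ᵐ[volume.restrict (Ioc 0 T)] v1)
    (h3 : z1 =ᵐ[volume.restrict (Ioc 0 T)] y1) (h4 : ∀ t ∈ Icc 0 T, G t = F t) (hT : 0 < T) :
    Str W m ν T G v v1 y y1 := by
  refine ⟨fun t ht => ?_, ?_, ?_, A.u1m.ae_eq h2, A.z1m.ae_eq h3, prim_congr A.pu h0 h2,
    prim_congr A.pz h1 h3, fun p hp t ht => ?_, fun t ht => ?_⟩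
  · rw [h0 t ht, h1 t ht]
    exact A.mem t ht
  · filter_upwards [A.mem1, h2, h3] with s k1 k2 k3
    rw [← k2, ← k3]
    exact k1
  · obtain ⟨b, hb⟩ := A.bd
    refine ⟨b, ?_⟩
    filter_upwards [hb, h2] with s k1 k2
    rw [← k2]
    exact k1
  · rw [h0 t ht, h0 0 ⟨le_rfl, hT.le⟩, A.weak p hp t ht]
    refine intervalIntegral.integral_congr fun s hs => ?_
    rw [uIcc_of_le ht.1] at hs
    have hs' : s ∈ Icc 0 T := ⟨hs.1, hs.2.trans ht.2⟩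
    show ⟪F s - ν • z s + m (u s), p.2⟫_ℝ = ⟪G s - ν • y s + m (v s), p.2⟫_ℝ
    rw [h0 s hs', h1 s hs', h4 s hs']
  · have e1 : ∫ s in (0 : ℝ)..t, ‖y s‖ ^ 2 = ∫ s in (0 : ℝ)..t, ‖z s‖ ^ 2 := by
      refine intervalIntegral.integral_congr fun s hs => ?_
      rw [uIcc_of_le ht.1] at hs
      show ‖y s‖ ^ 2 = ‖z s‖ ^ 2
      rw [h1 s ⟨hs.1, hs.2.trans ht.2⟩]
    have e2 : ∫ s in (0 : ℝ)..t, ⟪G s, y s⟫_ℝ = ∫ s in (0 : ℝ)..t, ⟪F s, z s⟫_ℝ := by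
      refine intervalIntegral.integral_congr fun s hs => ?_
      rw [uIcc_of_le ht.1] at hs
      have hs' : s ∈ Icc 0 T := ⟨hs.1, hs.2.trans ht.2⟩
      show ⟪G s, y s⟫_ℝ = ⟪F s, z s⟫_ℝ
      rw [h1 s hs', h4 s hs']
    rw [h0 t ht, h0 0 ⟨le_rfl, hT.le⟩, e1, e2]
    exact A.energy t ht

/-- a solution is an approximate solution -/
theorem as_of_ps (heq : S_eq) (g : GS W m B Z c C ν) (hT : 0 < T) (hF : ContinuousOn F (Icc 0 T))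
    (A : PS W m Z S 0 ν T F u u1 z z1) {M : ℝ} (hM : ∀ t ∈ Icc 0 T, ‖z t‖ ≤ M) :
    AS W m S ν T 0 M F u u1 z := by
  obtain ⟨-, hz, -, he⟩ := heq H K W m B Z S c C ν 0 T F u u1 z z1 g hT hF A
  refine ⟨A.mem, A.u1m, A.pu, hz, hM, ?_⟩
  filter_upwards [he] with s hs p hp
  have e : ⟪S (u s) + (0 : ℝ) • u s, p.1⟫_ℝ = ⟪S (u s), p.1⟫_ℝ := by
    rw [zero_smul, add_zero]
  rw [hs p hp, e]
  have : ⟪F s - ν • z s + m (u s), p.2⟫_ℝ - ⟪S (u s), p.1⟫_ℝ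
      - ⟪F s - ν • z s + m (u s), p.2⟫_ℝ + ⟪S (u s), p.1⟫_ℝ = 0 := by ring
  rw [this]
  simp

theorem uniq (heq : S_eq) (hsh : S_sh) (hcm : S_cm) (g : GS W m B Z c C ν)
    (hS : ∀ h : H, ⟪S h, h⟫_ℝ = 0) {T' : ℝ} (hT : 0 < T) (hTT : T ≤ T')
    (hF : ContinuousOn F (Icc 0 T')) (A : PS W m Z S 0 ν T F u u1 z z1)
    (A' : PS W m Z S 0 ν T' F v v1 y y1) (h0 : u 0 = v 0) {M : ℝ}
    (hM : ∀ t ∈ Icc 0 T', ‖y t‖ ≤ M) : ∀ t ∈ Icc 0 T, u t = v t := by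
  have hT' : 0 < T' := hT.trans_le hTT
  have hM0 : 0 ≤ M := (norm_nonneg _).trans (hM 0 ⟨le_rfl, hT'.le⟩)
  have hF1 : ContinuousOn F (Icc 0 T) := hF.mono (Icc_subset_Icc_right hTT)
  obtain ⟨a, ha, h⟩ := hcm c C ν (M + 1) T' g.c0 g.C0 g.ν0 (by linarith) hT'
  have h1 := h H K W m B Z S 0 T F F v v1 u u1 y z z1 g hS le_rfl hT hTT hF hF1
    (as_of_ps heq g hT' hF A' fun t ht => (hM t ht).trans (by linarith)) A
    (by rw [h0]; simp) (fun t _ => by simp)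
  intro t ht
  have h2 := (h1 t ht).1
  have h3 : ‖u t - v t‖ ^ 2 ≤ 0 := by simpa using h2
  have h4 : ‖u t - v t‖ = 0 := by
    have := sq_nonneg ‖u t - v t‖
    exact pow_eq_zero_iff (two_ne_zero) |>.mp (le_antisymm h3 this)
  exact sub_eq_zero.mp (norm_eq_zero.mp h4)

theorem t_GL (heq : S_eq) (hsh : S_sh) (hcm : S_cm) : S_gl := by
  intro H K _ _ _ _ _ _ W m B Z S c C ν Λ ε F F1 x0 g hS hF hex
  have hex' : ∀ n : ℕ, ∃ (u u1 : ℝ → H) (z z1 : ℝ → K),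
      PS W m Z S 0 ν ((n : ℝ) + 1) F u u1 z z1 ∧ u 0 = x0 ∧
      (∀ t ∈ Icc (0 : ℝ) ((n : ℝ) + 1), ‖z t‖ ≤ Λ) ∧
      ∀ t ∈ Icc (0 : ℝ) ((n : ℝ) + 1), ε ≤ t → ‖u t‖ ≤ ε := fun n => hex _ (by positivity)
  choose U U1 ζ ζ1 hP h0 hz hu using hex'
  have hFc : ∀ T : ℝ, 0 < T → ContinuousOn F (Icc 0 T) := fun T hT =>
    prim_cont (hF T hT).memLp (hF T hT).prim
  -- consistency
  have hc0 : ∀ (i j : ℕ), i ≤ j → ∀ t ∈ Icc (0 : ℝ) ((i : ℝ) + 1), U i t = U j t := by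
    intro i j hij
    have hij' : (i : ℝ) ≤ (j : ℝ) := by exact_mod_cast hij
    exact uniq heq hsh hcm g hS (by positivity) (by linarith) (hFc _ (by positivity)) (hP i)
      (hP j) ((h0 i).trans (h0 j).symm) (hz j)
  have hc : ∀ (i j : ℕ) (t : ℝ), 0 ≤ t → t ≤ (i : ℝ) + 1 → t ≤ (j : ℝ) + 1 → U i t = U j t := by
    intro i j t ht hi hj
    rcases le_total i j with h | h
    · exact hc0 i j h t ⟨ht, hi⟩
    · exact (hc0 j i h t ⟨ht, hj⟩).symm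
  have hd : ∀ (i j : ℕ) (t : ℝ), 0 ≤ t → t ≤ (i : ℝ) + 1 → t ≤ (j : ℝ) + 1 → ζ i t = ζ j t := by
    intro i j t ht hi hj
    have a1 := (hP i).mem t ⟨ht, hi⟩
    have a2 := (hP j).mem t ⟨ht, hj⟩
    rw [← hc i j t ht hi hj] at a2
    exact grad_unique g.fr a1 a2
  set u : ℝ → H := fun t => U ⌊t⌋₊ t with hu'
  set z : ℝ → K := fun t => ζ ⌊t⌋₊ t with hz'
  have hfl : ∀ t : ℝ, t ≤ (⌊t⌋₊ : ℝ) + 1 := fun t => (Nat.lt_floor_add_one t).le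
  have eu : ∀ (n : ℕ) (t : ℝ), 0 ≤ t → t ≤ (n : ℝ) + 1 → u t = U n t := fun n t ht hn =>
    hc _ n t ht (hfl t) hn
  have ez : ∀ (n : ℕ) (t : ℝ), 0 ≤ t → t ≤ (n : ℝ) + 1 → z t = ζ n t := fun n t ht hn =>
    hd _ n t ht (hfl t) hn
  refine ⟨u, deriv u, z, deriv z, ?_, ?_, ?_, ?_⟩
  · intro T hT
    have hTn : T ≤ (⌊T⌋₊ : ℝ) + 1 := hfl T
    have hps := ps_mono hsh g (by positivity) (hFc _ (by positivity)) (hP ⌊T⌋₊) hT hTn
    have hd1 : U1 ⌊T⌋₊ =ᵐ[volume.restrict (Ioc 0 T)] deriv u := by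
      have k1 := ae_deriv_of_prim hT (memLp_ii hT.le hps.u1m) hps.pu
      have k2 : ∀ᵐ s ∂(volume.restrict (Ioc 0 T)), s ≠ T :=
        ae_restrict_of_ae (by simp [ae_iff])
      filter_upwards [k1, k2, ae_restrict_mem measurableSet_Ioc] with s h1 h2 h3
      have h4 : s < T := lt_of_le_of_ne h3.2 h2
      have h5 : u =ᶠ[𝓝 s] U ⌊T⌋₊ := by
        filter_upwards [Ioo_mem_nhds h3.1 h4] with t ht
        exact eu _ t ht.1.le (ht.2.le.trans hTn)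
      exact (h1.congr_of_eventuallyEq h5).deriv.symm
    have hd2 : ζ1 ⌊T⌋₊ =ᵐ[volume.restrict (Ioc 0 T)] deriv z := by
      have k1 := ae_deriv_of_prim hT (memLp_ii hT.le hps.z1m) hps.pz
      have k2 : ∀ᵐ s ∂(volume.restrict (Ioc 0 T)), s ≠ T :=
        ae_restrict_of_ae (by simp [ae_iff])
      filter_upwards [k1, k2, ae_restrict_mem measurableSet_Ioc] with s h1 h2 h3
      have h4 : s < T := lt_of_le_of_ne h3.2 h2
      have h5 : z =ᶠ[𝓝 s] ζ ⌊T⌋₊ := by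
        filter_upwards [Ioo_mem_nhds h3.1 h4] with t ht
        exact ez _ t ht.1.le (ht.2.le.trans hTn)
      exact (h1.congr_of_eventuallyEq h5).deriv.symm
    refine str_congr hps (fun t ht => eu _ t ht.1 (ht.2.trans hTn))
      (fun t ht => ez _ t ht.1 (ht.2.trans hTn)) hd1 hd2 (fun t ht => ?_) hT
    show F t - Z (S (u t) + (0 : ℝ) • u t) = F t - Z (S (U _ t) + (0 : ℝ) • U _ t)
    rw [eu _ t ht.1 (ht.2.trans hTn)]
  · rw [eu 0 0 le_rfl (by norm_num)]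
    exact h0 0
  · intro t ht
    exact hz _ t ⟨ht, hfl t⟩
  · intro t ht hεt
    exact hu _ t ⟨ht, hfl t⟩ hεt

end Pool.Agent.T2h23.GY.GL
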