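import Pool.Agent.T2h23.GY.T_V6

/-!
Project GY, task GT: good times.
-/

set_option autoImplicit false

open MeasureTheory Set
open scoped InnerProductSpace ENNReal ContDiff

namespace Pool.Agent.T2h23.GY.GT

open H772R2.NSR (Frame prim_cont)
open Pool.Agent.T2h23.GY
open Pool.Agent.W795.TQ (Str FH Univ)

theorem t_GT (heq : S_eq) (hsh : S_sh) (h6 : S_v6) : S_gt := by
  intro c C ν K0 G hc hC hν hK0 hG
  obtain ⟨σ, Λ, hσ, hΛ, h⟩ := h6 c C ν K0 G hc hC hν hK0 hG
  refine ⟨σ, max Λ G, hσ, lt_max_of_lt_left hΛ, ?_⟩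
  intro H K _ _ _ _ _ _ W m B Z S κ T F F1 u u1 z z1 gs sk hκ hT hF P hz0 hFb hFi hgood t ht
  rcases le_or_gt t σ with htσ | htσ
  · exact (h H K W m B Z S κ T F F1 u u1 z z1 gs sk hκ hT hF P hz0 hFb hFi t ht htσ).trans
      (le_max_left _ _)
  obtain ⟨s, hs, hzs⟩ := hgood t ht htσ.le
  rcases hs.2.eq_or_lt with hst | hst
  · rw [← hst]
    exact hzs.trans (le_max_right _ _)
  have hs0 : 0 ≤ s := by linarith [hs.1]
  have hsT : 0 < T - s := by linarith [ht.2]
  have P' := hsh H K W m B Z S c C ν κ T F u u1 z z1 gs hT (V6.fh_cont hF) P s (T - s) hs0 hsT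
    (by linarith)
  have h1 := h H K W m B Z S κ (T - s) (fun r => F (s + r)) (fun r => F1 (s + r))
    (fun r => u (s + r)) (fun r => u1 (s + r)) (fun r => z (s + r)) (fun r => z1 (s + r)) gs sk
    hκ hsT (Pool.Agent.T2h23.fh_shift hs0 (by linarith) hF) P' (by simpa using hzs)
    (fun r hr => hFb _ ⟨by linarith [hr.1], by linarith [hr.2]⟩)
    (V6.int_le hF hFi hs0 hsT.le (by linarith)) (t - s) ⟨by linarith, by linarith [ht.2]⟩
    (by linarith [hs.1])
  have e : s + (t - s) = t := by ring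
  simp only [e] at h1
  exact h1.trans (le_max_left _ _)

end Pool.Agent.T2h23.GY.GT
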