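import Pool.Agent.T2h23.GY.Stm

/-!
Project GY, task HT (helper11): the heat semigroup on a wave.
-/

set_option autoImplicit false

open MeasureTheory Set
open scoped InnerProductSpace ENNReal ContDiff

namespace Pool.Agent.T2h23.GY.HT

open Pool.Agent.T2h23.GY
open H772R2.NS (E3)
open Pool.Agent.Y303.LV (heat)

theorem inner_single (N : ℝ) (j : Fin 3) (v : E3) :
    ⟪(EuclideanSpace.single j N : E3), v⟫_ℝ = N * v j := by
  rw [EuclideanSpace.inner_single_left]
  simp

/-- the complex Gaussian integral -/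
theorem gauss (N s : ℝ) (hs : 0 < s) (j : Fin 3) :
    Integrable (fun v : E3 => Complex.exp (-(1 / (4 * s) : ℂ) * (‖v‖ : ℂ) ^ 2 +
      (-Complex.I) * ((⟪(EuclideanSpace.single j N : E3), v⟫_ℝ : ℝ) : ℂ))) ∧
    ∫ v : E3, Complex.exp (-(1 / (4 * s) : ℂ) * (‖v‖ : ℂ) ^ 2 +
      (-Complex.I) * ((⟪(EuclideanSpace.single j N : E3), v⟫_ℝ : ℝ) : ℂ)) =
      (((4 * Real.pi * s) ^ (3 / 2 : ℝ) * Real.exp (-(s * N ^ 2)) : ℝ) : ℂ) := by
  have hb : 0 < (1 / (4 * s) : ℂ).re := by
    have : (1 / (4 * s) : ℂ) = ((1 / (4 * s) : ℝ) : ℂ) := by push_cast; rfl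
    rw [this, Complex.ofReal_re]
    positivity
  refine ⟨GaussianFourier.integrable_cexp_neg_mul_sq_norm_add hb (-Complex.I)
    (EuclideanSpace.single j N : E3), ?_⟩
  have h := GaussianFourier.integral_cexp_neg_mul_sq_norm_add hb (-Complex.I)
    (EuclideanSpace.single j N : E3)
  refine h.trans ?_
  rw [finrank_euclideanSpace, Fintype.card_fin, Complex.ofReal_mul]
  congr 1
  · have h1 : ((Real.pi : ℂ) / (1 / (4 * s))) = ((4 * Real.pi * s : ℝ) : ℂ) := by
      push_cast
      rw [div_div_eq_mul_div, div_one]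
      ring
    rw [h1, Complex.ofReal_cpow (by positivity)]
    congr 1
    push_cast
    rfl
  · rw [Complex.ofReal_exp]
    congr 1
    have h2 : ‖(EuclideanSpace.single j N : E3)‖ = |N| := by
      rw [EuclideanSpace.norm_single, Real.norm_eq_abs]
    have h3 : (s : ℂ) ≠ 0 := by exact_mod_cast hs.ne'
    rw [h2]
    have h4 : ((|N| : ℝ) : ℂ) ^ 2 = ((N ^ 2 : ℝ) : ℂ) := by
      rw [← Complex.ofReal_pow, sq_abs]
    rw [h4]
    push_cast
    rw [neg_sq, Complex.I_sq]
    field_simp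

/-- the scalar integral -/
theorem scal (N s : ℝ) (hs : 0 < s) (j : Fin 3) (x : E3) :
    ∫ y : E3, Real.exp (-‖x - y‖ ^ 2 / (4 * s)) * Real.cos (N * y j) =
      (4 * Real.pi * s) ^ (3 / 2 : ℝ) * Real.exp (-(s * N ^ 2)) * Real.cos (N * x j) := by
  obtain ⟨hint, hval⟩ := gauss N s hs j
  set f : E3 → ℂ := fun v : E3 => Complex.exp (-(1 / (4 * s) : ℂ) * (‖v‖ : ℂ) ^ 2 +
      (-Complex.I) * ((⟪(EuclideanSpace.single j N : E3), v⟫_ℝ : ℝ) : ℂ)) with hf
  have h1 : ∫ y : E3, Complex.exp (Complex.I * (N * x j : ℝ)) * f (x - y) =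
      Complex.exp (Complex.I * (N * x j : ℝ)) *
        (((4 * Real.pi * s) ^ (3 / 2 : ℝ) * Real.exp (-(s * N ^ 2)) : ℝ) : ℂ) := by
    rw [integral_const_mul, integral_sub_left_eq_self f volume x, hval]
  have hint' : Integrable (fun y : E3 => Complex.exp (Complex.I * (N * x j : ℝ)) * f (x - y)) :=
    (hint.comp_sub_left x).const_mul _
  have h2 := congrArg Complex.re h1
  have h3 : ∀ y : E3, (Complex.exp (Complex.I * (N * x j : ℝ)) * f (x - y)).re =
      Real.exp (-‖x - y‖ ^ 2 / (4 * s)) * Real.cos (N * y j) := by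
    intro y
    have h4 : Complex.exp (Complex.I * (N * x j : ℝ)) * f (x - y) =
        ((Real.exp (-‖x - y‖ ^ 2 / (4 * s)) : ℝ) : ℂ) *
          Complex.exp (((N * y j : ℝ) : ℂ) * Complex.I) := by
      rw [hf]
      simp only
      rw [← Complex.exp_add, Complex.ofReal_exp, ← Complex.exp_add, inner_single]
      congr 1
      have : (x - y) j = x j - y j := rfl
      rw [this]
      push_cast
      have h3 : (s : ℂ) ≠ 0 := by exact_mod_cast hs.ne'
      field_simp
      ring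
    rw [h4, Complex.re_ofReal_mul, Complex.exp_ofReal_mul_I_re]
  have h5 : (∫ y : E3, Complex.exp (Complex.I * (N * x j : ℝ)) * f (x - y)).re =
      ∫ y : E3, Real.exp (-‖x - y‖ ^ 2 / (4 * s)) * Real.cos (N * y j) := by
    have := integral_re (𝕜 := ℂ) hint'
    rw [show (∫ y : E3, Complex.exp (Complex.I * (N * x j : ℝ)) * f (x - y)).re =
      RCLike.re (∫ y : E3, Complex.exp (Complex.I * (N * x j : ℝ)) * f (x - y)) from rfl, ← this]
    exact integral_congr_ae (Filter.Eventually.of_forall h3)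
  rw [← h5, h2, mul_comm (Complex.exp _), Complex.re_ofReal_mul, mul_comm Complex.I,
    Complex.exp_ofReal_mul_I_re]

theorem t_HT : S_ht := by
  intro A N s j x hs
  show ((4 * Real.pi * s) ^ (3 / 2 : ℝ))⁻¹ •
    ∫ y : E3, Real.exp (-‖x - y‖ ^ 2 / (4 * s)) • gw A N j y = _
  have h1 : ∀ y : E3, Real.exp (-‖x - y‖ ^ 2 / (4 * s)) • gw A N j y =
      (Real.exp (-‖x - y‖ ^ 2 / (4 * s)) * Real.cos (N * y j)) •
        ((A * N) • (EuclideanSpace.single j 1 : E3)) := by
    intro y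
    unfold gw
    rw [smul_smul, smul_smul]
    congr 1
    ring
  have hne : ((4 * Real.pi * s) ^ (3 / 2 : ℝ)) ≠ 0 := by positivity
  rw [integral_congr_ae (Filter.Eventually.of_forall h1), integral_smul_const, scal N s hs j x,
    smul_smul, gw, smul_smul, smul_smul]
  congr 1
  field_simp

end Pool.Agent.T2h23.GY.HT
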