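import Pool.Agent.T2h23.GY.T_CI

set_option autoImplicit false

/-!
Task LD: the Laplacian of a curl; the Laplacian of a wave times a field.
-/

open MeasureTheory Set Filter Topology
open scoped InnerProductSpace ENNReal ContDiff NNReal

namespace Pool.Agent.T2h23.GY.LD

open Pool.Agent.T2h23.GY
open Pool.Agent.T2h23.GY.CI
open H772R2.NS (E3 M3 jac ev inner_E3 inner_M3 jac_apply contDiff_coord fderiv_coord
  hasCompactSupport_coord)

/-- the derivative of a curl is the curl of the derivative -/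
theorem pd_crl {Y : E3 → E3} (h : ContDiff ℝ ∞ Y) (x v : E3) :
    fderiv ℝ (crl Y) x v = crl (fun y => fderiv ℝ Y y v) x := by
  have h1 : ∀ (j k : Fin 3), fderiv ℝ (fun y => fderiv ℝ Y y (ev j) k) x v
      = fderiv ℝ (fun y => fderiv ℝ Y y (ev j)) x v k := by
    intro j k
    exact fderiv_coord (contDiff_pd h (ev j)) k x v
  have hd : ∀ (j k : Fin 3), DifferentiableAt ℝ (fun y => fderiv ℝ Y y (ev j) k) x := by
    intro j k
    exact ((contDiff_coord (contDiff_pd h (ev j)) k).differentiable (by simp)) x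
  ext i
  rw [← fderiv_coord (contDiff_crl h)]
  have : (fun y => crl Y y i) = fun y => fderiv ℝ Y y (ev (i + 1)) (i + 2)
      - fderiv ℝ Y y (ev (i + 2)) (i + 1) := rfl
  rw [this, fderiv_fun_sub (hd _ _) (hd _ _), ContinuousLinearMap.sub_apply, h1, h1,
    sym2 h x (ev (i + 1)) v, sym2 h x (ev (i + 2)) v]
  rfl

theorem ibpv (P w : E3 → E3) (hP : ContDiff ℝ ∞ P) (hw : ContDiff ℝ ∞ w)
    (hwc : HasCompactSupport w) (j : Fin 3) :
    ∫ x, ⟪P x, fderiv ℝ w x (ev j)⟫_ℝ = - ∫ x, ⟪fderiv ℝ P x (ev j), w x⟫_ℝ := by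
  have i1 := int1 P w hP hw hwc
  have i2 := int2 P w hP hw hwc
  simp only [inner_E3]
  rw [integral_finsetSum _ (fun c _ => i2 j c c), integral_finsetSum _ (fun c _ => i1 j c c),
    ← Finset.sum_neg_distrib]
  refine Finset.sum_congr rfl (fun c _ => ?_)
  rw [ibp2 P w hP hw hwc j c c, neg_neg]

theorem hasCompactSupport_pd {v : E3 → E3} (h : HasCompactSupport v) (a : E3) :
    HasCompactSupport (fun x => fderiv ℝ v x a) := h.fderiv_apply ℝ _

theorem integrable_inner {P w : E3 → E3} (hP : Continuous P) (hw : Continuous w)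
    (hwc : HasCompactSupport w) : Integrable (fun x => ⟪P x, w x⟫_ℝ) := by
  refine (hP.inner hw).integrable_of_hasCompactSupport (hwc.mono (fun x hx h0 => hx ?_))
  show ⟪P x, w x⟫_ℝ = 0
  rw [h0, inner_zero_right]

theorem part1 (hci : S_ci) (Y v : E3 → E3) (hY : ContDiff ℝ ∞ Y) (hYc : HasCompactSupport Y)
    (hv : ContDiff ℝ ∞ v) (hvc : HasCompactSupport v) :
    ∫ x, ⟪jac (crl Y) x, jac v x⟫_ℝ = -∫ x, ⟪lpl Y x, crl v x⟫_ℝ := by
  have e1 : ∀ x, ⟪jac (crl Y) x, jac v x⟫_ℝ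
      = ∑ j, ⟪crl (fun y => fderiv ℝ Y y (ev j)) x, fderiv ℝ v x (ev j)⟫_ℝ := by
    intro x
    rw [inner_M3, Finset.sum_comm]
    refine Finset.sum_congr rfl (fun j _ => ?_)
    rw [inner_E3]
    refine Finset.sum_congr rfl (fun i _ => ?_)
    rw [jac_apply, jac_apply, pd_crl hY]
  have e2 : ∀ x, ⟪lpl Y x, crl v x⟫_ℝ
      = ∑ j, ⟪fderiv ℝ (fun y => fderiv ℝ Y y (ev j)) x (ev j), crl v x⟫_ℝ := by
    intro x
    unfold lpl
    rw [sum_inner]
  simp_rw [e1, e2]
  rw [integral_finsetSum, integral_finsetSum, ← Finset.sum_neg_distrib]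
  · refine Finset.sum_congr rfl (fun j _ => ?_)
    rw [hci.1 _ _ (contDiff_pd hY _) (contDiff_pd hv _) (hasCompactSupport_pd hvc _)]
    have e3 : ∀ x, crl (fun y => fderiv ℝ v y (ev j)) x = fderiv ℝ (crl v) x (ev j) :=
      fun x => (pd_crl hv x (ev j)).symm
    simp_rw [e3]
    exact ibpv _ _ (contDiff_pd hY _) (contDiff_crl hv) (hasCompactSupport_crl hvc) j
  · intro j _
    exact integrable_inner (contDiff_pd (contDiff_pd hY _) _).continuous (contDiff_crl hv).continuous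
      (hasCompactSupport_crl hvc)
  · intro j _
    exact integrable_inner (contDiff_crl (contDiff_pd hY _)).continuous
      (contDiff_pd hv _).continuous (hasCompactSupport_pd hvc _)

theorem contDiff_pd1 {f : E3 → ℝ} (h : ContDiff ℝ ∞ f) (v : E3) :
    ContDiff ℝ ∞ (fun x => fderiv ℝ f x v) :=
  (h.fderiv_right (m := ∞) (by norm_num)).clm_apply contDiff_const

theorem lpl_smul (f : E3 → ℝ) (φ : E3 → E3) (hf : ContDiff ℝ ∞ f) (hφ : ContDiff ℝ ∞ φ)
    (x : E3) : lpl (fun y => f y • φ y) x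
      = ∑ i : Fin 3, ((fderiv ℝ (fun y => fderiv ℝ f y (ev i)) x (ev i)) • φ x
        + (2 * fderiv ℝ f x (ev i)) • fderiv ℝ φ x (ev i)
        + f x • fderiv ℝ (fun y => fderiv ℝ φ y (ev i)) x (ev i)) := by
  unfold lpl
  refine Finset.sum_congr rfl (fun i _ => ?_)
  have hfd : Differentiable ℝ f := hf.differentiable (by simp)
  have hφd : Differentiable ℝ φ := hφ.differentiable (by simp)
  have e1 : (fun y => fderiv ℝ (fun z => f z • φ z) y (ev i))
      = fun y => f y • fderiv ℝ φ y (ev i) + fderiv ℝ f y (ev i) • φ y := by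
    funext y
    rw [fderiv_fun_smul (hfd y) (hφd y)]
    simp
  have hf1 : Differentiable ℝ (fun y => fderiv ℝ f y (ev i)) :=
    (contDiff_pd1 hf _).differentiable (by simp)
  have hφ1 : Differentiable ℝ (fun y => fderiv ℝ φ y (ev i)) :=
    (contDiff_pd hφ _).differentiable (by simp)
  rw [e1, fderiv_fun_add ((hfd x).fun_smul (hφ1 x)) ((hf1 x).fun_smul (hφd x)),
    fderiv_fun_smul (hfd x) (hφ1 x), fderiv_fun_smul (hf1 x) (hφd x)]
  simp only [ContinuousLinearMap.add_apply, ContinuousLinearMap.smul_apply,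
    ContinuousLinearMap.smulRight_apply]
  module

theorem hasFDerivAt_lin (N : ℝ) (j : Fin 3) (x : E3) :
    HasFDerivAt (fun y : E3 => N * y j) (N • (EuclideanSpace.proj (𝕜 := ℝ) j : E3 →L[ℝ] ℝ)) x :=
  ((EuclideanSpace.proj (𝕜 := ℝ) j : E3 →L[ℝ] ℝ).hasFDerivAt).const_mul N

theorem fderiv_sin (N : ℝ) (j : Fin 3) (x v : E3) :
    fderiv ℝ (fun y : E3 => Real.sin (N * y j)) x v = N * Real.cos (N * x j) * v j := by
  have h : HasFDerivAt (fun y : E3 => Real.sin (N * y j))
      (Real.cos (N * x j) • (N • (EuclideanSpace.proj (𝕜 := ℝ) j : E3 →L[ℝ] ℝ))) x :=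
    (hasFDerivAt_lin N j x).sin
  rw [h.fderiv]
  simp only [ContinuousLinearMap.smul_apply, smul_eq_mul]
  have : (EuclideanSpace.proj (𝕜 := ℝ) j : E3 →L[ℝ] ℝ) v = v j := rfl
  rw [this]
  ring

theorem fderiv_cos (N : ℝ) (j : Fin 3) (x v : E3) :
    fderiv ℝ (fun y : E3 => Real.cos (N * y j)) x v = -(N * Real.sin (N * x j) * v j) := by
  have h : HasFDerivAt (fun y : E3 => Real.cos (N * y j))
      (-Real.sin (N * x j) • (N • (EuclideanSpace.proj (𝕜 := ℝ) j : E3 →L[ℝ] ℝ))) x :=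
    (hasFDerivAt_lin N j x).cos
  rw [h.fderiv]
  simp only [ContinuousLinearMap.smul_apply, smul_eq_mul]
  have : (EuclideanSpace.proj (𝕜 := ℝ) j : E3 →L[ℝ] ℝ) v = v j := rfl
  rw [this]
  ring

theorem differentiable_cos (N : ℝ) (j : Fin 3) :
    Differentiable ℝ (fun y : E3 => Real.cos (N * y j)) := fun x =>
  (hasFDerivAt_lin N j x).cos.differentiableAt

theorem contDiff_sin (N : ℝ) (j : Fin 3) : ContDiff ℝ ∞ (fun y : E3 => Real.sin (N * y j)) :=
  Real.contDiff_sin.comp (contDiff_const.mul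
    ((EuclideanSpace.proj (𝕜 := ℝ) j : E3 →L[ℝ] ℝ).contDiff))

theorem part2 (φ : E3 → E3) (N : ℝ) (j : Fin 3) (x : E3) (hφ : ContDiff ℝ ∞ φ) :
    lpl (fun y => Real.sin (N * y j) • φ y) x = -(N ^ 2 * Real.sin (N * x j)) • φ x
      + (2 * N * Real.cos (N * x j)) • fderiv ℝ φ x (EuclideanSpace.single j 1)
      + Real.sin (N * x j) • lpl φ x := by
  rw [lpl_smul _ φ (contDiff_sin N j) hφ x]
  have e1 : ∀ i : Fin 3, fderiv ℝ (fun y => fderiv ℝ (fun y : E3 => Real.sin (N * y j)) y (ev i)) x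
      (ev i) = -(N ^ 2 * Real.sin (N * x j)) * (ev i j) := by
    intro i
    have e2 : (fun y => fderiv ℝ (fun y : E3 => Real.sin (N * y j)) y (ev i))
        = fun y => (N * ev i j) * Real.cos (N * y j) := by
      funext y
      rw [fderiv_sin]
      ring
    rw [e2, fderiv_const_mul (differentiable_cos N j x), ContinuousLinearMap.smul_apply,
      fderiv_cos]
    have e3 : ev i j * ev i j = ev i j := by
      by_cases h : j = i
      · subst h; simp
      · simp [h]
    rw [smul_eq_mul]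
    linear_combination (-(N ^ 2 * Real.sin (N * x j))) * e3
  simp only [e1]
  simp only [fderiv_sin, Finset.sum_add_distrib]
  have e4 : ∑ i : Fin 3, (-(N ^ 2 * Real.sin (N * x j)) * (ev i j)) • φ x
      = -(N ^ 2 * Real.sin (N * x j)) • φ x := by
    rw [Finset.sum_eq_single j]
    · simp
    · intro b _ hb
      simp [Ne.symm hb]
    · simp
  have e5 : ∑ i : Fin 3, (2 * (N * Real.cos (N * x j) * ev i j)) • fderiv ℝ φ x (ev i)
      = (2 * N * Real.cos (N * x j)) • fderiv ℝ φ x (ev j) := by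
    rw [Finset.sum_eq_single j]
    · simp [mul_assoc]
    · intro b _ hb
      simp [Ne.symm hb]
    · simp
  rw [e4, e5]
  unfold lpl
  rw [Finset.smul_sum]

theorem t_LD (hci : S_ci) : S_ld :=
  ⟨fun Y v hY hYc hv hvc => part1 hci Y v hY hYc hv hvc,
    fun φ N j x hφ => part2 φ N j x hφ⟩

end Pool.Agent.T2h23.GY.LD
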