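import Pool.Agent.T2h23.GY.Stm
import Pool.Agent.T2h23.O3

set_option autoImplicit false
set_option linter.unusedSectionVars false

/-!
Task LOC: the enlarged frame; local existence with the bounded skew operator and the friction.
-/

open MeasureTheory Set Filter Topology
open scoped InnerProductSpace ENNReal

namespace Pool.Agent.T2h23.GY.LOC

open Pool.Agent.T2h23.GY
open H772R2.NSR (Frame prim_cont)
open Pool.Agent.W795.TQ (Str FH Univ S_loc)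

section

variable {H K : Type} [NormedAddCommGroup H] [InnerProductSpace ℝ H]
  [NormedAddCommGroup K] [InnerProductSpace ℝ K]

/-- the enlarged space of velocities -/
abbrev HH (H : Type) := WithLp 2 (H × ℝ)

/-- the enlarged space of gradients -/
abbrev KK (H K : Type) := WithLp 2 (K × WithLp 2 (H × ℝ))

/-- elements -/
def mkH (h : H) (a : ℝ) : HH H := WithLp.toLp 2 (h, a)
def mkK (k : K) (h : H) (a : ℝ) : KK H K := WithLp.toLp 2 (k, WithLp.toLp 2 (h, a))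

@[simp] theorem mkH_fst (h : H) (a : ℝ) : (mkH h a).fst = h := rfl
@[simp] theorem mkH_snd (h : H) (a : ℝ) : (mkH h a).snd = a := rfl
@[simp] theorem mkK_fst (k : K) (h : H) (a : ℝ) : (mkK k h a).fst = k := rfl
@[simp] theorem mkK_snd_fst (k : K) (h : H) (a : ℝ) : (mkK k h a).snd.fst = h := rfl
@[simp] theorem mkK_snd_snd (k : K) (h : H) (a : ℝ) : (mkK k h a).snd.snd = a := rfl

theorem extH {x y : HH H} (h1 : x.fst = y.fst) (h2 : x.snd = y.snd) : x = y := by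
  have : (WithLp.ofLp x) = WithLp.ofLp y := Prod.ext h1 h2
  exact WithLp.ofLp_injective 2 this

theorem extK {x y : KK H K} (h1 : x.fst = y.fst) (h2 : x.snd.fst = y.snd.fst)
    (h3 : x.snd.snd = y.snd.snd) : x = y := by
  have : (WithLp.ofLp x) = WithLp.ofLp y := Prod.ext h1 (extH h2 h3)
  exact WithLp.ofLp_injective 2 this

theorem innR (a b : ℝ) : ⟪a, b⟫_ℝ = a * b := by
  rw [real_inner_comm]
  rfl

theorem innH (x y : HH H) : ⟪x, y⟫_ℝ = ⟪x.fst, y.fst⟫_ℝ + x.snd * y.snd := by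
  have h : ⟪x, y⟫_ℝ = ⟪x.fst, y.fst⟫_ℝ + ⟪x.snd, y.snd⟫_ℝ := rfl
  rw [h, innR]

theorem innK (x y : KK H K) : ⟪x, y⟫_ℝ
    = ⟪x.fst, y.fst⟫_ℝ + (⟪x.snd.fst, y.snd.fst⟫_ℝ + x.snd.snd * y.snd.snd) := by
  have h : ⟪x, y⟫_ℝ = ⟪x.fst, y.fst⟫_ℝ + ⟪x.snd, y.snd⟫_ℝ := rfl
  rw [h, innH]

theorem nsqH (x : HH H) : ‖x‖ ^ 2 = ‖x.fst‖ ^ 2 + x.snd ^ 2 := by
  rw [WithLp.prod_norm_sq_eq_of_L2, Real.norm_eq_abs, sq_abs]

theorem nsqK (x : KK H K) : ‖x‖ ^ 2 = ‖x.fst‖ ^ 2 + (‖x.snd.fst‖ ^ 2 + x.snd.snd ^ 2) := by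
  rw [WithLp.prod_norm_sq_eq_of_L2, nsqH]

theorem le1 (x : HH H) : ‖x.fst‖ ≤ ‖x‖ := by
  have := nsqH x
  exact le_of_sq_le_sq (by nlinarith [sq_nonneg x.snd]) (norm_nonneg _)

theorem le2 (x : HH H) : |x.snd| ≤ ‖x‖ := by
  have := nsqH x
  refine le_of_sq_le_sq ?_ (norm_nonneg _)
  rw [sq_abs]
  nlinarith [sq_nonneg ‖x.fst‖]

theorem le3 (x : KK H K) : ‖x.fst‖ ≤ ‖x‖ := by
  have := nsqK x
  exact le_of_sq_le_sq (by nlinarith [sq_nonneg x.snd.snd, sq_nonneg ‖x.snd.fst‖]) (norm_nonneg _)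

theorem le5 (x : KK H K) : |x.snd.snd| ≤ ‖x‖ := by
  have := nsqK x
  refine le_of_sq_le_sq ?_ (norm_nonneg _)
  rw [sq_abs]
  nlinarith [sq_nonneg ‖x.fst‖, sq_nonneg ‖x.snd.fst‖]

/-- the enlarged graph -/
def WW (W : Submodule ℝ (H × K)) (s : ℝ) : Submodule ℝ (HH H × KK H K) where
  carrier := {p | (p.1.fst, p.2.fst) ∈ W ∧ p.2.snd.fst = s • p.1.fst ∧ p.2.snd.snd = p.1.snd}
  add_mem' := by
    rintro p q ⟨h1, h2, h3⟩ ⟨k1, k2, k3⟩
    refine ⟨W.add_mem h1 k1, ?_, ?_⟩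
    · show p.2.snd.fst + q.2.snd.fst = s • (p.1.fst + q.1.fst)
      rw [h2, k2, smul_add]
    · show p.2.snd.snd + q.2.snd.snd = p.1.snd + q.1.snd
      rw [h3, k3]
  zero_mem' := by
    refine ⟨W.zero_mem, ?_, rfl⟩
    show (0 : H) = s • (0 : H)
    rw [smul_zero]
  smul_mem' := by
    rintro a p ⟨h1, h2, h3⟩
    refine ⟨W.smul_mem a h1, ?_, ?_⟩
    · show a • p.2.snd.fst = s • (a • p.1.fst)
      rw [h2, smul_comm]
    · show a • p.2.snd.snd = a • p.1.snd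
      rw [h3]

theorem mem_WW {W : Submodule ℝ (H × K)} {s : ℝ} {p : HH H × KK H K} :
    p ∈ WW W s ↔ (p.1.fst, p.2.fst) ∈ W ∧ p.2.snd.fst = s • p.1.fst ∧ p.2.snd.snd = p.1.snd :=
  Iff.rfl

/-- the enlarged nonlinearity -/
def mm (m : H → K) (Z : H →L[ℝ] K) (S : H →L[ℝ] H) (x : HH H) : KK H K :=
  mkK (m x.fst - x.snd • Z (S x.fst)) 0 0

theorem mm_fst (m : H → K) (Z : H →L[ℝ] K) (S : H →L[ℝ] H) (x : HH H) :
    (mm m Z S x).fst = m x.fst - x.snd • Z (S x.fst) := rfl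

theorem norm_mkK0 (k : K) : ‖(mkK k 0 0 : KK H K)‖ = ‖k‖ := by
  have h := nsqK (mkK k 0 0 : KK H K)
  simp only [mkK_fst, mkK_snd_fst, mkK_snd_snd, norm_zero] at h
  have h2 : ‖(mkK k 0 0 : KK H K)‖ ^ 2 = ‖k‖ ^ 2 := by
    rw [h]; ring
  exact (pow_left_inj₀ (norm_nonneg _) (norm_nonneg _) (by norm_num)).mp h2

theorem skew' {S : H →L[ℝ] H} (hS : ∀ h : H, ⟪S h, h⟫_ℝ = 0) (h g : H) :
    ⟪S h, g⟫_ℝ = -⟪S g, h⟫_ℝ := by
  have h1 := hS (h + g)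
  rw [map_add, inner_add_left, inner_add_right, inner_add_right, hS h, hS g] at h1
  linarith

theorem norm_ZS (Z : H →L[ℝ] K) (S : H →L[ℝ] H) (h : H) : ‖Z (S h)‖ ≤ ‖Z‖ * ‖S‖ * ‖h‖ := by
  refine (Z.le_opNorm _).trans ?_
  rw [mul_assoc]
  exact mul_le_mul_of_nonneg_left (S.le_opNorm _) (norm_nonneg _)

theorem pow4_add (x y : ℝ) : (x + y) ^ 4 ≤ 8 * x ^ 4 + 8 * y ^ 4 := by
  nlinarith [sq_nonneg (x - y), sq_nonneg (x ^ 2 - y ^ 2), sq_nonneg (x + y),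
    mul_nonneg (sq_nonneg (x - y)) (sq_nonneg (x + y)), sq_nonneg ((x - y) ^ 2),
    mul_nonneg (sq_nonneg (x - y)) (sq_nonneg x), mul_nonneg (sq_nonneg (x - y)) (sq_nonneg y)]

theorem frame_quart {W : Submodule ℝ (H × K)} {m : H → K} {C : ℝ} (Fr : Frame W m C)
    (Z : H →L[ℝ] K) (S : H →L[ℝ] H) {s : ℝ} {p : HH H × KK H K} (hp : p ∈ WW W s) :
    ‖mm m Z S p.1‖ ^ 2 ≤ (2 * C + 2 * (‖Z‖ * ‖S‖) ^ 2 * C ^ 2) * (‖p.1‖ * ‖p.2‖ ^ 3) := by
  obtain ⟨h1, h2, h3⟩ := hp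
  set σ : ℝ := ‖Z‖ * ‖S‖ with hσ
  have hσ0 : 0 ≤ σ := by positivity
  have hC0 : 0 < C := Fr.C0
  have a1 := le1 p.1
  have a2 := le2 p.1
  have a3 := le3 p.2
  have a4 : |p.1.snd| ≤ ‖p.2‖ := by
    have := le5 p.2
    rwa [h3] at this
  have a5 : ‖p.1.fst‖ ≤ C * ‖p.2.fst‖ := Fr.poinc _ h1
  have a6 := Fr.quart _ h1
  simp only at a5 a6
  have e : ‖mm m Z S p.1‖ = ‖m p.1.fst - p.1.snd • Z (S p.1.fst)‖ := norm_mkK0 _
  have b1 : ‖m p.1.fst - p.1.snd • Z (S p.1.fst)‖ ≤ ‖m p.1.fst‖ + |p.1.snd| * (σ * ‖p.1.fst‖) := by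
    refine (norm_sub_le _ _).trans ?_
    rw [norm_smul, Real.norm_eq_abs]
    have := norm_ZS Z S p.1.fst
    gcongr
  have b2 : ‖m p.1.fst - p.1.snd • Z (S p.1.fst)‖ ^ 2
      ≤ 2 * ‖m p.1.fst‖ ^ 2 + 2 * (|p.1.snd| * (σ * ‖p.1.fst‖)) ^ 2 := by
    refine (pow_le_pow_left₀ (norm_nonneg _) b1 2).trans ?_
    nlinarith [sq_nonneg (‖m p.1.fst‖ - |p.1.snd| * (σ * ‖p.1.fst‖))]
  have b3 : ‖m p.1.fst‖ ^ 2 ≤ C * (‖p.1‖ * ‖p.2‖ ^ 3) := by
    refine a6.trans ?_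
    gcongr
  have a7 : ‖p.1.fst‖ ≤ C * ‖p.2‖ := a5.trans (mul_le_mul_of_nonneg_left a3 hC0.le)
  have b4 : (|p.1.snd| * ‖p.1.fst‖) ^ 2 ≤ C ^ 2 * (‖p.1‖ * ‖p.2‖ ^ 3) := by
    have c1 : (|p.1.snd| * ‖p.1.fst‖) ^ 2 = (|p.1.snd| * |p.1.snd|) * (‖p.1.fst‖ * ‖p.1.fst‖) := by
      ring
    have c2 : |p.1.snd| * |p.1.snd| ≤ ‖p.1‖ * ‖p.2‖ :=
      mul_le_mul a2 a4 (abs_nonneg _) (norm_nonneg _)
    have c3 : ‖p.1.fst‖ * ‖p.1.fst‖ ≤ (C * ‖p.2‖) * (C * ‖p.2‖) :=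
      mul_le_mul a7 a7 (norm_nonneg _) (by positivity)
    rw [c1]
    calc (|p.1.snd| * |p.1.snd|) * (‖p.1.fst‖ * ‖p.1.fst‖)
        ≤ (‖p.1‖ * ‖p.2‖) * ((C * ‖p.2‖) * (C * ‖p.2‖)) :=
          mul_le_mul c2 c3 (by positivity) (by positivity)
      _ = C ^ 2 * (‖p.1‖ * ‖p.2‖ ^ 3) := by ring
  rw [e]
  refine b2.trans ?_
  have b5 : (|p.1.snd| * (σ * ‖p.1.fst‖)) ^ 2 ≤ σ ^ 2 * (C ^ 2 * (‖p.1‖ * ‖p.2‖ ^ 3)) := by
    have : (|p.1.snd| * (σ * ‖p.1.fst‖)) ^ 2 = σ ^ 2 * (|p.1.snd| * ‖p.1.fst‖) ^ 2 := by ring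
    rw [this]
    exact mul_le_mul_of_nonneg_left b4 (by positivity)
  nlinarith

theorem frame_lips {W : Submodule ℝ (H × K)} {m : H → K} {C : ℝ} (Fr : Frame W m C)
    (Z : H →L[ℝ] K) (S : H →L[ℝ] H) {s : ℝ} {p q : HH H × KK H K} (hp : p ∈ WW W s)
    (hq : q ∈ WW W s) :
    ‖mm m Z S p.1 - mm m Z S q.1‖ ^ 4
      ≤ (8 * C + 64 * (‖Z‖ * ‖S‖) ^ 4 * (C ^ 4 + C ^ 3))
        * (‖p.1 - q.1‖ * ‖p.2 - q.2‖ ^ 3 * (‖p.2‖ + ‖q.2‖) ^ 4) := by
  have hpq : p - q ∈ WW W s := (WW W s).sub_mem hp hq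
  obtain ⟨h1, h2, h3⟩ := hp
  obtain ⟨k1, k2, k3⟩ := hq
  obtain ⟨l1, l2, l3⟩ := hpq
  set σ : ℝ := ‖Z‖ * ‖S‖ with hσ
  have hσ0 : 0 ≤ σ := by positivity
  have hC0 : 0 < C := Fr.C0
  set h := p.1.fst with hh
  set g := q.1.fst with hg
  set a := p.1.snd with ha
  set b := q.1.snd with hb
  have dn : ∀ x y : HH H, (x - y).fst = x.fst - y.fst := fun x y => rfl
  have a1 : ‖h - g‖ ≤ ‖p.1 - q.1‖ := le1 (p.1 - q.1)
  have a2 : |a - b| ≤ ‖p.1 - q.1‖ := le2 (p.1 - q.1)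
  have a3 : ‖p.2.fst - q.2.fst‖ ≤ ‖p.2 - q.2‖ := le3 (p.2 - q.2)
  have a4 : |a - b| ≤ ‖p.2 - q.2‖ := by
    have := le5 (p.2 - q.2)
    have e : (p.2 - q.2).snd.snd = a - b := l3
    rwa [e] at this
  have a5 : |b| ≤ ‖q.2‖ := by
    have := le5 q.2
    rwa [k3] at this
  have a6 : ‖h‖ ≤ C * ‖p.2‖ := (Fr.poinc _ h1).trans (mul_le_mul_of_nonneg_left (le3 p.2) hC0.le)
  have a7 : ‖h - g‖ ≤ C * ‖p.2 - q.2‖ := by
    have e := Fr.poinc _ l1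
    exact e.trans (mul_le_mul_of_nonneg_left (le3 (p.2 - q.2)) hC0.le)
  have a8 := Fr.lips _ h1 _ k1
  simp only at a8
  have a9 : ‖m h - m g‖ ^ 4 ≤ C * (‖p.1 - q.1‖ * ‖p.2 - q.2‖ ^ 3 * (‖p.2‖ + ‖q.2‖) ^ 4) := by
    refine a8.trans ?_
    have x1 := le3 p.2
    have x2 := le3 q.2
    gcongr
  have e1 : mm m Z S p.1 - mm m Z S q.1
      = mkK ((m h - m g) - (a • Z (S h) - b • Z (S g))) 0 0 := by
    refine extK ?_ ?_ ?_
    · show (m h - a • Z (S h)) - (m g - b • Z (S g)) = _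
      rw [mkK_fst]
      abel
    · show (0 : H) - 0 = 0
      rw [sub_zero]
    · show (0 : ℝ) - 0 = 0
      rw [sub_zero]
  rw [e1, norm_mkK0]
  have e2 : a • Z (S h) - b • Z (S g) = (a - b) • Z (S h) + b • Z (S (h - g)) := by
    rw [map_sub, map_sub, sub_smul, smul_sub]
    abel
  have b1 : ‖a • Z (S h) - b • Z (S g)‖ ≤ σ * (|a - b| * ‖h‖) + σ * (|b| * ‖h - g‖) := by
    rw [e2]
    refine (norm_add_le _ _).trans ?_
    rw [norm_smul, norm_smul, Real.norm_eq_abs, Real.norm_eq_abs]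
    have x1 := norm_ZS Z S h
    have x2 := norm_ZS Z S (h - g)
    have x3 : |a - b| * ‖Z (S h)‖ ≤ |a - b| * (σ * ‖h‖) :=
      mul_le_mul_of_nonneg_left x1 (abs_nonneg _)
    have x4 : |b| * ‖Z (S (h - g))‖ ≤ |b| * (σ * ‖h - g‖) :=
      mul_le_mul_of_nonneg_left x2 (abs_nonneg _)
    linarith
  set P := ‖p.1 - q.1‖ with hP
  set Q := ‖p.2 - q.2‖ with hQ
  set R := ‖p.2‖ + ‖q.2‖ with hR
  have hP0 : 0 ≤ P := norm_nonneg _
  have hQ0 : 0 ≤ Q := norm_nonneg _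
  have hR0 : 0 ≤ R := by positivity
  have hpR : ‖p.2‖ ≤ R := by
    have := norm_nonneg q.2
    linarith
  have hqR : ‖q.2‖ ≤ R := by
    have := norm_nonneg p.2
    linarith
  have c1 : (|a - b| * ‖h‖) ^ 4 ≤ C ^ 4 * (P * Q ^ 3 * R ^ 4) := by
    have y1 : |a - b| ^ 4 ≤ P * Q ^ 3 := by
      have : |a - b| ^ 4 = |a - b| * |a - b| ^ 3 := by ring
      rw [this]
      exact mul_le_mul a2 (pow_le_pow_left₀ (abs_nonneg _) a4 3) (by positivity) hP0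
    have y2 : ‖h‖ ^ 4 ≤ (C * R) ^ 4 :=
      pow_le_pow_left₀ (norm_nonneg _) (a6.trans (mul_le_mul_of_nonneg_left hpR hC0.le)) 4
    calc (|a - b| * ‖h‖) ^ 4 = |a - b| ^ 4 * ‖h‖ ^ 4 := by ring
      _ ≤ (P * Q ^ 3) * (C * R) ^ 4 := mul_le_mul y1 y2 (by positivity) (by positivity)
      _ = C ^ 4 * (P * Q ^ 3 * R ^ 4) := by ring
  have c2 : (|b| * ‖h - g‖) ^ 4 ≤ C ^ 3 * (P * Q ^ 3 * R ^ 4) := by
    have y1 : ‖h - g‖ ^ 4 ≤ P * (C * Q) ^ 3 := by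
      have : ‖h - g‖ ^ 4 = ‖h - g‖ * ‖h - g‖ ^ 3 := by ring
      rw [this]
      exact mul_le_mul a1 (pow_le_pow_left₀ (norm_nonneg _) a7 3) (by positivity) hP0
    have y2 : |b| ^ 4 ≤ R ^ 4 := pow_le_pow_left₀ (abs_nonneg _) (a5.trans hqR) 4
    calc (|b| * ‖h - g‖) ^ 4 = |b| ^ 4 * ‖h - g‖ ^ 4 := by ring
      _ ≤ R ^ 4 * (P * (C * Q) ^ 3) := mul_le_mul y2 y1 (by positivity) (by positivity)
      _ = C ^ 3 * (P * Q ^ 3 * R ^ 4) := by ring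
  have d1 : ‖a • Z (S h) - b • Z (S g)‖ ^ 4
      ≤ 8 * σ ^ 4 * (C ^ 4 + C ^ 3) * (P * Q ^ 3 * R ^ 4) := by
    refine (pow_le_pow_left₀ (norm_nonneg _) b1 4).trans ?_
    refine (pow4_add _ _).trans ?_
    have z1 : (σ * (|a - b| * ‖h‖)) ^ 4 ≤ σ ^ 4 * (C ^ 4 * (P * Q ^ 3 * R ^ 4)) := by
      rw [mul_pow]
      exact mul_le_mul_of_nonneg_left c1 (by positivity)
    have z2 : (σ * (|b| * ‖h - g‖)) ^ 4 ≤ σ ^ 4 * (C ^ 3 * (P * Q ^ 3 * R ^ 4)) := by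
      rw [mul_pow]
      exact mul_le_mul_of_nonneg_left c2 (by positivity)
    nlinarith
  have d2 : ‖(m h - m g) - (a • Z (S h) - b • Z (S g))‖ ^ 4
      ≤ 8 * ‖m h - m g‖ ^ 4 + 8 * ‖a • Z (S h) - b • Z (S g)‖ ^ 4 :=
    (pow_le_pow_left₀ (norm_nonneg _) (norm_sub_le _ _) 4).trans (pow4_add _ _)
  refine d2.trans ?_
  nlinarith

/-- the enlarged frame -/
theorem frame {W : Submodule ℝ (H × K)} {m : H → K} {B : H → H → K} {Z : H →L[ℝ] K}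
    {S : H →L[ℝ] H} {c C ν : ℝ} (G : GS W m B Z c C ν) (hS : ∀ h : H, ⟪S h, h⟫_ℝ = 0) (s : ℝ) :
    ∃ C' : ℝ, Frame (WW W s) (mm m Z S) C' := by
  have Fr := G.fr
  have hC0 : 0 < C := Fr.C0
  set σ : ℝ := ‖Z‖ * ‖S‖ with hσ
  have hσ0 : 0 ≤ σ := by positivity
  set C' : ℝ := (C + 1) + (2 * C + 2 * σ ^ 2 * C ^ 2) + (8 * C + 64 * σ ^ 4 * (C ^ 4 + C ^ 3))
    with hC'
  have q1 : C + 1 ≤ C' := by rw [hC']; nlinarith [show 0 ≤ 2 * C + 2 * σ ^ 2 * C ^ 2 by positivity,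
    show 0 ≤ 8 * C + 64 * σ ^ 4 * (C ^ 4 + C ^ 3) by positivity]
  have q2 : 2 * C + 2 * σ ^ 2 * C ^ 2 ≤ C' := by
    rw [hC']; nlinarith [show 0 ≤ 8 * C + 64 * σ ^ 4 * (C ^ 4 + C ^ 3) by positivity]
  have q3 : 8 * C + 64 * σ ^ 4 * (C ^ 4 + C ^ 3) ≤ C' := by
    rw [hC']; nlinarith [show 0 ≤ 2 * C + 2 * σ ^ 2 * C ^ 2 by positivity]
  refine ⟨C', ?_⟩
  refine
    { C0 := by positivity
      closedW := ?_
      uniq := ?_
      poinc := ?_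
      ortho := ?_
      anti := ?_
      quart := ?_
      lips := ?_ }
  · have c1 : Continuous (fun p : HH H × KK H K => (p.1.fst, p.2.fst)) :=
      ((WithLp.continuous_fst 2 H ℝ).comp continuous_fst).prodMk
        ((WithLp.continuous_fst 2 K (HH H)).comp continuous_snd)
    have c2 : Continuous (fun p : HH H × KK H K => p.2.snd.fst) :=
      (WithLp.continuous_fst 2 H ℝ).comp ((WithLp.continuous_snd 2 K (HH H)).comp continuous_snd)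
    have c3 : Continuous (fun p : HH H × KK H K => s • p.1.fst) :=
      ((WithLp.continuous_fst 2 H ℝ).comp continuous_fst).const_smul s
    have c4 : Continuous (fun p : HH H × KK H K => p.2.snd.snd) :=
      (WithLp.continuous_snd 2 H ℝ).comp ((WithLp.continuous_snd 2 K (HH H)).comp continuous_snd)
    have c5 : Continuous (fun p : HH H × KK H K => p.1.snd) :=
      (WithLp.continuous_snd 2 H ℝ).comp continuous_fst
    exact (Fr.closedW.preimage c1).inter ((isClosed_eq c2 c3).inter (isClosed_eq c4 c5))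
  · rintro p ⟨h1, h2, h3⟩ h0
    have e1 : p.1.fst = 0 := by rw [h0]; rfl
    have e2 : p.1.snd = 0 := by rw [h0]; rfl
    have e3 := Fr.uniq _ h1 e1
    refine extK ?_ ?_ ?_
    · exact e3
    · rw [h2, e1, smul_zero]; rfl
    · rw [h3, e2]; rfl
  · rintro p ⟨h1, h2, h3⟩
    have e1 : ‖p.1.fst‖ ≤ C * ‖p.2.fst‖ := Fr.poinc _ h1
    have e2 : ‖p.1‖ ^ 2 ≤ ((C + 1) * ‖p.2‖) ^ 2 := by
      have t1 : ‖p.1.fst‖ ^ 2 ≤ (C * ‖p.2.fst‖) ^ 2 := pow_le_pow_left₀ (norm_nonneg _) e1 2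
      rw [nsqH, mul_pow, nsqK, h3]
      have t2 : 0 ≤ ‖p.2.fst‖ ^ 2 := by positivity
      have t3 : 0 ≤ p.1.snd ^ 2 := by positivity
      have t4 : 0 ≤ ‖p.2.snd.fst‖ ^ 2 := by positivity
      nlinarith [mul_nonneg hC0.le t2, mul_nonneg hC0.le t3, mul_nonneg hC0.le t4,
        mul_nonneg (mul_nonneg hC0.le hC0.le) t2, mul_nonneg (mul_nonneg hC0.le hC0.le) t3,
        mul_nonneg (mul_nonneg hC0.le hC0.le) t4]
    have e3 : ‖p.1‖ ≤ (C + 1) * ‖p.2‖ := le_of_sq_le_sq e2 (by positivity)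
    exact e3.trans (mul_le_mul_of_nonneg_right q1 (norm_nonneg _))
  · rintro p ⟨h1, h2, h3⟩
    rw [innK]
    simp only [mm, mkK_fst, mkK_snd_fst, mkK_snd_snd, inner_zero_left, zero_mul, add_zero]
    rw [inner_sub_left, inner_smul_left, G.rz _ _ h1, hS]
    have := Fr.ortho _ h1
    simp only at this
    rw [this]
    simp
  · rintro p ⟨h1, h2, h3⟩ q ⟨k1, k2, k3⟩
    have hpq : (p.1.fst - q.1.fst, p.2.fst - q.2.fst) ∈ W := W.sub_mem h1 k1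
    have e0 := Fr.anti _ h1 _ k1
    simp only at e0
    have e1 : ⟪mm m Z S p.1 - mm m Z S q.1, p.2 - q.2⟫_ℝ
        = ⟪(m p.1.fst - p.1.snd • Z (S p.1.fst)) - (m q.1.fst - q.1.snd • Z (S q.1.fst)),
            p.2.fst - q.2.fst⟫_ℝ := by
      rw [innK]
      have t1 : (mm m Z S p.1 - mm m Z S q.1).snd.fst = (0 : H) - 0 := rfl
      have t2 : (mm m Z S p.1 - mm m Z S q.1).snd.snd = (0 : ℝ) - 0 := rfl
      rw [t1, t2, sub_zero, sub_zero, inner_zero_left, zero_mul, add_zero, add_zero]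
      rfl
    have e2 : ⟪mm m Z S (p.1 - q.1), q.2⟫_ℝ
        = ⟪m (p.1.fst - q.1.fst) - (p.1.snd - q.1.snd) • Z (S (p.1.fst - q.1.fst)), q.2.fst⟫_ℝ := by
      rw [innK]
      simp only [mm, mkK_fst, mkK_snd_fst, mkK_snd_snd, inner_zero_left, zero_mul, add_zero]
      rfl
    rw [e1, e2]
    have f1 : (m p.1.fst - p.1.snd • Z (S p.1.fst)) - (m q.1.fst - q.1.snd • Z (S q.1.fst))
        = (m p.1.fst - m q.1.fst) - (p.1.snd • Z (S p.1.fst) - q.1.snd • Z (S q.1.fst)) := by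
      abel
    rw [f1, inner_sub_left, e0, inner_sub_left, inner_sub_left, inner_smul_left, inner_smul_left,
      inner_smul_left]
    have r1 := G.rz (S p.1.fst) _ hpq
    have r2 := G.rz (S q.1.fst) _ hpq
    have r3 := G.rz (S (p.1.fst - q.1.fst)) _ k1
    simp only at r1 r2 r3
    have r4 : S (p.1.fst - q.1.fst) = S p.1.fst - S q.1.fst := map_sub S _ _
    rw [r1, r2, r3, r4, inner_sub_right, inner_sub_right, inner_sub_left, hS, hS,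
      skew' hS q.1.fst p.1.fst]
    simp only [conj_trivial]
    ring
  · intro p hp
    refine (frame_quart Fr Z S hp).trans ?_
    exact mul_le_mul_of_nonneg_right q2 (by positivity)
  · intro p hp q hq
    refine (frame_lips Fr Z S hp hq).trans ?_
    exact mul_le_mul_of_nonneg_right q3 (by positivity)

/-- total boundedness of products -/
theorem tb_prod {X Y : Type*} [PseudoMetricSpace X] [PseudoMetricSpace Y] {s : Set X} {t : Set Y}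
    (hs : TotallyBounded s) (ht : TotallyBounded t) : TotallyBounded (s ×ˢ t) := by
  rw [Metric.totallyBounded_iff] at *
  intro ε hε
  obtain ⟨a, ha, ha'⟩ := hs ε hε
  obtain ⟨b, hb, hb'⟩ := ht ε hε
  refine ⟨a ×ˢ b, ha.prod hb, ?_⟩
  rintro ⟨x, y⟩ ⟨hx, hy⟩
  obtain ⟨p, hp, hxp⟩ := mem_iUnion₂.1 (ha' hx)
  obtain ⟨q, hq, hyq⟩ := mem_iUnion₂.1 (hb' hy)
  refine mem_iUnion₂.2 ⟨(p, q), ⟨hp, hq⟩, ?_⟩
  rw [Metric.mem_ball, Prod.dist_eq]
  exact max_lt hxp hyq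

theorem tb {W : Submodule ℝ (H × K)}
    (h : ∀ R : ℝ, TotallyBounded {v : H | ∃ z, (v, z) ∈ W ∧ ‖z‖ ≤ R}) (s R : ℝ) :
    TotallyBounded {v : HH H | ∃ z : KK H K, (v, z) ∈ WW W s ∧ ‖z‖ ≤ R} := by
  have h1 : TotallyBounded (Icc (-R) R) := isCompact_Icc.totallyBounded
  have h2 := (tb_prod (h R) h1).image (WithLp.prod_uniformContinuous_toLp 2 H ℝ)
  refine h2.subset ?_
  rintro v ⟨z, ⟨k1, k2, k3⟩, hz⟩
  refine ⟨(v.fst, v.snd), ⟨⟨z.fst, k1, (le3 z).trans hz⟩, ?_⟩, rfl⟩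
  have e : |z.snd.snd| ≤ R := (le5 z).trans hz
  have e2 : z.snd.snd = v.snd := k3
  rw [e2] at e
  exact abs_le.1 e

end

section

variable {H K : Type} [NormedAddCommGroup H] [InnerProductSpace ℝ H] [CompleteSpace H]
  [NormedAddCommGroup K] [InnerProductSpace ℝ K] [CompleteSpace K]

/-- the inclusions as continuous linear maps -/
noncomputable def incH : H →L[ℝ] HH H :=
  ((WithLp.prodContinuousLinearEquiv 2 ℝ H ℝ).symm : (H × ℝ) →L[ℝ] HH H) ∘L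
    ContinuousLinearMap.inl ℝ H ℝ

noncomputable def incK : K →L[ℝ] KK H K :=
  ((WithLp.prodContinuousLinearEquiv 2 ℝ K (HH H)).symm : (K × HH H) →L[ℝ] KK H K) ∘L
    ContinuousLinearMap.inl ℝ K (HH H)

theorem incH_apply (h : H) : incH h = mkH h 0 := rfl

theorem incK_apply (k : K) : (incK k : KK H K) = mkK k 0 0 := rfl

/-- images of functions in `H¹` -/
theorem fh_map {X Y : Type} [NormedAddCommGroup X] [InnerProductSpace ℝ X] [CompleteSpace X]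
    [NormedAddCommGroup Y] [InnerProductSpace ℝ Y] [CompleteSpace Y] (L : X →L[ℝ] Y) {T : ℝ}
    {F F1 : ℝ → X} (h : FH T F F1) : FH T (fun t => L (F t)) (fun t => L (F1 t)) where
  memLp := L.comp_memLp' h.memLp
  prim := by
    intro a b ha hab hb
    have hi : IntervalIntegrable F1 volume a b := by
      rw [intervalIntegrable_iff_integrableOn_Ioc_of_le hab]
      have h1 : IntegrableOn F1 (Ioc 0 T) := h.memLp.integrable (by norm_num)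
      exact h1.mono_set (Ioc_subset_Ioc ha hb)
    rw [L.intervalIntegral_comp_comm hi, ← h.prim a b ha hab hb, map_sub]

theorem fh_addc {X : Type} [NormedAddCommGroup X] [InnerProductSpace ℝ X] {T : ℝ}
    {F F1 : ℝ → X} (h : FH T F F1) (c : X) : FH T (fun t => F t + c) F1 where
  memLp := h.memLp
  prim := by
    intro a b ha hab hb
    rw [← h.prim a b ha hab hb]
    abel

theorem fh_of {W : Submodule ℝ (H × K)} {m : H → K} {ν T : ℝ} {F : ℝ → K} {u u1 : ℝ → H}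
    {z z1 : ℝ → K} (h : Str W m ν T F u u1 z z1) : FH T u u1 ∧ FH T z z1 :=
  ⟨⟨h.u1m, h.pu⟩, ⟨h.z1m, h.pz⟩⟩

/-- the force of the enlarged equations is in `H¹` -/
theorem fh_force {T ν : ℝ} {F F1 : ℝ → K} (h : FH T F F1) :
    FH T (fun t => (mkK (F t) 0 ν : KK H K)) (fun t => (mkK (F1 t) 0 0 : KK H K)) := by
  have h1 := fh_addc (fh_map (incK (H := H)) h) (mkK 0 0 ν)
  have e : (fun t => (incK (F t) : KK H K) + mkK 0 0 ν) = fun t => (mkK (F t) 0 ν : KK H K) := by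
    funext t
    refine extK ?_ ?_ ?_
    · show F t + 0 = F t
      rw [add_zero]
    · show (0 : H) + 0 = 0
      rw [add_zero]
    · show (0 : ℝ) + ν = ν
      rw [zero_add]
  rw [e] at h1
  exact h1

/-- a solution of the enlarged equations gives a solution of the damped equations -/
theorem back {W : Submodule ℝ (H × K)} {m : H → K} {B : H → H → K} {Z : H →L[ℝ] K}
    {S : H →L[ℝ] H} {c C ν κ : ℝ} (G : GS W m B Z c C ν) (hS : ∀ h : H, ⟪S h, h⟫_ℝ = 0)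
    (hκ : 0 ≤ κ) {τ : ℝ} (hτ : 0 < τ) {F : ℝ → K} (hF : ContinuousOn F (Icc 0 τ))
    {U U1 : ℝ → HH H} {Y Y1 : ℝ → KK H K}
    (hU : Str (WW W (Real.sqrt (κ / ν))) (mm m Z S) ν τ (fun t => mkK (F t) 0 ν) U U1 Y Y1)
    (hU0 : (U 0).snd = 1) :
    PS W m Z S κ ν τ F (fun t => (U t).fst) (fun t => (U1 t).fst) (fun t => (Y t).fst)
      (fun t => (Y1 t).fst) ∧ ∀ t ∈ Icc 0 τ, (U t).snd = 1 := by
  set s := Real.sqrt (κ / ν) with hs
  have hν : 0 < ν := G.ν0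
  have hs2 : ν * (s * s) = κ := by
    rw [hs, Real.mul_self_sqrt (by positivity)]
    field_simp
  obtain ⟨C', Fr'⟩ := frame G hS s
  obtain ⟨hfu, hfz⟩ := fh_of hU
  have hFc : ContinuousOn (fun t => (mkK (F t) 0 ν : KK H K)) (Icc 0 τ) := by
    have e : (fun t => (mkK (F t) 0 ν : KK H K)) = fun t => incK (F t) + mkK 0 0 ν := by
      funext t
      refine extK ?_ ?_ ?_
      · show F t = F t + 0
        rw [add_zero]
      · show (0 : H) = 0 + 0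
        rw [add_zero]
      · show ν = (0 : ℝ) + ν
        rw [zero_add]
    rw [e]
    exact ((incK (H := H)).continuous.comp_continuousOn hF).add continuousOn_const
  have hae := Pool.Agent.T2h23.str_ae Fr' hτ hFc hU
  have hmem : ∀ t ∈ Icc 0 τ, ((U t).fst, (Y t).fst) ∈ W ∧ (Y t).snd.fst = s • (U t).fst ∧
      (Y t).snd.snd = (U t).snd := hU.mem
  -- the last component
  have hd : FH τ (fun t => (WithLp.sndL 2 ℝ H ℝ) (U t) + (-1))
      (fun t => (WithLp.sndL 2 ℝ H ℝ) (U1 t)) :=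
    fh_addc (fh_map (WithLp.sndL 2 ℝ H ℝ) hfu) (-1)
  have hde : ∀ᵐ r ∂(volume.restrict (Ioc 0 τ)),
      (WithLp.sndL 2 ℝ H ℝ) (U1 r) = -(ν * ((WithLp.sndL 2 ℝ H ℝ) (U r) + (-1))) := by
    filter_upwards [hae, ae_restrict_mem measurableSet_Ioc] with r hr hrm
    have hp : ((mkH 0 1, mkK 0 0 1) : HH H × KK H K) ∈ WW W s := by
      refine ⟨W.zero_mem, ?_, rfl⟩
      show (0 : H) = s • (0 : H)
      rw [smul_zero]
    have h1 := hr _ hp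
    have h2 : ⟪U1 r, (mkH 0 1 : HH H)⟫_ℝ = (U1 r).snd := by
      rw [innH]
      simp
    have h3 : ⟪mkK (F r) 0 ν - ν • Y r + mm m Z S (U r), (mkK 0 0 1 : KK H K)⟫_ℝ
        = ν - ν * (U r).snd := by
      rw [innK]
      have t1 : (mkK (F r) 0 ν - ν • Y r + mm m Z S (U r)).snd.snd
          = ν - ν * (Y r).snd.snd + 0 := rfl
      rw [t1, (hmem r ⟨hrm.1.le, hrm.2⟩).2.2]
      simp
    have h4 : (U1 r).snd = ν - ν * (U r).snd := by
      rw [← h2, ← h3]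
      exact h1
    show (U1 r).snd = -(ν * ((U r).snd + (-1)))
    rw [h4]
    ring
  have hone : ∀ t ∈ Icc 0 τ, (U t).snd = 1 := by
    intro t ht
    have h1 := Pool.Agent.W790.TQ.sq_prim hd.memLp hd.prim (le_refl 0) ht.1 ht.2
    have h0 : ‖(WithLp.sndL 2 ℝ H ℝ) (U 0) + (-1)‖ ^ 2 = 0 := by
      have : (WithLp.sndL 2 ℝ H ℝ) (U 0) = 1 := hU0
      rw [this]
      simp
    rw [h0, sub_zero] at h1
    have h2 : ∫ r in (0 : ℝ)..t, 2 * ⟪(WithLp.sndL 2 ℝ H ℝ) (U1 r),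
        (WithLp.sndL 2 ℝ H ℝ) (U r) + (-1)⟫_ℝ ≤ 0 := by
      rw [intervalIntegral.integral_of_le ht.1]
      refine integral_nonpos_of_ae ?_
      have hle : (volume.restrict (Ioc 0 t) : Measure ℝ) ≤ volume.restrict (Ioc 0 τ) :=
        Measure.restrict_mono (Ioc_subset_Ioc_right ht.2) le_rfl
      refine ae_mono hle ?_
      filter_upwards [hde] with r hr
      show 2 * ⟪(WithLp.sndL 2 ℝ H ℝ) (U1 r), (WithLp.sndL 2 ℝ H ℝ) (U r) + (-1)⟫_ℝ ≤ 0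
      rw [hr, innR]
      show 2 * (-(ν * ((WithLp.sndL 2 ℝ H ℝ) (U r) + (-1))) * ((WithLp.sndL 2 ℝ H ℝ) (U r) + (-1)))
        ≤ 0
      nlinarith [mul_nonneg hν.le (sq_nonneg ((WithLp.sndL 2 ℝ H ℝ) (U r) + (-1)))]
    have h3 : ‖(WithLp.sndL 2 ℝ H ℝ) (U t) + (-1)‖ ^ 2 ≤ 0 := by
      rw [h1]
      exact h2
    have h4 : ‖(WithLp.sndL 2 ℝ H ℝ) (U t) + (-1)‖ = 0 := by
      have := norm_nonneg ((WithLp.sndL 2 ℝ H ℝ) (U t) + (-1))
      nlinarith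
    have h5 : (WithLp.sndL 2 ℝ H ℝ) (U t) + (-1) = 0 := norm_eq_zero.1 h4
    have h6 : (U t).snd + (-1) = 0 := h5
    linarith
  refine ⟨?_, hone⟩
  -- the first component
  have fu : FH τ (fun t => (U t).fst) (fun t => (U1 t).fst) := fh_map (WithLp.fstL 2 ℝ H ℝ) hfu
  have fz : FH τ (fun t => (Y t).fst) (fun t => (Y1 t).fst) :=
    fh_map (WithLp.fstL 2 ℝ K (HH H)) hfz
  have huc : ContinuousOn (fun t => (U t).fst) (Icc 0 τ) := prim_cont fu.memLp fu.prim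
  refine Pool.Agent.T2h23.str_of_ae G.fr hτ ?_ (fun t ht => (hmem t ht).1) ?_ ?_ fu fz ?_
  · refine hF.sub (Z.continuous.comp_continuousOn ?_)
    exact (S.continuous.comp_continuousOn huc).add (huc.const_smul κ)
  · filter_upwards [hU.mem1] with r hr
    exact hr.1
  · obtain ⟨c0, hc0⟩ := hU.bd
    refine ⟨c0, ?_⟩
    filter_upwards [hc0] with r hr
    exact (le1 _).trans hr
  · filter_upwards [hae, ae_restrict_mem measurableSet_Ioc] with r hr hrm p hp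
    have hr' : r ∈ Icc 0 τ := ⟨hrm.1.le, hrm.2⟩
    have hp' : ((mkH p.1 0, mkK p.2 (s • p.1) 0) : HH H × KK H K) ∈ WW W s := ⟨hp, rfl, rfl⟩
    have h1 := hr _ hp'
    have h2 : ⟪U1 r, (mkH p.1 0 : HH H)⟫_ℝ = ⟪(U1 r).fst, p.1⟫_ℝ := by
      rw [innH]
      simp
    have h3 : ⟪mkK (F r) 0 ν - ν • Y r + mm m Z S (U r), (mkK p.2 (s • p.1) 0 : KK H K)⟫_ℝ
        = ⟪F r - ν • (Y r).fst + (m (U r).fst - (U r).snd • Z (S (U r).fst)), p.2⟫_ℝ
          - κ * ⟪(U r).fst, p.1⟫_ℝ := by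
      rw [innK]
      have t1 : (mkK (F r) 0 ν - ν • Y r + mm m Z S (U r)).snd.fst
          = (0 : H) - ν • (Y r).snd.fst + 0 := rfl
      have t2 : (mkK (F r) 0 ν - ν • Y r + mm m Z S (U r)).fst
          = F r - ν • (Y r).fst + (m (U r).fst - (U r).snd • Z (S (U r).fst)) := rfl
      rw [t1, t2, (hmem r hr').2.1]
      simp only [mkK_fst, mkK_snd_fst, mkK_snd_snd, mul_zero, add_zero, zero_sub]
      rw [inner_neg_left, inner_smul_left, inner_smul_left, inner_smul_right]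
      simp only [conj_trivial]
      have : ν * (s * (s * ⟪(U r).fst, p.1⟫_ℝ)) = κ * ⟪(U r).fst, p.1⟫_ℝ := by
        rw [← hs2]; ring
      rw [this]
      ring
    have h4 : ⟪(U1 r).fst, p.1⟫_ℝ
        = ⟪F r - ν • (Y r).fst + (m (U r).fst - (U r).snd • Z (S (U r).fst)), p.2⟫_ℝ
          - κ * ⟪(U r).fst, p.1⟫_ℝ := by
      rw [← h2, ← h3]
      exact h1
    show ⟪(U1 r).fst, p.1⟫_ℝ = ⟪F r - Z (S (U r).fst + κ • (U r).fst) - ν • (Y r).fst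
      + m (U r).fst, p.2⟫_ℝ
    rw [h4, hone r hr', one_smul]
    have e1 : F r - Z (S (U r).fst + κ • (U r).fst) - ν • (Y r).fst + m (U r).fst
        = (F r - ν • (Y r).fst + (m (U r).fst - Z (S (U r).fst))) - κ • Z (U r).fst := by
      rw [map_add, map_smul]
      abel
    rw [e1, inner_sub_left, inner_smul_left, G.rz _ _ hp]
    simp

theorem t_LOC (hloc : S_loc) : S_loc1 := by
  intro H K _ _ _ _ _ _ W m B Z S c C ν κ T F F1 x0 z0 N G hS hκ hT hF hx hcpt hN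
  have hν : 0 < ν := G.ν0
  set s := Real.sqrt (κ / ν) with hs
  have hs2 : s ^ 2 = κ / ν := by
    rw [hs, Real.sq_sqrt (by positivity)]
  have hs3 : ν * (s * s) = κ := by
    have : s * s = s ^ 2 := by ring
    rw [this, hs2]
    field_simp
  obtain ⟨C', Fr'⟩ := frame G hS s
  obtain ⟨g0, hg0⟩ := hcpt
  have hN0 : 0 < N := (norm_nonneg z0).trans_lt hN
  set A : ℝ := 1 + κ / ν * C ^ 2 with hA
  have hA0 : 0 < A := by positivity
  have hmem0 : ((mkH x0 1, mkK z0 (s • x0) 1) : HH H × KK H K) ∈ WW W s := ⟨hx, rfl, rfl⟩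
  have hnorm : ∀ {x : H} {z : K}, (x, z) ∈ W →
      ‖z‖ ^ 2 + (‖s • x‖ ^ 2 + 1 ^ 2) ≤ A * ‖z‖ ^ 2 + 1 := by
    intro x z hxz
    have h1 : ‖x‖ ≤ C * ‖z‖ := G.fr.poinc _ hxz
    have h2 : ‖x‖ ^ 2 ≤ (C * ‖z‖) ^ 2 := pow_le_pow_left₀ (norm_nonneg _) h1 2
    have h3 : ‖s • x‖ ^ 2 = κ / ν * ‖x‖ ^ 2 := by
      rw [norm_smul, mul_pow, Real.norm_eq_abs, sq_abs, hs2]
    have h4 : κ / ν * ‖x‖ ^ 2 ≤ κ / ν * (C * ‖z‖) ^ 2 :=
      mul_le_mul_of_nonneg_left h2 (by positivity)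
    rw [h3, hA]
    nlinarith
  obtain ⟨τ, U, U1, Y, Y1, h1, h2, h3, h4, h5⟩ := hloc (HH H) (KK H K) (WW W s) (mm m Z S) C' ν T
    (fun t => mkK (F t) 0 ν) (fun t => mkK (F1 t) 0 0) (mkH x0 1)
    (mkH (g0 - S x0 - κ • x0) 0) (mkK z0 (s • x0) 1) (Real.sqrt (A * N ^ 2 + 1)) Fr'
    (tb G.cp s) hν hT (fh_force hF) hmem0 (by
      rintro p ⟨k1, k2, k3⟩
      rw [innK, innH]
      have t1 : (mkK (F 0) 0 ν - ν • mkK z0 (s • x0) 1 + mm m Z S (mkH x0 1) : KK H K).fst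
          = F 0 - ν • z0 + (m x0 - (1 : ℝ) • Z (S x0)) := rfl
      have t2 : (mkK (F 0) 0 ν - ν • mkK z0 (s • x0) 1 + mm m Z S (mkH x0 1) : KK H K).snd.fst
          = (0 : H) - ν • (s • x0) + 0 := rfl
      have t3 : (mkK (F 0) 0 ν - ν • mkK z0 (s • x0) 1 + mm m Z S (mkH x0 1) : KK H K).snd.snd
          = ν - ν * 1 + 0 := rfl
      rw [t1, t2, t3, k2]
      simp only [mkH_fst, mkH_snd, zero_mul, add_zero, zero_sub, mul_one, sub_self, one_smul]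
      have e1 : F 0 - ν • z0 + (m x0 - Z (S x0)) = (F 0 - ν • z0 + m x0) - Z (S x0) := by abel
      have e2 := hg0 _ k1
      simp only at e2
      have e3 := G.rz (S x0) _ k1
      simp only at e3
      rw [e1, inner_sub_left, e2, e3, inner_neg_left, inner_smul_left, inner_smul_left,
        inner_smul_right, inner_sub_left, inner_sub_left, inner_smul_left]
      simp only [conj_trivial]
      have : ν * (s * (s * ⟪x0, p.1.fst⟫_ℝ)) = κ * ⟪x0, p.1.fst⟫_ℝ := by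
        rw [← hs3]; ring
      rw [this]
      ring) (by
      refine Real.lt_sqrt_of_sq_lt ?_
      rw [nsqK]
      refine (hnorm hx).trans_lt ?_
      have : ‖z0‖ ^ 2 < N ^ 2 := pow_lt_pow_left₀ hN (norm_nonneg _) (by norm_num)
      nlinarith)
  have hFc : ContinuousOn F (Icc 0 τ) :=
    (prim_cont hF.memLp hF.prim).mono (Icc_subset_Icc_right h2)
  obtain ⟨hps, hone⟩ := back G hS hκ h1 hFc h3 (by rw [h4]; rfl)
  refine ⟨τ, _, _, _, _, h1, h2, hps, ?_, ?_⟩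
  · show (U 0).fst = x0
    rw [h4]
    rfl
  · rcases h5 with h5 | h5
    · exact Or.inl h5
    · refine Or.inr ?_
      have hτm : τ ∈ Icc 0 τ := ⟨h1.le, le_rfl⟩
      obtain ⟨k1, k2, k3⟩ := h3.mem τ hτm
      have h6 : A * N ^ 2 + 1 ≤ ‖Y τ‖ ^ 2 := by
        have := Real.sqrt_le_left (x := A * N ^ 2 + 1) (y := ‖Y τ‖) (norm_nonneg _)
        exact (Real.sqrt_le_left (norm_nonneg _)).1 h5
      rw [nsqK, k2, k3, hone τ hτm] at h6
      have h7 := h6.trans (hnorm k1)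
      have h8 : N ^ 2 ≤ ‖(Y τ).fst‖ ^ 2 := by
        have : A * N ^ 2 ≤ A * ‖(Y τ).fst‖ ^ 2 := by linarith
        exact le_of_mul_le_mul_left this hA0
      exact le_of_sq_le_sq h8 (norm_nonneg _)

end

end Pool.Agent.T2h23.GY.LOC
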