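import Pool.Agent.T2h23.GY.L54

/-! Task OS: oscillating fields are small in `V'`. -/

set_option autoImplicit false

open MeasureTheory Set Filter Topology
open scoped InnerProductSpace ENNReal ContDiff

namespace Pool.Agent.T2h23.GY.OS

open H772R2.NS
open Pool.Agent.Y303.LV (cl clj test_off jac_off integral_restrict_of_off)
open L54

variable {Ω : Set E3} {ψ v : E3 → E3} {M0 M1 J C : ℝ} {ξ : E3} {θ : ℝ}

/-- the pointwise bound -/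
theorem pt (hψ : ContDiff ℝ ∞ ψ) (hM0 : ∀ x, ‖ψ x‖ ≤ M0) (hM1 : ∀ x, ‖fderiv ℝ ψ x‖ ≤ M1)
    (hv : ContDiff ℝ ∞ v) (x : E3) :
    |Real.sin (⟪ξ, x⟫_ℝ + θ) * fderiv ℝ (fun x => ⟪ψ x, v x⟫_ℝ) x ξ|
      ≤ ‖ξ‖ * (M1 * ‖v x‖ + M0 * ‖jac v x‖) := by
  have hM00 : 0 ≤ M0 := (norm_nonneg _).trans (hM0 0)
  have hd1 : DifferentiableAt ℝ ψ x := hψ.differentiable (by simp) x
  have hd2 : DifferentiableAt ℝ v x := hv.differentiable (by simp) x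
  rw [fderiv_inner_apply ℝ hd1 hd2, abs_mul]
  have s1 : |Real.sin (⟪ξ, x⟫_ℝ + θ)| ≤ 1 := Real.abs_sin_le_one _
  have s2 : |⟪ψ x, fderiv ℝ v x ξ⟫_ℝ + ⟪fderiv ℝ ψ x ξ, v x⟫_ℝ|
      ≤ ‖ξ‖ * (M1 * ‖v x‖ + M0 * ‖jac v x‖) := by
    have t1 : |⟪ψ x, fderiv ℝ v x ξ⟫_ℝ| ≤ M0 * (‖jac v x‖ * ‖ξ‖) :=
      (abs_real_inner_le_norm _ _).trans (mul_le_mul (hM0 x)
        (((fderiv ℝ v x).le_opNorm ξ).trans
          (mul_le_mul_of_nonneg_right (norm_fderiv_le_jac x) (norm_nonneg _)))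
        (norm_nonneg _) hM00)
    have t2 : |⟪fderiv ℝ ψ x ξ, v x⟫_ℝ| ≤ (M1 * ‖ξ‖) * ‖v x‖ :=
      (abs_real_inner_le_norm _ _).trans (mul_le_mul_of_nonneg_right
        (((fderiv ℝ ψ x).le_opNorm ξ).trans
          (mul_le_mul_of_nonneg_right (hM1 x) (norm_nonneg _))) (norm_nonneg _))
    refine (abs_add_le _ _).trans ((add_le_add t1 t2).trans_eq ?_)
    ring
  calc _ ≤ 1 * (‖ξ‖ * (M1 * ‖v x‖ + M0 * ‖jac v x‖)) :=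
        mul_le_mul s1 s2 (abs_nonneg _) zero_le_one
    _ = _ := one_mul _

theorem int_bd (hv : IsTest Ω v) :
    Integrable (fun x => ‖ξ‖ * (M1 * ‖v x‖ + M0 * ‖jac v x‖)) (volume : Measure E3) := by
  have hc : Continuous fun x => ‖ξ‖ * (M1 * ‖v x‖ + M0 * ‖jac v x‖) := by
    have h3 := hv.smooth.continuous
    have h4 := continuous_jac hv.smooth
    fun_prop
  refine hc.integrable_of_hasCompactSupport ?_
  refine hv.compact.mono' ?_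
  intro x hx
  by_contra hcon
  apply hx
  have e1 : v x = 0 := image_eq_zero_of_notMem_tsupport hcon
  have e2 : jac v x = 0 :=
    image_eq_zero_of_notMem_tsupport fun h => hcon (tsupport_jac_subset h)
  simp [e1, e2]

theorem int_le (hm : MeasurableSet Ω) (hM00 : 0 ≤ M0) (hM10 : 0 ≤ M1) {q : L2V Ω × L2M Ω}
    (l2 : Integrable (fun x => ‖q.1 x‖) (volume.restrict Ω) ∧
      ∫ x in Ω, ‖q.1 x‖ ≤ J * ‖q.1‖)
    (l3 : Integrable (fun x => ‖q.2 x‖) (volume.restrict Ω) ∧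
      ∫ x in Ω, ‖q.2 x‖ ≤ J * ‖q.2‖)
    (hv : IsTest Ω v) (h1 : q.1 =ᵐ[volume.restrict Ω] v)
    (h2 : q.2 =ᵐ[volume.restrict Ω] jac v) :
    ∫ x, ‖ξ‖ * (M1 * ‖v x‖ + M0 * ‖jac v x‖) ≤ ‖ξ‖ * (J * (M1 * ‖q.1‖ + M0 * ‖q.2‖)) := by
  rw [← integral_restrict_of_off hm (f := fun x => ‖ξ‖ * (M1 * ‖v x‖ + M0 * ‖jac v x‖))
    (fun x hx => by rw [test_off hv hx, jac_off hv hx]; simp), integral_const_mul]
  have e3 : ∫ x in Ω, (M1 * ‖v x‖ + M0 * ‖jac v x‖)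
      = M1 * (∫ x in Ω, ‖q.1 x‖) + M0 * ∫ x in Ω, ‖q.2 x‖ := by
    rw [← integral_const_mul, ← integral_const_mul,
      ← integral_add (l2.1.const_mul _) (l3.1.const_mul _)]
    refine integral_congr_ae ?_
    filter_upwards [h1, h2] with x a b
    rw [a, b]
  rw [e3]
  have l2' := mul_le_mul_of_nonneg_left l2.2 hM10
  have l3' := mul_le_mul_of_nonneg_left l3.2 hM00
  refine mul_le_mul_of_nonneg_left ?_ (norm_nonneg ξ)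
  refine (add_le_add l2' l3').trans_eq ?_
  ring

theorem memF (hψ : ContDiff ℝ ∞ ψ) (hψc : HasCompactSupport ψ) :
    MemLp (fun x : E3 => Real.cos (⟪ξ, x⟫_ℝ + θ) • ψ x) 2 (volume.restrict Ω) := by
  have hFc : Continuous fun x : E3 => Real.cos (⟪ξ, x⟫_ℝ + θ) • ψ x :=
    (Real.continuous_cos.comp ((continuous_const.inner continuous_id).add
      continuous_const)).smul hψ.continuous
  have h2 : HasCompactSupport fun x : E3 => Real.cos (⟪ξ, x⟫_ℝ + θ) • ψ x :=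
    hψc.mono fun x hx h0 => hx (by simp only [h0, smul_zero])
  exact (hFc.memLp_of_hasCompactSupport h2).restrict _

/-- the bound for a test field -/
theorem core (hm : MeasurableSet Ω) (hξ : ξ ≠ 0) (hψ : ContDiff ℝ ∞ ψ)
    (hψc : HasCompactSupport ψ) (hM0 : ∀ x, ‖ψ x‖ ≤ M0) (hM1 : ∀ x, ‖fderiv ℝ ψ x‖ ≤ M1)
    (hJ : 0 ≤ J) {q : L2V Ω × L2M Ω}
    (l2 : Integrable (fun x => ‖q.1 x‖) (volume.restrict Ω) ∧
      ∫ x in Ω, ‖q.1 x‖ ≤ J * ‖q.1‖)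
    (l3 : Integrable (fun x => ‖q.2 x‖) (volume.restrict Ω) ∧
      ∫ x in Ω, ‖q.2 x‖ ≤ J * ‖q.2‖) (hP : ‖q.1‖ ≤ C * ‖q.2‖)
    (hv : IsTest Ω v) (h1 : q.1 =ᵐ[volume.restrict Ω] v)
    (h2 : q.2 =ᵐ[volume.restrict Ω] jac v) :
    |⟪cl Ω (fun x => Real.cos (⟪ξ, x⟫_ℝ + θ) • ψ x), q.1⟫_ℝ|
      ≤ J * (M1 * C + M0) / ‖ξ‖ * ‖q.2‖ := by
  have hM00 : 0 ≤ M0 := (norm_nonneg _).trans (hM0 0)
  have hM10 : 0 ≤ M1 := (norm_nonneg _).trans (hM1 0)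
  have hξ0 : 0 < ‖ξ‖ := norm_pos_iff.2 hξ
  have hFm := memF (Ω := Ω) (ξ := ξ) (θ := θ) hψ hψc
  rw [inner_cl hm hFm hv h1]
  have hg : ContDiff ℝ ∞ fun x => ⟪ψ x, v x⟫_ℝ := hψ.inner ℝ hv.smooth
  have hgc : HasCompactSupport fun x => ⟪ψ x, v x⟫_ℝ := by
    refine hψc.mono fun x hx h0 => hx ?_
    simp only [h0, inner_zero_left]
  have hI := ibp_wave hg hgc ξ θ
  have e : ∫ x, ⟪Real.cos (⟪ξ, x⟫_ℝ + θ) • ψ x, v x⟫_ℝ
      = ∫ x, Real.cos (⟪ξ, x⟫_ℝ + θ) * ⟪ψ x, v x⟫_ℝ :=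
    integral_congr_ae (Eventually.of_forall fun x => by
      simp only [real_inner_smul_left])
  rw [e]
  have hbd : |∫ x, Real.sin (⟪ξ, x⟫_ℝ + θ) * fderiv ℝ (fun x => ⟪ψ x, v x⟫_ℝ) x ξ|
      ≤ ‖ξ‖ * (J * (M1 * ‖q.1‖ + M0 * ‖q.2‖)) := by
    rw [← Real.norm_eq_abs]
    refine (norm_integral_le_of_norm_le (int_bd (ξ := ξ) (M0 := M0) (M1 := M1) hv)
      (Eventually.of_forall fun x => ?_)).trans (int_le hm hM00 hM10 l2 l3 hv h1 h2)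
    rw [Real.norm_eq_abs]
    exact pt hψ hM0 hM1 hv.smooth x
  have hfinal : ‖ξ‖ ^ 2 * |∫ x, Real.cos (⟪ξ, x⟫_ℝ + θ) * ⟪ψ x, v x⟫_ℝ|
      ≤ ‖ξ‖ * (J * (M1 * ‖q.1‖ + M0 * ‖q.2‖)) := by
    rw [← abs_of_nonneg (by positivity : (0 : ℝ) ≤ ‖ξ‖ ^ 2), ← abs_mul, hI, abs_neg]
    exact hbd
  have h5 : ‖ξ‖ * (J * (M1 * ‖q.1‖ + M0 * ‖q.2‖)) ≤ ‖ξ‖ * (J * (M1 * C + M0) * ‖q.2‖) := by
    refine mul_le_mul_of_nonneg_left ?_ hξ0.le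
    have : M1 * ‖q.1‖ ≤ M1 * (C * ‖q.2‖) := mul_le_mul_of_nonneg_left hP hM10
    calc J * (M1 * ‖q.1‖ + M0 * ‖q.2‖) ≤ J * (M1 * (C * ‖q.2‖) + M0 * ‖q.2‖) := by gcongr
      _ = _ := by ring
  have h6 := hfinal.trans h5
  rw [div_mul_eq_mul_div, le_div_iff₀ hξ0]
  refine le_of_mul_le_mul_left ?_ hξ0
  refine le_trans (le_of_eq ?_) h6
  ring

theorem t_OS : S_os := by
  intro Ω hΩ hb C hC hP ψ hψ hψc
  have hfin : IsFiniteMeasure (volume.restrict Ω : Measure E3) :=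
    ⟨by rw [Measure.restrict_apply_univ]; exact hb.measure_lt_top⟩
  obtain ⟨M0, hM0⟩ := hψc.exists_bound_of_continuous hψ.continuous
  obtain ⟨M1, hM1⟩ := (hψc.fderiv ℝ).exists_bound_of_continuous (hψ.continuous_fderiv (by simp))
  have hM00 : 0 ≤ M0 := (norm_nonneg _).trans (hM0 0)
  have hM10 : 0 ≤ M1 := (norm_nonneg _).trans (hM1 0)
  obtain ⟨J, hJ0, hJ1, hJ2⟩ : ∃ J : ℝ, 0 ≤ J ∧
      (∀ f : L2V Ω, Integrable (fun x => ‖f x‖) (volume.restrict Ω) ∧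
        ∫ x in Ω, ‖f x‖ ≤ J * ‖f‖) ∧
      (∀ f : L2M Ω, Integrable (fun x => ‖f x‖) (volume.restrict Ω) ∧
        ∫ x in Ω, ‖f x‖ ≤ J * ‖f‖) :=
    ⟨_, norm_nonneg _, fun f => l1 f, fun f => l1 f⟩
  refine ⟨J * (M1 * C + M0), by positivity, ?_⟩
  intro ξ θ hξ q hq
  refine dens _ _ ?_ hq
  intro q hq
  have hqW : q ∈ graphW Ω := Submodule.le_topologicalClosure _ hq
  obtain ⟨v, hv, h1, h2⟩ := hq
  exact core hΩ.measurableSet hξ hψ hψc hM0 hM1 hJ0 (hJ1 q.1) (hJ2 q.2) (hP q hqW) hv h1 h2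

end Pool.Agent.T2h23.GY.OS
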