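import Pool.Agent.T2h23.GY.Stm

/-!
Project GY, task PLI (helper11): the piecewise linear interpolation.
-/

set_option autoImplicit false

open MeasureTheory Set
open scoped InnerProductSpace ENNReal ContDiff

namespace Pool.Agent.T2h23.GY.PLI

open Pool.Agent.T2h23.GY
open Pool.Agent.W795.TQ (FH)

section

variable {E : Type} [NormedAddCommGroup E] [InnerProductSpace ℝ E]

/-- the value with fixed index -/
noncomputable def gk (T : ℝ) (N : ℕ) (P : ℕ → E) (k : ℕ) (t : ℝ) : E :=
  (1 - (t * N / T - (k : ℝ))) • P k + (t * N / T - (k : ℝ)) • P (k + 1)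

theorem pli_gk (T : ℝ) (N : ℕ) (P : ℕ → E) (t : ℝ) : pli T N P t = gk T N P ⌊t * N / T⌋₊ t := rfl

theorem gk_alt (T : ℝ) (N : ℕ) (P : ℕ → E) (k : ℕ) (t : ℝ) :
    gk T N P k t = P k + (t * N / T - (k : ℝ)) • (P (k + 1) - P k) := by
  unfold gk
  rw [sub_smul, one_smul, smul_sub]
  abel

theorem gk_deriv (T : ℝ) (N : ℕ) (P : ℕ → E) (k : ℕ) (t : ℝ) :
    HasDerivAt (gk T N P k) (((N : ℝ) / T) • (P (k + 1) - P k)) t := by
  have h1 : HasDerivAt (fun t : ℝ => t * N / T - (k : ℝ)) ((N : ℝ) / T) t := by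
    have := (((hasDerivAt_id t).mul_const (N : ℝ)).div_const T).sub_const (k : ℝ)
    simpa using this
  have h2 := (h1.smul_const (P (k + 1) - P k)).const_add (P k)
  refine h2.congr_of_eventuallyEq (Filter.Eventually.of_forall fun s => ?_)
  exact gk_alt T N P k s

/-- the clamp function -/
noncomputable def clp (x : ℝ) : ℝ := max 0 (min x 1)

theorem clp_cont : Continuous clp := continuous_const.max (continuous_id.min continuous_const)

theorem clp_one {x : ℝ} (h : 1 ≤ x) : clp x = 1 := by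
  unfold clp
  rw [min_eq_right h, max_eq_right zero_le_one]

theorem clp_zero {x : ℝ} (h : x ≤ 0) : clp x = 0 := by
  unfold clp
  rw [min_eq_left (h.trans zero_le_one), max_eq_left h]

theorem clp_mid {x : ℝ} (h0 : 0 ≤ x) (h1 : x ≤ 1) : clp x = x := by
  unfold clp
  rw [min_eq_left h1, max_eq_right h0]

theorem pli_sum {T : ℝ} (hT : 0 < T) {N : ℕ} (P : ℕ → E) {t : ℝ} (ht : t ∈ Icc 0 T) :
    pli T N P t = P 0 + ∑ j ∈ Finset.range N, clp (t * N / T - j) • (P (j + 1) - P j) := by
  rw [pli_gk, gk_alt]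
  set x : ℝ := t * N / T with hx
  have hx0 : 0 ≤ x := div_nonneg (mul_nonneg ht.1 (Nat.cast_nonneg _)) hT.le
  have hxN : x ≤ N := by
    rw [hx, div_le_iff₀ hT, mul_comm]
    exact mul_le_mul_of_nonneg_left ht.2 (Nat.cast_nonneg _)
  set k := ⌊x⌋₊ with hk
  have hk1 : (k : ℝ) ≤ x := Nat.floor_le hx0
  have hk2 : x < k + 1 := Nat.lt_floor_add_one x
  have hkN : k ≤ N := by
    have : (k : ℝ) ≤ N := hk1.trans hxN
    exact_mod_cast this
  have hsum : ∀ m : ℕ, m ≤ k → ∑ j ∈ Finset.range m, clp (x - j) • (P (j + 1) - P j) =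
      P m - P 0 := by
    intro m hm
    induction m with
    | zero => simp
    | succ m ih =>
      rw [Finset.sum_range_succ, ih (by omega)]
      have : (m : ℝ) + 1 ≤ k := by exact_mod_cast hm
      rw [clp_one (by linarith), one_smul]
      abel
  rcases Nat.lt_or_ge k N with hlt | hge
  · have hsum2 : ∀ m : ℕ, ∑ j ∈ Finset.range (k + 1 + m), clp (x - j) • (P (j + 1) - P j) =
        P k - P 0 + (x - k) • (P (k + 1) - P k) := by
      intro m
      induction m with
      | zero =>
        rw [add_zero, Finset.sum_range_succ, hsum k le_rfl,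
          clp_mid (by linarith) (by linarith)]
      | succ m ih =>
        rw [← add_assoc, Finset.sum_range_succ, ih, clp_zero, zero_smul, add_zero]
        push_cast
        have : (0 : ℝ) ≤ m := Nat.cast_nonneg m
        linarith
    have := hsum2 (N - (k + 1))
    rw [Nat.add_sub_cancel' (by omega)] at this
    rw [this]
    abel
  · have hkN' : k = N := le_antisymm hkN hge
    have hxk : x = k := le_antisymm (by rw [hkN']; exact hxN) hk1
    rw [← hkN', hsum k le_rfl, hxk, sub_self, zero_smul]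
    abel

theorem pli_cont {T : ℝ} (hT : 0 < T) {N : ℕ} (P : ℕ → E) : ContinuousOn (pli T N P) (Icc 0 T) := by
  have h : ContinuousOn (fun t : ℝ => P 0 + ∑ j ∈ Finset.range N,
      clp (t * N / T - j) • (P (j + 1) - P j)) (Icc 0 T) := by
    refine Continuous.continuousOn ?_
    refine continuous_const.add (continuous_finset_sum _ fun j _ => ?_)
    refine Continuous.smul (clp_cont.comp ?_) continuous_const
    exact ((continuous_id.mul continuous_const).div_const _).sub continuous_const
  exact h.congr fun t ht => pli_sum hT P ht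

theorem pli_deriv {T : ℝ} (hT : 0 < T) {N : ℕ} (hN : 0 < N) (P : ℕ → E) {t : ℝ} (ht : 0 ≤ t) :
    HasDerivWithinAt (pli T N P) (pli1 T N P t) (Ioi t) t := by
  set k := ⌊t * N / T⌋₊ with hk
  have hN0 : (0 : ℝ) < N := by exact_mod_cast hN
  have h0 : 0 ≤ t * N / T := div_nonneg (mul_nonneg ht hN0.le) hT.le
  have h1 : HasDerivWithinAt (gk T N P k) (pli1 T N P t) (Ioi t) t :=
    (gk_deriv T N P k t).hasDerivWithinAt
  refine h1.congr_of_eventuallyEq ?_ (by rw [pli_gk])
  have hlt : t < (k + 1) * T / N := by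
    have h2 := Nat.lt_floor_add_one (t * N / T)
    rw [← hk, div_lt_iff₀ hT] at h2
    rw [lt_div_iff₀ hN0]
    exact h2
  have hev : ∀ᶠ s in nhdsWithin t (Ioi t), s ∈ Ioo t ((k + 1) * T / N) := Ioo_mem_nhdsGT hlt
  filter_upwards [hev] with s hs
  have h3 : ⌊s * N / T⌋₊ = k := by
    rw [Nat.floor_eq_iff (div_nonneg (mul_nonneg (ht.trans hs.1.le) hN0.le) hT.le)]
    constructor
    · have h4 : (k : ℝ) ≤ t * N / T := Nat.floor_le h0
      refine h4.trans ?_
      exact div_le_div_of_nonneg_right (mul_le_mul_of_nonneg_right hs.1.le hN0.le) hT.le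
    · rw [div_lt_iff₀ hT]
      have := hs.2
      rw [lt_div_iff₀ hN0] at this
      exact this
  rw [pli_gk, h3]

theorem pli1_memLp {T : ℝ} (hT : 0 < T) {N : ℕ} (hN : 0 < N) (P : ℕ → E) :
    MemLp (pli1 T N P) 2 (volume.restrict (Ioc 0 T)) := by
  have hN0 : (0 : ℝ) < N := by exact_mod_cast hN
  have hm : AEStronglyMeasurable (pli1 T N P) (volume.restrict (Ioc 0 T)) := by
    have h1 : StronglyMeasurable fun k : ℕ => ((N : ℝ) / T) • (P (k + 1) - P k) :=
      StronglyMeasurable.of_discrete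
    have h2 : Measurable fun t : ℝ => ⌊t * N / T⌋₊ :=
      Nat.measurable_floor.comp ((measurable_id.mul_const _).div_const _)
    exact (h1.comp_measurable h2).aestronglyMeasurable
  refine MemLp.of_bound hm (((N : ℝ) / T) * ∑ j ∈ Finset.range (N + 1), ‖P (j + 1) - P j‖) ?_
  filter_upwards [ae_restrict_mem measurableSet_Ioc] with t ht
  have hk : ⌊t * N / T⌋₊ ∈ Finset.range (N + 1) := by
    rw [Finset.mem_range, Nat.lt_succ_iff]
    refine Nat.floor_le_of_le ?_
    rw [div_le_iff₀ hT, mul_comm]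
    exact mul_le_mul_of_nonneg_left ht.2 hN0.le
  unfold pli1
  rw [norm_smul, Real.norm_of_nonneg (div_nonneg hN0.le hT.le)]
  refine mul_le_mul_of_nonneg_left ?_ (div_nonneg hN0.le hT.le)
  exact Finset.single_le_sum (f := fun j => ‖P (j + 1) - P j‖) (fun j _ => norm_nonneg _) hk

end

theorem t_PLI : S_pli := by
  intro E _ _ _ T N P hT hN
  refine ⟨pli1_memLp hT hN P, fun a b ha hab hb => ?_⟩
  symm
  refine intervalIntegral.integral_eq_sub_of_hasDeriv_right ?_ ?_ ?_
  · rw [uIcc_of_le hab]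
    exact (pli_cont hT P).mono (Icc_subset_Icc ha hb)
  · intro x hx
    rw [min_eq_left hab] at hx
    exact pli_deriv hT hN P (ha.trans hx.1.le)
  · rw [intervalIntegrable_iff_integrableOn_Ioc_of_le hab]
    have h1 : IntegrableOn (pli1 T N P) (Ioc 0 T) := (pli1_memLp hT hN P).integrable (by norm_num)
    exact h1.mono_set (Ioc_subset_Ioc ha hb)

end Pool.Agent.T2h23.GY.PLI
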