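import Pool.Agent.T2h23.GY.T_EQ

/-!
Project GY, task SH: restriction and restart.
-/

set_option autoImplicit false

open MeasureTheory Set
open scoped InnerProductSpace ENNReal ContDiff

namespace Pool.Agent.T2h23.GY.SH

open H772R2.NSR (Frame)
open Pool.Agent.T2h23.GY
open Pool.Agent.W795.TQ (Str FH Univ)

section

variable {H K : Type} [NormedAddCommGroup H] [InnerProductSpace ℝ H] [CompleteSpace H]
  [NormedAddCommGroup K] [InnerProductSpace ℝ K] [CompleteSpace K]
  {W : Submodule ℝ (H × K)} {m : H → K} {C ν T : ℝ} {F : ℝ → K} {u u1 : ℝ → H} {z z1 : ℝ → K}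

theorem mp_shift {s τ : ℝ} : MeasurePreserving (fun r : ℝ => s + r) (volume.restrict (Ioc 0 τ))
    (volume.restrict (Ioc s (s + τ))) := by
  have := (measurePreserving_add_left volume s).restrict_preimage
    (measurableSet_Ioc : MeasurableSet (Ioc s (s + τ)))
  have e : (fun r : ℝ => s + r) ⁻¹' Ioc s (s + τ) = Ioc 0 τ := by
    ext r
    simp only [mem_preimage, mem_Ioc]
    constructor <;> intro h <;> constructor <;> linarith [h.1, h.2]
  rwa [e] at this

/-- strong solutions with a force, started later -/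
theorem str_shiftF (Fr : Frame W m C) (hT : 0 < T) (hF : ContinuousOn F (Icc 0 T))
    (S : Str W m ν T F u u1 z z1) {s τ : ℝ} (hs : 0 ≤ s) (hτ : 0 < τ) (hsτ : s + τ ≤ T) :
    Str W m ν τ (fun t => F (s + t)) (fun t => u (s + t)) (fun t => u1 (s + t))
      (fun t => z (s + t)) (fun t => z1 (s + t)) := by
  have hmp := mp_shift (s := s) (τ := τ)
  have hle : (volume.restrict (Ioc s (s + τ)) : Measure ℝ) ≤ volume.restrict (Ioc 0 T) :=
    Measure.restrict_mono (Ioc_subset_Ioc hs hsτ) le_rfl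
  have hmem : ∀ t ∈ Icc 0 τ, s + t ∈ Icc 0 T := fun t ht =>
    ⟨by linarith [ht.1], by linarith [ht.2]⟩
  obtain ⟨c, hc⟩ := S.bd
  refine Pool.Agent.T2h23.str_of_ae Fr hτ ?_ (fun t ht => S.mem _ (hmem t ht)) ?_ ⟨c, ?_⟩
    (Pool.Agent.T2h23.fh_shift hs hsτ ⟨S.u1m, S.pu⟩)
    (Pool.Agent.T2h23.fh_shift hs hsτ ⟨S.z1m, S.pz⟩) ?_
  · exact hF.comp (continuous_const.add continuous_id).continuousOn (fun t ht => hmem t ht)
  · exact hmp.quasiMeasurePreserving.ae (ae_mono hle S.mem1)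
  · exact hmp.quasiMeasurePreserving.ae (ae_mono hle hc)
  · exact hmp.quasiMeasurePreserving.ae (ae_mono hle (Pool.Agent.T2h23.str_ae Fr hT hF S))

end

theorem t_SH : S_sh := by
  intro H K _ _ _ _ _ _ W m B Z S c C ν κ T F u u1 z z1 G hT hF P s τ hs hτ hsτ
  exact str_shiftF G.fr hT (EQ.force_cont hF P) P hs hτ hsτ

end Pool.Agent.T2h23.GY.SH
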