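import Pool.Agent.T2h23.GY.Stm2
import Pool.Agent.T2h23.GY.T_LOC

set_option autoImplicit false
set_option linter.unusedSectionVars false

/-!
Task UQ: uniqueness among the Leray-Hopf solutions, with the bounded skew operator.
-/

open MeasureTheory Set Filter Topology
open scoped InnerProductSpace ENNReal

namespace Pool.Agent.T2h23.GY.UQ

open Pool.Agent.T2h23.GY
open Pool.Agent.T2h23.GY.LOC
open H772R2.NSR (Frame prim_cont)
open Pool.Agent.W795.TQ (Str FH Univ S_uni)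

section

variable {H K : Type} [NormedAddCommGroup H] [InnerProductSpace ℝ H] [CompleteSpace H]
  [NormedAddCommGroup K] [InnerProductSpace ℝ K] [CompleteSpace K]

theorem mkH_eq (h : H) (a : ℝ) : mkH h a = incH h + mkH 0 a := by
  refine extH ?_ ?_
  · show h = h + 0
    rw [add_zero]
  · show a = 0 + a
    rw [zero_add]

theorem mkK_eq (k : K) (a : ℝ) : (mkK k 0 a : LOC.KK H K) = incK k + mkK 0 0 a := by
  refine extK ?_ ?_ ?_
  · show k = k + 0
    rw [add_zero]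
  · show (0 : H) = 0 + 0
    rw [add_zero]
  · show a = (0 : ℝ) + a
    rw [zero_add]

theorem cont_mkK {F : ℝ → K} {I : Set ℝ} (hF : ContinuousOn F I) (ν : ℝ) :
    ContinuousOn (fun t => (mkK (F t) 0 ν : LOC.KK H K)) I := by
  have e : (fun t => (mkK (F t) 0 ν : LOC.KK H K)) = fun t => incK (F t) + mkK 0 0 ν := by
    funext t
    exact mkK_eq _ _
  rw [e]
  exact ((incK (H := H)).continuous.comp_continuousOn hF).add continuousOn_const

theorem mem0 {W : Submodule ℝ (H × K)} {h : H} {k : K} (a : ℝ) (hp : (h, k) ∈ W) :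
    ((mkH h a, mkK k 0 a) : HH H × LOC.KK H K) ∈ WW W 0 := by
  refine ⟨hp, ?_, rfl⟩
  show (0 : H) = (0 : ℝ) • h
  rw [zero_smul]

/-- the strong solution in the enlarged frame -/
theorem str' {W : Submodule ℝ (H × K)} {m : H → K} {B : H → H → K} {Z : H →L[ℝ] K}
    {S : H →L[ℝ] H} {c C ν : ℝ} (G : GS W m B Z c C ν) (hS : ∀ h : H, ⟪S h, h⟫_ℝ = 0)
    {T : ℝ} (hT : 0 < T) {F : ℝ → K} (hF : ContinuousOn F (Icc 0 T))
    {u u1 : ℝ → H} {z z1 : ℝ → K} (hu : PS W m Z S 0 ν T F u u1 z z1) :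
    Str (WW W 0) (LOC.mm m Z S) ν T (fun t => mkK (F t) 0 ν) (fun t => mkH (u t) 1)
      (fun t => mkH (u1 t) 0) (fun t => mkK (z t) 0 1) (fun t => mkK (z1 t) 0 0) := by
  obtain ⟨C', Fr'⟩ := frame G hS 0
  obtain ⟨hfu, hfz⟩ := fh_of hu
  have huc : ContinuousOn u (Icc 0 T) := prim_cont hfu.memLp hfu.prim
  have hF2 : ContinuousOn (fun s => F s - Z (S (u s) + (0 : ℝ) • u s)) (Icc 0 T) := by
    refine hF.sub (Z.continuous.comp_continuousOn ?_)
    exact (S.continuous.comp_continuousOn huc).add (huc.const_smul (0 : ℝ))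
  have hae := Pool.Agent.T2h23.str_ae G.fr hT hF2 hu
  have fu : FH T (fun t => mkH (u t) 1) (fun t => mkH (u1 t) 0) := by
    have h1 := fh_addc (fh_map (incH (H := H)) hfu) (mkH 0 1)
    have e : (fun t => incH (u t) + mkH 0 1) = fun t => mkH (u t) 1 := by
      funext t
      exact (mkH_eq _ _).symm
    rw [e] at h1
    exact h1
  have fz : FH T (fun t => (mkK (z t) 0 1 : LOC.KK H K)) (fun t => mkK (z1 t) 0 0) := by
    have h1 := fh_addc (fh_map (incK (H := H)) hfz) (mkK 0 0 1)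
    have e : (fun t => (incK (z t) : LOC.KK H K) + mkK 0 0 1) = fun t => mkK (z t) 0 1 := by
      funext t
      exact (mkK_eq _ _).symm
    rw [e] at h1
    exact h1
  refine Pool.Agent.T2h23.str_of_ae Fr' hT (cont_mkK hF ν) (fun t ht => mem0 1 (hu.mem t ht))
    ?_ ?_ fu fz ?_
  · filter_upwards [hu.mem1] with r hr
    exact mem0 0 hr
  · obtain ⟨c0, hc0⟩ := hu.bd
    refine ⟨c0, ?_⟩
    filter_upwards [hc0] with r hr
    have h1 := nsqH (mkH (u1 r) 0)
    rw [mkH_fst, mkH_snd] at h1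
    have h2 : ‖(mkH (u1 r) 0 : HH H)‖ = ‖u1 r‖ := by
      have h3 : ‖(mkH (u1 r) 0 : HH H)‖ ^ 2 = ‖u1 r‖ ^ 2 := by rw [h1]; ring
      exact (pow_left_inj₀ (norm_nonneg _) (norm_nonneg _) (by norm_num)).mp h3
    rw [h2]
    exact hr
  · filter_upwards [hae] with r hr p hp
    obtain ⟨k1, k2, k3⟩ := hp
    have h1 := hr _ k1
    simp only at h1
    rw [innH, innK]
    have t1 : (mkK (F r) 0 ν - ν • mkK (z r) 0 1 + LOC.mm m Z S (mkH (u r) 1) : LOC.KK H K).fst
        = F r - ν • z r + (m (u r) - (1 : ℝ) • Z (S (u r))) := rfl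
    have t2 : (mkK (F r) 0 ν - ν • mkK (z r) 0 1 + LOC.mm m Z S (mkH (u r) 1) : LOC.KK H K).snd.fst
        = (0 : H) - ν • (0 : H) + 0 := rfl
    have t3 : (mkK (F r) 0 ν - ν • mkK (z r) 0 1 + LOC.mm m Z S (mkH (u r) 1) : LOC.KK H K).snd.snd
        = ν - ν * 1 + 0 := rfl
    rw [t1, t2, t3]
    simp only [mkH_fst, mkH_snd, zero_mul, add_zero, smul_zero, sub_zero, inner_zero_left,
      mul_one, sub_self, one_smul]
    rw [h1]
    congr 1
    rw [zero_smul, add_zero]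
    abel

/-- the Leray-Hopf solution in the enlarged frame -/
theorem lh' {W : Submodule ℝ (H × K)} {m : H → K} {B : H → H → K} {Z : H →L[ℝ] K}
    {S : H →L[ℝ] H} {c C ν : ℝ} (G : GS W m B Z c C ν)
    {T : ℝ} (hT : 0 < T) {F : ℝ → K} (hF : ContinuousOn F (Icc 0 T))
    {w : ℝ → H} {y : ℝ → K} (hw : LHG W m S ν T F w y) :
    H772R2.NSG.LH (WW W 0) (LOC.mm m Z S) T (fun _ => ν) (fun t => mkK (F t) 0 ν) (mkH (w 0) 1)
      (fun t => mkH (w t) 1) (fun t => mkK (y t) 0 1) := by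
  have hz2 : MemLp (fun t => (mkK (y t) 0 1 : LOC.KK H K)) 2 (volume.restrict (Ioc 0 T)) := by
    have e : (fun t => (mkK (y t) 0 1 : LOC.KK H K)) = fun t => incK (y t) + mkK 0 0 1 := by
      funext t
      exact mkK_eq _ _
    rw [e]
    have m1 : MemLp (fun t => (incK (y t) : LOC.KK H K)) 2 (volume.restrict (Ioc 0 T)) :=
      ContinuousLinearMap.comp_memLp' (incK : K →L[ℝ] LOC.KK H K) hw.z2
    have m2 : MemLp (fun _ : ℝ => (mkK 0 0 1 : LOC.KK H K)) 2 (volume.restrict (Ioc 0 T)) :=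
      memLp_const _
    exact m1.add m2
  have hsub : ∀ {t : ℝ}, t ∈ Icc 0 T → Ioc 0 t ⊆ Ioc 0 T := fun ht =>
    Ioc_subset_Ioc_right ht.2
  have hyi : IntegrableOn (fun s => ‖y s‖ ^ 2) (Ioc 0 T) :=
    (memLp_two_iff_integrable_sq_norm hw.z2.aestronglyMeasurable).1 hw.z2
  have hFi : IntegrableOn (fun s => ⟪F s, y s⟫_ℝ) (Ioc 0 T) := by
    have hFm : MemLp F 2 (volume.restrict (Ioc 0 T)) := H772R2.NSG.mem_cont hF
    exact H772R2.NSG.int_inner hFm hw.z2
  refine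
    { init := rfl
      meas := ?_
      mmeas := ?_
      mem := ?_
      z2 := hz2
      dis := ?_
      weak := ?_
      energy := ?_ }
  · have e : (fun t => mkH (w t) 1) = fun t => incH (w t) + mkH 0 1 := by
      funext t
      exact mkH_eq _ _
    rw [e]
    exact ((incH (H := H)).continuous.comp_aestronglyMeasurable hw.meas).add
      aestronglyMeasurable_const
  · have e : (fun t => LOC.mm m Z S (mkH (w t) 1))
        = fun t => (incK (m (w t) - (1 : ℝ) • Z (S (w t))) : LOC.KK H K) := rfl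
    rw [e]
    refine (incK (H := H)).continuous.comp_aestronglyMeasurable (hw.mmeas.sub ?_)
    exact ((Z.continuous.comp S.continuous).comp_aestronglyMeasurable hw.meas).const_smul (1 : ℝ)
  · filter_upwards [hw.mem] with r hr
    exact mem0 1 hr
  · exact ((memLp_two_iff_integrable_sq_norm hz2.aestronglyMeasurable).1 hz2).const_mul ν
  · rintro p ⟨k1, k2, k3⟩ t ht
    have h1 := hw.weak _ k1 t ht
    simp only at h1
    have h2 : ⟪(mkH (w t) 1 : HH H) - mkH (w 0) 1, p.1⟫_ℝ = ⟪w t - w 0, p.1.fst⟫_ℝ := by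
      rw [innH]
      have t1 : ((mkH (w t) 1 : HH H) - mkH (w 0) 1).fst = w t - w 0 := rfl
      have t2 : ((mkH (w t) 1 : HH H) - mkH (w 0) 1).snd = (1 : ℝ) - 1 := rfl
      rw [t1, t2, sub_self, zero_mul, add_zero]
    rw [h2, h1]
    refine intervalIntegral.integral_congr fun r _ => ?_
    show ⟪F r - ν • y r + m (w r), p.2.fst⟫_ℝ - ⟪S (w r), p.1.fst⟫_ℝ
      = ⟪mkK (F r) 0 ν - ν • mkK (y r) 0 1 + LOC.mm m Z S (mkH (w r) 1), p.2⟫_ℝ
    rw [innK]
    have t1 : (mkK (F r) 0 ν - ν • mkK (y r) 0 1 + LOC.mm m Z S (mkH (w r) 1) : LOC.KK H K).fst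
        = F r - ν • y r + (m (w r) - (1 : ℝ) • Z (S (w r))) := rfl
    have t2 : (mkK (F r) 0 ν - ν • mkK (y r) 0 1 + LOC.mm m Z S (mkH (w r) 1) : LOC.KK H K).snd.fst
        = (0 : H) - ν • (0 : H) + 0 := rfl
    have t3 : (mkK (F r) 0 ν - ν • mkK (y r) 0 1 + LOC.mm m Z S (mkH (w r) 1) : LOC.KK H K).snd.snd
        = ν - ν * 1 + 0 := rfl
    rw [t1, t2, t3]
    simp only [zero_mul, add_zero, smul_zero, sub_zero, inner_zero_left, mul_one, sub_self,
      one_smul]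
    have e1 : F r - ν • y r + (m (w r) - Z (S (w r))) = (F r - ν • y r + m (w r)) - Z (S (w r)) := by
      abel
    have e3 := G.rz (S (w r)) _ k1
    simp only at e3
    rw [e1, inner_sub_left (F r - ν • y r + m (w r)), e3]
  · intro t ht
    have h1 := hw.energy t ht
    have n1 : ‖(mkH (w t) 1 : HH H)‖ ^ 2 = ‖w t‖ ^ 2 + 1 := by
      rw [nsqH]; simp
    have n2 : ‖(mkH (w 0) 1 : HH H)‖ ^ 2 = ‖w 0‖ ^ 2 + 1 := by
      rw [nsqH]; simp
    have n3 : ∀ s, ‖(mkK (y s) 0 1 : LOC.KK H K)‖ ^ 2 = ‖y s‖ ^ 2 + 1 := by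
      intro s
      rw [nsqK]; simp
    have n4 : ∀ s, ⟪(mkK (F s) 0 ν : LOC.KK H K), mkK (y s) 0 1⟫_ℝ = ⟪F s, y s⟫_ℝ + ν := by
      intro s
      rw [innK]; simp
    have i1 : IntervalIntegrable (fun s => ‖y s‖ ^ 2) volume 0 t := by
      rw [intervalIntegrable_iff_integrableOn_Ioc_of_le ht.1]
      exact hyi.mono_set (hsub ht)
    have i2 : IntervalIntegrable (fun s => ⟪F s, y s⟫_ℝ) volume 0 t := by
      rw [intervalIntegrable_iff_integrableOn_Ioc_of_le ht.1]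
      exact hFi.mono_set (hsub ht)
    show ‖(mkH (w t) 1 : HH H)‖ ^ 2 / 2 + ∫ s in (0 : ℝ)..t, ν * ‖(mkK (y s) 0 1 : LOC.KK H K)‖ ^ 2
      ≤ ‖(mkH (w 0) 1 : HH H)‖ ^ 2 / 2 + ∫ s in (0 : ℝ)..t, ⟪(mkK (F s) 0 ν : LOC.KK H K),
        mkK (y s) 0 1⟫_ℝ
    simp only [n3, n4]
    rw [n1, n2, intervalIntegral.integral_const_mul,
      intervalIntegral.integral_add i1 intervalIntegrable_const,
      intervalIntegral.integral_add i2 intervalIntegrable_const]
    simp only [intervalIntegral.integral_const, sub_zero, smul_eq_mul, mul_one]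
    linarith

theorem t_UQ (h : S_uni) : S_uq := by
  intro H K _ _ _ _ _ _ W m B Z S c C ν T F w u u1 y z z1 G hS hT hF hw hu h0 t ht
  obtain ⟨C', Fr'⟩ := frame G hS 0
  have h1 := (h (HH H) (LOC.KK H K) (WW W 0) (LOC.mm m Z S) C' ν T T (fun t => mkK (F t) 0 ν)
    (mkH (w 0) 1) (fun t => mkH (w t) 1) (fun t => mkH (u t) 1) (fun t => mkH (u1 t) 0)
    (fun t => mkK (y t) 0 1) (fun t => mkK (z t) 0 1) (fun t => mkK (z1 t) 0 0) Fr' G.ν0 hT
    le_rfl (cont_mkK hF ν) (lh' G hT hF hw) (str' G hS hT hF hu) (by rw [h0])).1 t ht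
  have h2 : (mkH (w t) 1 : HH H).fst = (mkH (u t) 1 : HH H).fst := by
    have h3 : (mkH (w t) 1 : HH H) = mkH (u t) 1 := h1
    rw [h3]
  exact h2

end

end Pool.Agent.T2h23.GY.UQ
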