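import Pool.Agent.T2h23.GY.V0

/-!
Project GY, task V1 (helper47): the energy of `u - e^{-κt} u(0)`.
-/

set_option autoImplicit false
set_option linter.all false

open MeasureTheory Set Filter Topology
open scoped InnerProductSpace ENNReal

namespace Pool.Agent.T2h23.GY.V1

open Pool.Agent.T2h23.GY
open Pool.Agent.T2h23.GY.V0 (fh_smul ae_shift m_smul young young2 gron)
open H772R2.NSR (prim_cont prim_shift)
open H772R2.NSG (ii_of_int mem_cont int_inner)
open Pool.Agent.W795.TQ (FH Str)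
open Pool.Agent.W790.TQ (sq_prim)

theorem t_V1 (hal : S_al) (heq : S_eq) : S_v1 := by
  intro c C ν K0 G hc hC hν hK0 hG
  obtain ⟨M0, hM0⟩ : ∃ M0 : ℝ, M0 = c * (Real.sqrt (C * G) * Real.sqrt G ^ 3) := ⟨_, rfl⟩
  have hM00 : 0 ≤ M0 := by rw [hM0]; positivity
  obtain ⟨M, hM⟩ : ∃ M : ℝ, M = G + ν * G + M0 + K0 * G := ⟨_, rfl⟩
  have hM1 : 0 < M := by rw [hM]; positivity
  obtain ⟨A0, hA0⟩ : ∃ A0 : ℝ, A0 = 4 / ν * M ^ 2 + 128 * c ^ 4 / ν ^ 3 * G ^ 4 := ⟨_, rfl⟩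
  have hA00 : 0 < A0 := by rw [hA0]; positivity
  refine ⟨A0 * Real.exp A0 + (A0 + A0 * (A0 * Real.exp A0)) / ν, by positivity, ?_⟩
  intro H K _ _ _ _ _ _ W m B Z S κ T F F1 u u1 z z1 hGS hSK hκ hT hT1 hFH hPS hz0 hFb
  have hFc : ContinuousOn F (Icc 0 T) := prim_cont hFH.memLp hFH.prim
  obtain ⟨huc, hzc, hmc, hae⟩ := heq H K W m B Z S c C ν κ T F u u1 z z1 hGS hT hFc hPS
  obtain ⟨a1, a2, a3, a4, a5, a6, a7⟩ := hal κ hκ
  have hfr := hGS.fr
  have hmem : ∀ t ∈ Icc 0 T, (u t, z t) ∈ W := hPS.mem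
  have h0T : (0 : ℝ) ∈ Icc 0 T := ⟨le_rfl, hT.le⟩
  have hexp : ∀ s, HasDerivAt (fun s => Real.exp (κ * s)) (Real.exp (κ * s) * κ) s := by
    intro s
    have h1 : HasDerivAt (fun t : ℝ => κ * t) κ s := by
      simpa using (hasDerivAt_id s).const_mul κ
    exact h1.exp
  have hv := fh_smul hT (⟨hPS.u1m, hPS.pu⟩ : FH T u u1) hexp (by fun_prop)
  set y1 : ℝ → H := fun s => (Real.exp (κ * s) * κ) • u s + Real.exp (κ * s) • u1 s with hy1
  set y : ℝ → H := fun s => Real.exp (κ * s) • u s - u 0 with hy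
  have hyp : ∀ a b, 0 ≤ a → a ≤ b → b ≤ T → y b - y a = ∫ s in a..b, y1 s := by
    intro a b ha hab hb
    rw [← hv.prim a b ha hab hb]
    simp only [hy]
    abel
  have hyc : ContinuousOn y (Icc 0 T) := prim_cont hv.memLp hyp
  -- the differences
  set D : ℝ → H := fun s => u s - Real.exp (-(κ * s)) • u 0 with hD
  set zD : ℝ → K := fun s => z s - Real.exp (-(κ * s)) • z 0 with hzD
  have hzDc : ContinuousOn zD (Icc 0 T) := hzc.sub ((by fun_prop : Continuous fun s : ℝ =>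
    Real.exp (-(κ * s)) • z 0).continuousOn)
  have hyD : ∀ s, y s = Real.exp (κ * s) • D s := by
    intro s
    simp only [hy, hD]
    rw [smul_sub, smul_smul, ← Real.exp_add]
    simp
  have hE : ∀ s, Real.exp (κ * s) ^ 2 = Real.exp (2 * κ * s) := by
    intro s
    rw [← Real.exp_nat_mul]
    congr 1
    push_cast
    ring
  have hyn : ∀ s, ‖y s‖ ^ 2 = Real.exp (2 * κ * s) * ‖D s‖ ^ 2 := by
    intro s
    rw [hyD, norm_smul, mul_pow, Real.norm_eq_abs, sq_abs, hE]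
  have hy0 : ‖y 0‖ ^ 2 = 0 := by
    simp only [hy]
    simp
  -- the pointwise inequality
  have hpt : ∀ᵐ s ∂(volume.restrict (Ioc 0 T)), 2 * ⟪y1 s, y s⟫_ℝ ≤
      A0 * Real.exp (2 * κ * s) + A0 * ‖y s‖ ^ 2 - ν * (Real.exp (2 * κ * s) * ‖zD s‖ ^ 2) := by
    filter_upwards [hae, ae_restrict_mem measurableSet_Ioc] with s hs hsT
    have hsT' : s ∈ Icc 0 T := Ioc_subset_Icc_self hsT
    obtain ⟨e, he⟩ : ∃ e, e = Real.exp (-(κ * s)) := ⟨_, rfl⟩
    have he0 : 0 < e := by rw [he]; exact Real.exp_pos _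
    have he1 : e ≤ 1 := by
      rw [he, Real.exp_le_one_iff]
      have : 0 ≤ κ * s := mul_nonneg hκ hsT'.1
      linarith
    have hDs : D s = u s - e • u 0 := by simp only [hD]; rw [he]
    have hzDs : zD s = z s - e • z 0 := by simp only [hzD]; rw [he]
    have hDW : (D s, zD s) ∈ W := by
      rw [hDs, hzDs]
      exact W.sub_mem (hmem s hsT') (W.smul_mem e (hmem 0 h0T))
    have e1 := hs (D s, zD s) hDW
    simp only at e1
    have hanti := hfr.anti (u s, z s) (hmem _ hsT') (e • (u 0, z 0)) (W.smul_mem e (hmem 0 h0T))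
    simp only [Prod.smul_mk] at hanti
    rw [← hDs, ← hzDs] at hanti
    have hS : ⟪S (u s), D s⟫_ℝ = e * ⟪S (u 0), D s⟫_ℝ := by
      have h1 : S (D s) = S (u s) - e • S (u 0) := by rw [hDs, map_sub, map_smul]
      have h2 := hSK.skew (D s)
      rw [h1, inner_sub_left, inner_smul_left] at h2
      simp only [conj_trivial] at h2
      linarith
    have hνy : ⟪z s, zD s⟫_ℝ - e * ⟪z 0, zD s⟫_ℝ = ‖zD s‖ ^ 2 := by
      have h1 : ⟪zD s, zD s⟫_ℝ = ⟪z s - e • z 0, zD s⟫_ℝ := by rw [← hzDs]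
      rw [real_inner_self_eq_norm_sq, inner_sub_left, inner_smul_left] at h1
      simpa using h1.symm
    have e2 : ⟪y1 s, y s⟫_ℝ = Real.exp (2 * κ * s) * (⟪u1 s, D s⟫_ℝ + κ * ⟪u s, D s⟫_ℝ) := by
      rw [hyD s, ← hE]
      simp only [hy1]
      rw [inner_add_left, inner_smul_left, inner_smul_left, inner_smul_right, inner_smul_right]
      simp only [conj_trivial]
      ring
    have e3 : ⟪u1 s, D s⟫_ℝ + κ * ⟪u s, D s⟫_ℝ =
        ⟪F s - (ν * e) • z 0 + m (e • u 0), zD s⟫_ℝ - ν * ‖zD s‖ ^ 2 - e * ⟪m (D s), z 0⟫_ℝ -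
          e * ⟪S (u 0), D s⟫_ℝ := by
      rw [e1, ← hνy, ← hS]
      rw [inner_smul_right, inner_sub_left] at hanti
      simp only [inner_add_left, inner_sub_left, inner_smul_left, conj_trivial]
      linear_combination hanti
    -- the bounds
    have hx := hmem 0 h0T
    have b0 : ‖m (e • u 0)‖ ≤ M0 := by
      have h1 := hGS.un.quart (e • (u 0, z 0)) (W.smul_mem e hx)
      simp only [Prod.smul_mk] at h1
      refine h1.trans ?_
      have h2 : ‖e • z 0‖ ≤ G := by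
        rw [norm_smul, Real.norm_of_nonneg he0.le]
        exact (mul_le_of_le_one_left (norm_nonneg _) he1).trans hz0
      have h3 := hfr.poinc (e • (u 0, z 0)) (W.smul_mem e hx)
      simp only [Prod.smul_mk] at h3
      have h4 : ‖e • u 0‖ ≤ C * G := h3.trans (mul_le_mul_of_nonneg_left h2 hC.le)
      rw [hM0]
      gcongr
    have b1 : ⟪F s - (ν * e) • z 0 + m (e • u 0), zD s⟫_ℝ ≤ (G + ν * G + M0) * ‖zD s‖ := by
      refine (real_inner_le_norm _ _).trans ?_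
      gcongr
      refine (norm_add_le _ _).trans ?_
      gcongr
      refine (norm_sub_le _ _).trans ?_
      rw [norm_smul, Real.norm_of_nonneg (by positivity)]
      have : ν * e * ‖z 0‖ ≤ ν * G := by
        calc ν * e * ‖z 0‖ ≤ ν * 1 * G := by gcongr
          _ = _ := by ring
      exact add_le_add (hFb s hsT') this
    have b2 : -(e * ⟪S (u 0), D s⟫_ℝ) ≤ K0 * G * ‖zD s‖ := by
      have h1 : -⟪S (u 0), D s⟫_ℝ ≤ K0 * (‖z 0‖ * ‖zD s‖) :=
        (neg_le_abs _).trans (hSK.form (u 0, z 0) hx (D s, zD s) hDW)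
      calc -(e * ⟪S (u 0), D s⟫_ℝ) = e * -⟪S (u 0), D s⟫_ℝ := by ring
        _ ≤ e * (K0 * (‖z 0‖ * ‖zD s‖)) := mul_le_mul_of_nonneg_left h1 he0.le
        _ ≤ 1 * (K0 * (G * ‖zD s‖)) := by gcongr
        _ = _ := by ring
    have b3 : -(e * ⟪m (D s), z 0⟫_ℝ) ≤
        ν / 8 * ‖zD s‖ ^ 2 + 64 * c ^ 4 / ν ^ 3 * (G ^ 4 * ‖D s‖ ^ 2) := by
      refine le_trans ?_ (young hν (norm_nonneg (D s)) (norm_nonneg (zD s)))
      have h1 : -⟪m (D s), z 0⟫_ℝ ≤ ‖m (D s)‖ * ‖z 0‖ := by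
        rw [← inner_neg_left]
        refine (real_inner_le_norm _ _).trans ?_
        rw [norm_neg]
      have h2 := hGS.un.quart (D s, zD s) hDW
      simp only at h2
      calc -(e * ⟪m (D s), z 0⟫_ℝ) = e * -⟪m (D s), z 0⟫_ℝ := by ring
        _ ≤ e * (‖m (D s)‖ * ‖z 0‖) := mul_le_mul_of_nonneg_left h1 he0.le
        _ ≤ ‖m (D s)‖ * ‖z 0‖ := mul_le_of_le_one_left (by positivity) he1
        _ ≤ _ := by gcongr
    have b4 := young2 (a := M) (Y := ‖zD s‖) hν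
    have b5 : ⟪u1 s, D s⟫_ℝ + κ * ⟪u s, D s⟫_ℝ ≤
        M * ‖zD s‖ - ν * ‖zD s‖ ^ 2 + (ν / 8 * ‖zD s‖ ^ 2 + 64 * c ^ 4 / ν ^ 3 * (G ^ 4 * ‖D s‖ ^ 2)) := by
      rw [e3, hM]
      linarith
    have b6 : 2 * (⟪u1 s, D s⟫_ℝ + κ * ⟪u s, D s⟫_ℝ) ≤ A0 + A0 * ‖D s‖ ^ 2 - ν * ‖zD s‖ ^ 2 := by
      have h1 : 0 ≤ ν * ‖zD s‖ ^ 2 := by positivity
      have h2 : 0 ≤ 4 / ν * M ^ 2 * ‖D s‖ ^ 2 := by positivity
      have h3 : 0 ≤ 128 * c ^ 4 / ν ^ 3 * G ^ 4 := by positivity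
      have h4 : A0 + A0 * ‖D s‖ ^ 2 = 2 * (2 / ν * M ^ 2) + 128 * c ^ 4 / ν ^ 3 * G ^ 4 +
          4 / ν * M ^ 2 * ‖D s‖ ^ 2 + 2 * (64 * c ^ 4 / ν ^ 3 * (G ^ 4 * ‖D s‖ ^ 2)) := by
        rw [hA0]
        ring
      linarith
    rw [e2, hyn]
    calc 2 * (Real.exp (2 * κ * s) * (⟪u1 s, D s⟫_ℝ + κ * ⟪u s, D s⟫_ℝ))
        = Real.exp (2 * κ * s) * (2 * (⟪u1 s, D s⟫_ℝ + κ * ⟪u s, D s⟫_ℝ)) := by ring
      _ ≤ Real.exp (2 * κ * s) * (A0 + A0 * ‖D s‖ ^ 2 - ν * ‖zD s‖ ^ 2) :=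
          mul_le_mul_of_nonneg_left b6 (Real.exp_pos _).le
      _ = _ := by ring
  -- the integrated inequality
  have hint : ∀ t ∈ Icc 0 T, ‖y t‖ ^ 2 + ν * (∫ s in (0 : ℝ)..t, Real.exp (2 * κ * s) * ‖zD s‖ ^ 2) ≤
      A0 * (Real.exp (2 * κ * t) * al κ t) + ∫ s in (0 : ℝ)..t, A0 * ‖y s‖ ^ 2 := by
    intro t ht
    have k1 := sq_prim hv.memLp hyp le_rfl ht.1 ht.2
    rw [hy0, sub_zero] at k1
    have hsub : Icc 0 t ⊆ Icc 0 T := Icc_subset_Icc_right ht.2
    have i0 : Integrable (fun s => 2 * ⟪y1 s, y s⟫_ℝ) (volume.restrict (Ioc 0 T)) :=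
      (int_inner hv.memLp (mem_cont hyc)).const_mul 2
    have i1 : IntervalIntegrable (fun s => A0 * Real.exp (2 * κ * s)) volume 0 t :=
      (by fun_prop : Continuous fun s => A0 * Real.exp (2 * κ * s)).intervalIntegrable _ _
    have i2 : IntervalIntegrable (fun s => A0 * ‖y s‖ ^ 2) volume 0 t := by
      apply ContinuousOn.intervalIntegrable
      rw [uIcc_of_le ht.1]
      exact continuousOn_const.mul ((hyc.mono hsub).norm.pow 2)
    have i3 : IntervalIntegrable (fun s => ν * (Real.exp (2 * κ * s) * ‖zD s‖ ^ 2)) volume 0 t := by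
      apply ContinuousOn.intervalIntegrable
      rw [uIcc_of_le ht.1]
      exact continuousOn_const.mul (ContinuousOn.mul (by fun_prop) ((hzDc.mono hsub).norm.pow 2))
    have hm : volume.restrict (Ioc 0 t) ≤ (volume.restrict (Ioc 0 T) : Measure ℝ) :=
      Measure.restrict_mono (Ioc_subset_Ioc_right ht.2) le_rfl
    have k2 : ∫ s in (0 : ℝ)..t, 2 * ⟪y1 s, y s⟫_ℝ ≤ ∫ s in (0 : ℝ)..t,
        (A0 * Real.exp (2 * κ * s) + A0 * ‖y s‖ ^ 2 - ν * (Real.exp (2 * κ * s) * ‖zD s‖ ^ 2)) := by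
      rw [intervalIntegral.integral_of_le ht.1, intervalIntegral.integral_of_le ht.1]
      refine integral_mono_ae (i0.mono_measure hm) ?_ (ae_mono hm hpt)
      have := (i1.add i2).sub i3
      rwa [intervalIntegrable_iff_integrableOn_Ioc_of_le ht.1] at this
    rw [intervalIntegral.integral_sub (i1.add i2) i3, intervalIntegral.integral_add i1 i2,
      intervalIntegral.integral_const_mul A0 (fun s => Real.exp (2 * κ * s)),
      intervalIntegral.integral_const_mul ν, ← a6 t] at k2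
    linarith
  have hΦm : ∀ s t, 0 ≤ s → s ≤ t → t ≤ T →
      A0 * (Real.exp (2 * κ * s) * al κ s) ≤ A0 * (Real.exp (2 * κ * t) * al κ t) := by
    intro s t hs hst _
    refine mul_le_mul_of_nonneg_left ?_ hA00.le
    have h1 := (a7 s t hs hst).1
    have h2 : Real.exp (2 * κ * s) ≤ Real.exp (2 * κ * t) :=
      Real.exp_le_exp.mpr (mul_le_mul_of_nonneg_left hst (by positivity))
    exact mul_le_mul h2 h1 (a4 s hs).1 (Real.exp_pos _).le
  have hgr := gron hA00.le (y := fun t => ‖y t‖ ^ 2)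
    (k := fun t => A0 * (Real.exp (2 * κ * t) * al κ t)) (hyc.norm.pow 2) hΦm (by
      intro t ht
      have h1 := hint t ht
      have h2 : 0 ≤ ν * (∫ s in (0 : ℝ)..t, Real.exp (2 * κ * s) * ‖zD s‖ ^ 2) :=
        mul_nonneg hν.le (intervalIntegral.integral_nonneg ht.1 fun s _ => by positivity)
      linarith)
  have hyb : ∀ t ∈ Icc 0 T, ‖y t‖ ^ 2 ≤ A0 * Real.exp A0 * (Real.exp (2 * κ * t) * al κ t) := by
    intro t ht
    have h1 := hgr t ht
    refine h1.trans ?_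
    have h2 : Real.exp (A0 * t) ≤ Real.exp A0 := by
      apply Real.exp_le_exp.mpr
      have : t ≤ 1 := ht.2.trans hT1
      exact mul_le_of_le_one_right hA00.le this
    have h3 : 0 ≤ A0 * (Real.exp (2 * κ * t) * al κ t) :=
      mul_nonneg hA00.le (mul_nonneg (Real.exp_pos _).le (a4 t ht.1).1)
    calc _ ≤ A0 * (Real.exp (2 * κ * t) * al κ t) * Real.exp A0 := mul_le_mul_of_nonneg_left h2 h3
      _ = _ := by ring
  intro t ht
  have hal0 : 0 ≤ al κ t := (a4 t ht.1).1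
  have hEt : 0 < Real.exp (2 * κ * t) := Real.exp_pos _
  have hR : 0 ≤ (A0 + A0 * (A0 * Real.exp A0)) / ν := by positivity
  have hR1 : 0 ≤ A0 * Real.exp A0 := by positivity
  constructor
  · have h1 := hyb t ht
    rw [hyn] at h1
    have h2 : ‖D t‖ ^ 2 ≤ A0 * Real.exp A0 * al κ t := by
      have h3 : Real.exp (2 * κ * t) * ‖D t‖ ^ 2 ≤
          Real.exp (2 * κ * t) * (A0 * Real.exp A0 * al κ t) := by
        calc _ ≤ _ := h1
          _ = _ := by ring
      exact le_of_mul_le_mul_left h3 hEt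
    refine h2.trans ?_
    exact mul_le_mul_of_nonneg_right (by linarith) hal0
  · have h1 := hint t ht
    have hsub : Icc 0 t ⊆ Icc 0 T := Icc_subset_Icc_right ht.2
    have i2 : IntervalIntegrable (fun s => A0 * ‖y s‖ ^ 2) volume 0 t := by
      apply ContinuousOn.intervalIntegrable
      rw [uIcc_of_le ht.1]
      exact continuousOn_const.mul ((hyc.mono hsub).norm.pow 2)
    have h2 : ∫ s in (0 : ℝ)..t, A0 * ‖y s‖ ^ 2 ≤
        A0 * (A0 * Real.exp A0) * (Real.exp (2 * κ * t) * al κ t) := by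
      have h3 : ∫ s in (0 : ℝ)..t, A0 * ‖y s‖ ^ 2 ≤ ∫ s in (0 : ℝ)..t,
          A0 * (A0 * Real.exp A0 * (Real.exp (2 * κ * t) * al κ t)) := by
        refine intervalIntegral.integral_mono_on ht.1 i2 intervalIntegrable_const fun s hs => ?_
        refine mul_le_mul_of_nonneg_left ((hyb s (hsub hs)).trans ?_) hA00.le
        refine mul_le_mul_of_nonneg_left ?_ hR1
        have h4 := (a7 s t hs.1 hs.2).1
        have h5 : Real.exp (2 * κ * s) ≤ Real.exp (2 * κ * t) :=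
          Real.exp_le_exp.mpr (mul_le_mul_of_nonneg_left hs.2 (by positivity))
        exact mul_le_mul h5 h4 (a4 s hs.1).1 hEt.le
      refine h3.trans ?_
      rw [intervalIntegral.integral_const, sub_zero, smul_eq_mul]
      have h6 : 0 ≤ A0 * (A0 * Real.exp A0 * (Real.exp (2 * κ * t) * al κ t)) := by positivity
      calc t * (A0 * (A0 * Real.exp A0 * (Real.exp (2 * κ * t) * al κ t)))
          ≤ 1 * (A0 * (A0 * Real.exp A0 * (Real.exp (2 * κ * t) * al κ t))) :=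
            mul_le_mul_of_nonneg_right (ht.2.trans hT1) h6
        _ = _ := by ring
    have h7 : 0 ≤ ‖y t‖ ^ 2 := by positivity
    have h8 : ν * (∫ s in (0 : ℝ)..t, Real.exp (2 * κ * s) * ‖zD s‖ ^ 2) ≤
        (A0 + A0 * (A0 * Real.exp A0)) * (Real.exp (2 * κ * t) * al κ t) := by
      have e : (A0 + A0 * (A0 * Real.exp A0)) * (Real.exp (2 * κ * t) * al κ t) =
        A0 * (Real.exp (2 * κ * t) * al κ t) +
          A0 * (A0 * Real.exp A0) * (Real.exp (2 * κ * t) * al κ t) := by ring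
      linarith
    have h9 : (∫ s in (0 : ℝ)..t, Real.exp (2 * κ * s) * ‖zD s‖ ^ 2) ≤
        (A0 + A0 * (A0 * Real.exp A0)) / ν * (Real.exp (2 * κ * t) * al κ t) := by
      rw [div_mul_eq_mul_div, le_div_iff₀ hν]
      linarith
    refine h9.trans ?_
    exact mul_le_mul_of_nonneg_right (by linarith) (by positivity)

end Pool.Agent.T2h23.GY.V1
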