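import Pool.Agent.T2h23.GY.V0

/-!
Project GY, task V2 (helper47): the weighted bound of `G + (ν+K0)‖z‖ + ‖m u‖` in `L²`.
-/

set_option autoImplicit false
set_option linter.all false

open MeasureTheory Set Filter Topology
open scoped InnerProductSpace ENNReal

namespace Pool.Agent.T2h23.GY.V2

open Pool.Agent.T2h23.GY
open H772R2.NSR (prim_cont prim_shift)
open H772R2.NSG (ii_of_int mem_cont int_inner)
open Pool.Agent.W795.TQ (FH Str)

/-- elementary: from the bound of the fourth power -/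
theorem quart_sq {X y d C Λ : ℝ} (hX : 0 ≤ X) (hy : 0 ≤ y) (hd : 0 ≤ d) (hC : 0 ≤ C) (hΛ : 0 ≤ Λ)
    (h : X ^ 4 ≤ C * (d * y ^ 3 * Λ ^ 4)) : X ^ 2 ≤ y ^ 2 + C ^ 2 * (Λ ^ 8 * d ^ 2) := by
  by_contra hcon
  push Not at hcon
  obtain ⟨p, hp⟩ : ∃ p, p = C * (Λ ^ 4 * d) := ⟨_, rfl⟩
  have hp0 : 0 ≤ p := by rw [hp]; positivity
  have e1 : C ^ 2 * (Λ ^ 8 * d ^ 2) = p ^ 2 := by rw [hp]; ring
  have e2 : C * (d * y ^ 3 * Λ ^ 4) = p * y ^ 3 := by rw [hp]; ring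
  rw [e1] at hcon
  rw [e2] at h
  have h1 : (y ^ 2 + p ^ 2) ^ 2 < X ^ 4 := by
    have e : X ^ 4 = (X ^ 2) ^ 2 := by ring
    rw [e]
    exact pow_lt_pow_left₀ hcon (by positivity) two_ne_zero
  have h2 : p * y ^ 3 ≤ (y ^ 2 + p ^ 2) ^ 2 := by
    have h3 : 0 ≤ (p - y) ^ 2 * y ^ 2 := by positivity
    nlinarith [sq_nonneg (p * y), sq_nonneg (p ^ 2), sq_nonneg (y ^ 2)]
  linarith

theorem t_V2 (hal : S_al) (heq : S_eq) (h1 : S_v1) : S_v2 := by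
  intro c C ν K0 G hc hC hν hK0 hG
  obtain ⟨A1, hA1, hv1⟩ := h1 c C ν K0 G hc hC hν hK0 hG
  obtain ⟨M0, hM0⟩ : ∃ M0 : ℝ, M0 = c * (Real.sqrt (C * G) * Real.sqrt G ^ 3) := ⟨_, rfl⟩
  have hM00 : 0 ≤ M0 := by rw [hM0]; positivity
  -- the constants: `g² ≤ P + Q ‖zD‖²`
  obtain ⟨P, hP⟩ : ∃ P : ℝ, P = 3 * G ^ 2 + 3 * (ν + K0) ^ 2 * (2 * G ^ 2) +
    3 * (2 * (C ^ 2 * A1) + 2 * M0 ^ 2) := ⟨_, rfl⟩
  obtain ⟨Q, hQ⟩ : ∃ Q : ℝ, Q = 3 * (ν + K0) ^ 2 * 2 + 6 := ⟨_, rfl⟩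
  have hP0 : 0 < P := by rw [hP]; positivity
  have hQ0 : 0 < Q := by rw [hQ]; positivity
  refine ⟨P + Q * A1, by positivity, ?_⟩
  intro L hL
  refine ⟨min 1 (1 / (L + G) ^ 8), lt_min one_pos (by positivity), min_le_left _ _, ?_⟩
  intro H K _ _ _ _ _ _ W m B Z S κ T F F1 u u1 z z1 hGS hSK hκ hT hTσ hFH hPS hz0 hFb hzL
  have hT1 : T ≤ 1 := hTσ.trans (min_le_left _ _)
  have hTL : (L + G) ^ 8 * T ≤ 1 := by
    have h2 := hTσ.trans (min_le_right _ _)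
    rwa [le_div_iff₀ (by positivity), mul_comm] at h2
  have hFc : ContinuousOn F (Icc 0 T) := prim_cont hFH.memLp hFH.prim
  obtain ⟨huc, hzc, hmc, -⟩ := heq H K W m B Z S c C ν κ T F u u1 z z1 hGS hT hFc hPS
  obtain ⟨a1, a2, a3, a4, a5, a6, a7⟩ := hal κ hκ
  have hfr := hGS.fr
  have hV := hv1 H K W m B Z S κ T F F1 u u1 z z1 hGS hSK hκ hT hT1 hFH hPS hz0 hFb
  have hmem : ∀ t ∈ Icc 0 T, (u t, z t) ∈ W := hPS.mem
  have h0T : (0 : ℝ) ∈ Icc 0 T := ⟨le_rfl, hT.le⟩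
  have hx := hmem 0 h0T
  -- the pointwise bound
  have hpt : ∀ s ∈ Icc 0 T, (G + (ν + K0) * ‖z s‖ + ‖m (u s)‖) ^ 2 ≤
      P + Q * ‖z s - Real.exp (-(κ * s)) • z 0‖ ^ 2 := by
    intro s hs
    obtain ⟨e, he⟩ : ∃ e, e = Real.exp (-(κ * s)) := ⟨_, rfl⟩
    rw [← he]
    have he0 : 0 < e := by rw [he]; exact Real.exp_pos _
    have he1 : e ≤ 1 := by
      rw [he, Real.exp_le_one_iff]
      have : 0 ≤ κ * s := mul_nonneg hκ hs.1
      linarith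
    have hez : ‖e • z 0‖ ≤ G := by
      rw [norm_smul, Real.norm_of_nonneg he0.le]
      exact (mul_le_of_le_one_left (norm_nonneg _) he1).trans hz0
    have hexW := W.smul_mem e hx
    have b0 : ‖m (e • u 0)‖ ≤ M0 := by
      have h2 := hGS.un.quart (e • (u 0, z 0)) hexW
      simp only [Prod.smul_mk] at h2
      refine h2.trans ?_
      have h3 := hfr.poinc (e • (u 0, z 0)) hexW
      simp only [Prod.smul_mk] at h3
      have h4 : ‖e • u 0‖ ≤ C * G := h3.trans (mul_le_mul_of_nonneg_left hez hC.le)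
      rw [hM0]
      gcongr
    -- the Lipschitz bound
    have b1 : ‖m (u s) - m (e • u 0)‖ ^ 2 ≤ ‖z s - e • z 0‖ ^ 2 + C ^ 2 * A1 := by
      have h2 := hfr.lips (u s, z s) (hmem s hs) (e • (u 0, z 0)) hexW
      simp only [Prod.smul_mk] at h2
      have h3 : ‖m (u s) - m (e • u 0)‖ ^ 4 ≤
          C * (‖u s - e • u 0‖ * ‖z s - e • z 0‖ ^ 3 * (L + G) ^ 4) := by
        refine h2.trans ?_
        gcongr
        exact hzL s hs
      have h4 := quart_sq (norm_nonneg _) (norm_nonneg _) (norm_nonneg _) hC.le (by positivity) h3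
      refine h4.trans ?_
      have h5 := (hV s hs).1
      rw [← he] at h5
      have h6 : (L + G) ^ 8 * ‖u s - e • u 0‖ ^ 2 ≤ A1 := by
        have h7 : al κ s ≤ T := (a4 s hs.1).2.1.trans hs.2
        calc (L + G) ^ 8 * ‖u s - e • u 0‖ ^ 2 ≤ (L + G) ^ 8 * (A1 * al κ s) := by gcongr
          _ ≤ (L + G) ^ 8 * (A1 * T) := by gcongr
          _ = A1 * ((L + G) ^ 8 * T) := by ring
          _ ≤ A1 * 1 := by gcongr
          _ = A1 := mul_one _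
      have h8 : C ^ 2 * ((L + G) ^ 8 * ‖u s - e • u 0‖ ^ 2) ≤ C ^ 2 * A1 := by gcongr
      linarith
    have b2 : ‖m (u s)‖ ^ 2 ≤ 2 * ‖m (u s) - m (e • u 0)‖ ^ 2 + 2 * M0 ^ 2 := by
      have h2 : ‖m (u s)‖ ≤ ‖m (u s) - m (e • u 0)‖ + M0 := by
        calc ‖m (u s)‖ = ‖(m (u s) - m (e • u 0)) + m (e • u 0)‖ := by rw [sub_add_cancel]
          _ ≤ _ := (norm_add_le _ _).trans (add_le_add le_rfl b0)
      have h3 : ‖m (u s)‖ ^ 2 ≤ (‖m (u s) - m (e • u 0)‖ + M0) ^ 2 :=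
        pow_le_pow_left₀ (norm_nonneg _) h2 2
      nlinarith [sq_nonneg (‖m (u s) - m (e • u 0)‖ - M0)]
    have b3 : ‖z s‖ ^ 2 ≤ 2 * ‖z s - e • z 0‖ ^ 2 + 2 * G ^ 2 := by
      have h2 : ‖z s‖ ≤ ‖z s - e • z 0‖ + G := by
        calc ‖z s‖ = ‖(z s - e • z 0) + e • z 0‖ := by rw [sub_add_cancel]
          _ ≤ _ := (norm_add_le _ _).trans (add_le_add le_rfl hez)
      have h3 : ‖z s‖ ^ 2 ≤ (‖z s - e • z 0‖ + G) ^ 2 := pow_le_pow_left₀ (norm_nonneg _) h2 2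
      nlinarith [sq_nonneg (‖z s - e • z 0‖ - G)]
    have b4 : (G + (ν + K0) * ‖z s‖ + ‖m (u s)‖) ^ 2 ≤
        3 * G ^ 2 + 3 * (ν + K0) ^ 2 * ‖z s‖ ^ 2 + 3 * ‖m (u s)‖ ^ 2 := by
      nlinarith [sq_nonneg (G - (ν + K0) * ‖z s‖), sq_nonneg (G - ‖m (u s)‖),
        sq_nonneg ((ν + K0) * ‖z s‖ - ‖m (u s)‖)]
    have b5 : 3 * (ν + K0) ^ 2 * ‖z s‖ ^ 2 ≤
        3 * (ν + K0) ^ 2 * (2 * ‖z s - e • z 0‖ ^ 2 + 2 * G ^ 2) :=
      mul_le_mul_of_nonneg_left b3 (by positivity)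
    rw [hP, hQ]
    linarith
  intro t ht
  have hsub : Icc 0 t ⊆ Icc 0 T := Icc_subset_Icc_right ht.2
  have hzDc : ContinuousOn (fun s => z s - Real.exp (-(κ * s)) • z 0) (Icc 0 T) :=
    hzc.sub ((by fun_prop : Continuous fun s : ℝ => Real.exp (-(κ * s)) • z 0).continuousOn)
  have hexpc : Continuous fun s : ℝ => Real.exp (2 * κ * s) := by fun_prop
  have i1 : IntervalIntegrable (fun s => Real.exp (2 * κ * s) *
      (G + (ν + K0) * ‖z s‖ + ‖m (u s)‖) ^ 2) volume 0 t := by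
    apply ContinuousOn.intervalIntegrable
    rw [uIcc_of_le ht.1]
    exact hexpc.continuousOn.mul ((((continuousOn_const.add (continuousOn_const.mul hzc.norm)).add
      hmc.norm).pow 2).mono hsub)
  have i2 : IntervalIntegrable (fun s => P * Real.exp (2 * κ * s)) volume 0 t :=
    (continuous_const.mul hexpc).intervalIntegrable _ _
  have i3 : IntervalIntegrable (fun s => Q * (Real.exp (2 * κ * s) *
      ‖z s - Real.exp (-(κ * s)) • z 0‖ ^ 2)) volume 0 t := by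
    apply ContinuousOn.intervalIntegrable
    rw [uIcc_of_le ht.1]
    exact continuousOn_const.mul (hexpc.continuousOn.mul ((hzDc.mono hsub).norm.pow 2))
  have k1 : ∫ s in (0 : ℝ)..t, Real.exp (2 * κ * s) * (G + (ν + K0) * ‖z s‖ + ‖m (u s)‖) ^ 2 ≤
      ∫ s in (0 : ℝ)..t, (P * Real.exp (2 * κ * s) + Q * (Real.exp (2 * κ * s) *
        ‖z s - Real.exp (-(κ * s)) • z 0‖ ^ 2)) := by
    refine intervalIntegral.integral_mono_on ht.1 i1 (i2.add i3) fun s hs => ?_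
    have h2 := mul_le_mul_of_nonneg_left (hpt s (hsub hs)) (Real.exp_pos (2 * κ * s)).le
    refine h2.trans (le_of_eq ?_)
    ring
  rw [intervalIntegral.integral_add i2 i3, intervalIntegral.integral_const_mul,
    intervalIntegral.integral_const_mul, ← a6 t] at k1
  have k2 := mul_le_mul_of_nonneg_left (hV t ht).2 hQ0.le
  calc _ ≤ _ := k1
    _ ≤ P * (Real.exp (2 * κ * t) * al κ t) + Q * (A1 * (Real.exp (2 * κ * t) * al κ t)) :=
        add_le_add le_rfl k2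
    _ = _ := by ring

end Pool.Agent.T2h23.GY.V2
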