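import Pool.Agent.T2h23.GY.V0

/-!
Project GY, task V3 (helper47): the differences in time.
-/

set_option autoImplicit false
set_option linter.all false

open MeasureTheory Set Filter Topology
open scoped InnerProductSpace ENNReal

namespace Pool.Agent.T2h23.GY.V3

open Pool.Agent.T2h23.GY
open Pool.Agent.T2h23.GY.V0 (fh_smul ae_shift m_smul young young2)
open H772R2.NSR (prim_cont prim_shift)
open H772R2.NSG (ii_of_int mem_cont int_inner)
open Pool.Agent.W795.TQ (FH Str)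

theorem t_V3 (heq : S_eq) : S_v3 := by
  intro c C ν K0 G hc hC hν hK0 hG
  refine ⟨64 * c ^ 4 / ν ^ 3 + 2 / ν, by positivity, ?_⟩
  intro H K _ _ _ _ _ _ W m B Z S κ T h F F1 u u1 z z1 hGS hSK hκ hh hhT hFH hPS hFb
  have hT : 0 < T := hh.trans hhT
  have hFc : ContinuousOn F (Icc 0 T) := prim_cont hFH.memLp hFH.prim
  obtain ⟨huc, hzc, hmc, hae⟩ := heq H K W m B Z S c C ν κ T F u u1 z z1 hGS hT hFc hPS
  have hfr := hGS.fr
  set e : ℝ := Real.exp (-(κ * h)) with he
  have he0 : 0 < e := Real.exp_pos _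
  have he1 : e ≤ 1 := by
    rw [he, Real.exp_le_one_iff]
    have : 0 ≤ κ * h := by positivity
    linarith
  have heκ : 1 - e ≤ κ * h := by
    have := Real.add_one_le_exp (-(κ * h))
    rw [← he] at this
    linarith
  have hmem : ∀ t ∈ Icc 0 T, (u t, z t) ∈ W := hPS.mem
  have hmem2 : ∀ t ∈ Icc 0 (T - h), (u (t + h) - e • u t, z (t + h) - e • z t) ∈ W := by
    intro t ht
    have h1 := hmem (t + h) ⟨by linarith [ht.1], by linarith [ht.2]⟩
    have h2 := W.smul_mem e (hmem t ⟨ht.1, by linarith [ht.2]⟩)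
    exact W.sub_mem h1 h2
  have hg0 : ∀ s, 0 ≤ G + (ν + K0) * ‖z s‖ + ‖m (u s)‖ := fun s => by positivity
  constructor
  · have hae1 : ∀ᵐ t ∂(volume.restrict (Ioc 0 (T - h))), ∀ p ∈ W,
        ⟪u1 t, p.1⟫_ℝ = ⟪F t - ν • z t + m (u t), p.2⟫_ℝ - ⟪S (u t) + κ • u t, p.1⟫_ℝ :=
      ae_mono (Measure.restrict_mono (Ioc_subset_Ioc_right (by linarith)) le_rfl) hae
    filter_upwards [hae1, ae_shift hh hae, ae_restrict_mem measurableSet_Ioc] with t k1 k2 ht
    have ht' : t ∈ Icc 0 (T - h) := Ioc_subset_Icc_self ht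
    have htT : t ∈ Icc 0 T := ⟨ht'.1, by linarith [ht'.2]⟩
    have htT2 : t + h ∈ Icc 0 T := ⟨by linarith [ht'.1], by linarith [ht'.2]⟩
    obtain ⟨w, hw⟩ : ∃ w : H, w = u (t + h) - e • u t := ⟨_, rfl⟩
    obtain ⟨y, hy⟩ : ∃ y : K, y = z (t + h) - e • z t := ⟨_, rfl⟩
    have hwy : (w, y) ∈ W := by
      rw [hw, hy]
      exact hmem2 t ht'
    rw [← hw, ← hy]
    have e1 := k1 (w, y) hwy
    have e2 := k2 (w, y) hwy
    simp only at e1 e2
    -- the nonlinear terms
    have hm := m_smul hGS.tri (hmem t htT) e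
    simp only at hm
    have hanti := hfr.anti (u (t + h), z (t + h)) (hmem _ htT2) (e • (u t, z t))
      (W.smul_mem e (hmem t htT))
    simp only [Prod.smul_mk] at hanti
    rw [← hw, ← hy, hm] at hanti
    -- the operator `S`
    have hS : ⟪S (u (t + h)), w⟫_ℝ - e * ⟪S (u t), w⟫_ℝ = 0 := by
      have h1 : S w = S (u (t + h)) - e • S (u t) := by rw [hw, map_sub, map_smul]
      have h2 := hSK.skew w
      rw [h1, inner_sub_left, inner_smul_left] at h2
      simpa using h2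
    have hκw : ⟪u (t + h), w⟫_ℝ - e * ⟪u t, w⟫_ℝ = ‖w‖ ^ 2 := by
      have h1 : ⟪w, w⟫_ℝ = ⟪u (t + h) - e • u t, w⟫_ℝ := by rw [← hw]
      rw [real_inner_self_eq_norm_sq, inner_sub_left, inner_smul_left] at h1
      simpa using h1.symm
    have hνy : ⟪z (t + h), y⟫_ℝ - e * ⟪z t, y⟫_ℝ = ‖y‖ ^ 2 := by
      have h1 : ⟪y, y⟫_ℝ = ⟪z (t + h) - e • z t, y⟫_ℝ := by rw [← hy]
      rw [real_inner_self_eq_norm_sq, inner_sub_left, inner_smul_left] at h1
      simpa using h1.symm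
    -- the identity
    have hid : ⟪u1 (t + h) - e • u1 t, w⟫_ℝ + κ * ‖w‖ ^ 2 + ν * ‖y‖ ^ 2 =
        ⟪F (t + h) - F t, y⟫_ℝ + (1 - e) * ⟪F t, y⟫_ℝ - ⟪m w, e • z t⟫_ℝ
          - e * (1 - e) * ⟪m (u t), y⟫_ℝ := by
      rw [inner_sub_left, inner_smul_left] at hanti
      rw [inner_sub_left, inner_smul_left, e1, e2, ← hκw, ← hνy]
      simp only [inner_add_left, inner_sub_left, inner_smul_left, conj_trivial] at hanti ⊢
      linear_combination hanti - hS
    -- the bounds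
    have b1 : ⟪F (t + h) - F t, y⟫_ℝ ≤ ν / 8 * ‖y‖ ^ 2 + 2 / ν * ‖F (t + h) - F t‖ ^ 2 :=
      (real_inner_le_norm _ _).trans (young2 hν)
    have b2 : (1 - e) * ⟪F t, y⟫_ℝ - e * (1 - e) * ⟪m (u t), y⟫_ℝ ≤
        ν / 8 * ‖y‖ ^ 2 + 2 / ν * ((κ * h) * (G + (ν + K0) * ‖z t‖ + ‖m (u t)‖)) ^ 2 := by
      refine le_trans ?_ (young2 hν)
      have h1 : ⟪F t, y⟫_ℝ ≤ G * ‖y‖ := (real_inner_le_norm _ _).trans (by
        gcongr
        exact hFb t htT)
      have h2 : -⟪m (u t), y⟫_ℝ ≤ ‖m (u t)‖ * ‖y‖ := by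
        rw [← inner_neg_left]
        refine (real_inner_le_norm _ _).trans ?_
        rw [norm_neg]
      have h3 : 0 ≤ 1 - e := by linarith
      have h4 : (1 - e) * ⟪F t, y⟫_ℝ ≤ (1 - e) * (G * ‖y‖) := mul_le_mul_of_nonneg_left h1 h3
      have h5 : (1 - e) * (e * -⟪m (u t), y⟫_ℝ) ≤ (1 - e) * (‖m (u t)‖ * ‖y‖) := by
        refine mul_le_mul_of_nonneg_left ?_ h3
        calc e * -⟪m (u t), y⟫_ℝ ≤ e * (‖m (u t)‖ * ‖y‖) := mul_le_mul_of_nonneg_left h2 he0.le
          _ ≤ _ := mul_le_of_le_one_left (by positivity) he1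
      have h6 : (1 - e) * (G * ‖y‖) + (1 - e) * (‖m (u t)‖ * ‖y‖) ≤
          κ * h * (G + (ν + K0) * ‖z t‖ + ‖m (u t)‖) * ‖y‖ := by
        have h7 : (1 - e) * (G * ‖y‖) + (1 - e) * (‖m (u t)‖ * ‖y‖) =
          (1 - e) * ((G + ‖m (u t)‖) * ‖y‖) := by ring
        rw [h7]
        calc (1 - e) * ((G + ‖m (u t)‖) * ‖y‖) ≤ (κ * h) * ((G + ‖m (u t)‖) * ‖y‖) := by gcongr
          _ ≤ (κ * h) * ((G + (ν + K0) * ‖z t‖ + ‖m (u t)‖) * ‖y‖) := by
              gcongr
              have : 0 ≤ (ν + K0) * ‖z t‖ := by positivity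
              linarith
          _ = _ := by ring
      linarith
    have b3 : -⟪m w, e • z t⟫_ℝ ≤ ν / 8 * ‖y‖ ^ 2 + 64 * c ^ 4 / ν ^ 3 * (‖z t‖ ^ 4 * ‖w‖ ^ 2) := by
      refine le_trans ?_ (young hν (norm_nonneg w) (norm_nonneg y))
      rw [inner_smul_right, ← mul_neg, ← inner_neg_left]
      have h1 : ⟪-m w, z t⟫_ℝ ≤ ‖m w‖ * ‖z t‖ := by
        refine (real_inner_le_norm _ _).trans ?_
        rw [norm_neg]
      have h2 := hGS.un.quart (w, y) hwy
      simp only at h2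
      calc e * ⟪-m w, z t⟫_ℝ ≤ e * (‖m w‖ * ‖z t‖) := mul_le_mul_of_nonneg_left h1 he0.le
        _ ≤ ‖m w‖ * ‖z t‖ := mul_le_of_le_one_left (by positivity) he1
        _ ≤ _ := by gcongr
    have q1 : 0 ≤ 64 * c ^ 4 / ν ^ 3 * (‖F (t + h) - F t‖ ^ 2 +
        (κ * h) ^ 2 * (G + (ν + K0) * ‖z t‖ + ‖m (u t)‖) ^ 2) := by positivity
    have q2 : 0 ≤ 2 / ν * (‖z t‖ ^ 4 * ‖w‖ ^ 2) := by positivity
    rw [mul_pow] at b2
    linarith
  · intro t ht
    have htT : t ∈ Icc 0 T := ⟨ht.1, by linarith [ht.2]⟩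
    have htT2 : t + h ∈ Icc 0 T := ⟨by linarith [ht.1], by linarith [ht.2]⟩
    obtain ⟨w, hw⟩ : ∃ w : H, w = u (t + h) - e • u t := ⟨_, rfl⟩
    obtain ⟨y, hy⟩ : ∃ y : K, y = z (t + h) - e • z t := ⟨_, rfl⟩
    have hwy : (w, y) ∈ W := by
      rw [hw, hy]
      exact hmem2 t ht
    rw [← hw, ← hy]
    have hexp : ∀ s, HasDerivAt (fun s => Real.exp (κ * s)) (Real.exp (κ * s) * κ) s := by
      intro s
      have h1 : HasDerivAt (fun t : ℝ => κ * t) κ s := by
        simpa using (hasDerivAt_id s).const_mul κ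
      exact h1.exp
    have hv := fh_smul hT (⟨hPS.u1m, hPS.pu⟩ : FH T u u1) hexp (by fun_prop)
    have h1 := hv.prim t (t + h) ht.1 (by linarith) htT2.2
    have hvi : Integrable (fun s => (Real.exp (κ * s) * κ) • u s + Real.exp (κ * s) • u1 s)
        (volume.restrict (Ioc 0 T)) := hv.memLp.integrable (by norm_num)
    have hvii := ii_of_int hvi ht.1 (show t ≤ t + h by linarith) htT2.2
    have hgc : ContinuousOn (fun s => G + (ν + K0) * ‖z s‖ + ‖m (u s)‖) (Icc 0 T) :=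
      (continuousOn_const.add (continuousOn_const.mul hzc.norm)).add hmc.norm
    have hgi : IntervalIntegrable (fun s => G + (ν + K0) * ‖z s‖ + ‖m (u s)‖) volume t (t + h) := by
      refine (hgc.mono ?_).intervalIntegrable
      rw [uIcc_of_le (by linarith)]
      exact Icc_subset_Icc ht.1 htT2.2
    -- the inner product with `w`
    have h2 : ⟪Real.exp (κ * (t + h)) • u (t + h) - Real.exp (κ * t) • u t, w⟫_ℝ =
        ∫ s in t..(t + h), ⟪(Real.exp (κ * s) * κ) • u s + Real.exp (κ * s) • u1 s, w⟫_ℝ := by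
      rw [h1, intervalIntegral.integral_of_le (by linarith), intervalIntegral.integral_of_le (by linarith)]
      have h3 := integral_inner (𝕜 := ℝ) (μ := volume.restrict (Ioc t (t + h)))
        (by rwa [intervalIntegrable_iff_integrableOn_Ioc_of_le (by linarith)] at hvii) w
      rw [real_inner_comm, ← h3]
      exact integral_congr_ae (Eventually.of_forall fun s => real_inner_comm _ _)
    have h3 : Real.exp (κ * (t + h)) • u (t + h) - Real.exp (κ * t) • u t =
        Real.exp (κ * (t + h)) • w := by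
      rw [hw, smul_sub, smul_smul, he, ← Real.exp_add]
      congr 3
      ring
    rw [h3, inner_smul_left, real_inner_self_eq_norm_sq] at h2
    simp only [conj_trivial] at h2
    have h4 : ∫ s in t..(t + h), ⟪(Real.exp (κ * s) * κ) • u s + Real.exp (κ * s) • u1 s, w⟫_ℝ ≤
        ∫ s in t..(t + h), Real.exp (κ * (t + h)) *
          (‖y‖ * (G + (ν + K0) * ‖z s‖ + ‖m (u s)‖)) := by
      rw [intervalIntegral.integral_of_le (by linarith), intervalIntegral.integral_of_le (by linarith)]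
      have hsub : Ioc t (t + h) ⊆ Ioc 0 T := Ioc_subset_Ioc ht.1 htT2.2
      refine integral_mono_ae ?_ ?_ ?_
      · have := hvii
        rw [intervalIntegrable_iff_integrableOn_Ioc_of_le (by linarith)] at this
        exact (this.inner_const w)
      · have := (hgi.const_mul ‖y‖).const_mul (Real.exp (κ * (t + h)))
        rwa [intervalIntegrable_iff_integrableOn_Ioc_of_le (by linarith)] at this
      · filter_upwards [ae_mono (Measure.restrict_mono hsub le_rfl) hae,
          ae_restrict_mem measurableSet_Ioc] with s hs hst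
        have hsT : s ∈ Icc 0 T := Ioc_subset_Icc_self (hsub hst)
        have k1 := hs (w, y) hwy
        simp only at k1
        have k2 : ⟪(Real.exp (κ * s) * κ) • u s + Real.exp (κ * s) • u1 s, w⟫_ℝ =
            Real.exp (κ * s) * (⟪F s - ν • z s + m (u s), y⟫_ℝ - ⟪S (u s), w⟫_ℝ) := by
          rw [inner_add_left, inner_smul_left, inner_smul_left, k1, inner_add_left (S (u s)),
            inner_smul_left]
          simp only [conj_trivial]
          ring
        have k3 : ⟪F s - ν • z s + m (u s), y⟫_ℝ ≤ (G + ν * ‖z s‖ + ‖m (u s)‖) * ‖y‖ := by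
          refine (real_inner_le_norm _ _).trans ?_
          gcongr
          refine (norm_add_le _ _).trans ?_
          gcongr
          refine (norm_sub_le _ _).trans ?_
          rw [norm_smul, Real.norm_of_nonneg hν.le]
          gcongr
          exact hFb s hsT
        have k4 : -⟪S (u s), w⟫_ℝ ≤ K0 * (‖z s‖ * ‖y‖) :=
          (neg_le_abs _).trans (hSK.form (u s, z s) (hmem s hsT) (w, y) hwy)
        have k5 : ⟪F s - ν • z s + m (u s), y⟫_ℝ - ⟪S (u s), w⟫_ℝ ≤
            ‖y‖ * (G + (ν + K0) * ‖z s‖ + ‖m (u s)‖) := by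
          have : (G + ν * ‖z s‖ + ‖m (u s)‖) * ‖y‖ + K0 * (‖z s‖ * ‖y‖) =
            ‖y‖ * (G + (ν + K0) * ‖z s‖ + ‖m (u s)‖) := by ring
          linarith
        have k6 : Real.exp (κ * s) ≤ Real.exp (κ * (t + h)) :=
          Real.exp_le_exp.mpr (mul_le_mul_of_nonneg_left hst.2 hκ)
        rw [k2]
        calc Real.exp (κ * s) * (⟪F s - ν • z s + m (u s), y⟫_ℝ - ⟪S (u s), w⟫_ℝ)
            ≤ Real.exp (κ * s) * (‖y‖ * (G + (ν + K0) * ‖z s‖ + ‖m (u s)‖)) :=
              mul_le_mul_of_nonneg_left k5 (Real.exp_pos _).le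
          _ ≤ _ := mul_le_mul_of_nonneg_right k6 (mul_nonneg (norm_nonneg _) (hg0 s))
    rw [← h2, intervalIntegral.integral_const_mul, intervalIntegral.integral_const_mul] at h4
    exact le_of_mul_le_mul_left h4 (Real.exp_pos _)

end Pool.Agent.T2h23.GY.V3
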