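import Pool.Agent.T2h23.GY.V0

/-!
Project GY, task V4 (helper47): the bound of `∂ₜu + κu`.
-/

set_option autoImplicit false
set_option linter.all false

open MeasureTheory Set Filter Topology
open scoped InnerProductSpace ENNReal

namespace Pool.Agent.T2h23.GY.V4

open Pool.Agent.T2h23.GY
open H772R2.NSR (prim_cont prim_shift ae_deriv_of_prim memLp_ii)
open H772R2.NSG (ii_of_int mem_cont int_inner)
open Pool.Agent.W795.TQ (FH Str)

theorem fh_sub_smul {Y : Type} [NormedAddCommGroup Y] [InnerProductSpace ℝ Y] [CompleteSpace Y]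
    {T e : ℝ} {a a1 b b1 : ℝ → Y} (ha : FH T a a1) (hb : FH T b b1) :
    FH T (fun t => a t - e • b t) (fun t => a1 t - e • b1 t) := by
  refine ⟨ha.memLp.sub (hb.memLp.const_smul e), fun x y hx hxy hy => ?_⟩
  have i1 : IntervalIntegrable a1 volume x y :=
    ii_of_int (ha.memLp.integrable (by norm_num)) hx hxy hy
  have i2 : IntervalIntegrable b1 volume x y :=
    ii_of_int (hb.memLp.integrable (by norm_num)) hx hxy hy
  have i3 : IntervalIntegrable (fun s => e • b1 s) volume x y := i2.smul e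
  rw [intervalIntegral.integral_sub i1 i3, intervalIntegral.integral_smul,
    ← ha.prim x y hx hxy hy, ← hb.prim x y hx hxy hy, smul_sub]
  abel

theorem fh_add {Y : Type} [NormedAddCommGroup Y] [InnerProductSpace ℝ Y] [CompleteSpace Y]
    {T h : ℝ} {a a1 : ℝ → Y} (hh : 0 < h) (ha : FH T a a1) :
    FH (T - h) (fun t => a (t + h)) (fun t => a1 (t + h)) := by
  have h1 := fh_shift (s := h) (S := T - h) hh.le (by linarith) ha
  have e1 : (fun t => a (h + t)) = fun t => a (t + h) := by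
    funext t
    rw [add_comm]
  have e2 : (fun t => a1 (h + t)) = fun t => a1 (t + h) := by
    funext t
    rw [add_comm]
  rwa [e1, e2] at h1

theorem t_V4 (hal : S_al) (heq : S_eq) (h2 : S_v2) (h3 : S_v3) (h4a : S_v4a) (h4b : S_v4b) :
    S_v4 := by
  intro c C ν K0 G hc hC hν hK0 hG
  obtain ⟨A2, hA2, hv2⟩ := h2 c C ν K0 G hc hC hν hK0 hG
  obtain ⟨A3, hA3, hv3⟩ := h3 c C ν K0 G hc hC hν hK0 hG
  refine ⟨Real.exp 1 * (A2 / ν + 2 * A3 * G ^ 2 + A3 * A2 / 2), by positivity, ?_⟩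
  intro L hL
  obtain ⟨σ2, hσ2, hσ21, hv2⟩ := hv2 L hL
  obtain ⟨b, hb⟩ : ∃ b : ℝ, b = 2 * A3 * L ^ 4 := ⟨_, rfl⟩
  have hb0 : 0 ≤ b := by rw [hb]; positivity
  refine ⟨min σ2 (1 / (b + 1)), lt_min hσ2 (by positivity), (min_le_left _ _).trans hσ21, ?_⟩
  intro H K _ _ _ _ _ _ W m B Z S κ T F F1 u u1 z z1 hGS hSK hκ hT hTσ hFH hPS hz0 hFb hF1 hzL
  have hTσ2 : T ≤ σ2 := hTσ.trans (min_le_left _ _)
  have hT1 : T ≤ 1 := hTσ2.trans hσ21
  have hbT : b * T ≤ 1 := by
    have h5 := hTσ.trans (min_le_right _ _)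
    rw [le_div_iff₀ (by positivity)] at h5
    linarith
  have hFc : ContinuousOn F (Icc 0 T) := prim_cont hFH.memLp hFH.prim
  obtain ⟨huc, hzc, hmc, -⟩ := heq H K W m B Z S c C ν κ T F u u1 z z1 hGS hT hFc hPS
  obtain ⟨a1, a2, a3, a4, a5, a6, a7⟩ := hal κ hκ
  have hV2 := hv2 H K W m B Z S κ T F F1 u u1 z z1 hGS hSK hκ hT hTσ2 hFH hPS hz0 hFb hzL
  set g : ℝ → ℝ := fun s => G + (ν + K0) * ‖z s‖ + ‖m (u s)‖ with hg
  have hg0 : ∀ s, 0 ≤ g s := fun s => by simp only [hg]; positivity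
  have hgc : ContinuousOn g (Icc 0 T) :=
    (continuousOn_const.add (continuousOn_const.mul hzc.norm)).add hmc.norm
  have hEc : Continuous fun s : ℝ => Real.exp (2 * κ * s) := by fun_prop
  have hEm : ∀ s t : ℝ, s ≤ t → Real.exp (2 * κ * s) ≤ Real.exp (2 * κ * t) := fun s t hst =>
    Real.exp_le_exp.mpr (mul_le_mul_of_nonneg_left hst (by positivity))
  -- the main bound for fixed `h`
  have key : ∀ t ∈ Ioo 0 T, ∀ h : ℝ, 0 < h → t + h ≤ T →
      al κ t ^ 2 * Real.exp (2 * κ * t) * ‖u (t + h) - Real.exp (-(κ * h)) • u t‖ ^ 2 ≤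
      h ^ 2 * (Real.exp 1 * (A2 / ν * (Real.exp (2 * κ * (t + h)) * al κ (t + h)) +
        2 * A3 * G ^ 2 * (Real.exp (2 * κ * t) * al κ t ^ 2) +
        A3 * A2 / 2 * (Real.exp (2 * κ * t) * al κ t))) := by
    intro t ht h hh hthT
    have hhT : h < T := by linarith [ht.1]
    obtain ⟨k1, k2⟩ := hv3 H K W m B Z S κ T h F F1 u u1 z z1 hGS hSK hκ hh hhT hFH hPS hFb
    set e : ℝ := Real.exp (-(κ * h)) with he
    set J : ℝ → ℝ := fun t => ∫ s in t..(t + h), g s with hJ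
    set P : ℝ → ℝ := fun t => 2 * A3 * (‖F (t + h) - F t‖ ^ 2 + (κ * h) ^ 2 * g t ^ 2) with hP
    have hJ0 : ∀ t, 0 ≤ J t := fun t =>
      intervalIntegral.integral_nonneg (by linarith) fun s _ => hg0 s
    have hP0 : ∀ t, 0 ≤ P t := fun t => by simp only [hP]; positivity
    have hsubh : Icc 0 (T - h) ⊆ Icc 0 T := Icc_subset_Icc_right (by linarith)
    have hsh : MapsTo (fun s : ℝ => s + h) (Icc 0 (T - h)) (Icc 0 T) := fun s hs =>
      ⟨by linarith [hs.1], by linarith [hs.2]⟩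
    have hcs : ContinuousOn (fun s : ℝ => s + h) (Icc 0 (T - h)) :=
      (continuous_add_const h).continuousOn
    have hFs : ContinuousOn (fun s => F (s + h)) (Icc 0 (T - h)) := hFc.comp hcs hsh
    have hgii : ∀ x y, 0 ≤ x → x ≤ y → y ≤ T → IntervalIntegrable g volume x y := by
      intro x y hx hxy hy
      refine (hgc.mono ?_).intervalIntegrable
      rw [uIcc_of_le hxy]
      exact Icc_subset_Icc hx hy
    have hJc : ContinuousOn J (Icc 0 (T - h)) := by
      have hΦ : ContinuousOn (fun s => ∫ r in (0 : ℝ)..s, g r) (Icc 0 T) :=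
        prim_cont (mem_cont hgc) (fun x y hx hxy hy => by
          rw [intervalIntegral.integral_interval_sub_left (hgii 0 y le_rfl (hx.trans hxy) hy)
            (hgii 0 x le_rfl hx (hxy.trans hy))])
      refine ContinuousOn.congr ((hΦ.comp hcs hsh).sub (hΦ.mono hsubh)) fun s hs => ?_
      simp only [hJ, Function.comp_apply, Pi.sub_apply]
      rw [intervalIntegral.integral_interval_sub_left
        (hgii 0 (s + h) le_rfl (by linarith [hs.1]) (by linarith [hs.2]))
        (hgii 0 s le_rfl hs.1 (by linarith [hs.2]))]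
    have hPc : ContinuousOn P (Icc 0 (T - h)) :=
      continuousOn_const.mul (((hFs.sub (hFc.mono hsubh)).norm.pow 2).add
        (continuousOn_const.mul ((hgc.mono hsubh).pow 2)))
    have hw := fh_sub_smul (e := e) (fh_add hh (⟨hPS.u1m, hPS.pu⟩ : FH T u u1))
      (fh_mono (show T - h ≤ T by linarith) (⟨hPS.u1m, hPS.pu⟩ : FH T u u1))
    have hTh : 0 < T - h := by linarith [ht.1]
    have htI : t ∈ Icc 0 (T - h) := ⟨ht.1.le, by linarith⟩
    have m1 := h4a H κ ν b (T - h) _ _ (fun t => ‖z (t + h) - e • z t‖) J P hκ hν hb0 hTh hw hJc hJ0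
      (fun t => norm_nonneg _) hP0 (hPc.integrableOn_Icc.mono_set Ioc_subset_Icc_self)
      (fun t ht => k2 t ht) (by
        filter_upwards [k1, ae_restrict_mem measurableSet_Ioc] with s hs hsI
        have hzs : ‖z s‖ ≤ L := hzL s (hsubh (Ioc_subset_Icc_self hsI))
        have n1 : A3 * (‖z s‖ ^ 4 * ‖u (s + h) - e • u s‖ ^ 2) ≤
            A3 * (L ^ 4 * ‖u (s + h) - e • u s‖ ^ 2) := by gcongr
        have n2 : P s = 2 * (A3 * (‖F (s + h) - F s‖ ^ 2 +
          (κ * h) ^ 2 * (G + (ν + K0) * ‖z s‖ + ‖m (u s)‖) ^ 2)) := by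
          simp only [hP, hg]
          ring
        have n3 : b * ‖u (s + h) - e • u s‖ ^ 2 = 2 * (A3 * (L ^ 4 * ‖u (s + h) - e • u s‖ ^ 2)) := by
          rw [hb]
          ring
        rw [n2, n3]
        linarith) t htI
    refine m1.trans ?_
    -- the three integrals
    have hsub : Icc 0 t ⊆ Icc 0 (T - h) := Icc_subset_Icc_right htI.2
    have htT : t ≤ T := ht.2.le
    have hρc : ContinuousOn (fun s => Real.exp (2 * κ * s) * al κ s ^ 2) (Icc 0 T) :=
      (hEc.mul (a1.pow 2)).continuousOn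
    have hρm : MonotoneOn (fun s => Real.exp (2 * κ * s) * al κ s ^ 2) (Icc 0 T) :=
      fun x hx y hy hxy => (a7 x y hx.1 hxy).2
    have I1 := h4b.1 T t h (fun s => Real.exp (2 * κ * s)) g ht.1.le hh hthT hEc.continuousOn
      (fun x _ y _ hxy => hEm x y hxy) (fun s => (Real.exp_pos _).le) hgc hg0
    have I1' := hV2 (t + h) ⟨by linarith [ht.1], hthT⟩
    have I2 := h4b.2 K T t h (fun s => Real.exp (2 * κ * s) * al κ s ^ 2) F F1 ht.1.le hh hthT hρc hρm
      (fun s => by positivity) hFH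
    have I2' : ∫ s in (0 : ℝ)..(t + h), ‖F1 s‖ ^ 2 ≤ G ^ 2 := by
      refine le_trans ?_ hF1
      have h5 : Integrable (fun s => ‖F1 s‖ ^ 2) (volume.restrict (Ioc 0 T)) :=
        (memLp_two_iff_integrable_sq_norm hFH.memLp.aestronglyMeasurable).mp hFH.memLp
      exact intervalIntegral.integral_mono_interval le_rfl (by linarith [ht.1]) hthT
        (Eventually.of_forall fun s => sq_nonneg _) (ii_of_int h5 le_rfl hT.le le_rfl)
    have I3 := hV2 t ⟨ht.1.le, htT⟩
    have i1 : IntervalIntegrable (fun s => 1 / ν * (Real.exp (2 * κ * s) * J s ^ 2)) volume 0 t := by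
      apply ContinuousOn.intervalIntegrable
      rw [uIcc_of_le ht.1.le]
      exact continuousOn_const.mul (hEc.continuousOn.mul ((hJc.mono hsub).pow 2))
    have i2 : IntervalIntegrable (fun s => 2 * A3 * (Real.exp (2 * κ * s) * al κ s ^ 2 *
        ‖F (s + h) - F s‖ ^ 2)) volume 0 t := by
      apply ContinuousOn.intervalIntegrable
      rw [uIcc_of_le ht.1.le]
      exact continuousOn_const.mul ((hρc.mono (hsub.trans hsubh)).mul
        (((hFs.sub (hFc.mono hsubh)).norm.pow 2).mono hsub))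
    have i3 : IntervalIntegrable (fun s => 2 * A3 * (h ^ 2 / 4) * (Real.exp (2 * κ * s) * g s ^ 2))
        volume 0 t := by
      apply ContinuousOn.intervalIntegrable
      rw [uIcc_of_le ht.1.le]
      exact continuousOn_const.mul (hEc.continuousOn.mul (((hgc.mono hsubh).mono hsub).pow 2))
    have i0 : IntervalIntegrable (fun s => Real.exp (2 * κ * s) * (J s ^ 2 / ν + al κ s ^ 2 * P s))
        volume 0 t := by
      apply ContinuousOn.intervalIntegrable
      rw [uIcc_of_le ht.1.le]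
      exact hEc.continuousOn.mul ((((hJc.mono hsub).pow 2).div_const ν).add
        ((a1.continuousOn.pow 2).mul (hPc.mono hsub)))
    have m2 : ∫ s in (0 : ℝ)..t, Real.exp (2 * κ * s) * (J s ^ 2 / ν + al κ s ^ 2 * P s) ≤
        ∫ s in (0 : ℝ)..t, (1 / ν * (Real.exp (2 * κ * s) * J s ^ 2) +
          2 * A3 * (Real.exp (2 * κ * s) * al κ s ^ 2 * ‖F (s + h) - F s‖ ^ 2) +
          2 * A3 * (h ^ 2 / 4) * (Real.exp (2 * κ * s) * g s ^ 2)) := by
      refine intervalIntegral.integral_mono_on ht.1.le i0 ((i1.add i2).add i3) fun s hs => ?_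
      have h5 := (a4 s hs.1)
      have h6 : 0 ≤ κ * al κ s := mul_nonneg hκ h5.1
      have h7 : al κ s ^ 2 * (κ * h) ^ 2 ≤ h ^ 2 / 4 := by
        have h8 : (κ * al κ s) ^ 2 ≤ (1 / 2) ^ 2 := pow_le_pow_left₀ h6 h5.2.2 2
        calc al κ s ^ 2 * (κ * h) ^ 2 = (κ * al κ s) ^ 2 * h ^ 2 := by ring
          _ ≤ (1 / 2) ^ 2 * h ^ 2 := by gcongr
          _ = _ := by ring
      have h9 : 2 * A3 * (Real.exp (2 * κ * s) * g s ^ 2) * (al κ s ^ 2 * (κ * h) ^ 2) ≤
          2 * A3 * (Real.exp (2 * κ * s) * g s ^ 2) * (h ^ 2 / 4) := by gcongr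
      simp only [hP]
      calc Real.exp (2 * κ * s) * (J s ^ 2 / ν + al κ s ^ 2 * (2 * A3 *
            (‖F (s + h) - F s‖ ^ 2 + (κ * h) ^ 2 * g s ^ 2)))
          = 1 / ν * (Real.exp (2 * κ * s) * J s ^ 2) +
            2 * A3 * (Real.exp (2 * κ * s) * al κ s ^ 2 * ‖F (s + h) - F s‖ ^ 2) +
            2 * A3 * (Real.exp (2 * κ * s) * g s ^ 2) * (al κ s ^ 2 * (κ * h) ^ 2) := by ring
        _ ≤ 1 / ν * (Real.exp (2 * κ * s) * J s ^ 2) +
            2 * A3 * (Real.exp (2 * κ * s) * al κ s ^ 2 * ‖F (s + h) - F s‖ ^ 2) +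
            2 * A3 * (Real.exp (2 * κ * s) * g s ^ 2) * (h ^ 2 / 4) := by linarith
        _ = _ := by ring
    rw [intervalIntegral.integral_add (i1.add i2) i3, intervalIntegral.integral_add i1 i2,
      intervalIntegral.integral_const_mul (1 / ν), intervalIntegral.integral_const_mul (2 * A3),
      intervalIntegral.integral_const_mul (2 * A3 * (h ^ 2 / 4))] at m2
    have m3 : 1 / ν * (∫ s in (0 : ℝ)..t, Real.exp (2 * κ * s) * J s ^ 2) ≤
        h ^ 2 * (A2 / ν * (Real.exp (2 * κ * (t + h)) * al κ (t + h))) := by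
      calc 1 / ν * (∫ s in (0 : ℝ)..t, Real.exp (2 * κ * s) * J s ^ 2)
          ≤ 1 / ν * (h ^ 2 * (A2 * (Real.exp (2 * κ * (t + h)) * al κ (t + h)))) := by
            refine mul_le_mul_of_nonneg_left (I1.trans ?_) (by positivity)
            exact mul_le_mul_of_nonneg_left I1' (by positivity)
        _ = _ := by ring
    have hE0 : 0 ≤ Real.exp (2 * κ * t) * al κ t ^ 2 := by positivity
    have m4 : 2 * A3 * (∫ s in (0 : ℝ)..t, Real.exp (2 * κ * s) * al κ s ^ 2 * ‖F (s + h) - F s‖ ^ 2) ≤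
        h ^ 2 * (2 * A3 * G ^ 2 * (Real.exp (2 * κ * t) * al κ t ^ 2)) := by
      calc _ ≤ 2 * A3 * (h ^ 2 * (Real.exp (2 * κ * t) * al κ t ^ 2 * G ^ 2)) := by
            refine mul_le_mul_of_nonneg_left (I2.trans ?_) (by positivity)
            exact mul_le_mul_of_nonneg_left (mul_le_mul_of_nonneg_left I2' hE0) (by positivity)
        _ = _ := by ring
    have m5 : 2 * A3 * (h ^ 2 / 4) * (∫ s in (0 : ℝ)..t, Real.exp (2 * κ * s) * g s ^ 2) ≤
        h ^ 2 * (A3 * A2 / 2 * (Real.exp (2 * κ * t) * al κ t)) := by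
      calc _ ≤ 2 * A3 * (h ^ 2 / 4) * (A2 * (Real.exp (2 * κ * t) * al κ t)) :=
            mul_le_mul_of_nonneg_left I3 (by positivity)
        _ = _ := by ring
    have hbt : Real.exp (b * t) ≤ Real.exp 1 := by
      apply Real.exp_le_exp.mpr
      exact (mul_le_mul_of_nonneg_left htT hb0).trans hbT
    have m6 : 0 ≤ ∫ s in (0 : ℝ)..t, Real.exp (2 * κ * s) * (J s ^ 2 / ν + al κ s ^ 2 * P s) :=
      intervalIntegral.integral_nonneg ht.1.le fun s _ => by
        have := hP0 s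
        positivity
    calc Real.exp (b * t) * ∫ s in (0 : ℝ)..t, Real.exp (2 * κ * s) * (J s ^ 2 / ν + al κ s ^ 2 * P s)
        ≤ Real.exp 1 * ∫ s in (0 : ℝ)..t, Real.exp (2 * κ * s) * (J s ^ 2 / ν + al κ s ^ 2 * P s) :=
          mul_le_mul_of_nonneg_right hbt m6
      _ ≤ Real.exp 1 * (h ^ 2 * (A2 / ν * (Real.exp (2 * κ * (t + h)) * al κ (t + h))) +
          h ^ 2 * (2 * A3 * G ^ 2 * (Real.exp (2 * κ * t) * al κ t ^ 2)) +
          h ^ 2 * (A3 * A2 / 2 * (Real.exp (2 * κ * t) * al κ t))) := by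
          refine mul_le_mul_of_nonneg_left ?_ (Real.exp_pos _).le
          linarith
      _ = _ := by ring
  -- the limit `h → 0`
  have hne : ∀ᵐ s ∂(volume.restrict (Ioc 0 T)), s ≠ T := by
    refine ae_restrict_of_ae ?_
    simp [ae_iff, measure_singleton]
  filter_upwards [ae_deriv_of_prim hT (memLp_ii hT.le hPS.u1m) hPS.pu,
    ae_restrict_mem measurableSet_Ioc, hne] with t hd ht htT
  have htI : t ∈ Ioo 0 T := ⟨ht.1, lt_of_le_of_ne ht.2 htT⟩
  have hψ : HasDerivAt (fun h : ℝ => u (t + h) - Real.exp (-(κ * h)) • u t) (u1 t + κ • u t) 0 := by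
    have h5 : HasDerivAt (fun h : ℝ => u (t + h)) (u1 t) 0 := by
      have h6 : HasDerivAt (fun h : ℝ => t + h) 1 0 := (hasDerivAt_id 0).const_add t
      have hd' : HasDerivAt u (u1 t) (t + 0) := by rwa [add_zero]
      have h7 := hd'.scomp (0 : ℝ) h6
      rwa [one_smul] at h7
    have h8 : HasDerivAt (fun h : ℝ => Real.exp (-(κ * h))) (-κ) 0 := by
      have h9 : HasDerivAt (fun h : ℝ => -(κ * h)) (-κ) 0 := by
        have h12 := (hasDerivAt_id (0 : ℝ)).const_mul (-κ)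
        simp only [mul_one, id] at h12
        refine h12.congr_of_eventuallyEq (Eventually.of_forall fun y => ?_)
        simp
      have h10 := h9.exp
      simpa using h10
    have h11 := h5.sub (h8.smul_const (u t))
    rwa [neg_smul, sub_neg_eq_add] at h11
  have hlim := hasDerivAt_iff_tendsto_slope_zero.1 hψ
  simp only [zero_add, mul_zero, neg_zero, Real.exp_zero, one_smul, add_zero, sub_self,
    sub_zero] at hlim
  have hlim2 : Tendsto (fun h : ℝ => h⁻¹ • (u (t + h) - Real.exp (-(κ * h)) • u t)) (𝓝[>] 0)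
      (𝓝 (u1 t + κ • u t)) := hlim.mono_left (nhdsWithin_mono _ fun x hx => ne_of_gt hx)
  have hL1 := (hlim2.norm.pow 2).const_mul (al κ t ^ 2 * Real.exp (2 * κ * t))
  have hcont : Continuous fun h : ℝ => Real.exp 1 * (A2 / ν * (Real.exp (2 * κ * (t + h)) * al κ (t + h)) +
        2 * A3 * G ^ 2 * (Real.exp (2 * κ * t) * al κ t ^ 2) +
        A3 * A2 / 2 * (Real.exp (2 * κ * t) * al κ t)) := by
    have h5 : Continuous fun h : ℝ => al κ (t + h) := a1.comp (continuous_const.add continuous_id)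
    fun_prop
  have hL2 := (hcont.tendsto 0).mono_left (nhdsWithin_le_nhds (s := Ioi (0 : ℝ)))
  rw [add_zero] at hL2
  have hev : ∀ᶠ h : ℝ in 𝓝[>] 0, h < T - t :=
    (gt_mem_nhds (show (0 : ℝ) < T - t by linarith [htI.2])) |> fun h => mem_nhdsWithin_of_mem_nhds h
  have hfin := le_of_tendsto_of_tendsto hL1 hL2 (by
    filter_upwards [self_mem_nhdsWithin, hev] with h hh hhT
    have hh0 : 0 < h := hh
    have h5 := key t htI h hh0 (by linarith)
    rw [norm_smul, mul_pow, Real.norm_eq_abs, sq_abs, inv_pow]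
    have h6 : 0 < h ^ 2 := by positivity
    calc al κ t ^ 2 * Real.exp (2 * κ * t) * ((h ^ 2)⁻¹ * ‖u (t + h) - Real.exp (-(κ * h)) • u t‖ ^ 2)
        = (h ^ 2)⁻¹ * (al κ t ^ 2 * Real.exp (2 * κ * t) *
          ‖u (t + h) - Real.exp (-(κ * h)) • u t‖ ^ 2) := by ring
      _ ≤ (h ^ 2)⁻¹ * (h ^ 2 * (Real.exp 1 * (A2 / ν * (Real.exp (2 * κ * (t + h)) * al κ (t + h)) +
        2 * A3 * G ^ 2 * (Real.exp (2 * κ * t) * al κ t ^ 2) +
        A3 * A2 / 2 * (Real.exp (2 * κ * t) * al κ t)))) :=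
          mul_le_mul_of_nonneg_left h5 (by positivity)
      _ = _ := by
          rw [← mul_assoc, inv_mul_cancel₀ h6.ne', one_mul])
  have hal0 : 0 < al κ t := a5 t ht.1
  have hal1 : al κ t ≤ 1 := ((a4 t ht.1.le).2.1.trans ht.2).trans hT1
  have hE0 : 0 < Real.exp (2 * κ * t) := Real.exp_pos _
  have h5 : (Real.exp (2 * κ * t) * al κ t) * (‖u1 t + κ • u t‖ ^ 2 * al κ t) ≤
      (Real.exp (2 * κ * t) * al κ t) * (Real.exp 1 * (A2 / ν + 2 * A3 * G ^ 2 + A3 * A2 / 2)) := by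
    calc (Real.exp (2 * κ * t) * al κ t) * (‖u1 t + κ • u t‖ ^ 2 * al κ t)
        = al κ t ^ 2 * Real.exp (2 * κ * t) * ‖u1 t + κ • u t‖ ^ 2 := by ring
      _ ≤ _ := hfin
      _ = (Real.exp (2 * κ * t) * al κ t) * (Real.exp 1 * (A2 / ν + 2 * A3 * G ^ 2 * al κ t +
          A3 * A2 / 2)) := by ring
      _ ≤ (Real.exp (2 * κ * t) * al κ t) * (Real.exp 1 * (A2 / ν + 2 * A3 * G ^ 2 * 1 +
          A3 * A2 / 2)) := by gcongr
      _ = _ := by ring
  exact le_of_mul_le_mul_left h5 (by positivity)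

end Pool.Agent.T2h23.GY.V4
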