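import Pool.Agent.T2h23.GY.V0

/-!
Project GY, task V4A (helper47): weighted Gronwall inequality.
-/

set_option autoImplicit false
set_option linter.all false

open MeasureTheory Set Filter Topology
open scoped InnerProductSpace ENNReal

namespace Pool.Agent.T2h23.GY.V4A

open Pool.Agent.T2h23.GY
open Pool.Agent.T2h23.GY.V0 (fh_smul gron)
open H772R2.NSR (prim_cont prim_shift)
open H772R2.NSG (ii_of_int mem_cont int_inner)
open Pool.Agent.W795.TQ (FH)
open Pool.Agent.W790.TQ (sq_prim)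

theorem t_V4A (hal : S_al) : S_v4a := by
  intro H _ _ _ κ ν b T w w1 q J P hκ hν hb hT hw hJ hJ0 hq0 hP0 hP hwqJ hae
  obtain ⟨a1, a2, a3, a4, a5, a6, a7⟩ := hal κ hκ
  set ρ : ℝ → ℝ := fun t => al κ t * Real.exp (κ * t) with hρ
  set ρ1 : ℝ → ℝ := fun t => Real.exp (-(2 * κ * t)) * Real.exp (κ * t) +
    al κ t * (Real.exp (κ * t) * κ) with hρ1
  have hexp : ∀ t, HasDerivAt (fun t => Real.exp (κ * t)) (Real.exp (κ * t) * κ) t := by
    intro t
    have h1 : HasDerivAt (fun t : ℝ => κ * t) κ t := by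
      simpa using (hasDerivAt_id t).const_mul κ
    exact h1.exp
  have hρd : ∀ t, HasDerivAt ρ (ρ1 t) t := fun t => (a3 t).mul (hexp t)
  have hρ1c : Continuous ρ1 := by
    simp only [hρ1]
    fun_prop
  have hg := fh_smul hT hw hρd hρ1c
  set g : ℝ → H := fun t => ρ t • w t with hgd
  set g1 : ℝ → H := fun t => ρ1 t • w t + ρ t • w1 t with hg1
  have hgc : ContinuousOn g (Icc 0 T) := prim_cont hg.memLp hg.prim
  -- the square of the norm of `g`
  have hφ : ∀ t, ‖g t‖ ^ 2 = al κ t ^ 2 * Real.exp (2 * κ * t) * ‖w t‖ ^ 2 := by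
    intro t
    simp only [hgd, hρ]
    rw [norm_smul, mul_pow, Real.norm_eq_abs, sq_abs, mul_pow]
    congr 2
    rw [← Real.exp_nat_mul]
    congr 1
    push_cast
    ring
  set Q : ℝ → ℝ := fun s => Real.exp (2 * κ * s) * (J s ^ 2 / ν + al κ s ^ 2 * P s) with hQ
  have hQ0 : ∀ s, 0 ≤ Q s := fun s => by
    have := hP0 s
    simp only [hQ]
    positivity
  have hQi : Integrable Q (volume.restrict (Ioc 0 T)) := by
    have i1 : Integrable (fun s => Real.exp (2 * κ * s) * (J s ^ 2 / ν)) (volume.restrict (Ioc 0 T)) := by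
      have h1 : ContinuousOn (fun s => Real.exp (2 * κ * s) * (J s ^ 2 / ν)) (Icc 0 T) := by
        refine ContinuousOn.mul (by fun_prop) ((hJ.pow 2).div_const ν)
      exact h1.integrableOn_Icc.mono_set Ioc_subset_Icc_self
    have i2 : Integrable (fun s => Real.exp (2 * κ * s) * al κ s ^ 2 * P s)
        (volume.restrict (Ioc 0 T)) := by
      have h1 : Continuous fun s => Real.exp (2 * κ * s) * al κ s ^ 2 := by fun_prop
      obtain ⟨M, hM⟩ := isCompact_Icc.exists_bound_of_continuousOn (s := Icc (0 : ℝ) T) h1.continuousOn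
      refine Integrable.bdd_mul (c := M) hP h1.aestronglyMeasurable ?_
      filter_upwards [ae_restrict_mem measurableSet_Ioc] with s hs
      exact hM s (Ioc_subset_Icc_self hs)
    refine (i1.add i2).congr (Eventually.of_forall fun s => ?_)
    simp only [hQ, Pi.add_apply]
    ring
  have hkey : ∀ t ∈ Icc 0 T, ‖g t‖ ^ 2 ≤ (∫ s in (0 : ℝ)..t, Q s) + ∫ s in (0 : ℝ)..t, b * ‖g s‖ ^ 2 := by
    intro t ht
    have e1 := sq_prim hg.memLp hg.prim le_rfl ht.1 ht.2
    have e2 : ‖g 0‖ ^ 2 = 0 := by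
      rw [hφ, a2]
      ring
    rw [e2, sub_zero] at e1
    rw [e1]
    have hQt : IntervalIntegrable Q volume 0 t := ii_of_int hQi le_rfl ht.1 ht.2
    have hgt : IntervalIntegrable (fun s => b * ‖g s‖ ^ 2) volume 0 t := by
      apply ContinuousOn.intervalIntegrable
      rw [uIcc_of_le ht.1]
      exact continuousOn_const.mul ((hgc.mono (Icc_subset_Icc_right ht.2)).norm.pow 2)
    have i0 : Integrable (fun s => 2 * ⟪g1 s, g s⟫_ℝ) (volume.restrict (Ioc 0 T)) :=
      (int_inner hg.memLp (mem_cont hgc)).const_mul 2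
    rw [← intervalIntegral.integral_add hQt hgt, intervalIntegral.integral_of_le ht.1,
      intervalIntegral.integral_of_le ht.1]
    have hm : volume.restrict (Ioc 0 t) ≤ (volume.restrict (Ioc 0 T) : Measure ℝ) :=
      Measure.restrict_mono (Ioc_subset_Ioc_right ht.2) le_rfl
    have i3 : Integrable (fun s => Q s + b * ‖g s‖ ^ 2) (volume.restrict (Ioc 0 t)) := by
      have := hQt.add hgt
      rwa [intervalIntegrable_iff_integrableOn_Ioc_of_le ht.1] at this
    refine integral_mono_ae (i0.mono_measure hm) i3 ?_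
    filter_upwards [ae_mono hm hae, ae_restrict_mem measurableSet_Ioc] with s hs hst
    have hsT : s ∈ Icc 0 T := ⟨hst.1.le, hst.2.trans ht.2⟩
    have h1 := a4 s hst.1.le
    have h2 := hwqJ s hsT
    have e3 : ⟪g1 s, g s⟫_ℝ = ρ s * ρ1 s * ‖w s‖ ^ 2 + ρ s ^ 2 * ⟪w1 s, w s⟫_ℝ := by
      simp only [hg1, hgd]
      rw [inner_add_left, inner_smul_left, inner_smul_left, inner_smul_right, inner_smul_right,
        real_inner_self_eq_norm_sq]
      simp only [conj_trivial]
      ring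
    have hE : Real.exp (κ * s) * Real.exp (κ * s) = Real.exp (2 * κ * s) := by
      rw [← Real.exp_add]
      congr 1
      ring
    set A := al κ s with hA
    set E := Real.exp (2 * κ * s) with hEd
    have hE0 : 0 < E := Real.exp_pos _
    set d := Real.exp (-(2 * κ * s)) with hd
    have hd0 : 0 < d := Real.exp_pos _
    have hd1 : d ≤ 1 := by
      rw [hd, Real.exp_le_one_iff]
      have : 0 ≤ 2 * κ * s := by
        have := hst.1.le
        positivity
      linarith
    have e4 : ρ s * ρ1 s = A * E * (d + κ * A) := by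
      simp only [hρ, hρ1]
      rw [← hA, ← hd]
      calc A * Real.exp (κ * s) * (d * Real.exp (κ * s) + A * (Real.exp (κ * s) * κ))
          = A * (Real.exp (κ * s) * Real.exp (κ * s)) * (d + κ * A) := by ring
        _ = _ := by rw [hE]
    have e5 : ρ s ^ 2 = A ^ 2 * E := by
      simp only [hρ]
      rw [← hA]
      calc (A * Real.exp (κ * s)) ^ 2 = A ^ 2 * (Real.exp (κ * s) * Real.exp (κ * s)) := by ring
        _ = _ := by rw [hE]
    rw [e3, e4, e5, hφ]
    simp only [hQ]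
    rw [← hA, ← hEd]
    have hA0 : 0 ≤ A := h1.1
    have hy : 2 * (A * (q s * J s)) ≤ ν * A ^ 2 * q s ^ 2 + J s ^ 2 / ν := by
      have h3 : 0 ≤ (ν * A * q s - J s) ^ 2 / ν := by positivity
      have e : (ν * A * q s - J s) ^ 2 / ν =
          ν * A ^ 2 * q s ^ 2 + J s ^ 2 / ν - 2 * (A * (q s * J s)) := by
        field_simp
        ring
      linarith
    have hw2 : 0 ≤ ‖w s‖ ^ 2 := by positivity
    have h5 : A * d * ‖w s‖ ^ 2 ≤ A * (q s * J s) := by
      calc A * d * ‖w s‖ ^ 2 ≤ A * 1 * ‖w s‖ ^ 2 := by gcongr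
        _ = A * ‖w s‖ ^ 2 := by ring
        _ ≤ A * (q s * J s) := mul_le_mul_of_nonneg_left h2 hA0
    have h6 : 0 ≤ A ^ 2 * (1 / 4 * ν * q s ^ 2) := by positivity
    have h7 := mul_le_mul_of_nonneg_left hs (sq_nonneg A)
    have h8 : 2 * (A * d * ‖w s‖ ^ 2) + A ^ 2 * (2 * ⟪w1 s, w s⟫_ℝ + 2 * κ * ‖w s‖ ^ 2) ≤
        (J s ^ 2 / ν + A ^ 2 * P s) + b * (A ^ 2 * ‖w s‖ ^ 2) := by
      linarith
    have h9 := mul_le_mul_of_nonneg_left h8 hE0.le
    calc 2 * (A * E * (d + κ * A) * ‖w s‖ ^ 2 + A ^ 2 * E * ⟪w1 s, w s⟫_ℝ)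
        = E * (2 * (A * d * ‖w s‖ ^ 2) + A ^ 2 * (2 * ⟪w1 s, w s⟫_ℝ + 2 * κ * ‖w s‖ ^ 2)) := by ring
      _ ≤ E * ((J s ^ 2 / ν + A ^ 2 * P s) + b * (A ^ 2 * ‖w s‖ ^ 2)) := h9
      _ = _ := by ring
  have hmono : ∀ s t, 0 ≤ s → s ≤ t → t ≤ T → (∫ r in (0 : ℝ)..s, Q r) ≤ ∫ r in (0 : ℝ)..t, Q r := by
    intro s t hs hst ht
    exact intervalIntegral.integral_mono_interval le_rfl hs hst
      (Eventually.of_forall fun r => hQ0 r) (ii_of_int hQi le_rfl (hs.trans hst) ht)
  have hgr := gron hb (y := fun t => ‖g t‖ ^ 2) (k := fun t => ∫ s in (0 : ℝ)..t, Q s)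
    (hgc.norm.pow 2) hmono hkey
  intro t ht
  have := hgr t ht
  rw [← hφ, mul_comm (Real.exp (b * t))]
  exact this

end Pool.Agent.T2h23.GY.V4A
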