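import Pool.Agent.T2h23.GY.V0

/-!
Project GY, task V4B (helper47): Steklov averages with an increasing weight.
-/

set_option autoImplicit false
set_option linter.all false

open MeasureTheory Set Filter Topology
open scoped InnerProductSpace ENNReal

namespace Pool.Agent.T2h23.GY.V4B

open Pool.Agent.T2h23.GY
open H772R2.NSR (prim_cont prim_shift)
open H772R2.NSG (ii_of_int mem_cont)
open Pool.Agent.W795.TQ (FH)

theorem t_V4B : S_v4b := by
  constructor
  · intro T t h ρ g ht hh hthT hρc hρm hρ0 hgc hg0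
    rcases eq_or_lt_of_le ht with h0 | h0
    · subst h0
      rw [intervalIntegral.integral_same]
      refine mul_nonneg (sq_nonneg _) (intervalIntegral.integral_nonneg (by linarith) fun s hs => ?_)
      exact mul_nonneg (hρ0 s) (sq_nonneg _)
    have hT0 : 0 < t + h := by linarith
    set g' : ℝ → ℝ := fun s => Real.sqrt (ρ s) * g s with hg'
    have hsub : Icc 0 (t + h) ⊆ Icc 0 T := Icc_subset_Icc_right hthT
    have hg'c : ContinuousOn g' (Icc 0 (t + h)) := (hρc.sqrt.mul hgc).mono hsub
    have hg'm : MemLp g' 2 (volume.restrict (Ioc 0 (t + h))) := mem_cont hg'c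
    have hgi : ∀ a b, 0 ≤ a → a ≤ b → b ≤ t + h → IntervalIntegrable g' volume a b := by
      intro a b ha hab hb
      refine (hg'c.mono ?_).intervalIntegrable
      rw [uIcc_of_le hab]
      exact Icc_subset_Icc ha hb
    have hg2i : ∀ a b, 0 ≤ a → a ≤ b → b ≤ t + h → IntervalIntegrable g volume a b := by
      intro a b ha hab hb
      refine ((hgc.mono hsub).mono ?_).intervalIntegrable
      rw [uIcc_of_le hab]
      exact Icc_subset_Icc ha hb
    have h1 := prim_shift (T := t + h) (F := fun s => ∫ r in (0 : ℝ)..s, g' r) hg'm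
      (fun a b ha hab hb => by
        rw [intervalIntegral.integral_interval_sub_left (hgi 0 b le_rfl (ha.trans hab) hb)
          (hgi 0 a le_rfl ha (hab.trans hb))]) h hh (by linarith)
    rw [add_sub_cancel_right] at h1
    have h2 : ∀ s ∈ Icc 0 t, ρ s * (∫ r in s..(s + h), g r) ^ 2 ≤
        ‖(∫ r in (0 : ℝ)..(s + h), g' r) - ∫ r in (0 : ℝ)..s, g' r‖ ^ 2 := by
      intro s hs
      have hs1 : s + h ≤ t + h := by linarith [hs.2]
      rw [intervalIntegral.integral_interval_sub_left (hgi 0 (s + h) le_rfl (by linarith [hs.1]) hs1)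
        (hgi 0 s le_rfl hs.1 (by linarith [hs.2])), Real.norm_eq_abs, sq_abs]
      have h3 : Real.sqrt (ρ s) * (∫ r in s..(s + h), g r) ≤ ∫ r in s..(s + h), g' r := by
        rw [← intervalIntegral.integral_const_mul]
        refine intervalIntegral.integral_mono_on (by linarith)
          ((hg2i s (s + h) hs.1 (by linarith) hs1).const_mul _)
          (hgi s (s + h) hs.1 (by linarith) hs1) fun r hr => ?_
        simp only [hg']
        refine mul_le_mul_of_nonneg_right (Real.sqrt_le_sqrt ?_) (hg0 r)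
        exact hρm ⟨hs.1, by linarith [hs.2]⟩ ⟨by linarith [hs.1, hr.1], by linarith [hr.2, hs.2]⟩ hr.1
      have h4 : 0 ≤ ∫ r in s..(s + h), g r :=
        intervalIntegral.integral_nonneg (by linarith) fun r _ => hg0 r
      have h5 : ρ s * (∫ r in s..(s + h), g r) ^ 2 = (Real.sqrt (ρ s) * ∫ r in s..(s + h), g r) ^ 2 := by
        rw [mul_pow, Real.sq_sqrt (hρ0 s)]
      rw [h5]
      exact pow_le_pow_left₀ (by positivity) h3 2
    have hF : ContinuousOn (fun s => ∫ r in (0 : ℝ)..s, g' r) (Icc 0 (t + h)) :=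
      prim_cont hg'm (fun a b ha hab hb => by
        rw [intervalIntegral.integral_interval_sub_left (hgi 0 b le_rfl (ha.trans hab) hb)
          (hgi 0 a le_rfl ha (hab.trans hb))])
    have hG : ContinuousOn (fun s => ∫ r in (0 : ℝ)..s, g r) (Icc 0 (t + h)) :=
      prim_cont (mem_cont (hgc.mono hsub)) (fun a b ha hab hb => by
        rw [intervalIntegral.integral_interval_sub_left (hg2i 0 b le_rfl (ha.trans hab) hb)
          (hg2i 0 a le_rfl ha (hab.trans hb))])
    have hsh : MapsTo (fun s : ℝ => s + h) (Icc 0 t) (Icc 0 (t + h)) := fun s hs =>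
      ⟨by linarith [hs.1], by linarith [hs.2]⟩
    have hid : MapsTo (fun s : ℝ => s) (Icc 0 t) (Icc 0 (t + h)) := fun s hs =>
      ⟨hs.1, by linarith [hs.2]⟩
    have hcs : ContinuousOn (fun s : ℝ => s + h) (Icc 0 t) := (continuous_add_const h).continuousOn
    have i1 : IntervalIntegrable (fun s => ρ s * (∫ r in s..(s + h), g r) ^ 2) volume 0 t := by
      apply ContinuousOn.intervalIntegrable
      rw [uIcc_of_le ht]
      refine (hρc.mono ((Icc_subset_Icc_right (by linarith)))).mul (ContinuousOn.pow ?_ 2)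
      refine ContinuousOn.congr ((hG.comp hcs hsh).sub (hG.comp continuousOn_id hid)) fun s hs => ?_
      simp only [Function.comp_apply, Pi.sub_apply, id]
      rw [intervalIntegral.integral_interval_sub_left
        (hg2i 0 (s + h) le_rfl (by linarith [hs.1]) (by linarith [hs.2]))
        (hg2i 0 s le_rfl hs.1 (by linarith [hs.2]))]
    have i2 : IntervalIntegrable (fun s => ‖(∫ r in (0 : ℝ)..(s + h), g' r) -
        ∫ r in (0 : ℝ)..s, g' r‖ ^ 2) volume 0 t := by
      apply ContinuousOn.intervalIntegrable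
      rw [uIcc_of_le ht]
      exact (((hF.comp hcs hsh).sub (hF.comp continuousOn_id hid)).norm).pow 2
    refine (intervalIntegral.integral_mono_on ht i1 i2 h2).trans (h1.trans (le_of_eq ?_))
    rw [mul_comm]
    congr 1
    refine intervalIntegral.integral_congr fun s hs => ?_
    simp only [hg']
    rw [Real.norm_eq_abs, sq_abs, mul_pow, Real.sq_sqrt (hρ0 s)]
  · intro K _ _ _ T t h ρ F F1 ht hh hthT hρc hρm hρ0 hF
    rcases eq_or_lt_of_le ht with h0 | h0
    · subst h0
      rw [intervalIntegral.integral_same]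
      refine mul_nonneg (sq_nonneg _) (mul_nonneg (hρ0 _)
        (intervalIntegral.integral_nonneg (by linarith) fun s hs => sq_nonneg _))
    have hF' := fh_mono hthT hF
    have h1 := prim_shift (T := t + h) hF'.memLp hF'.prim h hh (by linarith)
    rw [add_sub_cancel_right] at h1
    have hFc := prim_cont hF'.memLp hF'.prim
    have hsh : MapsTo (fun s : ℝ => s + h) (Icc 0 t) (Icc 0 (t + h)) := fun s hs =>
      ⟨by linarith [hs.1], by linarith [hs.2]⟩
    have hid : MapsTo (fun s : ℝ => s) (Icc 0 t) (Icc 0 (t + h)) := fun s hs =>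
      ⟨hs.1, by linarith [hs.2]⟩
    have hcs : ContinuousOn (fun s : ℝ => s + h) (Icc 0 t) := (continuous_add_const h).continuousOn
    have hc : ContinuousOn (fun s => ‖F (s + h) - F s‖ ^ 2) (Icc 0 t) :=
      (((hFc.comp hcs hsh).sub (hFc.comp continuousOn_id hid)).norm).pow 2
    have i1 : IntervalIntegrable (fun s => ρ s * ‖F (s + h) - F s‖ ^ 2) volume 0 t := by
      apply ContinuousOn.intervalIntegrable
      rw [uIcc_of_le ht]
      exact (hρc.mono ((Icc_subset_Icc_right (by linarith)))).mul hc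
    have i2 : IntervalIntegrable (fun s => ρ t * ‖F (s + h) - F s‖ ^ 2) volume 0 t := by
      apply ContinuousOn.intervalIntegrable
      rw [uIcc_of_le ht]
      exact continuousOn_const.mul hc
    have h2 : ∫ s in (0 : ℝ)..t, ρ s * ‖F (s + h) - F s‖ ^ 2 ≤
        ∫ s in (0 : ℝ)..t, ρ t * ‖F (s + h) - F s‖ ^ 2 := by
      refine intervalIntegral.integral_mono_on ht i1 i2 fun s hs => ?_
      refine mul_le_mul_of_nonneg_right ?_ (sq_nonneg _)
      exact hρm ⟨hs.1, by linarith [hs.2]⟩ ⟨ht, by linarith⟩ hs.2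
    rw [intervalIntegral.integral_const_mul] at h2
    refine h2.trans ?_
    calc ρ t * ∫ s in (0 : ℝ)..t, ‖F (s + h) - F s‖ ^ 2 ≤
        ρ t * ((∫ s in (0 : ℝ)..(t + h), ‖F1 s‖ ^ 2) * h ^ 2) := mul_le_mul_of_nonneg_left h1 (hρ0 t)
      _ = _ := by ring

end Pool.Agent.T2h23.GY.V4B
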