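import Pool.Agent.T2h23.GY.Stm
import Pool.Agent.T2h23.O3

/-!
Project GY, task V5: the bound of the gradient from the bounds of the energy and of the time
derivative.
-/

set_option autoImplicit false

open MeasureTheory Set
open scoped InnerProductSpace ENNReal ContDiff

namespace Pool.Agent.T2h23.GY.V5

open H772R2.NSR (Frame prim_cont)
open Pool.Agent.T2h23.GY
open Pool.Agent.W795.TQ (Str FH Univ)

/-- the elementary inequality -/
theorem elem {ν c0 c1 c2 X Y : ℝ} (hν : 0 < ν) (hX : 0 ≤ X) (hY : 0 ≤ Y)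
    (hY2 : Y ^ 2 ≤ c2 * X ^ 3) (h : ν * X ^ 2 ≤ c0 + c1 * X + Y) :
    X ≤ max 1 (max (4 * c0 / ν) (max (4 * c1 / ν) (16 * c2 / ν ^ 2))) := by
  by_contra hcon
  push Not at hcon
  rw [max_lt_iff, max_lt_iff, max_lt_iff] at hcon
  obtain ⟨h1, h2, h3, h4⟩ := hcon
  rw [div_lt_iff₀ hν] at h2 h3
  rw [div_lt_iff₀ (by positivity)] at h4
  have hX0 : 0 < X := by linarith
  have k1 : 4 * c0 ≤ ν * X ^ 2 := by
    have : X * ν ≤ ν * X ^ 2 := by nlinarith [mul_pos hν hX0]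
    linarith
  have k2 : 4 * (c1 * X) ≤ ν * X ^ 2 := by nlinarith
  have k3 : (4 * Y) ^ 2 ≤ (ν * X ^ 2) ^ 2 := by
    have e1 : (4 * Y) ^ 2 = 16 * Y ^ 2 := by ring
    have e2 : (ν * X ^ 2) ^ 2 = (X * ν ^ 2) * X ^ 3 := by ring
    rw [e1, e2]
    have h5 : 16 * c2 * X ^ 3 ≤ (X * ν ^ 2) * X ^ 3 := by
      have : (0 : ℝ) < X ^ 3 := by positivity
      nlinarith
    nlinarith
  have k4 : 4 * Y ≤ ν * X ^ 2 := by
    exact (le_abs_self _).trans (abs_le_of_sq_le_sq k3 (by positivity))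
  have k5 : 0 < ν * X ^ 2 := by positivity
  linarith

/-- an almost everywhere bound of a continuous function holds everywhere -/
theorem bound_all {T A : ℝ} (hT : 0 < T) {f : ℝ → ℝ} (hf : ContinuousOn f (Icc 0 T))
    (h : ∀ᵐ t ∂(volume.restrict (Ioc 0 T)), f t ≤ A) : ∀ t ∈ Icc 0 T, f t ≤ A := by
  have h1 : (fun t => max (f t) A) =ᵐ[volume.restrict (Icc 0 T)] fun _ => A := by
    rw [restrict_Ioc_eq_restrict_Icc] at h
    filter_upwards [h] with t ht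
    exact max_eq_right ht
  have h2 := Measure.eqOn_Icc_of_ae_eq (μ := volume) hT.ne h1 (hf.sup continuousOn_const)
    continuousOn_const
  intro t ht
  have := h2 ht
  simp only at this
  exact (le_max_left _ _).trans this.le

section

variable {H K : Type} [NormedAddCommGroup H] [InnerProductSpace ℝ H] [CompleteSpace H]
  [NormedAddCommGroup K] [InnerProductSpace ℝ K] [CompleteSpace K]
  {W : Submodule ℝ (H × K)} {m : H → K} {B : H → H → K} {Z : H →L[ℝ] K} {S : H →L[ℝ] H}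
  {c C ν K0 κ : ℝ}

/-- the bound at one time -/
theorem point (gs : GS W m B Z c C ν) (sk : SK W S K0) {G A1 A4 a e : ℝ} (hG : 0 < G)
    (hA1 : 0 < A1) (hA4 : 0 < A4) (ha : 0 < a) (ha1 : a ≤ 1) (he0 : 0 < e) (he1 : e ≤ 1)
    {x u u1 : H} {z0 z f : K} (hx : (x, z0) ∈ W) (hu : (u, z) ∈ W) (hz0 : ‖z0‖ ≤ G)
    (hf : ‖f‖ ≤ G) (hD : ‖u - e • x‖ ^ 2 ≤ A1 * a) (hu1 : ‖u1 + κ • u‖ ^ 2 * a ≤ A4)
    (heq : ∀ p ∈ W, ⟪u1, p.1⟫_ℝ = ⟪f - ν • z + m u, p.2⟫_ℝ - ⟪S u + κ • u, p.1⟫_ℝ) :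
    ‖z‖ ≤ max 1 (max (4 * Real.sqrt (A1 * A4) / ν) (max (4 * (G + ν * G + C * G ^ 2 + K0 * G) / ν)
      (16 * (G ^ 2 * (C * Real.sqrt A1)) / ν ^ 2))) + G := by
  have hν := gs.ν0
  have hC := gs.C0
  have hK0 := sk.K00
  have hex : (e • x, e • z0) ∈ W := by
    have := W.smul_mem e hx
    exact this
  have hDm : (u - e • x, z - e • z0) ∈ W := by
    have := W.sub_mem hu hex
    exact this
  set D : H := u - e • x with hDdef
  set zD : K := z - e • z0 with hzD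
  -- the identity
  have h1 := heq (D, zD) hDm
  simp only at h1
  have h2 : ⟪m u - m (e • x), zD⟫_ℝ = -⟪m D, e • z0⟫_ℝ := gs.fr.anti _ hu _ hex
  have h3 : ⟪S u, D⟫_ℝ = e * ⟪S x, D⟫_ℝ := by
    have e1 : u = D + e • x := by
      rw [hDdef]
      abel
    have e2 : S u = S D + e • S x := by
      conv_lhs => rw [e1]
      rw [map_add, map_smul]
    rw [e2, inner_add_left, sk.skew, real_inner_smul_left, zero_add]
  have h4 : ν * ‖zD‖ ^ 2 = -⟪u1 + κ • u, D⟫_ℝ + ⟪f - (ν * e) • z0 + m (e • x), zD⟫_ℝ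
      - e * ⟪m D, z0⟫_ℝ - e * ⟪S x, D⟫_ℝ := by
    have e1 : ‖zD‖ ^ 2 = ⟪z, zD⟫_ℝ - e * ⟪z0, zD⟫_ℝ := by
      rw [← real_inner_self_eq_norm_sq]
      conv_lhs => rw [hzD]
      rw [inner_sub_left, real_inner_smul_left]
    rw [inner_sub_left, real_inner_smul_right] at h2
    rw [inner_add_left, inner_sub_left, real_inner_smul_left, inner_add_left, h3] at h1
    rw [e1, inner_add_left, inner_add_left (f - (ν * e) • z0), inner_sub_left,
      real_inner_smul_left (y := zD)]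
    linarith
  -- the bounds
  have hzx : ‖e • z0‖ ≤ G := by
    rw [norm_smul, Real.norm_of_nonneg he0.le]
    calc e * ‖z0‖ ≤ 1 * G := by gcongr
      _ = G := one_mul _
  have hxx : ‖e • x‖ ≤ C * G := (gs.fr.poinc _ hex).trans (by
    simp only
    gcongr)
  have hmx : ‖m (e • x)‖ ≤ C * G ^ 2 := by
    refine (le_abs_self _).trans (abs_le_of_sq_le_sq ?_ (by positivity))
    refine (gs.fr.quart _ hex).trans ?_
    simp only
    calc C * (‖e • x‖ * ‖e • z0‖ ^ 3) ≤ C * ((C * G) * G ^ 3) := by gcongr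
      _ = (C * G ^ 2) ^ 2 := by ring
  have b1 : -⟪u1 + κ • u, D⟫_ℝ ≤ Real.sqrt (A1 * A4) := by
    refine (neg_le_abs _).trans ((abs_real_inner_le_norm _ _).trans ?_)
    refine Real.le_sqrt_of_sq_le ?_
    have k1 : (‖u1 + κ • u‖ * ‖D‖) ^ 2 = ‖u1 + κ • u‖ ^ 2 * ‖D‖ ^ 2 := by ring
    rw [k1]
    calc ‖u1 + κ • u‖ ^ 2 * ‖D‖ ^ 2 ≤ ‖u1 + κ • u‖ ^ 2 * (A1 * a) := by gcongr
      _ = A1 * (‖u1 + κ • u‖ ^ 2 * a) := by ring
      _ ≤ A1 * A4 := by gcongr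
  have b2 : ⟪f - (ν * e) • z0 + m (e • x), zD⟫_ℝ ≤ (G + ν * G + C * G ^ 2) * ‖zD‖ := by
    refine (real_inner_le_norm _ _).trans ?_
    gcongr
    refine (norm_add_le _ _).trans ?_
    refine add_le_add ((norm_sub_le _ _).trans (add_le_add hf ?_)) hmx
    rw [mul_smul, norm_smul, Real.norm_of_nonneg hν.le]
    gcongr
  have b3 : -(e * ⟪m D, z0⟫_ℝ) ≤ G * ‖m D‖ := by
    refine (neg_le_abs _).trans ?_
    rw [abs_mul, abs_of_pos he0]
    calc e * |⟪m D, z0⟫_ℝ| ≤ 1 * (‖m D‖ * ‖z0‖) := by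
          gcongr
          exact abs_real_inner_le_norm _ _
      _ ≤ 1 * (‖m D‖ * G) := by gcongr
      _ = G * ‖m D‖ := by ring
  have b4 : -(e * ⟪S x, D⟫_ℝ) ≤ K0 * G * ‖zD‖ := by
    refine (neg_le_abs _).trans ?_
    rw [abs_mul, abs_of_pos he0]
    calc e * |⟪S x, D⟫_ℝ| ≤ 1 * (K0 * (‖z0‖ * ‖zD‖)) := by
          gcongr
          exact sk.form _ hx _ hDm
      _ ≤ 1 * (K0 * (G * ‖zD‖)) := by gcongr
      _ = K0 * G * ‖zD‖ := by ring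
  have hDn : ‖D‖ ≤ Real.sqrt A1 := by
    refine Real.le_sqrt_of_sq_le (hD.trans ?_)
    calc A1 * a ≤ A1 * 1 := by gcongr
      _ = A1 := mul_one _
  have b5 : (G * ‖m D‖) ^ 2 ≤ (G ^ 2 * (C * Real.sqrt A1)) * ‖zD‖ ^ 3 := by
    have k := gs.fr.quart _ hDm
    simp only at k
    calc (G * ‖m D‖) ^ 2 = G ^ 2 * ‖m D‖ ^ 2 := by ring
      _ ≤ G ^ 2 * (C * (‖D‖ * ‖zD‖ ^ 3)) := by gcongr
      _ ≤ G ^ 2 * (C * (Real.sqrt A1 * ‖zD‖ ^ 3)) := by gcongr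
      _ = (G ^ 2 * (C * Real.sqrt A1)) * ‖zD‖ ^ 3 := by ring
  have hfin := elem (c0 := Real.sqrt (A1 * A4)) (c1 := G + ν * G + C * G ^ 2 + K0 * G) hν
    (norm_nonneg zD) (by positivity : 0 ≤ G * ‖m D‖) b5 (by
      rw [h4]
      have e1 : (G + ν * G + C * G ^ 2 + K0 * G) * ‖zD‖
          = (G + ν * G + C * G ^ 2) * ‖zD‖ + K0 * G * ‖zD‖ := by ring
      rw [e1]
      linarith)
  have e2 : z = zD + e • z0 := by
    rw [hzD]
    abel
  calc ‖z‖ = ‖zD + e • z0‖ := by rw [← e2]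
    _ ≤ ‖zD‖ + ‖e • z0‖ := norm_add_le _ _
    _ ≤ _ := add_le_add hfin hzx

end

theorem t_V5 (hal : S_al) (heq : S_eq) (h1 : S_v1) (h4 : S_v4) : S_v5 := by
  intro c C ν K0 G hc hC hν hK0 hG
  obtain ⟨A1, hA1, h1'⟩ := h1 c C ν K0 G hc hC hν hK0 hG
  obtain ⟨A4, hA4, h4'⟩ := h4 c C ν K0 G hc hC hν hK0 hG
  refine ⟨max 1 (max (4 * Real.sqrt (A1 * A4) / ν) (max (4 * (G + ν * G + C * G ^ 2 + K0 * G) / ν)
      (16 * (G ^ 2 * (C * Real.sqrt A1)) / ν ^ 2))) + G,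
    add_pos (lt_max_of_lt_left one_pos) hG, fun L hL => ?_⟩
  obtain ⟨σ, hσ, hσ1, h⟩ := h4' L hL
  refine ⟨σ, hσ, hσ1, ?_⟩
  intro H K _ _ _ _ _ _ W m B Z S κ T F F1 u u1 z z1 gs sk hκ hT hTσ hF P hz0 hFb hFi hzL
  have hFc : ContinuousOn F (Icc 0 T) := prim_cont hF.memLp hF.prim
  obtain ⟨huc, hzc, -, hae⟩ := heq H K W m B Z S c C ν κ T F u u1 z z1 gs hT hFc P
  obtain ⟨-, -, -, hal1, hal2, -⟩ := hal κ hκ
  refine bound_all hT hzc.norm ?_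
  filter_upwards [hae, h H K W m B Z S κ T F F1 u u1 z z1 gs sk hκ hT hTσ hF P hz0 hFb hFi hzL,
    ae_restrict_mem measurableSet_Ioc] with t k1 k2 k3
  have htI : t ∈ Icc 0 T := ⟨k3.1.le, k3.2⟩
  have k4 := (h1' H K W m B Z S κ T F F1 u u1 z z1 gs sk hκ hT (hTσ.trans hσ1) hF P hz0 hFb t
    htI).1
  refine point gs sk hG hA1 hA4 (hal2 t k3.1)
    ((hal1 t k3.1.le).2.1.trans (k3.2.trans (hTσ.trans hσ1))) (Real.exp_pos _) ?_
    (P.mem 0 ⟨le_rfl, hT.le⟩) (P.mem t htI) hz0 (hFb t htI) k4 k2 k1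
  rw [Real.exp_le_one_iff]
  have := mul_nonneg hκ k3.1.le
  linarith

end Pool.Agent.T2h23.GY.V5
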