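import Pool.Agent.T2h23.GY.Stm
import Pool.Agent.T2h23.O3

/-!
Project GY, tasks V6 and GT: the continuity argument, good times.
-/

set_option autoImplicit false

open MeasureTheory Set
open scoped InnerProductSpace ENNReal ContDiff

namespace Pool.Agent.T2h23.GY.V6

open H772R2.NSR (Frame prim_cont)
open Pool.Agent.T2h23.GY
open Pool.Agent.W795.TQ (Str FH Univ)

theorem fh_cont {K : Type} [NormedAddCommGroup K] [InnerProductSpace ℝ K] [CompleteSpace K]
    {T : ℝ} {F F1 : ℝ → K} (h : FH T F F1) : ContinuousOn F (Icc 0 T) :=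
  prim_cont h.memLp h.prim

theorem fh_sq {K : Type} [NormedAddCommGroup K] [InnerProductSpace ℝ K] [CompleteSpace K]
    {T : ℝ} {F F1 : ℝ → K} (h : FH T F F1) :
    IntegrableOn (fun s => ‖F1 s‖ ^ 2) (Ioc 0 T) := by
  have := h.memLp.integrable_norm_pow (by norm_num : (2 : ℕ) ≠ 0)
  exact this

/-- the integral of the square of the derivative over a subinterval -/
theorem int_le {K : Type} [NormedAddCommGroup K] [InnerProductSpace ℝ K] [CompleteSpace K]
    {T G : ℝ} {F F1 : ℝ → K} (h : FH T F F1) (hG : (∫ s in (0 : ℝ)..T, ‖F1 s‖ ^ 2) ≤ G)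
    {s τ : ℝ} (hs : 0 ≤ s) (hτ : 0 ≤ τ) (hsτ : s + τ ≤ T) :
    (∫ r in (0 : ℝ)..τ, ‖F1 (s + r)‖ ^ 2) ≤ G := by
  refine le_trans ?_ hG
  have e := intervalIntegral.integral_comp_add_left (fun r => ‖F1 r‖ ^ 2) s (a := 0) (b := τ)
  rw [e, add_zero, intervalIntegral.integral_of_le (by linarith),
    intervalIntegral.integral_of_le (by linarith)]
  refine setIntegral_mono_set (fh_sq h) (Filter.Eventually.of_forall fun _ => by positivity) ?_
  exact (Ioc_subset_Ioc hs hsτ).eventuallyLE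

theorem t_V6 (heq : S_eq) (hsh : S_sh) (h5 : S_v5) : S_v6 := by
  intro c C ν K0 G hc hC hν hK0 hG
  obtain ⟨A, hA, h5'⟩ := h5 c C ν K0 G hc hC hν hK0 hG
  obtain ⟨σ, hσ, hσ1, h⟩ := h5' (A + G + 1) (by linarith)
  refine ⟨σ, A + G + 1, hσ, by linarith, ?_⟩
  intro H K _ _ _ _ _ _ W m B Z S κ T F F1 u u1 z z1 gs sk hκ hT hF P hz0 hFb hFi t ht htσ
  have hFc := fh_cont hF
  obtain ⟨huc, hzc, -, -⟩ := heq H K W m B Z S c C ν κ T F u u1 z z1 gs hT hFc P
  by_contra hcon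
  push Not at hcon
  have hzn : ContinuousOn (fun s => ‖z s‖) (Icc 0 t) :=
    (hzc.mono (Icc_subset_Icc_right ht.2)).norm
  set E : Set ℝ := Icc 0 t ∩ (fun s => ‖z s‖) ⁻¹' Ici (A + G + 1) with hE
  have hEc : IsCompact E := by
    refine isCompact_Icc.of_isClosed_subset ?_ inter_subset_left
    exact hzn.preimage_isClosed_of_isClosed isClosed_Icc isClosed_Ici
  have hEn : E.Nonempty := ⟨t, ⟨ht.1, le_rfl⟩, hcon.le⟩
  obtain ⟨t0, ht0, hmin⟩ := hEc.exists_isLeast hEn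
  have ht0t := ht0.1
  have hz1 : A + G + 1 ≤ ‖z t0‖ := ht0.2
  have hz2 : ‖z t0‖ = A + G + 1 := by
    have h1 := intermediate_value_Icc ht0t.1 (hzn.mono (Icc_subset_Icc_right ht0t.2))
    have h2 : A + G + 1 ∈ Icc ‖z 0‖ ‖z t0‖ := ⟨by linarith, hz1⟩
    obtain ⟨r, hr, hr2⟩ := h1 h2
    have h3 : r ∈ E := ⟨⟨hr.1, hr.2.trans ht0t.2⟩, (by
      show A + G + 1 ≤ ‖z r‖
      exact hr2.ge)⟩
    have h4 : t0 ≤ r := hmin h3
    have h5 : r = t0 := le_antisymm hr.2 h4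
    rw [← h5]
    exact hr2
  have ht00 : 0 < t0 := by
    rcases ht0t.1.eq_or_lt with h0 | h0
    · exfalso
      rw [← h0] at hz2
      linarith
    · exact h0
  have ht0T : t0 ≤ T := ht0t.2.trans ht.2
  have P' := hsh H K W m B Z S c C ν κ T F u u1 z z1 gs hT hFc P 0 t0 le_rfl ht00 (by linarith)
  simp only [zero_add] at P'
  have hI := int_le hF hFi (s := 0) (τ := t0) le_rfl ht00.le (by linarith)
  simp only [zero_add] at hI
  have hfin := h H K W m B Z S κ t0 F F1 u u1 z z1 gs sk hκ ht00 (ht0t.2.trans htσ)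
    (Pool.Agent.T2h23.fh_mono ht0T hF) P' hz0 (fun r hr => hFb r ⟨hr.1, hr.2.trans ht0T⟩) hI
    (by
      intro r hr
      by_contra hc2
      push Not at hc2
      have h3 : r ∈ E := ⟨⟨hr.1, hr.2.trans ht0t.2⟩, hc2.le⟩
      have h4 : t0 ≤ r := hmin h3
      have h5 : r = t0 := le_antisymm hr.2 h4
      rw [h5, hz2] at hc2
      exact lt_irrefl _ hc2) t0 ⟨ht00.le, le_rfl⟩
  linarith

end Pool.Agent.T2h23.GY.V6
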