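import Pool.Agent.T2h23.GY.Stm

/-!
Project GY, task WF (helper2): the correctors are test fields; formula.
-/

set_option autoImplicit false

open MeasureTheory Set
open scoped InnerProductSpace ENNReal ContDiff

namespace Pool.Agent.T2h23.GY.WF

open Pool.Agent.T2h23.GY
open H772R2.NS (graphW tensL E3 L2V L2M IsTest)

theorem coord_smooth (j : Fin 3) : ContDiff ℝ ∞ fun y : E3 => y j :=
  (EuclideanSpace.proj (𝕜 := ℝ) j : E3 →L[ℝ] ℝ).contDiff

theorem sin_smooth (N : ℝ) (j : Fin 3) : ContDiff ℝ ∞ fun y : E3 => Real.sin (N * y j) :=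
  Real.contDiff_sin.comp (contDiff_const.mul (coord_smooth j))

theorem grad_sin (N : ℝ) (j : Fin 3) (x : E3) :
    gradient (fun y : E3 => Real.sin (N * y j)) x =
      (N * Real.cos (N * x j)) • EuclideanSpace.single j (1 : ℝ) := by
  have h0 : HasFDerivAt (fun y : E3 => y j) (EuclideanSpace.proj (𝕜 := ℝ) j : E3 →L[ℝ] ℝ) x :=
    (EuclideanSpace.proj (𝕜 := ℝ) j : E3 →L[ℝ] ℝ).hasFDerivAt
  have h1 : HasFDerivAt (fun y : E3 => Real.sin (N * y j))
      (Real.cos (N * x j) • (N • (EuclideanSpace.proj (𝕜 := ℝ) j : E3 →L[ℝ] ℝ))) x :=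
    (h0.const_mul N).sin
  have h2 : HasGradientAt (fun y : E3 => Real.sin (N * y j))
      ((N * Real.cos (N * x j)) • EuclideanSpace.single j (1 : ℝ)) x := by
    rw [hasGradientAt_iff_hasFDerivAt]
    refine h1.congr_fderiv ?_
    ext v
    simp [InnerProductSpace.toDual_apply_apply, EuclideanSpace.inner_single_left]
    ring
  exact h2.gradient

theorem cr_smul_left (c : ℝ) (a b : E3) : cr (c • a) b = c • cr a b := by
  ext i
  simp [cr]
  ring

theorem t_WF (hci : S_ci) : S_wf := by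
  intro Ω φ hφ N j hN
  obtain ⟨-, -, -, h4, h5⟩ := hci
  have hs := sin_smooth N j
  have hsm : ContDiff ℝ ∞ fun y : E3 => Real.sin (N * y j) • φ y := hs.smul hφ.smooth
  have hsup : tsupport (fun y : E3 => Real.sin (N * y j) • φ y) ⊆ tsupport φ :=
    closure_mono fun y hy h => hy (by
      change Real.sin (N * y j) • φ y = 0
      rw [h, smul_zero])
  have hcs : HasCompactSupport fun y : E3 => Real.sin (N * y j) • φ y :=
    hφ.compact.mono fun y hy h => hy (by
      change Real.sin (N * y j) • φ y = 0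
      rw [h, smul_zero])
  have h6 := h5 Ω _ hsm hcs (hsup.trans hφ.supp)
  refine ⟨h6.smul (-(1 / N ^ 2)), fun x => ?_⟩
  change -(1 / N ^ 2) • crl (fun y => Real.sin (N * y j) • φ y) x = _
  rw [h4 _ φ x hs hφ.smooth, grad_sin, cr_smul_left]

end Pool.Agent.T2h23.GY.WF
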