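import Pool.Agent.T2h23.GY.Fin
import Pool.Agent.T2h23.GY.Pub
import Pool.Agent.T2h23.GY.T_AL
import Pool.Agent.T2h23.GY.T_BS
import Pool.Agent.T2h23.GY.T_C2
import Pool.Agent.T2h23.GY.T_CA
import Pool.Agent.T2h23.GY.T_CB
import Pool.Agent.T2h23.GY.T_CC
import Pool.Agent.T2h23.GY.T_CD
import Pool.Agent.T2h23.GY.T_CI
import Pool.Agent.T2h23.GY.T_CX
import Pool.Agent.T2h23.GY.TR0
import Pool.Agent.T2h23.GY.T_FB
import Pool.Agent.T2h23.GY.T_PL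
import Pool.Agent.T2h23.GY.T_OS
import Pool.Agent.T2h23.GY.T_CW
import Pool.Agent.T2h23.GY.T_CM
import Pool.Agent.T2h23.GY.T_DEC
import Pool.Agent.T2h23.GY.T_DMP
import Pool.Agent.T2h23.GY.T_EQ
import Pool.Agent.T2h23.GY.T_GL
import Pool.Agent.T2h23.GY.T_GT
import Pool.Agent.T2h23.GY.T_HT
import Pool.Agent.T2h23.GY.T_LD
import Pool.Agent.T2h23.GY.T_LOC
import Pool.Agent.T2h23.GY.T_MU
import Pool.Agent.T2h23.GY.T_NT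
import Pool.Agent.T2h23.GY.T_PLI
import Pool.Agent.T2h23.GY.T_SH
import Pool.Agent.T2h23.GY.T_UQ
import Pool.Agent.T2h23.GY.T_V1
import Pool.Agent.T2h23.GY.T_V2
import Pool.Agent.T2h23.GY.T_V3
import Pool.Agent.T2h23.GY.T_V4
import Pool.Agent.T2h23.GY.T_V4A
import Pool.Agent.T2h23.GY.T_V4B
import Pool.Agent.T2h23.GY.T_V5
import Pool.Agent.T2h23.GY.T_V6
import Pool.Agent.T2h23.GY.T_WF
import Pool.Agent.W52.TQ.Univ
import Pool.Agent.W52.TQ.Loc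
import Pool.Agent.W503.TQ.Uni

/-!
Project GY: all parts together.
-/

set_option autoImplicit false

namespace Pool.Agent.T2h23.GY

theorem a_v1 : S_v1 := V1.t_V1 AL.t_AL EQ.t_EQ
theorem a_v2 : S_v2 := V2.t_V2 AL.t_AL EQ.t_EQ a_v1
theorem a_v3 : S_v3 := V3.t_V3 EQ.t_EQ
theorem a_v4 : S_v4 := V4.t_V4 AL.t_AL EQ.t_EQ a_v2 a_v3 (V4A.t_V4A AL.t_AL) V4B.t_V4B
theorem a_v5 : S_v5 := V5.t_V5 AL.t_AL EQ.t_EQ a_v1 a_v4
theorem a_v6 : S_v6 := V6.t_V6 EQ.t_EQ SH.t_SH a_v5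
theorem a_gt : S_gt := GT.t_GT EQ.t_EQ SH.t_SH a_v6
theorem a_loc : S_loc1 := LOC.t_LOC Pool.Agent.W52.TQ.proof_loc
theorem a_dec : S_dec := DEC.t_DEC AL.t_AL EQ.t_EQ SH.t_SH
theorem a_dmp : S_dmp := DMP.t_DMP AL.t_AL EQ.t_EQ SH.t_SH a_loc a_gt a_dec
theorem a_ld : S_ld := LD.t_LD CI.t_CI
theorem a_wf : S_wf := WF.t_WF CI.t_CI
theorem a_bs : S_bs := BS.t_BS HT.t_HT
theorem a_uq : S_uq := UQ.t_UQ Pool.Agent.W503.TQ.proof_uni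

theorem a_pl : S_pl := PL.t_PL
theorem a_cm : S_cm := CM.t_CM EQ.t_EQ
theorem a_fb : S_fb := FB.t_FB CI.t_CI
theorem a_os : S_os := OS.t_OS
theorem a_cw : S_cw := CW.t_CW PLI.t_PLI a_pl
theorem a_tr : S_tr := TR0.t_TR a_cw a_cm
theorem a_gl : S_gl := GL.t_GL EQ.t_EQ SH.t_SH a_cm
theorem a_ca : S_ca := CA.t_CA CI.t_CI a_ld a_wf a_os
theorem a_cb : S_cb := CB.t_CB CI.t_CI a_wf a_os
theorem a_cx : S_cx := CX.t_CX CI.t_CI a_wf a_os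
theorem a_cd : S_cd := CD.t_CD a_wf a_ca a_cb a_cx
theorem a_fin : S_fin := proof_fin EQ.t_EQ SH.t_SH a_loc a_gt a_dec a_dmp a_tr NT.t_NT

end Pool.Agent.T2h23.GY
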