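import Pool.Agent.W795.TQ.DStm
import Pool.Agent.W795.ES.Stm
import Pool.Agent.H772R2.NS.Space3
import Pool.Agent.Y303.LV.Fin
import Pool.Agent.T2h23.PubDef

/-!
Project GY: forces `u × ∇β`, which do no work. Definitions.
-/

set_option autoImplicit false

open MeasureTheory Set
open scoped InnerProductSpace ENNReal ContDiff

namespace Pool.Agent.T2h23.GY

open H772R2.NSR (Frame)
open H772R2.NS (graphW tensL E3 L2V L2M IsTest)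
open Pool.Agent.W795.TQ (Str FH Univ)
open Pool.Agent.W795.ES (Tri)

section

variable {H K : Type} [NormedAddCommGroup H] [InnerProductSpace ℝ H]
  [NormedAddCommGroup K] [InnerProductSpace ℝ K]

/-- The standing assumptions: `W` is the graph of the gradient, `m u = u ⊗ u`, `B u v = u ⊗ v`,
and `Z` represents `(w, ·)` on `W`. -/
structure GS (W : Submodule ℝ (H × K)) (m : H → K) (B : H → H → K) (Z : H →L[ℝ] K)
    (c C ν : ℝ) : Prop where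
  c0 : 0 < c
  C0 : 0 < C
  ν0 : 0 < ν
  fr : Frame W m C
  un : Univ W m c
  tri : Tri W m B
  cp : ∀ R : ℝ, TotallyBounded {v : H | ∃ z, (v, z) ∈ W ∧ ‖z‖ ≤ R}
  rz : ∀ w : H, ∀ p ∈ W, ⟪Z w, p.2⟫_ℝ = ⟪w, p.1⟫_ℝ

/-- `S` is a bounded skew operator whose form is bounded by `K0 ‖∇u‖ ‖∇v‖`. -/
structure SK (W : Submodule ℝ (H × K)) (S : H →L[ℝ] H) (K0 : ℝ) : Prop where
  K00 : 0 ≤ K0
  skew : ∀ h : H, ⟪S h, h⟫_ℝ = 0
  form : ∀ p ∈ W, ∀ q ∈ W, |⟪S p.1, q.1⟫_ℝ| ≤ K0 * (‖p.2‖ * ‖q.2‖)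

/-- Strong solutions on `[0,T]` of `∂ₜu + (u·∇)u + ∇p = νΔu + f - S u - κ u`. -/
def PS (W : Submodule ℝ (H × K)) (m : H → K) (Z : H →L[ℝ] K) (S : H →L[ℝ] H) (κ ν T : ℝ)
    (F : ℝ → K) (u u1 : ℝ → H) (z z1 : ℝ → K) : Prop :=
  Str W m ν T (fun s => F s - Z (S (u s) + κ • u s)) u u1 z z1

/-- Compatibility: the initial acceleration is in `H`. -/
def Cpt (W : Submodule ℝ (H × K)) (m : H → K) (ν : ℝ) (F0 : K) (x0 : H) (z0 : K) : Prop :=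
  ∃ g0 : H, ∀ p ∈ W, ⟪F0 - ν • z0 + m x0, p.2⟫_ℝ = ⟪g0, p.1⟫_ℝ

/-- The data: force of class `H¹(0,T)`, of size at most `R`, `(x0, z0) ∈ W` of size at most `R`,
compatible. -/
structure Dat (W : Submodule ℝ (H × K)) (m : H → K) (ν T R : ℝ) (F F1 : ℝ → K) (x0 : H)
    (z0 : K) : Prop where
  fh : FH T F F1
  fb : ∀ t ∈ Icc 0 T, ‖F t‖ ≤ R
  fi : (∫ s in (0 : ℝ)..T, ‖F1 s‖ ^ 2) ≤ R ^ 2
  mem : (x0, z0) ∈ W
  zb : ‖z0‖ ≤ R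
  cpt : Cpt W m ν (F 0) x0 z0

/-- `S_n` acts in the limit as the friction `κ` near `p`: there is a corrector `w`. -/
def Cor (W : Submodule ℝ (H × K)) (S : ℕ → H →L[ℝ] H) (ν κ : ℝ) (p : H × K) : Prop :=
  ∀ δ : ℝ, 0 < δ → ∃ n0 : ℕ, ∀ n : ℕ, n0 ≤ n → ∃ w ∈ W, ‖w.1‖ ≤ δ ∧
    ‖w.2‖ ≤ Real.sqrt (κ / ν) * ‖p.1‖ + δ ∧
    ∀ q ∈ W, |ν * ⟪w.2, q.2⟫_ℝ + ⟪S n (p.1 + w.1), q.1⟫_ℝ - κ * ⟪p.1, q.1⟫_ℝ| ≤ δ * ‖q.2‖

/-- The same without the bound of the gradient of the corrector. -/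
def Cor0 (W : Submodule ℝ (H × K)) (S : ℕ → H →L[ℝ] H) (ν κ : ℝ) (p : H × K) : Prop :=
  ∀ δ : ℝ, 0 < δ → ∃ n0 : ℕ, ∀ n : ℕ, n0 ≤ n → ∃ w ∈ W, ‖w.1‖ ≤ δ ∧
    ∀ q ∈ W, |ν * ⟪w.2, q.2⟫_ℝ + ⟪S n (p.1 + w.1), q.1⟫_ℝ - κ * ⟪p.1, q.1⟫_ℝ| ≤ δ * ‖q.2‖

/-- Approximate solutions on `[0,T]` of the equations with the operator `S` and without friction:
the residual is at most `δ` in `V'` (uniformly in time), and `‖D‖ ≤ M`. -/
structure AS (W : Submodule ℝ (H × K)) (m : H → K) (S : H →L[ℝ] H) (ν T δ M : ℝ) (F : ℝ → K)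
    (V V1 : ℝ → H) (D : ℝ → K) : Prop where
  mem : ∀ t ∈ Icc 0 T, (V t, D t) ∈ W
  V1m : MemLp V1 2 (volume.restrict (Ioc 0 T))
  pV : ∀ a b, 0 ≤ a → a ≤ b → b ≤ T → V b - V a = ∫ s in a..b, V1 s
  Dc : ContinuousOn D (Icc 0 T)
  bd : ∀ t ∈ Icc 0 T, ‖D t‖ ≤ M
  res : ∀ᵐ s ∂(volume.restrict (Ioc 0 T)), ∀ p ∈ W,
    |⟪V1 s, p.1⟫_ℝ - ⟪F s - ν • D s + m (V s), p.2⟫_ℝ + ⟪S (V s), p.1⟫_ℝ| ≤ δ * ‖p.2‖

end

/-- `a(t) = ∫₀ᵗ e^{-2κs} ds = ∫₀ᵗ e^{-2κ(t-s)} ds`; so `a(t) = t` if `κ = 0`. -/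
noncomputable def al (κ t : ℝ) : ℝ := ∫ s in (0 : ℝ)..t, Real.exp (-(2 * κ * s))

/-- The piecewise linear interpolation of `P 0, P 1, ..., P N` at the times `j T / N`. -/
noncomputable def pli {E : Type} [NormedAddCommGroup E] [NormedSpace ℝ E] (T : ℝ) (N : ℕ)
    (P : ℕ → E) (t : ℝ) : E :=
  (1 - (t * N / T - (⌊t * N / T⌋₊ : ℝ))) • P ⌊t * N / T⌋₊
    + (t * N / T - (⌊t * N / T⌋₊ : ℝ)) • P (⌊t * N / T⌋₊ + 1)

/-- The derivative of the piecewise linear interpolation. -/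
noncomputable def pli1 {E : Type} [NormedAddCommGroup E] [NormedSpace ℝ E] (T : ℝ) (N : ℕ)
    (P : ℕ → E) (t : ℝ) : E :=
  ((N : ℝ) / T) • (P (⌊t * N / T⌋₊ + 1) - P ⌊t * N / T⌋₊)

/-! ### the fields in three dimensional space -/

/-- The cross product. -/
noncomputable def cr (a b : E3) : E3 :=
  WithLp.toLp 2 fun i : Fin 3 => a (i + 1) * b (i + 2) - a (i + 2) * b (i + 1)

/-- The curl. -/
noncomputable def crl (φ : E3 → E3) (x : E3) : E3 :=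
  WithLp.toLp 2 fun i : Fin 3 =>
    fderiv ℝ φ x (EuclideanSpace.single (i + 1) 1) (i + 2)
      - fderiv ℝ φ x (EuclideanSpace.single (i + 2) 1) (i + 1)

/-- The Laplacian of a vector field. -/
noncomputable def lpl (φ : E3 → E3) (x : E3) : E3 :=
  ∑ i : Fin 3, fderiv ℝ (fun y => fderiv ℝ φ y (EuclideanSpace.single i 1)) x
    (EuclideanSpace.single i 1)

/-- `∇(A sin(N x_j)) = A N cos(N x_j) e_j`. -/
noncomputable def gw (A N : ℝ) (j : Fin 3) (x : E3) : E3 :=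
  (A * N * Real.cos (N * x j)) • EuclideanSpace.single j 1

/-- The direction of the wave with the number `l`. -/
def ax (l : ℕ) : Fin 3 := Fin.ofNat 3 l

/-- The potential `β(x) = A ∑_{l < 3k} sin((n+2)^{l+1} x_{l mod 3})`. -/
noncomputable def pot (A : ℝ) (k n : ℕ) (x : E3) : ℝ :=
  A * ∑ l ∈ Finset.range (3 * k), Real.sin (((n : ℝ) + 2) ^ (l + 1) * x (ax l))

/-- Its gradient. -/
noncomputable def bw (A : ℝ) (k n : ℕ) (x : E3) : E3 :=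
  ∑ l ∈ Finset.range (3 * k), gw A (((n : ℝ) + 2) ^ (l + 1)) (ax l) x

/-- The corrector of `sin(N x_j)` at `φ`: `- N^{-2} curl (sin(N x_j) φ)`. -/
noncomputable def wc (N : ℝ) (j : Fin 3) (φ : E3 → E3) (x : E3) : E3 :=
  -(1 / N ^ 2) • crl (fun y => Real.sin (N * y j) • φ y) x

end Pool.Agent.T2h23.GY
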