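import Pool.Agent.T2h23.GY.Stm

/-!
Project GY: the statement of the final abstract theorem.
-/

set_option autoImplicit false

open MeasureTheory Set
open scoped InnerProductSpace ENNReal ContDiff

namespace Pool.Agent.T2h23.GY

open H772R2.NSR (Frame)
open Pool.Agent.W795.TQ (Str FH Univ)

/-- FIN: the friction `κ` is chosen first; if the operators `S n` act in the limit as the friction
`κ`, then for large `n` all solutions with data of size `R` and forces with values in `G` are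
strong and small after the time `ε`. -/
def S_fin : Prop := ∀ c C ν R ε : ℝ, 0 < c → 0 < C → 0 < ν → 0 < R → 0 < ε →
  ∃ κ : ℝ, 0 < κ ∧
  ∀ (H K : Type) [NormedAddCommGroup H] [InnerProductSpace ℝ H]
    [CompleteSpace H] [NormedAddCommGroup K] [InnerProductSpace ℝ K] [CompleteSpace K]
    (W : Submodule ℝ (H × K)) (m : H → K) (B : H → H → K) (Z : H →L[ℝ] K) (S : ℕ → H →L[ℝ] H)
    (T K0 : ℝ) (G : Set K), GS W m B Z c C ν → 0 < T → TotallyBounded G →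
    (∀ n, SK W (S n) K0) → (∀ p ∈ W, Cor W S ν κ p) →
    ∃ (n0 : ℕ) (Λ : ℝ), ∀ n : ℕ, n0 ≤ n → ∀ (F F1 : ℝ → K) (x0 : H) (z0 : K),
      (∀ T' : ℝ, 0 < T' → Dat W m ν T' R F F1 x0 z0) → (∀ t, 0 ≤ t → F t ∈ G) →
      (∀ t, T ≤ t → F t = 0) → ∀ T' : ℝ, 0 < T' →
      ∃ (u u1 : ℝ → H) (z z1 : ℝ → K), PS W m Z (S n) 0 ν T' F u u1 z z1 ∧ u 0 = x0 ∧
        (∀ t ∈ Icc 0 T', ‖z t‖ ≤ Λ) ∧ ∀ t ∈ Icc 0 T', ε ≤ t → ‖u t‖ ≤ ε

end Pool.Agent.T2h23.GY
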