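import Pool.Agent.T2h23.GY.Stm

/-! Auxiliary facts for the tasks OS and FB. -/

set_option autoImplicit false

open MeasureTheory Set Filter Topology
open scoped InnerProductSpace ENNReal ContDiff

namespace Pool.Agent.T2h23.GY.L54

open H772R2.NS
open Pool.Agent.Y303.LV (cl clj test_off jac_off integral_restrict_of_off)
open Pool.Agent.W52.TQ (graphW_le)

/-- Cauchy-Schwarz for the norms. -/
theorem cs {α E F : Type*} {mα : MeasurableSpace α} {μ : Measure α} [NormedAddCommGroup E]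
    [NormedAddCommGroup F] (f : Lp E 2 μ) (g : Lp F 2 μ) :
    Integrable (fun x => ‖f x‖ * ‖g x‖) μ ∧ ∫ x, ‖f x‖ * ‖g x‖ ∂μ ≤ ‖f‖ * ‖g‖ := by
  have hf := (Lp.memLp f).norm
  have hg := (Lp.memLp g).norm
  have nf : ‖hf.toLp _‖ = ‖f‖ := by
    rw [Lp.norm_toLp, eLpNorm_norm, ← Lp.norm_def]
  have ng : ‖hg.toLp _‖ = ‖g‖ := by
    rw [Lp.norm_toLp, eLpNorm_norm, ← Lp.norm_def]
  have e : ∫ x, ‖f x‖ * ‖g x‖ ∂μ = ⟪hf.toLp _, hg.toLp _⟫_ℝ := by
    rw [L2.inner_def]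
    refine integral_congr_ae ?_
    filter_upwards [hf.coeFn_toLp, hg.coeFn_toLp] with x h1 h2
    rw [h1, h2]
    simp [mul_comm]
  refine ⟨hf.integrable_mul hg, ?_⟩
  rw [e]
  exact (real_inner_le_norm _ _).trans_eq (by rw [nf, ng])

/-- the integral of the norm over a set of finite measure -/
theorem l1 {α E : Type*} {mα : MeasurableSpace α} {μ : Measure α} [IsFiniteMeasure μ]
    [NormedAddCommGroup E] (f : Lp E 2 μ) :
    Integrable (fun x => ‖f x‖) μ ∧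
      ∫ x, ‖f x‖ ∂μ ≤ ‖(memLp_const (μ := μ) (p := 2) (1 : ℝ)).toLp _‖ * ‖f‖ := by
  have h1 := cs ((memLp_const (μ := μ) (p := 2) (1 : ℝ)).toLp _) f
  have e : (fun x => ‖(memLp_const (μ := μ) (p := 2) (1 : ℝ)).toLp _ x‖ * ‖f x‖)
      =ᵐ[μ] fun x => ‖f x‖ := by
    filter_upwards [(memLp_const (μ := μ) (p := 2) (1 : ℝ)).coeFn_toLp] with x hx
    rw [hx]
    simp
  exact ⟨h1.1.congr e, (integral_congr_ae e) ▸ h1.2⟩

/-- extension of a bound by density -/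
theorem dens {Ω : Set E3} (a : L2V Ω) (M : ℝ)
    (h : ∀ q ∈ preW Ω, |⟪a, q.1⟫_ℝ| ≤ M * ‖q.2‖) {q : L2V Ω × L2M Ω} (hq : q ∈ graphW Ω) :
    |⟪a, q.1⟫_ℝ| ≤ M * ‖q.2‖ :=
  graphW_le (fun q => |⟪a, q.1⟫_ℝ|) (fun q => M * ‖q.2‖)
    (by
      have : Continuous fun q : L2V Ω × L2M Ω => |⟪a, q.1⟫_ℝ| := by fun_prop
      exact this.continuousOn)
    (by
      have : Continuous fun q : L2V Ω × L2M Ω => M * ‖q.2‖ := by fun_prop
      exact this.continuousOn) h hq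

theorem cl_coe' {Ω : Set E3} {F : E3 → E3} (hF : MemLp F 2 (volume.restrict Ω)) :
    (cl Ω F : E3 → E3) =ᵐ[volume.restrict Ω] F := by
  unfold cl
  rw [dif_pos hF]
  exact MemLp.coeFn_toLp _

/-- the inner product with a test field -/
theorem inner_cl {Ω : Set E3} (hΩ : MeasurableSet Ω) {F v : E3 → E3} {p : L2V Ω}
    (hF : MemLp F 2 (volume.restrict Ω)) (hv : IsTest Ω v) (hp : p =ᵐ[volume.restrict Ω] v) :
    ⟪cl Ω F, p⟫_ℝ = ∫ x, ⟪F x, v x⟫_ℝ := by
  rw [L2.inner_def, ← integral_restrict_of_off hΩ (f := fun x => ⟪F x, v x⟫_ℝ)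
    (fun x hx => by rw [test_off hv hx, inner_zero_right])]
  refine integral_congr_ae ?_
  filter_upwards [cl_coe' hF, hp] with x h1 h2
  rw [h1, h2]

/-- the derivative of the wave -/
theorem fderiv_wave (ξ : E3) (θ : ℝ) (x : E3) :
    fderiv ℝ (fun y : E3 => Real.sin (⟪ξ, y⟫_ℝ + θ)) x ξ
      = ‖ξ‖ ^ 2 * Real.cos (⟪ξ, x⟫_ℝ + θ) := by
  have h1 : HasFDerivAt (fun y : E3 => ⟪ξ, y⟫_ℝ + θ) (innerSL ℝ ξ) x :=
    (innerSL ℝ ξ).hasFDerivAt.add_const θ
  rw [h1.sin.fderiv]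
  simp only [_root_.smul_apply, innerSL_apply_apply, smul_eq_mul,
    real_inner_self_eq_norm_sq]
  ring

/-- integration by parts against a wave -/
theorem ibp_wave {g : E3 → ℝ} (hg : ContDiff ℝ ∞ g) (hc : HasCompactSupport g) (ξ : E3) (θ : ℝ) :
    ‖ξ‖ ^ 2 * ∫ x, Real.cos (⟪ξ, x⟫_ℝ + θ) * g x
      = -∫ x, Real.sin (⟪ξ, x⟫_ℝ + θ) * fderiv ℝ g x ξ := by
  have hs : ContDiff ℝ ∞ fun y : E3 => Real.sin (⟪ξ, y⟫_ℝ + θ) :=
    Real.contDiff_sin.comp ((innerSL ℝ ξ).contDiff.add contDiff_const)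
  have hd : Continuous fun x => fderiv ℝ g x ξ :=
    (hg.continuous_fderiv (by simp)).clm_apply continuous_const
  have hd2 : Continuous fun x => fderiv ℝ (fun y : E3 => Real.sin (⟪ξ, y⟫_ℝ + θ)) x ξ :=
    (hs.continuous_fderiv (by simp)).clm_apply continuous_const
  have h := integral_mul_fderiv_eq_neg_fderiv_mul_of_integrable (μ := (volume : Measure E3))
    (f := fun y : E3 => Real.sin (⟪ξ, y⟫_ℝ + θ)) (g := g) (v := ξ)
    ((hd2.mul hg.continuous).integrable_of_hasCompactSupport hc.mul_left)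
    ((hs.continuous.mul hd).integrable_of_hasCompactSupport (hc.fderiv_apply ℝ ξ).mul_left)
    ((hs.continuous.mul hg.continuous).integrable_of_hasCompactSupport hc.mul_left)
    (fun x _ => (hs.differentiable (by simp)) x) (fun x _ => (hg.differentiable (by simp)) x)
  rw [h, neg_neg, ← integral_const_mul]
  refine integral_congr_ae (Eventually.of_forall fun x => ?_)
  simp only [fderiv_wave]
  ring

end Pool.Agent.T2h23.GY.L54
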