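import Pool.Agent.T2h23.PubDef3

/-!
Public definitions: gradients of trigonometric polynomials, the force `u × b`.
-/

set_option autoImplicit false

open MeasureTheory Set
open scoped InnerProductSpace ENNReal ContDiff

namespace Pool.Agent.T2h23

open H772R2.NS.Pub Pool.Agent.W795.TQ

/-- The trigonometric polynomial `β(x) = A ∑_{l < 3k} sin((n+2)^{l+1} x_{l mod 3})`. -/
noncomputable def trigPot (A : ℝ) (k n : ℕ) (x : R3) : ℝ :=
  A * ∑ l ∈ Finset.range (3 * k),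
    Real.sin (((n : ℝ) + 2) ^ (l + 1) * ⟪e (Fin.ofNat 3 l), x⟫_ℝ)

/-- The gradient of a function. -/
noncomputable def gradR (β : R3 → ℝ) (x : R3) : R3 := ∑ i, fderiv ℝ β x (e i) • e i

/-- The cross product: `(a × b)_i = a_{i+1} b_{i+2} - a_{i+2} b_{i+1}`, indices modulo `3`. -/
noncomputable def crossProd (a b : R3) : R3 :=
  ∑ i : Fin 3, (⟪e (i + 1), a⟫_ℝ * ⟪e (i + 2), b⟫_ℝ - ⟪e (i + 2), a⟫_ℝ * ⟪e (i + 1), b⟫_ℝ) • e i

/-- `w` is a Leray-Hopf solution on `[0,T]`, with gradient `G`, of the Navier-Stokes equations in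
`Ω` with viscosity `ν`, zero boundary values and the force `f(t) + w(t) × b`, where `f(t)` is given
by `⟨f(t), φ⟩ = (F(t), ∇φ)`. The force `w × b` does no work, so that it does not occur in the
energy inequality. -/
structure IsLerayHopfCross (Ω : Set R3) (ν T : ℝ) (b : R3 → R3) (F : ℝ → L2 Ω Mat)
    (w : ℝ → L2 Ω R3) (G : ℝ → L2 Ω Mat) : Prop where
  meas : AEStronglyMeasurable w (volume.restrict (Ioc 0 T))
  grad : ∀ᵐ t ∂(volume.restrict (Ioc 0 T)), (w t, G t) ∈ H1graph Ω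
  gradL2 : MemLp G 2 (volume.restrict (Ioc 0 T))
  eqn : ∀ φ, IsTest Ω φ → ∀ t ∈ Icc 0 T,
    (∫ x in Ω, ⟪(w t).fn x, φ x⟫_ℝ) - (∫ x in Ω, ⟪(w 0).fn x, φ x⟫_ℝ)
      = ∫ s in (0 : ℝ)..t, (rhs ν (w s) (G s) (F s) φ
          + ∫ x in Ω, ⟪crossProd ((w s).fn x) (b x), φ x⟫_ℝ)
  energy : ∀ t ∈ Icc 0 T, ‖w t‖ ^ 2 / 2 + ν * (∫ s in (0 : ℝ)..t, ‖G s‖ ^ 2)
    ≤ ‖w 0‖ ^ 2 / 2 + ∫ s in (0 : ℝ)..t, ⟪F s, G s⟫_ℝ

end Pool.Agent.T2h23
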