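import Pool.Agent.T2h23.GY.Def
import Pool.Agent.T2h23.GY.PubDef5
import Pool.Agent.H772R2.NSR.Final

/-!
Project GY: the public fields and the internal ones.
-/

set_option autoImplicit false
set_option linter.unusedSectionVars false

open MeasureTheory Set Filter Topology
open scoped InnerProductSpace ENNReal ContDiff

namespace Pool.Agent.T2h23.GY

open H772R2.NS H772R2.NS.Pub
open Pool.Agent.T2h23

theorem inner_e (i : Fin 3) (x : E3) : ⟪(e i : R3), (x : R3)⟫_ℝ = x i := by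
  show ⟪(EuclideanSpace.single i (1 : ℝ) : E3), x⟫_ℝ = x i
  rw [EuclideanSpace.inner_single_left]
  simp

theorem cross_eq (a b : E3) : (crossProd (a : R3) (b : R3) : E3) = cr a b := by
  show (∑ i : Fin 3, (⟪(e (i + 1) : R3), (a : R3)⟫_ℝ * ⟪(e (i + 2) : R3), (b : R3)⟫_ℝ
    - ⟪(e (i + 2) : R3), (a : R3)⟫_ℝ * ⟪(e (i + 1) : R3), (b : R3)⟫_ℝ)
      • (EuclideanSpace.single i (1 : ℝ) : E3)) = cr a b
  simp only [inner_e]
  ext j
  simp only [cr, WithLp.ofLp_sum, Finset.sum_apply, WithLp.ofLp_smul, Pi.smul_apply, smul_eq_mul]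
  rw [Finset.sum_eq_single j]
  · simp
  · intro i _ hij
    simp [Ne.symm hij]
  · simp

theorem cr_antisymm (a b : E3) : cr a b = -cr b a := by
  ext i
  simp [cr]
  ring

theorem single_eq (i : Fin 3) : (e i : E3) = EuclideanSpace.single i (1 : ℝ) := rfl

theorem hasFDerivAt_wave (c : ℝ) (j : Fin 3) (x : E3) :
    HasFDerivAt (fun y : E3 => Real.sin (c * y j))
      ((c * Real.cos (c * x j)) • (EuclideanSpace.proj j : E3 →L[ℝ] ℝ)) x := by
  have h1 : HasFDerivAt (fun y : E3 => c * y j) (c • (EuclideanSpace.proj j : E3 →L[ℝ] ℝ)) x :=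
    ((EuclideanSpace.proj j : E3 →L[ℝ] ℝ).hasFDerivAt).const_mul c
  have h2 := h1.sin
  refine h2.congr_fderiv ?_
  ext y
  simp
  ring

theorem trig_eq (A : ℝ) (k n : ℕ) : (trigPot A k n : E3 → ℝ) = pot A k n := by
  funext x
  unfold trigPot pot
  congr 1
  refine Finset.sum_congr rfl fun l _ => ?_
  exact congrArg (fun y : ℝ => Real.sin (((n : ℝ) + 2) ^ (l + 1) * y)) (inner_e _ (x : E3))

theorem hasFDerivAt_pot (A : ℝ) (k n : ℕ) (x : E3) :
    HasFDerivAt (pot A k n) (A • ∑ l ∈ Finset.range (3 * k),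
      ((((n : ℝ) + 2) ^ (l + 1) * Real.cos (((n : ℝ) + 2) ^ (l + 1) * x (ax l)))
        • (EuclideanSpace.proj (ax l) : E3 →L[ℝ] ℝ))) x := by
  have h1 : HasFDerivAt (fun y : E3 => ∑ l ∈ Finset.range (3 * k),
      Real.sin (((n : ℝ) + 2) ^ (l + 1) * y (ax l))) (∑ l ∈ Finset.range (3 * k),
      ((((n : ℝ) + 2) ^ (l + 1) * Real.cos (((n : ℝ) + 2) ^ (l + 1) * x (ax l)))
        • (EuclideanSpace.proj (ax l) : E3 →L[ℝ] ℝ))) x :=
    HasFDerivAt.fun_sum fun l _ => hasFDerivAt_wave _ _ _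
  exact h1.const_mul A

theorem grad_eq_aux (A : ℝ) (k n : ℕ) (x : E3) :
    ∑ i : Fin 3, (fderiv ℝ (pot A k n) x (EuclideanSpace.single i 1))
          • (EuclideanSpace.single i (1 : ℝ) : E3) = bw A k n x := by
  rw [(hasFDerivAt_pot A k n x).fderiv]
  unfold bw gw
  ext j
  simp only [ContinuousLinearMap.smul_apply, ContinuousLinearMap.sum_apply, smul_eq_mul,
    WithLp.ofLp_sum, Finset.sum_apply, WithLp.ofLp_smul, Pi.smul_apply]
  rw [Finset.sum_eq_single j]
  · have h1 : (EuclideanSpace.single j (1 : ℝ) : E3) j = 1 := by simp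
    rw [h1, mul_one, Finset.mul_sum]
    refine Finset.sum_congr rfl fun l _ => ?_
    rw [PiLp.proj_apply]
    by_cases h : j = ax l
    · subst h
      simp
      ring
    · simp [h, Ne.symm h]
  · intro i _ hij
    simp [Ne.symm hij]
  · simp

theorem grad_eq (A : ℝ) (k n : ℕ) : (gradR (trigPot A k n) : E3 → E3) = bw A k n := by
  funext x
  have e1 : (gradR (trigPot A k n) x : E3)
      = ∑ i : Fin 3, (fderiv ℝ (pot A k n) x (EuclideanSpace.single i 1))
          • (EuclideanSpace.single i (1 : ℝ) : E3) := by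
    rw [← trig_eq]
    rfl
  exact e1.trans (grad_eq_aux A k n x)

end Pool.Agent.T2h23.GY
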