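import Pool.Agent.T2h23.GY.Def

/-!
Project GY: forces `u × ∇β`, which do no work. Statements of the tasks, with proofs on paper.

Useful: `Pool.Agent.T2h23.O1` (SH, weak derivatives), `O2` (exists_riesz), `O3` (m_cont, energy_eqF,
str_of_ae, str_cont, str_ae, str_compat, str_glue, str_congrF, fh_shift, fh_mono, fh_congr),
`G1` (str_shift, str_mono), `A1` (gron_sq, tri_addl, tri_addr, m_add), `C1` (cl, test_memLp).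
-/

set_option autoImplicit false

open MeasureTheory Set
open scoped InnerProductSpace ENNReal ContDiff

namespace Pool.Agent.T2h23.GY

open H772R2.NSR (Frame)
open H772R2.NS (graphW tensL E3 L2V L2M IsTest)
open Pool.Agent.W795.TQ (Str FH Univ S_loc)
open Pool.Agent.W795.ES (Tri)
open Pool.Agent.Y303.LV (cl clj heat)

/-! ### basic facts -/

/-- AL: elementary properties of `a(t) = ∫₀ᵗ e^{-2κs} ds`. -/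
def S_al : Prop := ∀ κ : ℝ, 0 ≤ κ →
  Continuous (al κ) ∧ al κ 0 = 0 ∧ (∀ t, HasDerivAt (al κ) (Real.exp (-(2 * κ * t))) t) ∧
  (∀ t, 0 ≤ t → 0 ≤ al κ t ∧ al κ t ≤ t ∧ κ * al κ t ≤ 1 / 2) ∧ (∀ t, 0 < t → 0 < al κ t) ∧
  (∀ t, Real.exp (2 * κ * t) * al κ t = ∫ s in (0 : ℝ)..t, Real.exp (2 * κ * s)) ∧
  (∀ s t, 0 ≤ s → s ≤ t → al κ s ≤ al κ t ∧
    Real.exp (2 * κ * s) * al κ s ^ 2 ≤ Real.exp (2 * κ * t) * al κ t ^ 2)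

/-- EQ: the equation at almost every time; continuity. (From `str_ae`, `str_cont` and `GS.rz`.) -/
def S_eq : Prop := ∀ (H K : Type) [NormedAddCommGroup H] [InnerProductSpace ℝ H]
    [CompleteSpace H] [NormedAddCommGroup K] [InnerProductSpace ℝ K] [CompleteSpace K]
    (W : Submodule ℝ (H × K)) (m : H → K) (B : H → H → K) (Z : H →L[ℝ] K) (S : H →L[ℝ] H)
    (c C ν κ T : ℝ) (F : ℝ → K) (u u1 : ℝ → H) (z z1 : ℝ → K),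
    GS W m B Z c C ν → 0 < T → ContinuousOn F (Icc 0 T) → PS W m Z S κ ν T F u u1 z z1 →
    ContinuousOn u (Icc 0 T) ∧ ContinuousOn z (Icc 0 T) ∧
    ContinuousOn (fun s => m (u s)) (Icc 0 T) ∧
    ∀ᵐ s ∂(volume.restrict (Ioc 0 T)), ∀ p ∈ W,
      ⟪u1 s, p.1⟫_ℝ = ⟪F s - ν • z s + m (u s), p.2⟫_ℝ - ⟪S (u s) + κ • u s, p.1⟫_ℝ

/-- SH: restriction to a shorter interval, and restart at the time `s`, for `PS`; restart for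
`Dat`-like forces is `fh_shift`. At every time the state is compatible. (Like `G1.str_shift`,
`O3.str_compat`; for the restart the energy equality is the difference of two energy equalities.) -/
def S_sh : Prop := ∀ (H K : Type) [NormedAddCommGroup H] [InnerProductSpace ℝ H]
    [CompleteSpace H] [NormedAddCommGroup K] [InnerProductSpace ℝ K] [CompleteSpace K]
    (W : Submodule ℝ (H × K)) (m : H → K) (B : H → H → K) (Z : H →L[ℝ] K) (S : H →L[ℝ] H)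
    (c C ν κ T : ℝ) (F : ℝ → K) (u u1 : ℝ → H) (z z1 : ℝ → K),
    GS W m B Z c C ν → 0 < T → ContinuousOn F (Icc 0 T) → PS W m Z S κ ν T F u u1 z z1 →
    ∀ s τ : ℝ, 0 ≤ s → 0 < τ → s + τ ≤ T →
      PS W m Z S κ ν τ (fun t => F (s + t)) (fun t => u (s + t)) (fun t => u1 (s + t))
        (fun t => z (s + t)) (fun t => z1 (s + t))

/-- LOC: local existence. Apply `S_loc` in the frame `H' = WithLp 2 (H × ℝ)`,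
`K' = WithLp 2 (K × WithLp 2 (H × ℝ))`, `W' = {((h,a), (k, √(κ/ν) h, a)) : (h,k) ∈ W}`,
`m'(h,a) = (m h - a Z(S h), 0, 0)`, force `(F, 0, ν)`, initial value `(x0, 1)`. The frame axioms:
`ortho` and `anti` use `⟪S h, h⟫ = 0` (so `⟪S h, g⟫ = -⟪S g, h⟫`), `quart` and `lips` hold
with a larger constant since `a S h - b S g = (a - b) S h + b S (h - g)` and
`|a - b| ≤ min(‖p.1 - q.1‖, ‖p.2 - q.2‖)`, `‖h‖ ≤ C‖k‖`. The component `a` satisfies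
`a' = ν (1 - a)`, `a(0) = 1`, hence `a = 1`. The threshold `N'² = (1 + κC²/ν) N² + 1`.
The new Poincaré constant is `max C 1`. Total boundedness: product with `[-R, R]`. Finally use
`str_of_ae` (or the fields directly) to get `PS` for the `H`-component. -/
def S_loc1 : Prop := ∀ (H K : Type) [NormedAddCommGroup H] [InnerProductSpace ℝ H]
    [CompleteSpace H] [NormedAddCommGroup K] [InnerProductSpace ℝ K] [CompleteSpace K]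
    (W : Submodule ℝ (H × K)) (m : H → K) (B : H → H → K) (Z : H →L[ℝ] K) (S : H →L[ℝ] H)
    (c C ν κ T : ℝ) (F F1 : ℝ → K) (x0 : H) (z0 : K) (N : ℝ),
    GS W m B Z c C ν → (∀ h : H, ⟪S h, h⟫_ℝ = 0) → 0 ≤ κ → 0 < T → FH T F F1 →
    (x0, z0) ∈ W → Cpt W m ν (F 0) x0 z0 → ‖z0‖ < N →
    ∃ (τ : ℝ) (u u1 : ℝ → H) (z z1 : ℝ → K), 0 < τ ∧ τ ≤ T ∧ PS W m Z S κ ν τ F u u1 z z1 ∧
      u 0 = x0 ∧ (τ = T ∨ N ≤ ‖z τ‖)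

/-! ### the bound of the gradient, uniform in `κ` and in `S` with `SK W S K0` -/

/-- V1: the energy of `D = u - e^{-κt} u(0)`. Let `e = e^{-κt}`, `x = u 0`, `zD = z - e z(0)`. For
a.e. `t`: `⟪D', D⟫ + κ‖D‖² + ν‖zD‖² = ⟪F - ν e z(0) + m(ex), zD⟫ - e⟪m D, z(0)⟫ - e⟪S x, D⟫`
(`Frame.anti` with `p = u`, `q = e x`: `⟪m u - m(ex), zD⟫ = -⟪m D, e z(0)⟫`; `⟪S D, D⟫ = 0`), with
`‖m(ex)‖ ≤ c √C G²`, `|⟪m D, z(0)⟫| ≤ c √‖D‖ √‖zD‖³ G`. So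
`(e^{2κt}‖D‖²)' + ν e^{2κt}‖zD‖² ≤ A0 e^{2κt} + A0 e^{2κt}‖D‖²`, and Gronwall on `[0,T]`, `T ≤ 1`. -/
def S_v1 : Prop := ∀ c C ν K0 G : ℝ, 0 < c → 0 < C → 0 < ν → 0 ≤ K0 → 0 < G → ∃ A : ℝ, 0 < A ∧
  ∀ (H K : Type) [NormedAddCommGroup H] [InnerProductSpace ℝ H]
    [CompleteSpace H] [NormedAddCommGroup K] [InnerProductSpace ℝ K] [CompleteSpace K]
    (W : Submodule ℝ (H × K)) (m : H → K) (B : H → H → K) (Z : H →L[ℝ] K) (S : H →L[ℝ] H)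
    (κ T : ℝ) (F F1 : ℝ → K) (u u1 : ℝ → H) (z z1 : ℝ → K),
    GS W m B Z c C ν → SK W S K0 → 0 ≤ κ → 0 < T → T ≤ 1 → FH T F F1 →
    PS W m Z S κ ν T F u u1 z z1 → ‖z 0‖ ≤ G → (∀ t ∈ Icc 0 T, ‖F t‖ ≤ G) →
    ∀ t ∈ Icc 0 T, ‖u t - Real.exp (-(κ * t)) • u 0‖ ^ 2 ≤ A * al κ t ∧
      ∫ s in (0 : ℝ)..t, Real.exp (2 * κ * s) * ‖z s - Real.exp (-(κ * s)) • z 0‖ ^ 2
        ≤ A * (Real.exp (2 * κ * t) * al κ t)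

/-- V2: the weighted bound of `g = G + (ν+K0)‖z‖ + ‖m u‖` in `L²`, where `A` does not depend on
`L`. `‖z‖² ≤ 2‖zD‖² + 2G²`, `‖m u‖² ≤ 2‖m u - m(ex)‖² + 2c²C G⁴`, and by `Frame.lips`
`‖m u - m(ex)‖² ≤ √C ‖D‖^{1/2}‖zD‖^{3/2}(L+G)² ≤ ‖zD‖² + C'(L+G)⁸‖D‖²`, and
`(L+G)⁸ ‖D(s)‖² ≤ (L+G)⁸ A1 a(s) ≤ (L+G)⁸ A1 σ ≤ A1`; use V1. -/
def S_v2 : Prop := ∀ c C ν K0 G : ℝ, 0 < c → 0 < C → 0 < ν → 0 ≤ K0 → 0 < G → ∃ A : ℝ, 0 < A ∧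
  ∀ L : ℝ, 0 < L → ∃ σ : ℝ, 0 < σ ∧ σ ≤ 1 ∧
  ∀ (H K : Type) [NormedAddCommGroup H] [InnerProductSpace ℝ H]
    [CompleteSpace H] [NormedAddCommGroup K] [InnerProductSpace ℝ K] [CompleteSpace K]
    (W : Submodule ℝ (H × K)) (m : H → K) (B : H → H → K) (Z : H →L[ℝ] K) (S : H →L[ℝ] H)
    (κ T : ℝ) (F F1 : ℝ → K) (u u1 : ℝ → H) (z z1 : ℝ → K),
    GS W m B Z c C ν → SK W S K0 → 0 ≤ κ → 0 < T → T ≤ σ → FH T F F1 →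
    PS W m Z S κ ν T F u u1 z z1 → ‖z 0‖ ≤ G → (∀ t ∈ Icc 0 T, ‖F t‖ ≤ G) →
    (∀ t ∈ Icc 0 T, ‖z t‖ ≤ L) →
    ∀ t ∈ Icc 0 T, ∫ s in (0 : ℝ)..t, Real.exp (2 * κ * s) *
        (G + (ν + K0) * ‖z s‖ + ‖m (u s)‖) ^ 2 ≤ A * (Real.exp (2 * κ * t) * al κ t)

/-- V3: the differences `w(t) = u(t+h) - e^{-κh} u(t)`, `zw(t) = z(t+h) - e^{-κh} z(t)`. Let
`e = e^{-κh}`. For a.e. `t ∈ (0, T-h]`: `⟪w1, w⟫ + κ‖w‖² + ν‖zw‖² = ⟪F(t+h) - e F(t), zw⟫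
+ ⟪m u(t+h) - e m u(t), zw⟫`, `F(t+h) - e F(t) = (F(t+h) - F(t)) + (1-e) F(t)`,
`m u(t+h) - e m u(t) = (m u(t+h) - m(e u(t))) - e (1-e) m u(t)` (`m(a p) = a² m p` by `Tri`),
`⟪m u(t+h) - m(e u(t)), zw⟫ = -e⟪m w, z(t)⟫` (`Frame.anti`), `1 - e ≤ κh`, and Young.
Second claim: `w(t) = ∫_t^{t+h} e^{-κ(t+h-s)} (u1 + κu) ds`, so for `p ∈ W`
`⟪w(t), p.1⟫ ≤ ‖p.2‖ ∫_t^{t+h} g`, `g = G + (ν+K0)‖z‖ + ‖m u‖`; take `p = (w, zw)`. -/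
def S_v3 : Prop := ∀ c C ν K0 G : ℝ, 0 < c → 0 < C → 0 < ν → 0 ≤ K0 → 0 < G → ∃ A : ℝ, 0 < A ∧
  ∀ (H K : Type) [NormedAddCommGroup H] [InnerProductSpace ℝ H]
    [CompleteSpace H] [NormedAddCommGroup K] [InnerProductSpace ℝ K] [CompleteSpace K]
    (W : Submodule ℝ (H × K)) (m : H → K) (B : H → H → K) (Z : H →L[ℝ] K) (S : H →L[ℝ] H)
    (κ T h : ℝ) (F F1 : ℝ → K) (u u1 : ℝ → H) (z z1 : ℝ → K),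
    GS W m B Z c C ν → SK W S K0 → 0 ≤ κ → 0 < h → h < T → FH T F F1 →
    PS W m Z S κ ν T F u u1 z z1 → (∀ t ∈ Icc 0 T, ‖F t‖ ≤ G) →
    (∀ᵐ t ∂(volume.restrict (Ioc 0 (T - h))),
      ⟪u1 (t + h) - Real.exp (-(κ * h)) • u1 t, u (t + h) - Real.exp (-(κ * h)) • u t⟫_ℝ
        + κ * ‖u (t + h) - Real.exp (-(κ * h)) • u t‖ ^ 2
        + 5 / 8 * ν * ‖z (t + h) - Real.exp (-(κ * h)) • z t‖ ^ 2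
        ≤ A * (‖z t‖ ^ 4 * ‖u (t + h) - Real.exp (-(κ * h)) • u t‖ ^ 2)
          + A * (‖F (t + h) - F t‖ ^ 2 + (κ * h) ^ 2 * (G + (ν + K0) * ‖z t‖ + ‖m (u t)‖) ^ 2)) ∧
    ∀ t ∈ Icc 0 (T - h), ‖u (t + h) - Real.exp (-(κ * h)) • u t‖ ^ 2
      ≤ ‖z (t + h) - Real.exp (-(κ * h)) • z t‖
        * ∫ s in t..(t + h), (G + (ν + K0) * ‖z s‖ + ‖m (u s)‖)

/-- V4a: weighted Gronwall inequality. With `φ = a(t)² e^{2κt} ‖w‖²`,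
`φ' = 2 a a' e^{2κt}‖w‖² + a² e^{2κt}(2κ‖w‖² + 2⟪w1, w⟫)`, `0 ≤ a' ≤ 1`,
`2 a ‖w‖² ≤ 2 a q J ≤ ν a² q² + J²/ν`. -/
def S_v4a : Prop := ∀ (H : Type) [NormedAddCommGroup H] [InnerProductSpace ℝ H]
    [CompleteSpace H] (κ ν b T : ℝ) (w w1 : ℝ → H) (q J P : ℝ → ℝ), 0 ≤ κ → 0 < ν → 0 ≤ b →
    0 < T → FH T w w1 → ContinuousOn J (Icc 0 T) → (∀ t, 0 ≤ J t) → (∀ t, 0 ≤ q t) →
    (∀ t, 0 ≤ P t) → IntegrableOn P (Ioc 0 T) →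
    (∀ t ∈ Icc 0 T, ‖w t‖ ^ 2 ≤ q t * J t) →
    (∀ᵐ t ∂(volume.restrict (Ioc 0 T)),
      2 * ⟪w1 t, w t⟫_ℝ + 2 * κ * ‖w t‖ ^ 2 + 5 / 4 * ν * q t ^ 2 ≤ b * ‖w t‖ ^ 2 + P t) →
    ∀ t ∈ Icc 0 T, al κ t ^ 2 * Real.exp (2 * κ * t) * ‖w t‖ ^ 2
      ≤ Real.exp (b * t) * ∫ s in (0 : ℝ)..t, Real.exp (2 * κ * s) *
          (J s ^ 2 / ν + al κ s ^ 2 * P s)

/-- V4b: Steklov averages with the increasing weight `ρ`: for `t + h ≤ T`,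
`∫₀ᵗ ρ(s) (∫_s^{s+h} g)² ds ≤ h² ∫₀^{t+h} ρ g²` (Cauchy-Schwarz and Fubini, `ρ(s) ≤ ρ(r)` for
`s ≤ r`). And for `F ∈ H¹`: `∫₀ᵗ ρ(s)‖F(s+h) - F(s)‖² ds ≤ h² ρ(t) ∫₀^{t+h} ‖F1‖²`. -/
def S_v4b : Prop :=
  (∀ (T t h : ℝ) (ρ g : ℝ → ℝ), 0 ≤ t → 0 < h → t + h ≤ T → ContinuousOn ρ (Icc 0 T) →
    MonotoneOn ρ (Icc 0 T) → (∀ s, 0 ≤ ρ s) → ContinuousOn g (Icc 0 T) → (∀ s, 0 ≤ g s) →
    ∫ s in (0 : ℝ)..t, ρ s * (∫ r in s..(s + h), g r) ^ 2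
      ≤ h ^ 2 * ∫ s in (0 : ℝ)..(t + h), ρ s * g s ^ 2) ∧
  (∀ (K : Type) [NormedAddCommGroup K] [InnerProductSpace ℝ K] [CompleteSpace K]
    (T t h : ℝ) (ρ : ℝ → ℝ) (F F1 : ℝ → K), 0 ≤ t → 0 < h → t + h ≤ T →
    ContinuousOn ρ (Icc 0 T) → MonotoneOn ρ (Icc 0 T) → (∀ s, 0 ≤ ρ s) → FH T F F1 →
    ∫ s in (0 : ℝ)..t, ρ s * ‖F (s + h) - F s‖ ^ 2
      ≤ h ^ 2 * (ρ t * ∫ s in (0 : ℝ)..(t + h), ‖F1 s‖ ^ 2))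

/-- V4: the bound of `∂ₜu + κu`. For fixed `h`, V3 and V4a on `[0, T-h]` with `q = ‖zw‖`,
`J(t) = ∫_t^{t+h} g`, `b = 2 A3 L⁴`, `P = 2 A3 (‖F(t+h) - F(t)‖² + (κh)² g²)`; `σ` is so small that
`bσ ≤ 1`. By V4b (weights `e^{2κs}` and `e^{2κs} a(s)²`), `κ a ≤ 1/2` and V2, the integral is at
most `h² A' (e^{2κ(t+h)} a(t+h) + e^{2κt} a(t)²)`. Divide by `h²` and let `h → 0`: at almost every
`t`, `w(t)/h → u1 t + κ u t`. So `a(t)² e^{2κt} ‖u1 + κu‖² ≤ A'' e^{2κt} a(t)` (`a ≤ 1`). -/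
def S_v4 : Prop := ∀ c C ν K0 G : ℝ, 0 < c → 0 < C → 0 < ν → 0 ≤ K0 → 0 < G → ∃ A : ℝ, 0 < A ∧
  ∀ L : ℝ, 0 < L → ∃ σ : ℝ, 0 < σ ∧ σ ≤ 1 ∧
  ∀ (H K : Type) [NormedAddCommGroup H] [InnerProductSpace ℝ H]
    [CompleteSpace H] [NormedAddCommGroup K] [InnerProductSpace ℝ K] [CompleteSpace K]
    (W : Submodule ℝ (H × K)) (m : H → K) (B : H → H → K) (Z : H →L[ℝ] K) (S : H →L[ℝ] H)
    (κ T : ℝ) (F F1 : ℝ → K) (u u1 : ℝ → H) (z z1 : ℝ → K),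
    GS W m B Z c C ν → SK W S K0 → 0 ≤ κ → 0 < T → T ≤ σ → FH T F F1 →
    PS W m Z S κ ν T F u u1 z z1 → ‖z 0‖ ≤ G → (∀ t ∈ Icc 0 T, ‖F t‖ ≤ G) →
    (∫ s in (0 : ℝ)..T, ‖F1 s‖ ^ 2) ≤ G ^ 2 → (∀ t ∈ Icc 0 T, ‖z t‖ ≤ L) →
    ∀ᵐ t ∂(volume.restrict (Ioc 0 T)), ‖u1 t + κ • u t‖ ^ 2 * al κ t ≤ A

/-- V5: from V1 and V4. For a.e. `t`, with `D`, `zD`, `e`, `x` as in V1,
`ν‖zD‖² = -⟪u1 + κu, D⟫ + ⟪F - νe z(0) + m(ex), zD⟫ - e⟪m D, z(0)⟫ - e⟪S x, D⟫`,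
`‖u1 + κu‖ ‖D‖ ≤ √(A4/a) √(A1 a)`, and Young; then for all `t` by continuity. -/
def S_v5 : Prop := ∀ c C ν K0 G : ℝ, 0 < c → 0 < C → 0 < ν → 0 ≤ K0 → 0 < G → ∃ A : ℝ, 0 < A ∧
  ∀ L : ℝ, 0 < L → ∃ σ : ℝ, 0 < σ ∧ σ ≤ 1 ∧
  ∀ (H K : Type) [NormedAddCommGroup H] [InnerProductSpace ℝ H]
    [CompleteSpace H] [NormedAddCommGroup K] [InnerProductSpace ℝ K] [CompleteSpace K]
    (W : Submodule ℝ (H × K)) (m : H → K) (B : H → H → K) (Z : H →L[ℝ] K) (S : H →L[ℝ] H)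
    (κ T : ℝ) (F F1 : ℝ → K) (u u1 : ℝ → H) (z z1 : ℝ → K),
    GS W m B Z c C ν → SK W S K0 → 0 ≤ κ → 0 < T → T ≤ σ → FH T F F1 →
    PS W m Z S κ ν T F u u1 z z1 → ‖z 0‖ ≤ G → (∀ t ∈ Icc 0 T, ‖F t‖ ≤ G) →
    (∫ s in (0 : ℝ)..T, ‖F1 s‖ ^ 2) ≤ G ^ 2 → (∀ t ∈ Icc 0 T, ‖z t‖ ≤ L) →
    ∀ t ∈ Icc 0 T, ‖z t‖ ≤ A

/-- V6: continuity argument. Let `A` be the constant of V5, `Λ = A + G + 1`, `σ` that of V5 for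
`L = Λ`. The supremum of the `t ≤ min T σ` with `‖z‖ ≤ Λ` on `[0,t]` is `min T σ`, since
`‖z 0‖ ≤ G < Λ` and `‖z‖ ≤ A < Λ` on `[0,t]` by V5 (use SH with `s = 0`). -/
def S_v6 : Prop := ∀ c C ν K0 G : ℝ, 0 < c → 0 < C → 0 < ν → 0 ≤ K0 → 0 < G →
  ∃ σ Λ : ℝ, 0 < σ ∧ 0 < Λ ∧
  ∀ (H K : Type) [NormedAddCommGroup H] [InnerProductSpace ℝ H]
    [CompleteSpace H] [NormedAddCommGroup K] [InnerProductSpace ℝ K] [CompleteSpace K]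
    (W : Submodule ℝ (H × K)) (m : H → K) (B : H → H → K) (Z : H →L[ℝ] K) (S : H →L[ℝ] H)
    (κ T : ℝ) (F F1 : ℝ → K) (u u1 : ℝ → H) (z z1 : ℝ → K),
    GS W m B Z c C ν → SK W S K0 → 0 ≤ κ → 0 < T → FH T F F1 →
    PS W m Z S κ ν T F u u1 z z1 → ‖z 0‖ ≤ G → (∀ t ∈ Icc 0 T, ‖F t‖ ≤ G) →
    (∫ s in (0 : ℝ)..T, ‖F1 s‖ ^ 2) ≤ G ^ 2 →
    ∀ t ∈ Icc 0 T, t ≤ σ → ‖z t‖ ≤ Λ

/-- GT: good times. From V6 (same `σ`, `Λ`) and SH: for `t ≤ σ` start at the time `0`; for `t > σ`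
start at a time `s ∈ [t-σ, t]` with `‖z s‖ ≤ G` (if `s = t`, nothing to do when `G ≤ Λ`: enlarge
`Λ`). -/
def S_gt : Prop := ∀ c C ν K0 G : ℝ, 0 < c → 0 < C → 0 < ν → 0 ≤ K0 → 0 < G →
  ∃ σ Λ : ℝ, 0 < σ ∧ 0 < Λ ∧
  ∀ (H K : Type) [NormedAddCommGroup H] [InnerProductSpace ℝ H]
    [CompleteSpace H] [NormedAddCommGroup K] [InnerProductSpace ℝ K] [CompleteSpace K]
    (W : Submodule ℝ (H × K)) (m : H → K) (B : H → H → K) (Z : H →L[ℝ] K) (S : H →L[ℝ] H)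
    (κ T : ℝ) (F F1 : ℝ → K) (u u1 : ℝ → H) (z z1 : ℝ → K),
    GS W m B Z c C ν → SK W S K0 → 0 ≤ κ → 0 < T → FH T F F1 →
    PS W m Z S κ ν T F u u1 z z1 → ‖z 0‖ ≤ G → (∀ t ∈ Icc 0 T, ‖F t‖ ≤ G) →
    (∫ s in (0 : ℝ)..T, ‖F1 s‖ ^ 2) ≤ G ^ 2 →
    (∀ t ∈ Icc 0 T, σ ≤ t → ∃ s ∈ Icc (t - σ) t, ‖z s‖ ≤ G) →
    ∀ t ∈ Icc 0 T, ‖z t‖ ≤ Λ

/-! ### the damped equations -/

/-- DEC: the energy with friction. `(‖u‖²)' = 2⟪F, z⟫ - 2ν‖z‖² - 2κ‖u‖²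
≤ Φ²/ν - ν‖z‖² - 2κ‖u‖²`, and `e^{2κt}`. -/
def S_dec : Prop := ∀ (H K : Type) [NormedAddCommGroup H] [InnerProductSpace ℝ H]
    [CompleteSpace H] [NormedAddCommGroup K] [InnerProductSpace ℝ K] [CompleteSpace K]
    (W : Submodule ℝ (H × K)) (m : H → K) (B : H → H → K) (Z : H →L[ℝ] K) (S : H →L[ℝ] H)
    (c C ν κ T Φ : ℝ) (F F1 : ℝ → K) (u u1 : ℝ → H) (z z1 : ℝ → K),
    GS W m B Z c C ν → (∀ h : H, ⟪S h, h⟫_ℝ = 0) → 0 ≤ κ → 0 < T → FH T F F1 →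
    PS W m Z S κ ν T F u u1 z z1 → (∀ t ∈ Icc 0 T, ‖F t‖ ≤ Φ) →
    ∀ a ∈ Icc 0 T, ∀ t ∈ Icc a T,
      ‖u t‖ ^ 2 ≤ Real.exp (-(2 * κ * (t - a))) * ‖u a‖ ^ 2 + Φ ^ 2 / ν * al κ (t - a) ∧
      ν * (∫ s in a..t, ‖z s‖ ^ 2) ≤ ‖u a‖ ^ 2 + Φ ^ 2 / ν * (t - a) ∧
      ((∀ s ∈ Icc a T, F s = 0) → ‖u t‖ ≤ Real.exp (-(κ * (t - a))) * ‖u a‖ ∧
        ν * (∫ s in a..t, ‖z s‖ ^ 2) ≤ ‖u a‖ ^ 2)

/-- DMP: large friction. Let `G1 = max R (√(2R²/ν² + 2))`, `(σ, Λ)` from GT for `K0 = 0`, `G1`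
(`S = 0`), and `σ' = min σ (min ε 1)`. Since `‖u 0‖ ≤ C R`, by DEC `‖u t‖² ≤ e^{-2κt} C²R²
+ R²/(2κν) ≤ min(ε², νσ'/2)` for all `t ≥ σ'/2`, if `κ` is large. So every `[t - σ'/2, t]`,
`t ≥ σ'`, contains a time `s` with `‖z s‖² ≤ (2/(νσ')) (νσ'/2 + R²σ'/(2ν)) ≤ G1²`: GT gives
`‖z‖ ≤ Λ` on every interval of existence `[0,τ]` (for `t ≥ σ`). Existence by LOC with
`N = max Λ R + 1`. The last claim is in DEC. -/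
def S_dmp : Prop := ∀ c C ν R ε : ℝ, 0 < c → 0 < C → 0 < ν → 0 < R → 0 < ε →
  ∃ κ Λ : ℝ, 0 < κ ∧ 0 < Λ ∧
  ∀ (H K : Type) [NormedAddCommGroup H] [InnerProductSpace ℝ H]
    [CompleteSpace H] [NormedAddCommGroup K] [InnerProductSpace ℝ K] [CompleteSpace K]
    (W : Submodule ℝ (H × K)) (m : H → K) (B : H → H → K) (Z : H →L[ℝ] K)
    (T : ℝ) (F F1 : ℝ → K) (x0 : H) (z0 : K), GS W m B Z c C ν → 0 < T →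
    Dat W m ν T R F F1 x0 z0 →
    ∃ (u u1 : ℝ → H) (z z1 : ℝ → K), PS W m Z 0 κ ν T F u u1 z z1 ∧ u 0 = x0 ∧
      (∀ t ∈ Icc 0 T, ‖z t‖ ≤ Λ) ∧ (∀ t ∈ Icc 0 T, ε ≤ t → ‖u t‖ ≤ ε) ∧
      ∀ a ∈ Icc 0 T, (∀ s ∈ Icc a T, F s = 0) → ∀ t ∈ Icc a T,
        ‖u t‖ ≤ Real.exp (-(κ * (t - a))) * ‖u a‖

/-! ### the approximation of the damped solution -/

/-- CC: the set of `p` with correctors is closed in `W`. Take the corrector `w` of a near `q`; the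
residual changes by `⟪S (p.1 - q.1), r.1⟫ ≤ K0 ‖p.2 - q.2‖ ‖r.2‖` and
`κ ⟪p.1 - q.1, r.1⟫ ≤ κ C ‖p.1 - q.1‖ ‖r.2‖`. -/
def S_cc : Prop := ∀ (H K : Type) [NormedAddCommGroup H] [InnerProductSpace ℝ H]
    [NormedAddCommGroup K] [InnerProductSpace ℝ K]
    (W : Submodule ℝ (H × K)) (m : H → K) (B : H → H → K) (Z : H →L[ℝ] K) (S : ℕ → H →L[ℝ] H)
    (c C ν κ K0 : ℝ), GS W m B Z c C ν → (∀ n, SK W (S n) K0) → 0 ≤ κ →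
    ∀ p ∈ W, (∀ δ : ℝ, 0 < δ → ∃ q ∈ W, Cor W S ν κ q ∧ ‖p.1 - q.1‖ ≤ δ ∧ ‖p.2 - q.2‖ ≤ δ) →
      Cor W S ν κ p

/-- C2: the bound of the gradient of the corrector. Let `x = ‖w.2‖`. The residual with `q = w`
(`⟪S w, w⟫ = 0`, `⟪S p, w⟫ = -⟪S w, p⟫`): `ν x² ≤ ⟪S w.1, p.1⟫ + κ⟪p.1, w.1⟫ + δ x`. The residual
with `q = p`: `⟪S w.1, p.1⟫ ≤ κ‖p.1‖² + δ‖p.2‖ + ν |⟪w.2, p.2⟫| ≤ κ‖p.1‖² + δ‖p.2‖ + ν b‖w.1‖`. -/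
def S_c2 : Prop := ∀ (H K : Type) [NormedAddCommGroup H] [InnerProductSpace ℝ H]
    [NormedAddCommGroup K] [InnerProductSpace ℝ K]
    (W : Submodule ℝ (H × K)) (S : ℕ → H →L[ℝ] H)
    (ν κ b : ℝ), 0 < ν → 0 ≤ κ → 0 ≤ b → (∀ n, ∀ h : H, ⟪S n h, h⟫_ℝ = 0) →
    ∀ p ∈ W, (∀ q ∈ W, |⟪q.2, p.2⟫_ℝ| ≤ b * ‖q.1‖) → Cor0 W S ν κ p → Cor W S ν κ p

/-- PI: the piecewise linear interpolation is in `H¹` with the derivative `pli1`; in particular it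
is continuous on `[0,T]`. -/
def S_pli : Prop := ∀ (E : Type) [NormedAddCommGroup E] [InnerProductSpace ℝ E] [CompleteSpace E]
    (T : ℝ) (N : ℕ) (P : ℕ → E), 0 < T → 0 < N → FH T (pli T N P) (pli1 T N P)

/-- PL: the damped solution is approximated by its piecewise linear interpolation in time. Let
`Q(t) = F - νz + m(u) - κ Z(u) ∈ K`, uniformly continuous on `[0,T]`, `h = T/N`, `t_j = jh`,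
`p_j = (u(t_j), z(t_j))`. For `t = (j+θ)h`, `φ = (1-θ)p_j + θ p_{j+1}`:
`⟪(1/h)(p_{j+1}.1 - p_j.1), q.1⟫ = (1/h) ∫_{t_j}^{t_{j+1}} ⟪Q, q.2⟫`, within `ω_Q(h)‖q.2‖` of
`⟪Q(t), q.2⟫`; `‖φ - (u t, z t)‖ ≤ ω(h)`, and `‖m φ.1 - m (u t)‖` is small by `Frame.lips`. -/
def S_pl : Prop := ∀ (H K : Type) [NormedAddCommGroup H] [InnerProductSpace ℝ H]
    [CompleteSpace H] [NormedAddCommGroup K] [InnerProductSpace ℝ K] [CompleteSpace K]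
    (W : Submodule ℝ (H × K)) (m : H → K) (B : H → H → K) (Z : H →L[ℝ] K)
    (c C ν κ T η : ℝ) (F F1 : ℝ → K) (u u1 : ℝ → H) (z z1 : ℝ → K),
    GS W m B Z c C ν → 0 ≤ κ → 0 < T → 0 < η → FH T F F1 → PS W m Z 0 κ ν T F u u1 z z1 →
    ∃ N : ℕ, 0 < N ∧ ∀ j : ℕ, j < N → ∀ θ ∈ Icc (0 : ℝ) 1,
      ‖(1 - θ) • u (j * (T / N)) + θ • u ((j + 1) * (T / N)) - u ((j + θ) * (T / N))‖ ≤ η ∧
      ‖(1 - θ) • z (j * (T / N)) + θ • z ((j + 1) * (T / N)) - z ((j + θ) * (T / N))‖ ≤ η ∧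
      ∀ q ∈ W, |⟪((N : ℝ) / T) • (u ((j + 1) * (T / N)) - u (j * (T / N))), q.1⟫_ℝ
        - ⟪F ((j + θ) * (T / N)) - ν • ((1 - θ) • z (j * (T / N)) + θ • z ((j + 1) * (T / N)))
            + m ((1 - θ) • u (j * (T / N)) + θ • u ((j + 1) * (T / N))), q.2⟫_ℝ
        + κ * ⟪(1 - θ) • u (j * (T / N)) + θ • u ((j + 1) * (T / N)), q.1⟫_ℝ| ≤ η * ‖q.2‖

/-- CW: adding the correctors. With `N`, `p_j` from PL (`η' = η/4`), `P_j = p_j + w_j`, `w_j` the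
corrector of `p_j` for a small `δ` (depending on `N`, `T`), `V = pli P.1`, `V1 = pli1 P.1`,
`D = pli P.2` (PI). The residual at `t = (j+θ)T/N`, `φ` as in PL, `w = (1-θ)w_j + θ w_{j+1}` is the
sum of the residual in PL, of `(N/T)⟪w_{j+1}.1 - w_j.1, q.1⟫`, of `-⟪m(φ+w) - m φ, q.2⟫` (lips, since
`‖w.1‖ ≤ δ` and `‖w.2‖` is bounded), and of the convex combination
`ν⟪w.2, q.2⟫ + ⟪S(φ.1+w.1), q.1⟫ - κ⟪φ.1, q.1⟫`. And `‖p_j.1‖ ≤ C Λ`. -/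
def S_cw : Prop := ∀ (H K : Type) [NormedAddCommGroup H] [InnerProductSpace ℝ H]
    [CompleteSpace H] [NormedAddCommGroup K] [InnerProductSpace ℝ K] [CompleteSpace K]
    (W : Submodule ℝ (H × K)) (m : H → K) (B : H → H → K) (Z : H →L[ℝ] K) (S : ℕ → H →L[ℝ] H)
    (c C ν κ T Λ η : ℝ) (F F1 : ℝ → K) (u u1 : ℝ → H) (z z1 : ℝ → K),
    GS W m B Z c C ν → 0 ≤ κ → 0 < T → 0 < η → FH T F F1 → PS W m Z 0 κ ν T F u u1 z z1 →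
    (∀ t ∈ Icc 0 T, ‖z t‖ ≤ Λ) → (∀ p ∈ W, Cor W S ν κ p) →
    ∃ n0 : ℕ, ∀ n : ℕ, n0 ≤ n → ∃ (V V1 : ℝ → H) (D : ℝ → K),
      AS W m (S n) ν T η (Λ + Real.sqrt (κ / ν) * (C * Λ) + 1) F V V1 D ∧
      ∀ t ∈ Icc 0 T, ‖V t - u t‖ ≤ η

/-- CM: energy comparison with an approximate solution: for `w = u - V`, `zw = z - D`,
`⟪w1, w⟫ + ν‖zw‖² ≤ δ‖zw‖ + |⟪m w, D⟫| + δ‖zw‖` (`⟪S w, w⟫ = 0`,
`⟪m u - m V, zw⟫ = -⟪m w, D⟫`), `|⟪m w, D⟫| ≤ c √‖w‖ √‖zw‖³ M`; Gronwall on `[0,T]`. -/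
def S_cm : Prop := ∀ c C ν M T : ℝ, 0 < c → 0 < C → 0 < ν → 0 < M → 0 < T → ∃ A : ℝ, 0 < A ∧
  ∀ (H K : Type) [NormedAddCommGroup H] [InnerProductSpace ℝ H]
    [CompleteSpace H] [NormedAddCommGroup K] [InnerProductSpace ℝ K] [CompleteSpace K]
    (W : Submodule ℝ (H × K)) (m : H → K) (B : H → H → K) (Z : H →L[ℝ] K) (S : H →L[ℝ] H)
    (δ τ : ℝ) (F F' : ℝ → K) (V V1 u u1 : ℝ → H) (D z z1 : ℝ → K),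
    GS W m B Z c C ν → (∀ h : H, ⟪S h, h⟫_ℝ = 0) → 0 ≤ δ → 0 < τ → τ ≤ T →
    ContinuousOn F (Icc 0 T) → ContinuousOn F' (Icc 0 τ) → AS W m S ν T δ M F V V1 D →
    PS W m Z S 0 ν τ F' u u1 z z1 → ‖u 0 - V 0‖ ≤ δ → (∀ t ∈ Icc 0 τ, ‖F' t - F t‖ ≤ δ) →
    ∀ t ∈ Icc 0 τ, ‖u t - V t‖ ^ 2 ≤ A * δ ^ 2 ∧ ∫ s in (0 : ℝ)..t, ‖z s - D s‖ ^ 2 ≤ A * δ ^ 2

/-- TR: from CW and CM: the solutions with `S n` and no friction follow the damped solution. -/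
def S_tr : Prop := ∀ c C ν κ Λ T η : ℝ, 0 < c → 0 < C → 0 < ν → 0 ≤ κ → 0 < Λ → 0 < T → 0 < η →
  ∃ δ : ℝ, 0 < δ ∧
  ∀ (H K : Type) [NormedAddCommGroup H] [InnerProductSpace ℝ H]
    [CompleteSpace H] [NormedAddCommGroup K] [InnerProductSpace ℝ K] [CompleteSpace K]
    (W : Submodule ℝ (H × K)) (m : H → K) (B : H → H → K) (Z : H →L[ℝ] K) (S : ℕ → H →L[ℝ] H)
    (K0 : ℝ) (F F1 : ℝ → K) (u u1 : ℝ → H) (z z1 : ℝ → K),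
    GS W m B Z c C ν → (∀ n, SK W (S n) K0) → (∀ p ∈ W, Cor W S ν κ p) → FH T F F1 →
    PS W m Z 0 κ ν T F u u1 z z1 → (∀ t ∈ Icc 0 T, ‖z t‖ ≤ Λ) →
    ∃ n0 : ℕ, ∀ n : ℕ, n0 ≤ n → ∃ D : ℝ → K, ContinuousOn D (Icc 0 T) ∧
      (∀ t ∈ Icc 0 T, ‖D t‖ ≤ Λ + Real.sqrt (κ / ν) * (C * Λ) + 1) ∧
      ∀ (τ : ℝ) (F' : ℝ → K) (v v1 : ℝ → H) (y y1 : ℝ → K), 0 < τ → τ ≤ T →
        ContinuousOn F' (Icc 0 τ) → PS W m Z (S n) 0 ν τ F' v v1 y y1 → ‖v 0 - u 0‖ ≤ δ →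
        (∀ t ∈ Icc 0 τ, ‖F' t - F t‖ ≤ δ) →
        (∀ t ∈ Icc 0 τ, ‖v t - u t‖ ≤ η) ∧ ∫ s in (0 : ℝ)..τ, ‖y s - D s‖ ^ 2 ≤ η

/-- NT: finite nets. A finite net of `X`, one of `G`, and a grid of times of mesh at most
`(δ/(4R))²`; two data in the same cell are at a distance at most `δ`; choose one in each nonempty
cell. -/
def S_nt : Prop := ∀ (H K : Type) [NormedAddCommGroup H] [NormedAddCommGroup K] (T R δ : ℝ)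
    (X : Set H) (G : Set K) (P : H → (ℝ → K) → Prop), 0 < T → 0 < R → 0 < δ →
    TotallyBounded X → TotallyBounded G →
    (∀ x F, P x F → x ∈ X ∧ (∀ t ∈ Icc 0 T, F t ∈ G) ∧
      ∀ s ∈ Icc 0 T, ∀ t ∈ Icc 0 T, ‖F t - F s‖ ≤ R * Real.sqrt |t - s|) →
    ∃ (N : ℕ) (x : Fin N → H) (F : Fin N → ℝ → K), (∀ i, P (x i) (F i)) ∧
      ∀ y Φ, P y Φ → ∃ i, ‖y - x i‖ ≤ δ ∧ ∀ t ∈ Icc 0 T, ‖Φ t - F i t‖ ≤ δ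

/-- GL: solutions on all intervals `[0,N]` with the same data give one solution on `[0,∞)`.
Uniqueness: CM with `δ = 0` (a solution `PS` with `κ = 0` is an `AS` with `δ = 0`, where
`M = sup ‖z‖ + 1`); then `u t = u_N t` for any integer `N ≥ t`, e.g. `N = ⌊t⌋₊ + 1`; the fields of
`Str` only see values at times in `[0,T]`. -/
def S_gl : Prop := ∀ (H K : Type) [NormedAddCommGroup H] [InnerProductSpace ℝ H]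
    [CompleteSpace H] [NormedAddCommGroup K] [InnerProductSpace ℝ K] [CompleteSpace K]
    (W : Submodule ℝ (H × K)) (m : H → K) (B : H → H → K) (Z : H →L[ℝ] K) (S : H →L[ℝ] H)
    (c C ν Λ ε : ℝ) (F F1 : ℝ → K) (x0 : H),
    GS W m B Z c C ν → (∀ h : H, ⟪S h, h⟫_ℝ = 0) → (∀ T : ℝ, 0 < T → FH T F F1) →
    (∀ T : ℝ, 0 < T → ∃ (u u1 : ℝ → H) (z z1 : ℝ → K), PS W m Z S 0 ν T F u u1 z z1 ∧
      u 0 = x0 ∧ (∀ t ∈ Icc 0 T, ‖z t‖ ≤ Λ) ∧ ∀ t ∈ Icc 0 T, ε ≤ t → ‖u t‖ ≤ ε) →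
    ∃ (u u1 : ℝ → H) (z z1 : ℝ → K), (∀ T : ℝ, 0 < T → PS W m Z S 0 ν T F u u1 z z1) ∧
      u 0 = x0 ∧ (∀ t, 0 ≤ t → ‖z t‖ ≤ Λ) ∧ ∀ t, 0 ≤ t → ε ≤ t → ‖u t‖ ≤ ε

/-! ### the fields -/

/-- MU: multiplication with a bounded continuous field. -/
def S_mu : Prop := ∀ (Ω : Set E3), IsOpen Ω → ∀ (b : E3 → E3) (M : ℝ), Continuous b →
  (∀ x, ‖b x‖ ≤ M) → ∃ S : L2V Ω →L[ℝ] L2V Ω,
    (∀ v : L2V Ω, (S v : E3 → E3) =ᵐ[volume.restrict Ω] fun x => cr (b x) (v x)) ∧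
    ∀ v : L2V Ω, ⟪S v, v⟫_ℝ = 0

/-- CI: calculus of `curl`, and of the cross product. -/
def S_ci : Prop :=
  (∀ X v : E3 → E3, ContDiff ℝ ∞ X → ContDiff ℝ ∞ v → HasCompactSupport v →
    ∫ x, ⟪crl X x, v x⟫_ℝ = ∫ x, ⟪X x, crl v x⟫_ℝ) ∧
  (∀ (v : E3 → E3) (x : E3), ‖crl v x‖ ≤ 2 * ‖H772R2.NS.jac v x‖) ∧
  (∀ a b : E3, ‖cr a b‖ ≤ ‖a‖ * ‖b‖ ∧ ⟪cr a b, a⟫_ℝ = 0 ∧ ⟪cr a b, b⟫_ℝ = 0 ∧
    cr a (cr a b) = ⟪a, b⟫_ℝ • a - ‖a‖ ^ 2 • b) ∧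
  (∀ (f : E3 → ℝ) (φ : E3 → E3) (x : E3), ContDiff ℝ ∞ f → ContDiff ℝ ∞ φ →
    crl (fun y => f y • φ y) x = cr (gradient f x) (φ x) + f x • crl φ x) ∧
  (∀ (Ω : Set E3) (X : E3 → E3), ContDiff ℝ ∞ X → HasCompactSupport X → tsupport X ⊆ Ω →
    IsTest Ω (crl X))

/-- LD: the Laplacian. `∫ ∇(curl Y):∇v = ∑_i ∫ curl(∂_i Y)·∂_i v = ∑_i ∫ ∂_i Y · ∂_i curl v
= -∫ ΔY · curl v`. -/
def S_ld : Prop :=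
  (∀ Y v : E3 → E3, ContDiff ℝ ∞ Y → HasCompactSupport Y → ContDiff ℝ ∞ v →
    HasCompactSupport v → ∫ x, ⟪H772R2.NS.jac (crl Y) x, H772R2.NS.jac v x⟫_ℝ
      = -∫ x, ⟪lpl Y x, crl v x⟫_ℝ) ∧
  (∀ (φ : E3 → E3) (N : ℝ) (j : Fin 3) (x : E3), ContDiff ℝ ∞ φ →
    lpl (fun y => Real.sin (N * y j) • φ y) x = -(N ^ 2 * Real.sin (N * x j)) • φ x
      + (2 * N * Real.cos (N * x j)) • fderiv ℝ φ x (EuclideanSpace.single j 1)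
      + Real.sin (N * x j) • lpl φ x)

/-- WF: the correctors are test fields; formula (from CI with `f = sin(N y_j)`). -/
def S_wf : Prop := ∀ (Ω : Set E3) (φ : E3 → E3), IsTest Ω φ → ∀ (N : ℝ) (j : Fin 3), N ≠ 0 →
  IsTest Ω (wc N j φ) ∧ ∀ x, wc N j φ x = -(1 / N ^ 2) •
    ((N * Real.cos (N * x j)) • cr (EuclideanSpace.single j 1) (φ x)
      + Real.sin (N * x j) • crl φ x)

/-- FB: the form bound. For test fields `u`, `v`, by CI: `∫ (∇β × u)·v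
= ∫ (curl(βu) - β curl u)·v = ∫ β u·curl v - ∫ β curl u·v`, `|β| ≤ 3kA`, `|curl u| ≤ 2|∇u|`, and
`‖u‖ ≤ C‖∇u‖`; then density (`graphW` is the closure of the pairs of test fields), since `S` is
bounded. `bw` is the gradient of `pot`. -/
def S_fb : Prop := ∀ (Ω : Set E3), IsOpen Ω → Bornology.IsBounded Ω → ∀ (C A : ℝ) (k n : ℕ)
  (S : L2V Ω →L[ℝ] L2V Ω), 0 < C → (∀ p ∈ graphW Ω, ‖p.1‖ ≤ C * ‖p.2‖) → 0 ≤ A →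
  (∀ v : L2V Ω, (S v : E3 → E3) =ᵐ[volume.restrict Ω] fun x => cr (bw A k n x) (v x)) →
  ∀ p ∈ graphW Ω, ∀ q ∈ graphW Ω,
    |⟪S p.1, q.1⟫_ℝ| ≤ 12 * (k : ℝ) * A * C * (‖p.2‖ * ‖q.2‖)

/-- OS: oscillating fields are small in `V'`: for a test field `v`,
`∫ cos(ξ·x+θ) ψ·v = -|ξ|^{-2} ∫ sin(ξ·x+θ) (ξ·∇)(ψ·v)`; then density. -/
def S_os : Prop := ∀ (Ω : Set E3), IsOpen Ω → Bornology.IsBounded Ω → ∀ C : ℝ, 0 < C →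
  (∀ p ∈ graphW Ω, ‖p.1‖ ≤ C * ‖p.2‖) → ∀ ψ : E3 → E3, ContDiff ℝ ∞ ψ → HasCompactSupport ψ →
  ∃ A : ℝ, 0 ≤ A ∧ ∀ (ξ : E3) (θ : ℝ), ξ ≠ 0 → ∀ q ∈ graphW Ω,
    |⟪cl Ω (fun x => Real.cos (⟪ξ, x⟫_ℝ + θ) • ψ x), q.1⟫_ℝ| ≤ A / ‖ξ‖ * ‖q.2‖

/-- CA: the corrector of one wave. `w = wc N j φ` is a test field, `‖w‖ ≤ A/N` in `L²`, since
`w = -N^{-2}(N cos(N x_j) e_j × φ + sin(N x_j) curl φ)`. For a test field `v`, with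
`β = sin(N x_j)`: `-Δw = N^{-2} curl Δ(βφ)`, `Δ(βφ) = -N² βφ + 2(∇β·∇)φ + βΔφ`, so
`∫ ∇w:∇v + ∫ (∇β × φ)·v = -∫ β curl φ · v + N^{-2} ∫ (2(∇β·∇)φ + βΔφ)·curl v`
(`∇β × φ = curl(βφ) - β curl φ`, `∫ curl X · v = ∫ X · curl v`); use OS. Then density. -/
def S_ca : Prop := ∀ (Ω : Set E3), IsOpen Ω → Bornology.IsBounded Ω → ∀ C : ℝ, 0 < C →
  (∀ p ∈ graphW Ω, ‖p.1‖ ≤ C * ‖p.2‖) → ∀ φ : E3 → E3, IsTest Ω φ →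
  ∃ A : ℝ, 0 ≤ A ∧ ∀ (N : ℝ) (j : Fin 3), 1 ≤ N → IsTest Ω (wc N j φ) ∧
    ‖cl Ω (wc N j φ)‖ ≤ A / N ∧ ∀ q ∈ graphW Ω,
      |⟪clj Ω (wc N j φ), q.2⟫_ℝ + ⟪cl Ω (fun x => cr (gw 1 N j x) (φ x)), q.1⟫_ℝ|
        ≤ A / N * ‖q.2‖

/-- CB: the product of a wave with the corrector of the same wave. `∇β × w`, `β = sin(N x_j)`, is
`cos²(N x_j)(φ - φ_j e_j) - N^{-1} cos(N x_j) sin(N x_j) e_j × curl φ`, and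
`cos² = 1/2 + (1/2) cos(2N x_j)`; use OS (`ξ = 2N e_j`, `ψ = φ - φ_j e_j`), and
`‖q.1‖ ≤ C‖q.2‖`. -/
def S_cb : Prop := ∀ (Ω : Set E3), IsOpen Ω → Bornology.IsBounded Ω → ∀ C : ℝ, 0 < C →
  (∀ p ∈ graphW Ω, ‖p.1‖ ≤ C * ‖p.2‖) → ∀ φ : E3 → E3, IsTest Ω φ →
  ∃ A : ℝ, 0 ≤ A ∧ ∀ (N : ℝ) (j : Fin 3), 1 ≤ N → ∀ q ∈ graphW Ω,
    |⟪cl Ω (fun x => cr (gw 1 N j x) (wc N j φ x)), q.1⟫_ℝ
      - 1 / 2 * ⟪cl Ω (fun x => φ x - (φ x j) • EuclideanSpace.single j 1), q.1⟫_ℝ|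
      ≤ A / N * ‖q.2‖

/-- CX: the product of a wave with the corrector of another wave. `∇β' × w` is
`-(N'/N) cos(N' x_i) cos(N x_j) e_i × (e_j × φ) - (N'/N²) cos(N' x_i) sin(N x_j) e_i × curl φ`.
If `N' ≤ N` use the `L²` norm. If `N' ≥ 2N` use
`2 cos a cos b = cos(a-b) + cos(a+b)`, `2 cos a sin b = sin(a+b) - sin(a-b)`
(`sin t = cos(t - π/2)`) and OS with `ξ = N' e_i ± N e_j`, `|ξ| ≥ N' - N ≥ N'/2`. -/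
def S_cx : Prop := ∀ (Ω : Set E3), IsOpen Ω → Bornology.IsBounded Ω → ∀ C : ℝ, 0 < C →
  (∀ p ∈ graphW Ω, ‖p.1‖ ≤ C * ‖p.2‖) → ∀ φ : E3 → E3, IsTest Ω φ →
  ∃ A : ℝ, 0 ≤ A ∧ ∀ (N N' : ℝ) (i j : Fin 3), 1 ≤ N → 1 ≤ N' → ∀ q ∈ graphW Ω,
    (N' ≤ N → |⟪cl Ω (fun x => cr (gw 1 N' i x) (wc N j φ x)), q.1⟫_ℝ| ≤ A * (N' / N) * ‖q.2‖) ∧
    (2 * N ≤ N' → |⟪cl Ω (fun x => cr (gw 1 N' i x) (wc N j φ x)), q.1⟫_ℝ| ≤ A / N * ‖q.2‖)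

/-- CD: the corrector of the field `bw`, `a = √(νκ/k)`, `w = ∑_l (a/ν) wc N_l (ax l) φ`,
`N_l = (n+2)^{l+1}`. `ν⟪∇w, ∇q⟫ + ⟪S φ, q⟫` is small by CA; `⟪S w, q⟫ = (a²/ν) ∑_{l,l'} ...`: the
diagonal terms (CB) give `(a²/(2ν)) ∑_l ⟪φ - φ_{j(l)} e_{j(l)}, q⟫ = (a²/(2ν)) 2k ⟪φ, q⟫
= κ⟪φ, q⟫`, the others are small by CX, since `N_{l'}/N_l ≤ 1/(n+2)` for `l' < l`, and
`N_{l'} ≥ 2N_l` for `l' > l`. -/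
def S_cd : Prop := ∀ (Ω : Set E3), IsOpen Ω → Bornology.IsBounded Ω → ∀ C : ℝ, 0 < C →
  (∀ p ∈ graphW Ω, ‖p.1‖ ≤ C * ‖p.2‖) → ∀ (ν κ : ℝ) (k : ℕ), 0 < ν → 0 < κ → 0 < k →
  ∀ S : ℕ → L2V Ω →L[ℝ] L2V Ω,
  (∀ n, ∀ v : L2V Ω, (S n v : E3 → E3) =ᵐ[volume.restrict Ω]
    fun x => cr (bw (Real.sqrt (ν * κ / k)) k n x) (v x)) →
  ∀ φ : E3 → E3, IsTest Ω φ → Cor0 (graphW Ω) S ν κ (cl Ω φ, clj Ω φ)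

/-- HT: the heat semigroup on a wave. -/
def S_ht : Prop := ∀ (A N s : ℝ) (j : Fin 3) (x : E3), 0 < s →
  (heat s (show H772R2.NS.Pub.R3 → H772R2.NS.Pub.R3 from gw A N j) x : E3)
    = Real.exp (-(s * N ^ 2)) • gw A N j x

/-- BS: the Besov norm of `bw`, from HT: with `ψ(y) = √y e^{-y}`,
`√s ‖e^{sΔ} bw‖_∞ ≤ A f(s)`, `f(s) = ∑_{l<3k} ψ(s N_l²)`, `f ≤ C1` since `N_{l+1}² ≥ 4N_l²`, so
`∫ f^r ds/s ≤ C1^{r-1} ∑_l ∫ ψ(s N_l²) ds/s = 3k C1^{r-1} √π`. -/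
def S_bs : Prop := ∀ r : ℝ, 2 < r → ∃ M : ℝ, 0 < M ∧ ∀ (A : ℝ) (k n : ℕ), 0 ≤ A →
  besov r (show H772R2.NS.Pub.R3 → H772R2.NS.Pub.R3 from bw A k n)
    ≤ ENNReal.ofReal (M * A * (k : ℝ) ^ (1 / r))

end Pool.Agent.T2h23.GY
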