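import Pool.Agent.T2h23.GY.Stm

/-!
Project GY, task NT (helper11): finite nets.
-/

set_option autoImplicit false

open MeasureTheory Set
open scoped InnerProductSpace ENNReal ContDiff

namespace Pool.Agent.T2h23.GY.NT

open Pool.Agent.T2h23.GY

theorem t_NT : S_nt := by
  classical
  intro H K _ _ T R δ X G P hT hR hδ hX hGt hP
  obtain ⟨A, hAf, hA⟩ := Metric.totallyBounded_iff.1 hX (δ / 2) (half_pos hδ)
  obtain ⟨B, hBf, hB⟩ := Metric.totallyBounded_iff.1 hGt (δ / 4) (by positivity)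
  have : Finite A := hAf
  have : Finite B := hBf
  set r : ℝ := (δ / (4 * R)) ^ 2 with hr
  have hr0 : 0 < r := by positivity
  obtain ⟨M, hM⟩ := exists_nat_gt (T / r)
  have hM0 : (0 : ℝ) < M := lt_of_le_of_lt (div_nonneg hT.le hr0.le) hM
  have hMr : T / M < r := by
    rw [div_lt_iff₀ hr0] at hM
    rw [div_lt_iff₀ hM0, mul_comm]
    exact hM
  set tj : Fin (M + 1) → ℝ := fun j => (j : ℕ) * T / M with htj
  have htjm : ∀ j, tj j ∈ Icc 0 T := by
    intro j
    refine ⟨by positivity, ?_⟩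
    rw [htj]
    simp only
    rw [div_le_iff₀ hM0, mul_comm]
    refine mul_le_mul_of_nonneg_left ?_ hT.le
    have : (j : ℕ) ≤ M := Nat.lt_succ_iff.1 j.2
    exact_mod_cast this
  have hnear : ∀ t ∈ Icc 0 T, ∃ j, |t - tj j| ≤ r := by
    intro t ht
    have h0 : 0 ≤ t * M / T := div_nonneg (mul_nonneg ht.1 hM0.le) hT.le
    have h1 : ⌊t * M / T⌋₊ ≤ M := by
      refine Nat.floor_le_of_le ?_
      rw [div_le_iff₀ hT, mul_comm]
      exact mul_le_mul_of_nonneg_left ht.2 hM0.le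
    refine ⟨⟨⌊t * M / T⌋₊, Nat.lt_succ_iff.2 h1⟩, ?_⟩
    have h2 := Nat.floor_le h0
    have h3 := Nat.lt_floor_add_one (t * M / T)
    set k : ℝ := (⌊t * M / T⌋₊ : ℝ) with hk
    have h4 : k * T / M ≤ t := by
      rw [le_div_iff₀ hT] at h2
      rw [div_le_iff₀ hM0]
      exact h2
    have h5 : t < k * T / M + T / M := by
      rw [div_lt_iff₀ hT] at h3
      rw [← add_div, lt_div_iff₀ hM0]
      linarith
    show |t - k * T / M| ≤ r
    rw [abs_of_nonneg (by linarith)]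
    linarith
  -- cells
  let cell : A × (Fin (M + 1) → B) → H → (ℝ → K) → Prop := fun c x F =>
    dist x c.1 < δ / 2 ∧ ∀ j, dist (F (tj j)) (c.2 j) < δ / 4
  have hcell : ∀ x F, P x F → ∃ c, cell c x F := by
    intro x F h
    obtain ⟨h1, h2, h3⟩ := hP x F h
    obtain ⟨a, ha, hxa⟩ := mem_iUnion₂.1 (hA h1)
    have h4 : ∀ j, ∃ b : B, dist (F (tj j)) b < δ / 4 := by
      intro j
      obtain ⟨b, hb, hfb⟩ := mem_iUnion₂.1 (hB (h2 (tj j) (htjm j)))
      exact ⟨⟨b, hb⟩, hfb⟩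
    choose b hb using h4
    exact ⟨(⟨a, ha⟩, b), hxa, hb⟩
  let C : Type := {c : A × (Fin (M + 1) → B) // ∃ x F, P x F ∧ cell c x F}
  have : Finite C := inferInstanceAs (Finite {c : A × (Fin (M + 1) → B) //
    ∃ x F, P x F ∧ cell c x F})
  obtain ⟨N, ⟨e⟩⟩ := Finite.exists_equiv_fin C
  choose xs Fs hPs hcs using fun c : C => c.2
  refine ⟨N, fun i => xs (e.symm i), fun i => Fs (e.symm i), fun i => hPs _, ?_⟩
  intro y Φ hy
  obtain ⟨c, hc⟩ := hcell y Φ hy
  let c' : C := ⟨c, y, Φ, hy, hc⟩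
  refine ⟨e c', ?_⟩
  simp only [Equiv.symm_apply_apply]
  have hc2 : cell c (xs c') (Fs c') := hcs c'
  refine ⟨?_, fun t ht => ?_⟩
  · rw [← dist_eq_norm]
    have := dist_triangle_right y (xs c') c.1
    linarith [hc.1, hc2.1]
  · obtain ⟨j, hj⟩ := hnear t ht
    have h1 : ‖Φ (tj j) - Φ t‖ ≤ δ / 4 := by
      refine ((hP y Φ hy).2.2 t ht (tj j) (htjm j)).trans ?_
      have h2 : Real.sqrt |tj j - t| ≤ δ / (4 * R) := by
        rw [abs_sub_comm]
        refine (Real.sqrt_le_sqrt hj).trans ?_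
        rw [hr, Real.sqrt_sq (by positivity)]
      calc R * Real.sqrt |tj j - t| ≤ R * (δ / (4 * R)) := mul_le_mul_of_nonneg_left h2 hR.le
        _ = δ / 4 := by field_simp
    have h1' : ‖Fs c' (tj j) - Fs c' t‖ ≤ δ / 4 := by
      refine ((hP _ _ (hPs c')).2.2 t ht (tj j) (htjm j)).trans ?_
      have h2 : Real.sqrt |tj j - t| ≤ δ / (4 * R) := by
        rw [abs_sub_comm]
        refine (Real.sqrt_le_sqrt hj).trans ?_
        rw [hr, Real.sqrt_sq (by positivity)]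
      calc R * Real.sqrt |tj j - t| ≤ R * (δ / (4 * R)) := mul_le_mul_of_nonneg_left h2 hR.le
        _ = δ / 4 := by field_simp
    have h3 := hc.2 j
    have h4 := hc2.2 j
    rw [← dist_eq_norm] at h1 h1' ⊢
    have e1 := dist_triangle (Φ t) (Φ (tj j)) (Fs c' t)
    have e2 := dist_triangle (Φ (tj j)) (c.2 j : K) (Fs c' t)
    have e3 := dist_triangle (c.2 j : K) (Fs c' (tj j)) (Fs c' t)
    have e4 := dist_comm (Φ t) (Φ (tj j))
    have e5 := dist_comm (c.2 j : K) (Fs c' (tj j))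
    linarith

end Pool.Agent.T2h23.GY.NT
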