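import Pool.Agent.T2h23.GY.Stm
import Pool.Agent.T2h23.O3

set_option autoImplicit false
set_option linter.unusedSectionVars false

/-!
Task PL: the piecewise linear interpolation of the damped solution.
-/

open MeasureTheory Set Filter Topology
open scoped InnerProductSpace ENNReal

namespace Pool.Agent.T2h23.GY.PL

open Pool.Agent.T2h23.GY
open H772R2.NSR (Frame prim_cont)
open Pool.Agent.W795.TQ (Str FH Univ)

theorem t_PL : S_pl := by
  intro H K _ _ _ _ _ _ W m B Z c C ν κ T η F F1 u u1 z z1 G hκ hT hη hF hu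
  have Fr := G.fr
  have hν : 0 < ν := G.ν0
  have hC0 : 0 < C := G.C0
  have hFc : ContinuousOn F (Icc 0 T) := prim_cont hF.memLp hF.prim
  obtain ⟨huc, hzc⟩ := Pool.Agent.T2h23.str_cont hu
  have hmem := hu.mem
  have hmc := Pool.Agent.T2h23.m_cont Fr hmem huc hzc
  set Q : ℝ → K := fun s => F s - Z ((0 : H →L[ℝ] H) (u s) + κ • u s) - ν • z s + m (u s) with hQ
  have hQc : ContinuousOn Q (Icc 0 T) := by
    refine ((hFc.sub ?_).sub (hzc.const_smul ν)).add hmc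
    refine Z.continuous.comp_continuousOn ?_
    exact ((0 : H →L[ℝ] H).continuous.comp_continuousOn huc).add (huc.const_smul κ)
  -- bounds
  obtain ⟨M0, hM0⟩ := isCompact_Icc.exists_bound_of_continuousOn hzc
  set M : ℝ := max M0 0 with hM
  have hM00 : 0 ≤ M := le_max_right _ _
  have hzM : ∀ t ∈ Icc 0 T, ‖z t‖ ≤ M := fun t ht => (hM0 t ht).trans (le_max_left _ _)
  set ε : ℝ := η / 4 with hε
  have hε0 : 0 < ε := by positivity
  -- the size of `δ`
  set δ : ℝ := min (min η (ε / (ν + 1))) (min (ε / (κ * ‖Z‖ + 1)) (ε / ((C + 1) * (2 * M + 1))))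
    with hδ
  have hδ0 : 0 < δ := by
    rw [hδ]
    refine lt_min (lt_min hη (by positivity)) (lt_min ?_ ?_) <;> positivity
  have hδη : δ ≤ η := (min_le_left _ _).trans (min_le_left _ _)
  have hδν : ν * δ ≤ ε := by
    have h1 : δ ≤ ε / (ν + 1) := (min_le_left _ _).trans (min_le_right _ _)
    rw [le_div_iff₀ (by positivity)] at h1
    nlinarith
  have hδκ : κ * ‖Z‖ * δ ≤ ε := by
    have h1 : δ ≤ ε / (κ * ‖Z‖ + 1) := (min_le_right _ _).trans (min_le_left _ _)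
    have h2 : 0 ≤ κ * ‖Z‖ := by positivity
    rw [le_div_iff₀ (by positivity)] at h1
    nlinarith
  have hδC : C * (δ * δ ^ 3 * (M + M) ^ 4) ≤ ε ^ 4 := by
    have h1 : δ ≤ ε / ((C + 1) * (2 * M + 1)) := (min_le_right _ _).trans (min_le_right _ _)
    rw [le_div_iff₀ (by positivity)] at h1
    have h2 : (δ * ((C + 1) * (2 * M + 1))) ^ 4 ≤ ε ^ 4 :=
      pow_le_pow_left₀ (by positivity) h1 4
    refine le_trans ?_ h2
    have h3 : C ≤ (C + 1) ^ 4 := by
      nlinarith [sq_nonneg C, sq_nonneg (C ^ 2), mul_pos hC0 hC0,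
        mul_pos (mul_pos hC0 hC0) hC0]
    have h4 : (M + M) ^ 4 ≤ (2 * M + 1) ^ 4 := pow_le_pow_left₀ (by positivity) (by linarith) 4
    calc C * (δ * δ ^ 3 * (M + M) ^ 4) ≤ (C + 1) ^ 4 * (δ * δ ^ 3 * (2 * M + 1) ^ 4) := by
          gcongr
      _ = (δ * ((C + 1) * (2 * M + 1))) ^ 4 := by ring
  -- uniform continuity
  have huni : UniformContinuousOn (fun t => (u t, z t, Q t)) (Icc 0 T) :=
    isCompact_Icc.uniformContinuousOn_of_continuous (huc.prodMk (hzc.prodMk hQc))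
  rw [Metric.uniformContinuousOn_iff] at huni
  obtain ⟨ρ, hρ, hun⟩ := huni (min δ ε) (lt_min hδ0 hε0)
  have key : ∀ s ∈ Icc 0 T, ∀ t ∈ Icc 0 T, |s - t| < ρ →
      ‖u s - u t‖ ≤ δ ∧ ‖z s - z t‖ ≤ δ ∧ ‖Q s - Q t‖ ≤ ε := by
    intro s hs t ht hst
    have h1 := hun s hs t ht (by rwa [Real.dist_eq])
    rw [Prod.dist_eq, Prod.dist_eq] at h1
    have h2 := max_lt_iff.1 h1
    have h3 := max_lt_iff.1 h2.2
    refine ⟨?_, ?_, ?_⟩
    · rw [← dist_eq_norm]
      exact h2.1.le.trans (min_le_left _ _)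
    · rw [← dist_eq_norm]
      exact h3.1.le.trans (min_le_left _ _)
    · rw [← dist_eq_norm]
      exact h3.2.le.trans (min_le_right _ _)
  obtain ⟨N, hN⟩ := exists_nat_gt (T / ρ)
  have hN0 : (0 : ℝ) < N := (div_pos hT hρ).trans hN
  have hNρ : T / N < ρ := by
    rw [div_lt_iff₀ hρ] at hN
    rw [div_lt_iff₀ hN0]
    linarith
  refine ⟨N, by exact_mod_cast hN0, ?_⟩
  intro j hj θ hθ
  set h : ℝ := T / N with hh
  have hh0 : 0 < h := by positivity
  have hhN : N * h = T := by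
    rw [hh]
    field_simp
  have hj1 : (j : ℝ) + 1 ≤ N := by exact_mod_cast hj
  have hj0 : (0 : ℝ) ≤ j := by positivity
  set a : ℝ := j * h with ha
  set b : ℝ := (j + 1) * h with hb
  set t : ℝ := (j + θ) * h with ht
  have hba : b - a = h := by rw [hb, ha]; ring
  have ha0 : 0 ≤ a := by positivity
  have hat : a ≤ t := by
    rw [ha, ht]
    nlinarith [hθ.1]
  have htb : t ≤ b := by
    rw [hb, ht]
    nlinarith [hθ.2]
  have hbT : b ≤ T := by
    rw [hb, ← hhN]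
    nlinarith
  have hab : a ≤ b := hat.trans htb
  have haI : a ∈ Icc 0 T := ⟨ha0, hab.trans hbT⟩
  have hbI : b ∈ Icc 0 T := ⟨ha0.trans hab, hbT⟩
  have htI : t ∈ Icc 0 T := ⟨ha0.trans hat, htb.trans hbT⟩
  have hclose : ∀ s ∈ Icc a b, s ∈ Icc 0 T ∧ |s - t| < ρ := by
    intro s hs
    refine ⟨⟨ha0.trans hs.1, hs.2.trans hbT⟩, ?_⟩
    rw [abs_lt]
    constructor
    · linarith [hs.1]
    · linarith [hs.2]
  obtain ⟨ka1, ka2, -⟩ := key a haI t htI (hclose a ⟨le_rfl, hab⟩).2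
  obtain ⟨kb1, kb2, -⟩ := key b hbI t htI (hclose b ⟨hab, le_rfl⟩).2
  have conv : ∀ {E : Type} [NormedAddCommGroup E] [NormedSpace ℝ E] (x y w : E),
      ‖x - w‖ ≤ δ → ‖y - w‖ ≤ δ → ‖(1 - θ) • x + θ • y - w‖ ≤ δ := by
    intro E _ _ x y w h1 h2
    have e : (1 - θ) • x + θ • y - w = (1 - θ) • (x - w) + θ • (y - w) := by
      module
    rw [e]
    refine (norm_add_le _ _).trans ?_
    rw [norm_smul, norm_smul, Real.norm_eq_abs, Real.norm_eq_abs,
      abs_of_nonneg (by linarith [hθ.2] : (0 : ℝ) ≤ 1 - θ), abs_of_nonneg hθ.1]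
    nlinarith [hθ.1, hθ.2, norm_nonneg (x - w), norm_nonneg (y - w)]
  set φu : H := (1 - θ) • u a + θ • u b with hφu
  set φz : K := (1 - θ) • z a + θ • z b with hφz
  have c1 : ‖φu - u t‖ ≤ δ := conv _ _ _ ka1 kb1
  have c2 : ‖φz - z t‖ ≤ δ := conv _ _ _ ka2 kb2
  have hφmem : (φu, φz) ∈ W := by
    have := W.add_mem (W.smul_mem (1 - θ) (hmem a haI)) (W.smul_mem θ (hmem b hbI))
    exact this
  have hφM : ‖φz‖ ≤ M := by
    rw [hφz]
    refine (norm_add_le _ _).trans ?_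
    rw [norm_smul, norm_smul, Real.norm_eq_abs, Real.norm_eq_abs,
      abs_of_nonneg (by linarith [hθ.2] : (0 : ℝ) ≤ 1 - θ), abs_of_nonneg hθ.1]
    nlinarith [hθ.1, hθ.2, hzM a haI, hzM b hbI]
  refine ⟨c1.trans hδη, c2.trans hδη, ?_⟩
  intro q hq
  -- the residual
  set R : K := F t - ν • φz + m φu - κ • Z φu with hR
  have hm4 : ‖m (u t) - m φu‖ ≤ ε := by
    have h1 := Fr.lips _ (hmem t htI) _ hφmem
    simp only at h1
    have h2 : ‖m (u t) - m φu‖ ^ 4 ≤ ε ^ 4 := by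
      refine h1.trans (le_trans ?_ hδC)
      have d1 : ‖u t - φu‖ ≤ δ := by rwa [norm_sub_rev]
      have d2 : ‖z t - φz‖ ≤ δ := by rwa [norm_sub_rev]
      have d3 := hzM t htI
      gcongr
    exact le_of_pow_le_pow_left₀ (by norm_num) hε0.le h2
  have hQR : ‖Q t - R‖ ≤ 3 * ε := by
    have e : Q t - R = ν • (φz - z t) + (m (u t) - m φu) + κ • Z (φu - u t) := by
      rw [hQ, hR]
      simp only [ContinuousLinearMap.zero_apply, zero_add, map_smul, map_sub]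
      module
    rw [e]
    have n1 : ‖ν • (φz - z t)‖ ≤ ε := by
      rw [norm_smul, Real.norm_eq_abs, abs_of_pos hν]
      exact (mul_le_mul_of_nonneg_left c2 hν.le).trans hδν
    have n2 : ‖κ • Z (φu - u t)‖ ≤ ε := by
      rw [norm_smul, Real.norm_eq_abs, abs_of_nonneg hκ]
      have h1 : ‖Z (φu - u t)‖ ≤ ‖Z‖ * δ :=
        (Z.le_opNorm _).trans (mul_le_mul_of_nonneg_left c1 (norm_nonneg _))
      refine (mul_le_mul_of_nonneg_left h1 hκ).trans ?_
      rw [← mul_assoc]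
      exact hδκ
    calc ‖ν • (φz - z t) + (m (u t) - m φu) + κ • Z (φu - u t)‖
        ≤ ‖ν • (φz - z t)‖ + ‖m (u t) - m φu‖ + ‖κ • Z (φu - u t)‖ := norm_add₃_le
      _ ≤ 3 * ε := by linarith
  have hbound : ∀ s ∈ Set.uIoc a b, ‖⟪Q s, q.2⟫_ℝ - ⟪R, q.2⟫_ℝ‖ ≤ η * ‖q.2‖ := by
    intro s hs
    rw [uIoc_of_le hab] at hs
    obtain ⟨hs1, hs2⟩ := hclose s ⟨hs.1.le, hs.2⟩
    have h1 := (key s hs1 t htI hs2).2.2
    rw [← inner_sub_left, Real.norm_eq_abs]
    refine (abs_real_inner_le_norm _ _).trans ?_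
    refine mul_le_mul_of_nonneg_right ?_ (norm_nonneg _)
    have e : Q s - R = (Q s - Q t) + (Q t - R) := by abel
    rw [e]
    refine (norm_add_le _ _).trans ?_
    rw [hε] at h1 hQR
    linarith
  have hint := intervalIntegral.norm_integral_le_of_norm_le_const hbound
  have iQ : ∀ {x y : ℝ}, x ∈ Icc 0 T → y ∈ Icc 0 T → x ≤ y →
      IntervalIntegrable (fun s => ⟪Q s, q.2⟫_ℝ) volume x y := by
    intro x y hx hy hxy
    refine ContinuousOn.intervalIntegrable ?_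
    rw [uIcc_of_le hxy]
    exact (hQc.mono (Icc_subset_Icc hx.1 hy.2)).inner continuousOn_const
  have h0I : (0 : ℝ) ∈ Icc 0 T := ⟨le_rfl, hT.le⟩
  have hweak : ⟪u b - u a, q.1⟫_ℝ = ∫ s in a..b, ⟪Q s, q.2⟫_ℝ := by
    have w1 := hu.weak q hq b hbI
    have w2 := hu.weak q hq a haI
    have e1 : u b - u a = (u b - u 0) - (u a - u 0) := by abel
    rw [e1, inner_sub_left, w1, w2]
    exact intervalIntegral.integral_interval_sub_left (iQ h0I hbI (ha0.trans hab))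
      (iQ h0I haI ha0)
  rw [intervalIntegral.integral_sub (iQ haI hbI hab) intervalIntegrable_const,
    intervalIntegral.integral_const, ← hweak, hba, abs_of_pos hh0, smul_eq_mul] at hint
  have hrz : κ * ⟪φu, q.1⟫_ℝ = ⟪κ • Z φu, q.2⟫_ℝ := by
    rw [inner_smul_left, G.rz φu q hq]
    simp
  have hRin : ⟪R, q.2⟫_ℝ = ⟪F t - ν • φz + m φu, q.2⟫_ℝ - κ * ⟪φu, q.1⟫_ℝ := by
    rw [hrz, hR, ← inner_sub_left]
  have hNT : (N : ℝ) / T = 1 / h := by
    rw [hh]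
    field_simp
  have hfin : ⟪((N : ℝ) / T) • (u b - u a), q.1⟫_ℝ - ⟪F t - ν • φz + m φu, q.2⟫_ℝ
      + κ * ⟪φu, q.1⟫_ℝ = (1 / h) * (⟪u b - u a, q.1⟫_ℝ - h * ⟪R, q.2⟫_ℝ) := by
    rw [hRin, inner_smul_left, hNT]
    simp only [conj_trivial]
    field_simp
    ring
  show |⟪((N : ℝ) / T) • (u b - u a), q.1⟫_ℝ - ⟪F t - ν • φz + m φu, q.2⟫_ℝ
      + κ * ⟪φu, q.1⟫_ℝ| ≤ η * ‖q.2‖
  rw [hfin, abs_mul, abs_of_pos (by positivity : 0 < 1 / h)]
  rw [Real.norm_eq_abs] at hint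
  calc 1 / h * |⟪u b - u a, q.1⟫_ℝ - h * ⟪R, q.2⟫_ℝ| ≤ 1 / h * (η * ‖q.2‖ * h) :=
        mul_le_mul_of_nonneg_left hint (by positivity)
    _ = η * ‖q.2‖ := by
        field_simp

end Pool.Agent.T2h23.GY.PL
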