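import Pool.Agent.T2h23.GY.Stm

/-!
Project GY (helper2): classes of continuous fields with compact support; oscillating fields.
-/

set_option autoImplicit false

open MeasureTheory Set
open scoped InnerProductSpace ENNReal ContDiff

namespace Pool.Agent.T2h23.GY.U2

open Pool.Agent.T2h23.GY
open H772R2.NS (graphW tensL E3 L2V L2M IsTest)
open Pool.Agent.Y303.LV (cl clj)

variable {Ω : Set E3}

/-- continuous with compact support -/
def CC (F : E3 → E3) : Prop := Continuous F ∧ HasCompactSupport F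

theorem CC.memLp {F : E3 → E3} (h : CC F) : MemLp F 2 (volume.restrict Ω) :=
  (h.1.memLp_of_hasCompactSupport h.2).restrict _

theorem CC.add {F G : E3 → E3} (h : CC F) (h' : CC G) : CC fun x => F x + G x :=
  ⟨h.1.add h'.1, h.2.add h'.2⟩

theorem CC.smul {F : E3 → E3} {f : E3 → ℝ} (hf : Continuous f) (h : CC F) :
    CC fun x => f x • F x := by
  refine ⟨hf.smul h.1, h.2.mono fun x hx h0 => hx ?_⟩
  change f x • F x = 0
  rw [h0, smul_zero]

theorem CC.bdd {F : E3 → E3} (h : CC F) : ∃ M : ℝ, 0 ≤ M ∧ ∀ x, ‖F x‖ ≤ M := by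
  obtain ⟨M, hM⟩ := h.2.exists_bound_of_continuous h.1
  exact ⟨M, (norm_nonneg _).trans (hM 0), hM⟩

theorem cl_coe {F : E3 → E3} (hF : CC F) : (cl Ω F : E3 → E3) =ᵐ[volume.restrict Ω] F := by
  have h : MemLp F 2 (volume.restrict Ω) := hF.memLp
  unfold cl
  rw [dif_pos h]
  exact MemLp.coeFn_toLp _

theorem cl_add {F G : E3 → E3} (hF : CC F) (hG : CC G) :
    cl Ω (fun x => F x + G x) = cl Ω F + cl Ω G := by
  apply Lp.ext
  filter_upwards [cl_coe hF, cl_coe hG, cl_coe (hF.add hG), Lp.coeFn_add (cl Ω F) (cl Ω G)]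
    with x h1 h2 h3 h4
  have h3' : cl Ω (fun x => F x + G x) x = F x + G x := h3
  rw [h3', h4, Pi.add_apply, h1, h2]

theorem cl_smul {F : E3 → E3} (c : ℝ) (hF : CC F) :
    cl Ω (fun x => c • F x) = c • cl Ω F := by
  apply Lp.ext
  filter_upwards [cl_coe hF, cl_coe (CC.smul (f := fun _ => c) continuous_const hF),
    Lp.coeFn_smul c (cl Ω F)] with x h1 h2 h3
  have h2' : cl Ω (fun x => c • F x) x = c • F x := h2
  rw [h2', h3, Pi.smul_apply, h1]

/-- the constant of the inclusion of bounded functions -/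
noncomputable def kap (Ω : Set E3) : ℝ :=
  (measureUnivNNReal (volume.restrict Ω) : ℝ) ^ ((2 : ℝ≥0∞).toReal)⁻¹

theorem kap_nonneg : 0 ≤ kap Ω := by unfold kap; positivity

theorem cl_norm_le (hb : Bornology.IsBounded Ω) {F : E3 → E3} (hF : CC F)
    {A : ℝ} (hA : 0 ≤ A) (h : ∀ x, ‖F x‖ ≤ A) : ‖cl Ω F‖ ≤ kap Ω * A := by
  have hfin : IsFiniteMeasure (volume.restrict Ω : Measure E3) := by
    rw [isFiniteMeasure_restrict]
    exact hb.measure_lt_top.ne
  refine Lp.norm_le_of_ae_bound hA ?_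
  filter_upwards [cl_coe hF] with x hx
  rw [hx]
  exact h x

/-- bounded fields: the trivial estimate -/
theorem inner_le (hb : Bornology.IsBounded Ω) {C : ℝ} (_hC : 0 < C)
    (hP : ∀ p ∈ graphW Ω, ‖p.1‖ ≤ C * ‖p.2‖) {F : E3 → E3} (hF : CC F) {A : ℝ} (hA : 0 ≤ A)
    (h : ∀ x, ‖F x‖ ≤ A) {q : L2V Ω × L2M Ω} (hq : q ∈ graphW Ω) :
    |⟪cl Ω F, q.1⟫_ℝ| ≤ kap Ω * C * A * ‖q.2‖ := by
  refine (abs_real_inner_le_norm _ _).trans ?_
  calc ‖cl Ω F‖ * ‖q.1‖ ≤ (kap Ω * A) * (C * ‖q.2‖) :=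
        mul_le_mul (cl_norm_le hb hF hA h) (hP q hq) (norm_nonneg _)
          (mul_nonneg kap_nonneg hA)
    _ = _ := by ring

/-! ### cross products -/

theorem cr_smul_left (c : ℝ) (a b : E3) : cr (c • a) b = c • cr a b := by
  ext i
  simp [cr]
  ring

theorem cr_smul_right (c : ℝ) (a b : E3) : cr a (c • b) = c • cr a b := by
  ext i
  simp [cr]
  ring

theorem cr_add_right (a b c : E3) : cr a (b + c) = cr a b + cr a c := by
  ext i
  simp [cr]
  ring

theorem cr_zero_right (a : E3) : cr a 0 = 0 := by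
  ext i
  simp [cr]

theorem cr_contDiff {n : WithTop ℕ∞} {F : E3 → E3} (a : E3) (hF : ContDiff ℝ n F) :
    ContDiff ℝ n fun x => cr a (F x) := by
  rw [contDiff_euclidean] at hF ⊢
  intro i
  change ContDiff ℝ n fun x => a (i + 1) * F x (i + 2) - a (i + 2) * F x (i + 1)
  exact (contDiff_const.mul (hF _)).sub (contDiff_const.mul (hF _))

theorem cr_cont {F : E3 → E3} (a : E3) (hF : Continuous F) :
    Continuous fun x => cr a (F x) := by
  have := cr_contDiff (n := 0) a (contDiff_zero.2 hF)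
  exact contDiff_zero.1 this

theorem cr_supp {F : E3 → E3} (a : E3) (hF : HasCompactSupport F) :
    HasCompactSupport fun x => cr a (F x) :=
  hF.comp_left (g := fun b => cr a b) (cr_zero_right a)

theorem CC.cr {F : E3 → E3} (a : E3) (hF : CC F) : CC fun x => cr a (F x) :=
  ⟨cr_cont a hF.1, cr_supp a hF.2⟩

theorem gw_eq (N : ℝ) (j : Fin 3) (x : E3) :
    gw 1 N j x = (N * Real.cos (N * x j)) • EuclideanSpace.single j (1 : ℝ) := by
  rw [gw, one_mul]

end Pool.Agent.T2h23.GY.U2
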