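import Pool.Agent.T2h23.GY.Stm
import Pool.Agent.T2h23.O3
import Pool.Agent.T2h23.O1
import Pool.Agent.T2h23.A1

/-!
Project GY: tools for the tasks V1 to V4 (helper47).
-/

set_option autoImplicit false
set_option linter.all false

open MeasureTheory Set Filter Topology
open scoped InnerProductSpace ENNReal

namespace Pool.Agent.T2h23.GY.V0

open H772R2.NSR (Frame prim_cont prim_shift ae_deriv_of_prim memLp_ii)
open H772R2.NSG (ii_of_int int_inner mem_cont)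
open Pool.Agent.W795.TQ (Str FH Univ)
open Pool.Agent.W795.ES (Tri)
open Pool.Agent.W790.TQ (sq_prim)
open Pool.Agent.W918.ES (gronL1)

section
variable {Y : Type} [NormedAddCommGroup Y] [InnerProductSpace ℝ Y] [CompleteSpace Y]

/-- product with a smooth function -/
theorem fh_smul {T : ℝ} (hT : 0 < T) {w w1 : ℝ → Y} (h : FH T w w1) {ρ ρ1 : ℝ → ℝ}
    (hρ : ∀ t, HasDerivAt ρ (ρ1 t) t) (hρ1 : Continuous ρ1) :
    FH T (fun t => ρ t • w t) (fun t => ρ1 t • w t + ρ t • w1 t) := by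
  have hρc : Continuous ρ := continuous_iff_continuousAt.2 fun t => (hρ t).continuousAt
  obtain ⟨L1, hL1⟩ := isCompact_Icc.exists_bound_of_continuousOn (s := Icc (0 : ℝ) T) hρ1.continuousOn
  obtain ⟨L2, hL2⟩ := isCompact_Icc.exists_bound_of_continuousOn (s := Icc (0 : ℝ) T) hρc.continuousOn
  set L : ℝ := |L1| + |L2| with hL
  have hL0 : 0 ≤ L := by positivity
  have h1 : SH T (fun t => ρ t • w t) := by
    refine (SH.of_FH h).smul hL0 (fun a ha b hb => ?_) fun a ha => ?_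
    · have := (convex_Icc (0 : ℝ) T).norm_image_sub_le_of_norm_hasDerivWithin_le (C := L)
        (f := ρ) (f' := ρ1) (fun x _ => (hρ x).hasDerivWithinAt)
        (fun x hx => (hL1 x hx).trans ((le_abs_self L1).trans (by
          rw [hL]; linarith [abs_nonneg L2]))) ha hb
      simpa [Real.norm_eq_abs] using this
    · have := hL2 a ha
      rw [Real.norm_eq_abs] at this
      exact this.trans ((le_abs_self L2).trans (by rw [hL]; linarith [abs_nonneg L1]))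
  refine h1.fh hT ?_
  filter_upwards [ae_deriv_of_prim hT (memLp_ii hT.le h.memLp) h.prim] with s hs
  have h2 := (hρ s).smul hs
  rw [add_comm] at h2
  exact h2

end

/-- Gronwall's inequality with a monotone right-hand side -/
theorem gron {T b : ℝ} (hb : 0 ≤ b) {y k : ℝ → ℝ} (hy : ContinuousOn y (Icc 0 T))
    (hk : ∀ s t, 0 ≤ s → s ≤ t → t ≤ T → k s ≤ k t)
    (h : ∀ t ∈ Icc 0 T, y t ≤ k t + ∫ s in (0 : ℝ)..t, b * y s) :
    ∀ t ∈ Icc 0 T, y t ≤ k t * Real.exp (b * t) := by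
  intro t ht
  have h1 := gronL1 (a := 0) (b := t) (y := y) (β := fun _ => b) (k := k t) ht.1
    (hy.mono (Icc_subset_Icc_right ht.2)) intervalIntegrable_const (fun _ => hb) (by
      intro r hr
      exact (h r ⟨hr.1, hr.2.trans ht.2⟩).trans (add_le_add (hk r t hr.1 hr.2 ht.2) le_rfl))
  rwa [intervalIntegral.integral_const, sub_zero, smul_eq_mul, mul_comm t b] at h1

theorem ae_shift {T h : ℝ} (hh : 0 < h) {P : ℝ → Prop}
    (hP : ∀ᵐ s ∂(volume.restrict (Ioc 0 T)), P s) :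
    ∀ᵐ t ∂(volume.restrict (Ioc 0 (T - h))), P (t + h) := by
  rw [ae_restrict_iff' measurableSet_Ioc] at hP ⊢
  have h1 := (measurePreserving_add_right volume h).quasiMeasurePreserving.ae hP
  filter_upwards [h1] with t ht hts
  exact ht ⟨by linarith [hts.1], by linarith [hts.2]⟩

section
variable {H K : Type} [NormedAddCommGroup H] [InnerProductSpace ℝ H]
  [NormedAddCommGroup K] [InnerProductSpace ℝ K] {W : Submodule ℝ (H × K)} {m : H → K}
  {B : H → H → K}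

theorem m_smul (hB : Tri W m B) {p : H × K} (hp : p ∈ W) (a : ℝ) :
    m (a • p.1) = a ^ 2 • m p.1 := by
  have h0 : (0 : H × K) ∈ W := W.zero_mem
  have hap := W.smul_mem a hp
  have l0 : ∀ r ∈ W, B 0 r.1 = 0 := by
    intro r hr
    have := hB.linl 0 h0 0 h0 r hr 1
    simp only [Prod.fst_zero, smul_zero, add_zero, one_smul] at this
    exact left_eq_add.1 this
  have r0 : ∀ r ∈ W, B r.1 0 = 0 := by
    intro r hr
    have := hB.linr 0 h0 0 h0 r hr 1
    simp only [Prod.fst_zero, smul_zero, add_zero, one_smul] at this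
    exact left_eq_add.1 this
  have e1 := hB.diag _ hap
  have e2 := hB.linl 0 h0 p hp _ hap a
  have e3 := hB.linr 0 h0 p hp p hp a
  rw [Prod.fst_zero, zero_add, l0 _ hap, zero_add] at e2
  rw [Prod.fst_zero, zero_add, r0 _ hp, zero_add, hB.diag p hp] at e3
  rw [Prod.smul_fst] at e1 e2
  rw [← e1, e2, e3, smul_smul, sq]

end

/-- Young's inequality -/
theorem young {ν c X Y Z : ℝ} (hν : 0 < ν) (hX : 0 ≤ X) (hY : 0 ≤ Y) :
    c * (Real.sqrt X * Real.sqrt Y ^ 3) * Z ≤ ν / 8 * Y ^ 2 + 64 * c ^ 4 / ν ^ 3 * (Z ^ 4 * X ^ 2) := by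
  obtain ⟨x, hx⟩ : ∃ x, x = Real.sqrt X := ⟨_, rfl⟩
  obtain ⟨y, hy⟩ : ∃ y, y = Real.sqrt Y := ⟨_, rfl⟩
  have hx2 : X = x ^ 2 := by rw [hx, Real.sq_sqrt hX]
  have hy2 : Y = y ^ 2 := by rw [hy, Real.sq_sqrt hY]
  rw [← hx, ← hy, hx2, hy2]
  have h1 : c * (x * y ^ 3) * Z ≤ ν / 16 * y ^ 4 + 4 / ν * (c * Z * x * y) ^ 2 := by
    have h2 : 0 ≤ (ν / 8 * y ^ 2 - c * Z * x * y) ^ 2 * (4 / ν) := by positivity
    have e : (ν / 8 * y ^ 2 - c * Z * x * y) ^ 2 * (4 / ν) =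
        ν / 16 * y ^ 4 + 4 / ν * (c * Z * x * y) ^ 2 - c * (x * y ^ 3) * Z := by
      field_simp
      ring
    linarith
  have h3 : 4 / ν * (c * Z * x * y) ^ 2 ≤ ν / 16 * y ^ 4 + 64 * c ^ 4 / ν ^ 3 * (Z ^ 4 * x ^ 4) := by
    have h2 : 0 ≤ (ν / 8 * y ^ 2 - 4 / ν * (c * Z * x) ^ 2) ^ 2 * (4 / ν) := by positivity
    have e : (ν / 8 * y ^ 2 - 4 / ν * (c * Z * x) ^ 2) ^ 2 * (4 / ν) =
        ν / 16 * y ^ 4 + 64 * c ^ 4 / ν ^ 3 * (Z ^ 4 * x ^ 4) - 4 / ν * (c * Z * x * y) ^ 2 := by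
      field_simp
      ring
    linarith
  have e1 : (y ^ 2) ^ 2 = y ^ 4 := by ring
  have e2 : (x ^ 2) ^ 2 = x ^ 4 := by ring
  rw [e1, e2]
  linarith

theorem young2 {ν a Y : ℝ} (hν : 0 < ν) : a * Y ≤ ν / 8 * Y ^ 2 + 2 / ν * a ^ 2 := by
  have h2 : 0 ≤ (ν / 4 * Y - a) ^ 2 * (2 / ν) := by positivity
  have e : (ν / 4 * Y - a) ^ 2 * (2 / ν) = ν / 8 * Y ^ 2 + 2 / ν * a ^ 2 - a * Y := by
    field_simp
    ring
  linarith

end Pool.Agent.T2h23.GY.V0
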